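import Pool.Agent.NH39.T1
import Pool.Agent.W424.NC.Win

/-! Off-critical decay of the four-arm event of an annulus. -/

set_option autoImplicit false

namespace Pool.Agent.NH39

open H974 H12S H389NS Finset

theorem A4a_crs {d m : ℕ} (hdm : d < m) {F : Finset Edg} (h : A4a (0, 0) d (3 * m) (↑F : Set Edg)) :
    (LRc m (3 * m) (-(3 * m)) (3 * m) F ∨ LRc (-(3 * m)) (-m) (-(3 * m)) (3 * m) F) ∨
      (TBc (-(3 * m)) (3 * m) m (3 * m) F ∨ TBc (-(3 * m)) (3 * m) (-(3 * m)) (-m) F) := by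
  obtain ⟨u, hu, -, -, ⟨w, hw, hr⟩, -, -⟩ := h
  obtain ⟨hu1, hu2, -⟩ := hu
  obtain ⟨-, -, hw3⟩ := hw
  rw [abs_le] at hu1 hu2
  push_cast at hw3
  simp only [sub_zero] at hu1 hu2 hw3
  have hm : (d:ℤ) < m := by exact_mod_cast hdm
  have hG : ∀ e ∈ (↑F : Set Edg) ∩ ↑(blk (0, 0) (3 * m) \ blk (0, 0) d),
      e ∈ RE (-(3 * m)) (3 * m) (-(3 * m)) (3 * m) := by
    rintro e ⟨-, he⟩
    rw [Finset.mem_coe, Finset.mem_sdiff] at he
    have := he.1
    unfold blk at this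
    simpa using this
  have hsub : ∀ T : Finset Edg, ((↑F : Set Edg) ∩ ↑(blk (0, 0) (3 * m) \ blk (0, 0) d)) ∩ ↑T ⊆
      (↑F : Set Edg) ∩ ↑T := by
    rintro T e ⟨⟨h1, -⟩, h2⟩
    exact ⟨h1, h2⟩
  rcases hw3 with hw3 | hw3
  · left
    rcases abs_eq (by positivity : (0:ℤ) ≤ 3 * m) |>.1 hw3 with h1 | h1
    · left
      obtain ⟨y1, y2, k1, k2, k3, -⟩ := sub_LR (a := m) (b := 3 * m) (c := -(3 * m)) (d := 3 * m)
        (by omega)
        (by intro x y h _ _; have := hG _ h; rw [mem_RE_true] at this; omega)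
        (by intro x y h _ _; have := hG _ h; rw [mem_RE_false] at this; omega) hr (by omega)
        (by omega)
      exact ⟨y1, y2, k1, k2, k3.mono (hsub _)⟩
    · right
      obtain ⟨y1, y2, k1, k2, k3, -⟩ := sub_LR (a := -(3 * m)) (b := -m) (c := -(3 * m))
        (d := 3 * m) (by omega)
        (by intro x y h _ _; have := hG _ h; rw [mem_RE_true] at this; omega)
        (by intro x y h _ _; have := hG _ h; rw [mem_RE_false] at this; omega) hr.symm (by omega)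
        (by omega)
      exact ⟨y1, y2, k1, k2, k3.mono (hsub _)⟩
  · right
    rcases abs_eq (by positivity : (0:ℤ) ≤ 3 * m) |>.1 hw3 with h1 | h1
    · left
      obtain ⟨y1, y2, k1, k2, k3, -⟩ := sub_TB (a := -(3 * m)) (b := 3 * m) (c := m) (d := 3 * m)
        (by omega)
        (by intro x y h _ _; have := hG _ h; rw [mem_RE_false] at this; omega)
        (by intro x y h _ _; have := hG _ h; rw [mem_RE_true] at this; omega) hr (by omega)
        (by omega)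
      exact ⟨y1, y2, k1, k2, k3.mono (hsub _)⟩
    · right
      obtain ⟨y1, y2, k1, k2, k3, -⟩ := sub_TB (a := -(3 * m)) (b := 3 * m) (c := -(3 * m))
        (d := -m) (by omega)
        (by intro x y h _ _; have := hG _ h; rw [mem_RE_false] at this; omega)
        (by intro x y h _ _; have := hG _ h; rw [mem_RE_true] at this; omega) hr.symm (by omega)
        (by omega)
      exact ⟨y1, y2, k1, k2, k3.mono (hsub _)⟩

theorem A4a_ncirc {d m : ℕ} (hdm : d < m) {F : Finset Edg}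
    (h : A4a (0, 0) d (3 * m) (↑F : Set Edg)) : ¬ Circ m (3 * m : ℕ) F := by
  intro hc
  obtain ⟨u, hu, u', hu', ⟨w, hw, hr⟩, ⟨w', hw', hr'⟩, hn⟩ := h
  have hm : (d:ℤ) < m := by exact_mod_cast hdm
  obtain ⟨G, hG⟩ : ∃ G : Finset Edg, G = F ∩ (blk (0, 0) (3 * m) \ blk (0, 0) d) := ⟨_, rfl⟩
  have hGF : (↑F : Set Edg) ∩ ↑(blk (0, 0) (3 * m) \ blk (0, 0) d) = ↑G := by
    rw [hG, Finset.coe_inter]
  rw [hGF] at hr hr' hn
  have hGbox : (↑G : Set Edg) ∩ ↑(RE (-((3 * m : ℕ):ℤ)) ((3 * m : ℕ):ℤ) (-((3 * m : ℕ):ℤ))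
      ((3 * m : ℕ):ℤ)) = ↑G := by
    ext e
    constructor
    · rintro ⟨h1, -⟩; exact h1
    · intro h1
      refine ⟨h1, ?_⟩
      rw [hG, Finset.mem_coe, Finset.mem_inter, Finset.mem_sdiff] at h1
      have := h1.2.1
      unfold blk at this
      simpa using this
  have hcG : Circ m (3 * m : ℕ) G := by
    have key : ∀ T : Finset Edg, (∀ e ∈ T, e ∈ blk (0, 0) (3 * m) ∧ e ∉ blk (0, 0) d) →
        (↑F : Set Edg) ∩ ↑T = (↑G : Set Edg) ∩ ↑T := by
      intro T hT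
      ext e
      constructor
      · rintro ⟨h1, h2⟩
        refine ⟨?_, h2⟩
        rw [hG, Finset.mem_coe, Finset.mem_inter, Finset.mem_sdiff]
        exact ⟨h1, hT e h2⟩
      · rintro ⟨h1, h2⟩
        rw [hG, Finset.mem_coe, Finset.mem_inter] at h1
        exact ⟨h1.1, h2⟩
    have k1 : (↑F : Set Edg) ∩ ↑(LRE (-((3 * m : ℕ):ℤ)) ((3 * m : ℕ):ℤ) m ((3 * m : ℕ):ℤ)) =
        (↑G : Set Edg) ∩ ↑(LRE (-((3 * m : ℕ):ℤ)) ((3 * m : ℕ):ℤ) m ((3 * m : ℕ):ℤ)) := by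
      apply key
      rintro ⟨x, y, _ | _⟩ he
      · rw [mem_LRE_false] at he
        unfold blk
        rw [mem_RE_false, mem_RE_false]
        push_cast at he ⊢
        omega
      · rw [mem_LRE_true] at he
        unfold blk
        rw [mem_RE_true, mem_RE_true]
        push_cast at he ⊢
        omega
    have k2 : (↑F : Set Edg) ∩ ↑(LRE (-((3 * m : ℕ):ℤ)) ((3 * m : ℕ):ℤ) (-((3 * m : ℕ):ℤ)) (-m)) =
        (↑G : Set Edg) ∩ ↑(LRE (-((3 * m : ℕ):ℤ)) ((3 * m : ℕ):ℤ) (-((3 * m : ℕ):ℤ)) (-m)) := by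
      apply key
      rintro ⟨x, y, _ | _⟩ he
      · rw [mem_LRE_false] at he
        unfold blk
        rw [mem_RE_false, mem_RE_false]
        push_cast at he ⊢
        omega
      · rw [mem_LRE_true] at he
        unfold blk
        rw [mem_RE_true, mem_RE_true]
        push_cast at he ⊢
        omega
    have k3 : (↑F : Set Edg) ∩ ↑(TBE m ((3 * m : ℕ):ℤ) (-((3 * m : ℕ):ℤ)) ((3 * m : ℕ):ℤ)) =
        (↑G : Set Edg) ∩ ↑(TBE m ((3 * m : ℕ):ℤ) (-((3 * m : ℕ):ℤ)) ((3 * m : ℕ):ℤ)) := by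
      apply key
      rintro ⟨x, y, _ | _⟩ he
      · rw [mem_TBE_false] at he
        unfold blk
        rw [mem_RE_false, mem_RE_false]
        push_cast at he ⊢
        omega
      · rw [mem_TBE_true] at he
        unfold blk
        rw [mem_RE_true, mem_RE_true]
        push_cast at he ⊢
        omega
    have k4 : (↑F : Set Edg) ∩ ↑(TBE (-((3 * m : ℕ):ℤ)) (-m) (-((3 * m : ℕ):ℤ)) ((3 * m : ℕ):ℤ)) =
        (↑G : Set Edg) ∩ ↑(TBE (-((3 * m : ℕ):ℤ)) (-m) (-((3 * m : ℕ):ℤ)) ((3 * m : ℕ):ℤ)) := by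
      apply key
      rintro ⟨x, y, _ | _⟩ he
      · rw [mem_TBE_false] at he
        unfold blk
        rw [mem_RE_false, mem_RE_false]
        push_cast at he ⊢
        omega
      · rw [mem_TBE_true] at he
        unfold blk
        rw [mem_RE_true, mem_RE_true]
        push_cast at he ⊢
        omega
    unfold Circ LRc TBc at hc ⊢
    rw [k1, k2, k3, k4] at hc
    exact hc
  obtain ⟨z, hz⟩ := circ_meet (by positivity) (by push_cast; omega) hcG
  have hu1 : inR (-(m:ℤ)) m (-m) m u := by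
    obtain ⟨h1, h2, -⟩ := hu
    rw [abs_le] at h1 h2
    unfold inR
    simp only [sub_zero] at h1 h2
    omega
  have hu1' : inR (-(m:ℤ)) m (-m) m u' := by
    obtain ⟨h1, h2, -⟩ := hu'
    rw [abs_le] at h1 h2
    unfold inR
    simp only [sub_zero] at h1 h2
    omega
  have hw1 : ∀ w : Vtx, w ∈ bdB (0, 0) (3 * m) → (w.1 = -((3 * m : ℕ):ℤ) ∨ w.1 = ((3 * m : ℕ):ℤ) ∨
      w.2 = -((3 * m : ℕ):ℤ) ∨ w.2 = ((3 * m : ℕ):ℤ)) := by
    rintro w ⟨-, -, h3⟩
    simp only [sub_zero] at h3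
    rcases h3 with h3 | h3
    · rcases abs_eq (by positivity : (0:ℤ) ≤ ((3 * m : ℕ):ℤ)) |>.1 h3 with h1 | h1
      · exact Or.inr (Or.inl h1)
      · exact Or.inl h1
    · rcases abs_eq (by positivity : (0:ℤ) ≤ ((3 * m : ℕ):ℤ)) |>.1 h3 with h1 | h1
      · exact Or.inr (Or.inr (Or.inr h1))
      · exact Or.inr (Or.inr (Or.inl h1))
  have g1 := hz u w hu1 (hw1 w hw) (by rw [hGbox]; exact hr)
  have g2 := hz u' w' hu1' (hw1 w' hw') (by rw [hGbox]; exact hr')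
  rw [hGbox] at g1 g2
  exact hn (g1.trans g2.symm)

theorem pr_A4a_crs {q : ℝ} (h0 : 0 ≤ q) (h1 : q ≤ 1) {d m : ℕ} (hdm : d < m) :
    PQ q (boxE (3 * m)) (fun F => A4a (0, 0) d (3 * m) ↑F) ≤ 4 * hh q (2 * m : ℕ) (6 * m : ℕ) := by
  have ok := okq h0 h1
  have s0 : boxE (3 * m) = RE (-(3 * m : ℤ)) (3 * m) (-(3 * m)) (3 * m) := by
    unfold boxE; push_cast; rfl
  have hmz : (0:ℤ) ≤ m := by positivity
  have s1 : LRE (m:ℤ) (3 * m) (-(3 * m)) (3 * m) ⊆ boxE (3 * m) := by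
    rw [s0]; exact LRE_subset_RE.trans (RE_subset (by omega) le_rfl le_rfl le_rfl)
  have s2 : LRE (-(3 * m : ℤ)) (-m) (-(3 * m)) (3 * m) ⊆ boxE (3 * m) := by
    rw [s0]; exact LRE_subset_RE.trans (RE_subset le_rfl (by omega) le_rfl le_rfl)
  have s3 : TBE (-(3 * m : ℤ)) (3 * m) m (3 * m) ⊆ boxE (3 * m) := by
    rw [s0]; exact TBE_subset_RE.trans (RE_subset le_rfl le_rfl (by omega) le_rfl)
  have s4 : TBE (-(3 * m : ℤ)) (3 * m) (-(3 * m)) (-m) ⊆ boxE (3 * m) := by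
    rw [s0]; exact TBE_subset_RE.trans (RE_subset le_rfl le_rfl le_rfl (by omega))
  have e1 := pr_LRc q s1
  have e2 := pr_LRc q s2
  have e3 := pr_TBc q s3
  have e4 := pr_TBc q s4
  have c1 : ((2 * m : ℕ) : ℤ) = 3 * m - m := by push_cast; ring
  have c2 : ((6 * m : ℕ) : ℤ) = 3 * m - (-(3 * m)) := by push_cast; ring
  have c3 : ((2 * m : ℕ) : ℤ) = -m - (-(3 * m)) := by push_cast; ring
  rw [← c1, ← c2] at e1 e3
  rw [← c3, ← c2] at e2 e4
  refine (Pr_mono ok (fun F _ h => A4a_crs hdm h)).trans ?_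
  refine (Pr_or_le ok _ _ _).trans ?_
  have i1 := Pr_or_le ok (boxE (3 * m)) (LRc m (3 * m) (-(3 * m)) (3 * m))
    (LRc (-(3 * m)) (-m) (-(3 * m)) (3 * m))
  have i2 := Pr_or_le ok (boxE (3 * m)) (TBc (-(3 * m)) (3 * m) m (3 * m))
    (TBc (-(3 * m)) (3 * m) (-(3 * m)) (-m))
  linarith

theorem pr_A4a_circ {q : ℝ} (h0 : 0 ≤ q) (h1 : q ≤ 1) {d m : ℕ} (hdm : d < m) :
    PQ q (boxE (3 * m)) (fun F => A4a (0, 0) d (3 * m) ↑F) ≤
      4 * (1 - hh q (6 * m : ℕ) (2 * m : ℕ)) := by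
  have ok := okq h0 h1
  have i1 : PQ q (boxE (3 * m)) (fun F => A4a (0, 0) d (3 * m) ↑F) ≤
      Pr (fun _ => q) (boxE (3 * m)) (fun F => ¬ Circ m (3 * m : ℕ) F) :=
    Pr_mono ok (fun F _ h => A4a_ncirc hdm h)
  rw [Pr_not] at i1
  have i2 := pr_Circ h0 h1 (R1 := (m:ℤ)) (R2 := ((3 * m : ℕ):ℤ)) (S := boxE (3 * m))
    (by positivity) (by push_cast; omega) (Finset.Subset.refl _)
  have c1 : 2 * (((3 * m : ℕ)) : ℤ) = (6 * m : ℕ) := by push_cast; ring
  have c2 : (((3 * m : ℕ)) : ℤ) - m = (2 * m : ℕ) := by push_cast; ring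
  rw [c1, c2] at i2
  have hn := hh_nonneg h0 h1 (6 * m : ℕ) (2 * m : ℕ)
  have hl := hh_le_one h0 h1 (6 * m : ℕ) (2 * m : ℕ)
  have i3 : 1 - (hh q (6 * m : ℕ) (2 * m : ℕ)) ^ 4 ≤ 4 * (1 - hh q (6 * m : ℕ) (2 * m : ℕ)) := by
    generalize hh q (6 * m : ℕ) (2 * m : ℕ) = x at hn hl
    have : (1 - x) * (1 + x + x ^ 2 + x ^ 3) ≤ (1 - x) * 4 := by
      apply mul_le_mul_of_nonneg_left _ (by linarith)
      have a1 : x ^ 2 ≤ 1 := pow_le_one₀ hn hl
      have a2 : x ^ 3 ≤ 1 := pow_le_one₀ hn hl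
      linarith
    nlinarith
  linarith

/-- Off-critical decay of the annulus event. -/
theorem dec_A4a : ∃ c C : ℝ, 0 < c ∧ 0 < C ∧ ∀ q : ℝ, 1/4 ≤ q → q ≤ 3/4 →
    ∀ (c0 : ℤ × ℤ) (d m : ℕ), d < m → ∀ S : Finset Edg, blk c0 (3 * m) ⊆ S →
      PQ q S (fun F => A4a c0 d (3 * m) ↑F) ≤
        C * Real.exp (-(c * (m * |q - 1/2| ^ (4/3 : ℝ)))) := by
  obtain ⟨c1, C1, hc1, hC1, h1⟩ := Pool.Agent.W424.NC.win_upper 3 (by norm_num)
  obtain ⟨c2, C2, hc2, hC2, h2⟩ := Pool.Agent.W424.NC.win_upper_dual 3 (by norm_num)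
  refine ⟨min c1 c2, 4 * max C1 C2, lt_min hc1 hc2, by positivity, ?_⟩
  intro q hq0 hq1 c0 d m hdm S hS
  have hm1 : 1 ≤ m := by omega
  have q0 : 0 ≤ q := by linarith
  have q1 : q ≤ 1 := by linarith
  have hmr : (0:ℝ) ≤ m := by positivity
  refine (NC.le_hQ (okq q0 q1) hS).trans ?_
  change PQ q (boxE (3 * m)) (fun F => A4a (0, 0) d (3 * m) ↑F) ≤ _
  rcases le_total q (1/2) with hq | hq
  · have e1 : |q - 1/2| = 1/2 - q := by rw [abs_of_nonpos (by linarith)]; ring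
    rw [e1]
    have i1 := pr_A4a_crs q0 q1 hdm
    have i2 := h1 q q0 hq (2 * m) (6 * m) (by omega) (by omega) (by omega)
    obtain ⟨H, hH⟩ : ∃ H : ℝ, H = (1/2 - q) ^ (4/3 : ℝ) := ⟨_, rfl⟩
    have hH0 : 0 ≤ H := by rw [hH]; exact Real.rpow_nonneg (by linarith) _
    rw [← hH] at i2 ⊢
    have i3 : Real.exp (-(c1 * (((2 * m : ℕ):ℝ) * H))) ≤ Real.exp (-(min c1 c2 * (m * H))) := by
      apply Real.exp_le_exp.2
      have a1 : min c1 c2 * (m * H) ≤ c1 * (m * H) :=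
        mul_le_mul_of_nonneg_right (min_le_left _ _) (by positivity)
      have a2 : c1 * (m * H) ≤ c1 * (((2 * m : ℕ):ℝ) * H) := by
        push_cast
        have : 0 ≤ c1 * (m * H) := by positivity
        linarith
      linarith
    have i4 : C1 * Real.exp (-(c1 * (((2 * m : ℕ):ℝ) * H))) ≤
        max C1 C2 * Real.exp (-(min c1 c2 * (m * H))) :=
      mul_le_mul (le_max_left _ _) i3 (Real.exp_pos _).le (by positivity)
    push_cast at i1 i2 i4 ⊢
    linarith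
  · have e1 : |q - 1/2| = 1/2 - (1 - q) := by rw [abs_of_nonneg (by linarith)]; ring
    rw [e1]
    have i1 := pr_A4a_circ q0 q1 hdm
    have i2 := h2 (1 - q) (by linarith) (by linarith) (6 * m) (2 * m) (by omega) (by omega)
      (by omega) (by omega)
    obtain ⟨H, hH⟩ : ∃ H : ℝ, H = (1/2 - (1 - q)) ^ (4/3 : ℝ) := ⟨_, rfl⟩
    have hH0 : 0 ≤ H := by rw [hH]; exact Real.rpow_nonneg (by linarith) _
    have e2 : (1:ℝ) - (1 - q) = q := by ring
    rw [e2, ← hH] at i2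
    rw [← hH]
    have i3 : Real.exp (-(c2 * (((6 * m : ℕ):ℝ) * H))) ≤ Real.exp (-(min c1 c2 * (m * H))) := by
      apply Real.exp_le_exp.2
      have a1 : min c1 c2 * (m * H) ≤ c2 * (m * H) :=
        mul_le_mul_of_nonneg_right (min_le_right _ _) (by positivity)
      have a2 : c2 * (m * H) ≤ c2 * (((6 * m : ℕ):ℝ) * H) := by
        push_cast
        have : 0 ≤ c2 * (m * H) := by positivity
        linarith
      linarith
    have i4 : C2 * Real.exp (-(c2 * (((6 * m : ℕ):ℝ) * H))) ≤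
        max C1 C2 * Real.exp (-(min c1 c2 * (m * H))) :=
      mul_le_mul (le_max_right _ _) i3 (Real.exp_pos _).le (by positivity)
    push_cast at i1 i2 i4 ⊢
    linarith

end Pool.Agent.NH39
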