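import Pool.Agent.H362P.Base
import Pool.Agent.W424.NC.Stab
import Pool.Agent.NH39.T2

/-! Near-critical arms: decoupling the neighbourhood of a point. -/

set_option autoImplicit false

namespace Pool.Agent.NH39.CV

open Finset H974 Pool.Agent.H160R2.CV Pool.Agent.H160R2.CV.Quad H362P
open H12S (Win)

/-- The near-critical context at scale `n`. -/
structure NC (q κ a A : ℝ) (n : ℕ) : Prop where
  win : Win q κ n
  lo : ∀ k : ℕ, 1 ≤ k → k ≤ n → a * (k:ℝ) ^ (-(5/48) : ℝ) ≤ arm q k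
  hi : ∀ k : ℕ, 1 ≤ k → k ≤ n → arm q k ≤ A * (k:ℝ) ^ (-(5/48) : ℝ)

theorem nearA : ∃ κ b a A : ℝ, 0 < κ ∧ 0 < b ∧ 0 < a ∧ 0 < A ∧ ∀ n : ℕ, 1 ≤ n → ∀ q : ℝ,
    |q - 1/2| ≤ b * (n:ℝ) ^ (-(3/4) : ℝ) → NC q κ a A n := by
  obtain ⟨κ, b, hκ, hb, hS⟩ := Pool.Agent.W424.NC.armS
  obtain ⟨c, C, hc, hC, hcr⟩ := Pool.Agent.W424.NC.arm_crit
  refine ⟨κ, b, c / 3, 3 * C, hκ, hb, by positivity, by positivity, ?_⟩
  intro n hn q hq
  have hsub : ∀ k : ℕ, 1 ≤ k → k ≤ n → |q - 1/2| ≤ b * (k:ℝ) ^ (-(3/4) : ℝ) := by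
    intro k hk hkn
    refine hq.trans (mul_le_mul_of_nonneg_left ?_ hb.le)
    exact Real.rpow_le_rpow_of_nonpos (by exact_mod_cast hk) (by exact_mod_cast hkn) (by norm_num)
  refine ⟨(hS n hn q hq).1, ?_, ?_⟩
  · intro k hk hkn
    have h1 := (hS k hk q (hsub k hk hkn)).2.2
    have h2 := (hcr k hk).1
    linarith
  · intro k hk hkn
    have h1 := (hS k hk q (hsub k hk hkn)).2.1
    have h2 := (hcr k hk).2
    linarith

theorem NC.anti {q κ a A : ℝ} {n m : ℕ} (h : NC q κ a A n) (hm : m ≤ n) : NC q κ a A m :=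
  ⟨h.win.anti hm, fun k h1 h2 => h.lo k h1 (h2.trans hm), fun k h1 h2 => h.hi k h1 (h2.trans hm)⟩

theorem NC.q0 {q κ a A : ℝ} {n : ℕ} (h : NC q κ a A n) : 0 ≤ q := by linarith [h.win.lo]
theorem NC.q1 {q κ a A : ℝ} {n : ℕ} (h : NC q κ a A n) : q ≤ 1 := by linarith [h.win.hi]
theorem NC.ok {q κ a A : ℝ} {n : ℕ} (h : NC q κ a A n) : Ok (fun _ : Edg => q) := okq h.q0 h.q1

theorem pr_le_loc_q {q : ℝ} (ok : Ok (fun _ : Edg => q)) (S T : Finset Edg)
    {A : Finset Edg → Prop} (hA : IncA A) (hT : LocE T A) :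
    Pr (fun _ => q) S A ≤ Pr (fun _ => q) T A := by
  have s2 : Pr (fun _ => q) S A ≤ Pr (fun _ => q) (S ∪ T) A :=
    Pr_mono_set ok Finset.subset_union_left (fun F G h _ => hA F G h)
  have s3 : Pr (fun _ => q) (S ∪ T) A = Pr (fun _ => q) T A :=
    Pr_local Finset.subset_union_right (fun F _ => hT F)
  linarith

/-- two increasing events on disjoint sets of edges -/
theorem indep2_q {q : ℝ} (ok : Ok (fun _ : Edg => q)) (S S1 S2 : Finset Edg)
    (hd : Disjoint S1 S2) {A B : Finset Edg → Prop}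
    (hA : IncA A) (hB : IncA B) (hA' : LocE S1 A) (hB' : LocE S2 B) :
    Pr (fun _ => q) S (fun F => A F ∧ B F) ≤ Pr (fun _ => q) S1 A * Pr (fun _ => q) S2 B := by
  have hi : IncA (fun F => A F ∧ B F) := fun F G h hF => ⟨hA F G h hF.1, hB F G h hF.2⟩
  have hl : LocE (S1 ∪ S2) (fun F => A F ∧ B F) := by
    intro F
    show (A F ∧ B F) ↔ (A (F ∩ (S1 ∪ S2)) ∧ B (F ∩ (S1 ∪ S2)))
    rw [hA' F, hB' F, hA' (F ∩ (S1 ∪ S2)), hB' (F ∩ (S1 ∪ S2))]
    have e1 : F ∩ (S1 ∪ S2) ∩ S1 = F ∩ S1 := by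
      ext e; simp only [Finset.mem_inter, Finset.mem_union]; tauto
    have e2 : F ∩ (S1 ∪ S2) ∩ S2 = F ∩ S2 := by
      ext e; simp only [Finset.mem_inter, Finset.mem_union]; tauto
    rw [e1, e2]
  have h1 := pr_le_loc_q ok S (S1 ∪ S2) hi hl
  have h2 : Pr (fun _ => q) (S1 ∪ S2) (fun F => A F ∧ B F) =
      Pr (fun _ => q) (S1 ∪ S2) A * Pr (fun _ => q) (S1 ∪ S2) B :=
    Pr_indep Finset.subset_union_left Finset.subset_union_right hd (fun F _ => hA' F)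
      (fun F _ => hB' F)
  have h3 : Pr (fun _ => q) (S1 ∪ S2) A = Pr (fun _ => q) S1 A :=
    Pr_local Finset.subset_union_left (fun F _ => hA' F)
  have h4 : Pr (fun _ => q) (S1 ∪ S2) B = Pr (fun _ => q) S2 B :=
    Pr_local Finset.subset_union_right (fun F _ => hB' F)
  rw [h2, h3, h4] at h1
  exact h1

theorem pr_LA_q {q : ℝ} (h0 : 0 ≤ q) (h1 : q ≤ 1) (S : Finset Edg) (v : Vtx) (m : ℕ) :
    Pr (fun _ => q) S (LA v m) ≤ arm q m := by
  refine le_trans (Pr_mono (okq h0 h1) ?_) (arm_bound h0 h1 S v m)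
  rintro F _ ⟨w, -, k2, k3⟩
  exact ⟨w, by omega, k3.mono Set.inter_subset_left⟩

theorem pr_CA_q {q κ a A : ℝ} {n : ℕ} (h : NC q κ a A n) {c : Vtx} {r : ℕ} (hr : 1 ≤ r)
    (hrn : 2 * r ≤ n) {S : Finset Edg} (hS : bo c (3 * r) ⊆ S) :
    κ ^ 4 ≤ Pr (fun _ => q) S (CA c r (3 * r)) := by
  have h0 : Pr (fun _ => q) S (CA c r (3 * r)) =
      Pr (fun _ => q) ((trl (-c.1) (-c.2)).mp S) (Circ r ((3 * r : ℕ) : ℤ)) :=
    (LSym.pr (trl (-c.1) (-c.2)) q S _).symm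
  rw [h0]
  have hr' : (0 : ℤ) < r := by exact_mod_cast hr
  have hsub : boxE (3 * r) ⊆ (trl (-c.1) (-c.2)).mp S := by
    rw [← trl_bo c (3 * r)]
    exact LSym.mp_mono _ hS
  refine le_trans ?_ (pr_Circ h.q0 h.q1 (R1 := r)
      (R2 := ((3 * r : ℕ) : ℤ)) (by positivity) (by push_cast; omega) hsub)
  have k1 := h.win.pri (2 * r) (by omega) hrn
  have k2 : hh q (16 * ((2 * r : ℕ) : ℤ)) ((2 * r : ℕ) : ℤ) ≤
      hh q (2 * ((3 * r : ℕ) : ℤ)) (((3 * r : ℕ) : ℤ) - r) :=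
    hh_mono h.q0 h.q1 (by push_cast; omega) (by push_cast; omega) (by push_cast; omega)
  exact pow_le_pow_left₀ h.win.kpos.le (k1.trans k2) 4

/-- Decoupling the neighbourhood of a point. -/
theorem decouple {q κ a A : ℝ} {n : ℕ} (h : NC q κ a A n) {x : Vtx} {r : ℕ} (hr : 1 ≤ r)
    (hrn : 2 * r ≤ n) {S : Finset Edg} (hS : bo x (3 * r) ⊆ S) {Q : Set Edg → Prop}
    (hmono : ∀ F G, F ⊆ G → Q F → Q G)
    (hun : ∀ F : Finset Edg, CA x r (3 * r) F → Q (↑F ∪ ↑(bo x r)) → Q ↑F) :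
    Pr (fun _ => q) S (fun F => LA x r F ∧ Q ↑F) ≤
      (κ ^ 4)⁻¹ * (arm q r * Pr (fun _ => q) S (fun F => Q ↑F)) := by
  classical
  have ok := h.ok
  have hκ := h.win.kpos
  set B := bo x r with hB
  set S2 := S \ B with hS2
  set E : Finset Edg → Prop := fun F => Q (↑(F ∩ S2) ∪ ↑B) with hE
  have hEi : IncA E := by
    intro F G h hF
    refine hmono _ _ (Set.union_subset_union_left _ ?_) hF
    exact_mod_cast Finset.inter_subset_inter_right h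
  have hEl : LocE S2 E := by
    intro F
    rw [hE]
    simp only [Finset.inter_assoc, Finset.inter_self]
  have hd : Disjoint B S2 := by rw [hS2]; exact Finset.disjoint_sdiff
  have s1 : Pr (fun _ => q) S (fun F => LA x r F ∧ Q ↑F) ≤
      Pr (fun _ => q) S (fun F => LA x r F ∧ E F) := by
    apply Pr_mono ok
    intro F hFS hF
    refine ⟨hF.1, hmono _ _ ?_ hF.2⟩
    intro e he
    by_cases h1 : e ∈ B
    · exact Or.inr (by exact_mod_cast h1)
    · left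
      rw [Finset.mem_coe, Finset.mem_inter, hS2, Finset.mem_sdiff]
      exact ⟨Finset.mem_coe.mp he, hFS (Finset.mem_coe.mp he), h1⟩
  have s2 := indep2_q ok S B S2 hd (LA_inc x r) hEi (LA_loc (Finset.Subset.refl _)) hEl
  have s3 : Pr (fun _ => q) B (LA x r) ≤ arm q r := pr_LA_q h.q0 h.q1 _ _ _
  have s4 : Pr (fun _ => q) S2 E ≤ Pr (fun _ => q) S E :=
    Pr_mono_set ok Finset.sdiff_subset (fun F G h _ => hEi F G h)
  have hcirc : κ ^ 4 ≤ Pr (fun _ => q) S (CA x r (3 * r)) := pr_CA_q h hr hrn hS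
  have s5 : Pr (fun _ => q) S E * Pr (fun _ => q) S (CA x r (3 * r)) ≤
      Pr (fun _ => q) S (fun F => Q ↑F) := by
    refine (Pr_harris ok (fun F G h _ => hEi F G h) (CA_incr S x r (3 * r))).trans ?_
    apply Pr_mono ok
    rintro F _ ⟨h1, h2⟩
    apply hun F h2
    refine hmono _ _ (Set.union_subset_union_left _ ?_) h1
    exact_mod_cast Finset.inter_subset_left
  have p0 : 0 ≤ Pr (fun _ => q) S E := Pr_nonneg ok _ _
  have p1 : 0 ≤ arm q r := arm_nonneg h.q0 h.q1 r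
  have s6 : Pr (fun _ => q) S E ≤ (κ ^ 4)⁻¹ * Pr (fun _ => q) S (fun F => Q ↑F) := by
    have h1 : Pr (fun _ => q) S E * κ ^ 4 ≤ Pr (fun _ => q) S (fun F => Q ↑F) :=
      (mul_le_mul_of_nonneg_left hcirc p0).trans s5
    rw [inv_mul_eq_div, le_div_iff₀ (by positivity)]
    exact h1
  calc Pr (fun _ => q) S (fun F => LA x r F ∧ Q ↑F) ≤
        Pr (fun _ => q) B (LA x r) * Pr (fun _ => q) S2 E := s1.trans s2
    _ ≤ arm q r * ((κ ^ 4)⁻¹ * Pr (fun _ => q) S (fun F => Q ↑F)) :=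
        mul_le_mul s3 (s4.trans s6) (Pr_nonneg ok _ _) p1
    _ = _ := by ring

/-! ### circuits and their sides -/

theorem circ_sides {F : Finset Edg} {R1 R2 : ℤ} (h1 : 0 ≤ R1) (h2 : R1 < R2)
    (h : Circ R1 R2 F) : ∃ z : Vtx, (∀ u v : Vtx, inR (-R1) R1 (-R1) R1 u →
      (v.1 = -R2 ∨ v.1 = R2 ∨ v.2 = -R2 ∨ v.2 = R2) →
      Reach (↑F ∩ ↑(RE (-R2) R2 (-R2) R2)) u v → Reach (↑F ∩ ↑(RE (-R2) R2 (-R2) R2)) u z) ∧
      (∃ w : Vtx, w.1 = R2 ∧ Reach ↑F z w) ∧ (∃ w : Vtx, w.1 = -R2 ∧ Reach ↑F z w) ∧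
      (∃ w : Vtx, w.2 = R2 ∧ Reach ↑F z w) ∧ (∃ w : Vtx, w.2 = -R2 ∧ Reach ↑F z w) := by
  obtain ⟨⟨⟨t, t', ht, ht', hT⟩, ⟨b, b', hb, hb', hB⟩⟩, ⟨r, r', hr, hr', hR⟩,
    ⟨l, l', hl, hl', hL⟩⟩ := h
  have hT' := hT.mono (Set.inter_subset_inter_right (↑F)
    (by exact_mod_cast LRE_subset_RE : (↑(LRE (-R2) R2 R1 R2) : Set Edg) ⊆ _))
  have hB' := hB.mono (Set.inter_subset_inter_right (↑F)
    (by exact_mod_cast LRE_subset_RE : (↑(LRE (-R2) R2 (-R2) (-R1)) : Set Edg) ⊆ _))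
  have hR' := hR.mono (Set.inter_subset_inter_right (↑F)
    (by exact_mod_cast TBE_subset_RE : (↑(TBE R1 R2 (-R2) R2) : Set Edg) ⊆ _))
  have hL' := hL.mono (Set.inter_subset_inter_right (↑F)
    (by exact_mod_cast TBE_subset_RE : (↑(TBE (-R2) (-R1) (-R2) R2) : Set Edg) ⊆ _))
  have mTR : Reach (↑F ∩ ↑(RE (-R2) R2 (-R2) R2)) (-R2, t) (r, -R2) :=
    cross_meet (by omega) h2 le_rfl (by omega) h2 le_rfl hT' (by simp only; omega) le_rfl hR'
      (by simp only; omega) le_rfl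
  have mBR : Reach (↑F ∩ ↑(RE (-R2) R2 (-R2) R2)) (-R2, b) (r, -R2) :=
    cross_meet (by omega) h2 le_rfl le_rfl (by omega) (by omega) hB' (by simp only; omega) le_rfl
      hR' le_rfl (by simp only; omega)
  have mTL : Reach (↑F ∩ ↑(RE (-R2) R2 (-R2) R2)) (-R2, t) (l, -R2) :=
    cross_meet le_rfl (by omega) (by omega) (by omega) h2 le_rfl hT' le_rfl (by simp only; omega)
      hL' (by simp only; omega) le_rfl
  refine ⟨(r, -R2), ?_, ?_, ?_, ?_, ?_⟩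
  · intro u v hu hv hP
    unfold inR at hu
    rcases hv with hv | hv | hv | hv
    · have m : Reach (↑F ∩ ↑(RE (-R2) R2 (-R2) R2)) v (l, -R2) :=
        cross_meet le_rfl (by omega) (by omega) le_rfl (by omega) le_rfl hP.symm hv.le
          (show -R1 ≤ u.1 by omega) hL' le_rfl le_rfl
      exact hP.trans (m.trans (mTL.symm.trans mTR))
    · exact cross_meet (by omega) h2 le_rfl le_rfl (by omega) le_rfl hP (by omega) hv.ge hR' le_rfl
        le_rfl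
    · have m : Reach (↑F ∩ ↑(RE (-R2) R2 (-R2) R2)) (-R2, b) v :=
        cross_meet le_rfl (by omega) le_rfl le_rfl (by omega) (by omega) hB' le_rfl le_rfl hP.symm
          hv.le (show -R1 ≤ u.2 by omega)
      exact hP.trans (m.symm.trans mBR)
    · have m : Reach (↑F ∩ ↑(RE (-R2) R2 (-R2) R2)) (-R2, t) u :=
        cross_meet le_rfl (by omega) le_rfl (by omega) h2 le_rfl hT' le_rfl le_rfl hP
          (by omega) hv.ge
      exact m.symm.trans mTR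
  · exact ⟨(R2, t'), rfl, (mTR.symm.mono Set.inter_subset_left).trans
      (hT'.mono Set.inter_subset_left)⟩
  · exact ⟨(-R2, t), rfl, mTR.symm.mono Set.inter_subset_left⟩
  · exact ⟨(r', R2), rfl, hR'.mono Set.inter_subset_left⟩
  · exact ⟨(r, -R2), rfl, Reach.refl _ _⟩

theorem CA_sides {c : Vtx} {R1 R2 : ℕ} (h12 : R1 < R2) {F : Finset Edg} (h : CA c R1 R2 F) :
    ∃ z : Vtx, (∀ u v : Vtx, nv (u - c) ≤ R1 → R2 ≤ nv (v - c) → Reach (↑F) u v →
      Reach (↑F) u z) ∧ (∃ w : Vtx, w.1 = c.1 + R2 ∧ Reach ↑F z w) ∧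
      (∃ w : Vtx, w.1 = c.1 - R2 ∧ Reach ↑F z w) ∧ (∃ w : Vtx, w.2 = c.2 + R2 ∧ Reach ↑F z w) ∧
      (∃ w : Vtx, w.2 = c.2 - R2 ∧ Reach ↑F z w) := by
  obtain ⟨z, hz, ⟨w1, a1, b1⟩, ⟨w2, a2, b2⟩, ⟨w3, a3, b3⟩, ⟨w4, a4, b4⟩⟩ :=
    circ_sides (R1 := R1) (R2 := R2) (by positivity) (by exact_mod_cast h12) h
  have back : ∀ w : Vtx, Reach (↑((trl (-c.1) (-c.2)).mp F)) z w →
      Reach (↑F : Set Edg) (z + c) (w + c) := by
    intro w hw
    rw [LSym.coe_mp] at hw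
    have h3 : (trl (-c.1) (-c.2)).ψ (z + c) = z := by rw [trl_neg]; exact add_sub_cancel_right z c
    have h4 : (trl (-c.1) (-c.2)).ψ (w + c) = w := by rw [trl_neg]; exact add_sub_cancel_right w c
    rw [← h3, ← h4, LSym.reach_iff] at hw
    exact hw
  refine ⟨z + c, fun u v hu hv hr => ?_, ⟨w1 + c, ?_, back _ b1⟩, ⟨w2 + c, ?_, back _ b2⟩,
    ⟨w3 + c, ?_, back _ b3⟩, ⟨w4 + c, ?_, back _ b4⟩⟩
  · have h1 := (trl (-c.1) (-c.2)).reach hr
    rw [← LSym.coe_mp, trl_neg, trl_neg] at h1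
    have hu1 := nv_in hu
    have h12' : (R1 : ℤ) < R2 := by exact_mod_cast h12
    obtain ⟨w, k1, k2, k3⟩ := first_exit (a := -(R2 : ℤ)) (b := R2) (c := -(R2 : ℤ)) (d := R2)
      (by unfold inR at hu1 ⊢; omega) h1 (nv_cases' hv)
    have h2 := (hz (u - c) w hu1 k2 k3).mono Set.inter_subset_left
    rw [LSym.coe_mp] at h2
    have h3 : (trl (-c.1) (-c.2)).ψ (z + c) = z := by rw [trl_neg]; exact add_sub_cancel_right z c
    rw [← trl_neg, ← h3, LSym.reach_iff] at h2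
    exact h2
  · simp only [Prod.fst_add]; omega
  · simp only [Prod.fst_add]; omega
  · simp only [Prod.snd_add]; omega
  · simp only [Prod.snd_add]; omega

/-- `v` is joined to a vertex at distance at least `m` -/
def FarS (v : Vtx) (m : ℕ) (F : Set Edg) : Prop := ∃ u : Vtx, m ≤ nv (u - v) ∧ Reach F v u

theorem FarS.mono {v : Vtx} {m : ℕ} {F G : Set Edg} (h : F ⊆ G) (hF : FarS v m F) :
    FarS v m G := by
  obtain ⟨u, h1, h2⟩ := hF
  exact ⟨u, h1, h2.mono h⟩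

/-- Removing a wired ball. -/
theorem far_unwire {x v : Vtx} {r m : ℕ} (hr : 1 ≤ r) {F : Finset Edg} (h : CA x r (3 * r) F)
    (hv : 3 * r ≤ nv (v - x)) (hF : FarS v m (↑F ∪ ↑(bo x r))) : FarS v m ↑F := by
  obtain ⟨u, hu, hru⟩ := hF
  by_cases hux : 3 * r ≤ nv (u - x)
  · refine ⟨u, hu, unwire_in (c := x) (R1 := r) (R2 := 3 * r) (by omega) h (A := ↑(bo x r)) ?_ hv
      hux hru⟩
    intro e he
    exact bo_ends (Finset.mem_coe.mp he)
  · push Not at hux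
    obtain ⟨z, hz, ⟨w1, a1, b1⟩, ⟨w2, a2, b2⟩, ⟨w3, a3, b3⟩, ⟨w4, a4, b4⟩⟩ :=
      CA_sides (by omega) h
    rcases hit_or (T := fun w => nv (w - x) ≤ r) (fun e he => bo_ends (Finset.mem_coe.mp he)) hru
      with h1 | ⟨w, h1, h2⟩
    · exact ⟨u, hu, h1⟩
    · have h3 := hz w v h1 hv h2.symm
      have h4 : Reach (↑F : Set Edg) v z := h2.trans h3
      unfold nv at hu hux
      simp only [Prod.fst_sub, Prod.snd_sub] at hu hux
      have hcase : (m:ℤ) ≤ u.1 - v.1 ∨ (m:ℤ) ≤ v.1 - u.1 ∨ (m:ℤ) ≤ u.2 - v.2 ∨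
        (m:ℤ) ≤ v.2 - u.2 := by omega
      rcases hcase with k | k | k | k
      · refine ⟨w1, ?_, h4.trans b1⟩
        unfold nv
        simp only [Prod.fst_sub, Prod.snd_sub]
        push_cast at a1
        omega
      · refine ⟨w2, ?_, h4.trans b2⟩
        unfold nv
        simp only [Prod.fst_sub, Prod.snd_sub]
        push_cast at a2
        omega
      · refine ⟨w3, ?_, h4.trans b3⟩
        unfold nv
        simp only [Prod.fst_sub, Prod.snd_sub]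
        push_cast at a3
        omega
      · refine ⟨w4, ?_, h4.trans b4⟩
        unfold nv
        simp only [Prod.fst_sub, Prod.snd_sub]
        push_cast at a4
        omega

end Pool.Agent.NH39.CV
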