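import Pool.Agent.NH39.C1

/-! Adding a point, and high moments of the number of vertices with far connections. -/

set_option autoImplicit false

namespace Pool.Agent.NH39.CV

open Finset H974 Pool.Agent.H160R2.CV Pool.Agent.H160R2.CV.Quad H362P
open H12S (Win)

/-- The weight. -/
noncomputable def wg (a : ℕ) : ℝ := ((a:ℝ) + 1) ^ (-(5/48) : ℝ)

theorem wg_pos (a : ℕ) : 0 < wg a := by unfold wg; positivity

theorem wg_anti {a b : ℕ} (h : a ≤ b) : wg b ≤ wg a := by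
  unfold wg
  apply Real.rpow_le_rpow_of_nonpos (by positivity) _ (by norm_num)
  have : (a:ℝ) ≤ b := by exact_mod_cast h
  linarith

theorem wg_min (a n : ℕ) : wg (min a n) ≤ wg a + wg n := by
  have h1 := wg_pos a
  have h2 := wg_pos n
  rcases min_choice a n with h | h <;> rw [h] <;> linarith

theorem wg_le (n : ℕ) (hn : 1 ≤ n) : wg n ≤ (n:ℝ) ^ (-(5/48) : ℝ) := by
  unfold wg
  apply Real.rpow_le_rpow_of_nonpos (by exact_mod_cast hn) _ (by norm_num)
  linarith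

theorem sum_wg {R : ℕ} (hR : 1 ≤ R) {v : Vtx} (hv : v ∈ bx R) :
    ∑ x ∈ bx R, wg (nv (x - v)) ≤ 72 * (R:ℝ) ^ (91/48 : ℝ) := by
  have hR0 : (1:ℝ) ≤ R := by exact_mod_cast hR
  refine (sum_bx_shift R v hv wg (fun k => (wg_pos k).le)).trans ?_
  have h1 : ∑ k ∈ range (2 * R + 1), ((k:ℝ) + 1) * wg k ≤
      ∑ k ∈ range (2 * R + 1), ((2 * R + 1 : ℝ)) ^ (43/48 : ℝ) := by
    apply Finset.sum_le_sum
    intro k hk
    rw [Finset.mem_range] at hk
    have e1 : ((k:ℝ) + 1) * wg k = ((k:ℝ) + 1) ^ (43/48 : ℝ) := by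
      unfold wg
      nth_rewrite 1 [← Real.rpow_one ((k:ℝ) + 1)]
      rw [← Real.rpow_add (by positivity)]
      norm_num
    rw [e1]
    apply Real.rpow_le_rpow (by positivity) _ (by norm_num)
    have : (k:ℝ) + 1 ≤ ((2 * R + 1 : ℕ) : ℝ) := by exact_mod_cast hk
    push_cast at this
    exact this
  rw [Finset.sum_const, Finset.card_range, nsmul_eq_mul] at h1
  have h2 : ((2 * R + 1 : ℕ) : ℝ) * ((2 * R + 1 : ℝ)) ^ (43/48 : ℝ) = (2 * (R:ℝ) + 1) ^ (91/48 : ℝ) := by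
    push_cast
    nth_rewrite 1 [← Real.rpow_one (2 * (R:ℝ) + 1)]
    rw [← Real.rpow_add (by positivity)]
    norm_num
  rw [h2] at h1
  have h3 : (2 * (R:ℝ) + 1) ^ (91/48 : ℝ) ≤ 9 * (R:ℝ) ^ (91/48 : ℝ) := by
    calc (2 * (R:ℝ) + 1) ^ (91/48 : ℝ) ≤ (3 * (R:ℝ)) ^ (91/48 : ℝ) :=
          Real.rpow_le_rpow (by positivity) (by linarith) (by norm_num)
      _ = 3 ^ (91/48 : ℝ) * (R:ℝ) ^ (91/48 : ℝ) := Real.mul_rpow (by norm_num) (by positivity)
      _ ≤ 9 * (R:ℝ) ^ (91/48 : ℝ) := by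
          apply mul_le_mul_of_nonneg_right _ (by positivity)
          calc (3:ℝ) ^ (91/48 : ℝ) ≤ 3 ^ (2:ℝ) :=
                Real.rpow_le_rpow_of_exponent_le (by norm_num) (by norm_num)
            _ = 9 := by norm_num
  linarith

/-- The volume scale `R ^ 2 n ^ (-5/48)`. -/
noncomputable def vs (R n : ℕ) : ℝ := (R:ℝ) ^ 2 * (n:ℝ) ^ (-(5/48) : ℝ)

theorem vs_pos {R n : ℕ} (hR : 1 ≤ R) (hn : 1 ≤ n) : 0 < vs R n := by
  unfold vs
  have : (0:ℝ) < R := by exact_mod_cast hR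
  have : (0:ℝ) < n := by exact_mod_cast hn
  positivity

theorem sum_wg_min {R n : ℕ} (hn : 1 ≤ n) (hR : n ≤ R) {v : Vtx} (hv : v ∈ bx R) :
    ∑ x ∈ bx R, wg (min (nv (x - v)) n) ≤ 81 * vs R n := by
  have hR1 : 1 ≤ R := hn.trans hR
  have hn0 : (0:ℝ) < n := by exact_mod_cast hn
  have hR0 : (0:ℝ) < R := by exact_mod_cast hR1
  have h1 : ∑ x ∈ bx R, wg (min (nv (x - v)) n) ≤
      ∑ x ∈ bx R, wg (nv (x - v)) + ∑ _x ∈ bx R, wg n := by
    rw [← Finset.sum_add_distrib]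
    exact Finset.sum_le_sum (fun x _ => wg_min _ _)
  refine h1.trans ?_
  have h2 := sum_wg hR1 hv
  have h3 : ∑ _x ∈ bx R, wg n ≤ 9 * vs R n := by
    rw [Finset.sum_const, nsmul_eq_mul]
    have h4 : ((bx R).card : ℝ) ≤ 9 * (R:ℝ) ^ 2 := by
      unfold bx
      rw [Finset.card_product, Int.card_Icc]
      have e1 : ((R:ℤ) + 1 - -(R:ℤ)).toNat = 2 * R + 1 := by omega
      rw [e1]
      push_cast
      have : (1:ℝ) ≤ R := by exact_mod_cast hR1
      nlinarith
    unfold vs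
    calc ((bx R).card : ℝ) * wg n ≤ (9 * (R:ℝ) ^ 2) * (n:ℝ) ^ (-(5/48) : ℝ) :=
          mul_le_mul h4 (wg_le n hn) (wg_pos n).le (by positivity)
      _ = _ := by ring
  have h5 : (R:ℝ) ^ (91/48 : ℝ) ≤ vs R n := by
    unfold vs
    have e1 : (R:ℝ) ^ (91/48 : ℝ) = (R:ℝ) ^ 2 * (R:ℝ) ^ (-(5/48) : ℝ) := by
      rw [← Real.rpow_natCast, ← Real.rpow_add hR0]
      norm_num
    rw [e1]
    apply mul_le_mul_of_nonneg_left _ (by positivity)
    exact Real.rpow_le_rpow_of_nonpos hn0 (by exact_mod_cast hR) (by norm_num)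
  linarith

/-- All the vertices of `X` have far connections. -/
def FA (m : ℕ) (X : Finset Vtx) (F : Set Edg) : Prop := ∀ v ∈ X, FarS v m F

theorem FA.mono {m : ℕ} {X : Finset Vtx} {F G : Set Edg} (h : F ⊆ G) (hF : FA m X F) :
    FA m X G := fun v hv => (hF v hv).mono h

theorem FA_insert {m : ℕ} {X : Finset Vtx} {x : Vtx} {F : Set Edg} :
    FA m (insert x X) F ↔ FarS x m F ∧ FA m X F := by
  unfold FA
  rw [Finset.forall_mem_insert]

theorem r_bound {a m : ℕ} (ha : 3 ≤ a) (hm : 2 ≤ m) :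
    1 ≤ min (a / 3) (m / 2) ∧ 2 * min (a / 3) (m / 2) ≤ m ∧ 3 * min (a / 3) (m / 2) ≤ a ∧
      min a m + 1 ≤ 6 * min (a / 3) (m / 2) := by
  omega

theorem arm_r {q κ a' A : ℝ} {n : ℕ} (h : NC q κ a' A n) (hA : 0 < A) {a m : ℕ} (hmn : m ≤ n)
    (ha : 3 ≤ a) (hm : 2 ≤ m) : arm q (min (a / 3) (m / 2)) ≤ 6 * A * wg (min a m) := by
  obtain ⟨h1, h2, h3, h4⟩ := r_bound ha hm
  refine (h.hi _ h1 (by omega)).trans ?_
  have h5 : (((min a m : ℕ) : ℝ) + 1) / 6 ≤ ((min (a / 3) (m / 2) : ℕ) : ℝ) := by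
    rw [div_le_iff₀ (by norm_num)]
    have : ((min a m + 1 : ℕ) : ℝ) ≤ ((6 * min (a / 3) (m / 2) : ℕ) : ℝ) := by exact_mod_cast h4
    push_cast at this ⊢
    linarith
  have h6 : ((min (a / 3) (m / 2) : ℕ) : ℝ) ^ (-(5/48) : ℝ) ≤
      ((((min a m : ℕ) : ℝ) + 1) / 6) ^ (-(5/48) : ℝ) :=
    Real.rpow_le_rpow_of_nonpos (by positivity) h5 (by norm_num)
  have h7 : ((((min a m : ℕ) : ℝ) + 1) / 6) ^ (-(5/48) : ℝ) ≤ 6 * wg (min a m) := by
    unfold wg
    rw [Real.div_rpow (by positivity) (by norm_num), Real.rpow_neg (by norm_num : (0:ℝ) ≤ 6),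
      div_inv_eq_mul, mul_comm]
    apply mul_le_mul_of_nonneg_right _ (by positivity)
    calc (6:ℝ) ^ (5/48 : ℝ) ≤ 6 ^ (1:ℝ) :=
          Real.rpow_le_rpow_of_exponent_le (by norm_num) (by norm_num)
      _ = 6 := by norm_num
  calc A * ((min (a / 3) (m / 2) : ℕ) : ℝ) ^ (-(5/48) : ℝ) ≤ A * (6 * wg (min a m)) :=
        mul_le_mul_of_nonneg_left (h6.trans h7) hA.le
    _ = _ := by ring

theorem wg_small {k : ℕ} (h : k ≤ 2) : 1 ≤ 3 * wg k := by
  have h1 : wg 2 ≤ wg k := wg_anti h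
  have h2 : (1:ℝ) ≤ 3 * wg 2 := by
    unfold wg
    have h3 : (3:ℝ) ^ (-(1:ℝ)) ≤ (((2:ℕ):ℝ) + 1) ^ (-(5/48) : ℝ) := by
      have : ((2:ℕ):ℝ) + 1 = 3 := by norm_num
      rw [this]
      exact Real.rpow_le_rpow_of_exponent_le (by norm_num) (by norm_num)
    have h4 : (3:ℝ) ^ (-(1:ℝ)) = 1 / 3 := by
      rw [Real.rpow_neg (by norm_num), Real.rpow_one]; norm_num
    rw [h4] at h3
    linarith
  linarith

/-- The constant of the addition of a point. -/
noncomputable def kadd (κ A : ℝ) : ℝ := 3 + (κ ^ 4)⁻¹ * (6 * A)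

theorem kadd_pos {κ A : ℝ} (hκ : 0 < κ) (hA : 0 < A) : 0 < kadd κ A := by
  unfold kadd; positivity

/-- Adding a point with a far connection. -/
theorem add_far {q κ a' A : ℝ} {n : ℕ} (h : NC q κ a' A n) (hA : 0 < A) {m : ℕ} (hmn : m ≤ n)
    {X : Finset Vtx} {x : Vtx} {a : ℕ} (hX : ∀ u ∈ X, a ≤ nv (u - x)) {S : Finset Edg}
    (hS : bo x (2 * m) ⊆ S) :
    Pr (fun _ => q) S (fun F => FA m (insert x X) ↑F) ≤
      kadd κ A * wg (min a m) * Pr (fun _ => q) S (fun F => FA m X ↑F) := by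
  have ok := h.ok
  have hκ := h.win.kpos
  have hP0 : 0 ≤ Pr (fun _ => q) S (fun F => FA m X ↑F) := Pr_nonneg ok _ _
  have hkk : 0 < (κ ^ 4)⁻¹ * (6 * A) := by positivity
  by_cases hc : 3 ≤ a ∧ 2 ≤ m
  · obtain ⟨ha, hm⟩ := hc
    obtain ⟨h1, h2, h3, h4⟩ := r_bound ha hm
    obtain ⟨r, hr⟩ : ∃ r : ℕ, r = min (a / 3) (m / 2) := ⟨_, rfl⟩
    have harm := arm_r h hA hmn ha hm
    rw [← hr] at h1 h2 h3 h4 harm
    have s1 : Pr (fun _ => q) S (fun F => FA m (insert x X) ↑F) ≤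
        Pr (fun _ => q) S (fun F => LA x r F ∧ FA m X ↑F) := by
      apply Pr_mono ok
      intro F _ hF
      rw [FA_insert] at hF
      refine ⟨?_, hF.2⟩
      obtain ⟨u, hu, hru⟩ := hF.1
      exact LA_of_reach (by omega) hru
    have s2 := decouple h (x := x) (r := r) h1 (by omega) (S := S) (by
        refine Finset.Subset.trans ?_ hS
        unfold bo
        exact RE_subset (by omega) (by omega) (by omega) (by omega))
      (Q := FA m X) (fun F G hFG hF => hF.mono hFG) (by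
        intro F hF hQ v hv
        exact far_unwire h1 hF (by have := hX v hv; omega) (hQ v hv))
    refine s1.trans (s2.trans ?_)
    calc (κ ^ 4)⁻¹ * (arm q r * Pr (fun _ => q) S (fun F => FA m X ↑F)) ≤
        (κ ^ 4)⁻¹ * ((6 * A * wg (min a m)) * Pr (fun _ => q) S (fun F => FA m X ↑F)) := by
          apply mul_le_mul_of_nonneg_left _ (by positivity)
          exact mul_le_mul_of_nonneg_right harm hP0
      _ = (κ ^ 4)⁻¹ * (6 * A) * (wg (min a m) * Pr (fun _ => q) S (fun F => FA m X ↑F)) := by ring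
      _ ≤ kadd κ A * (wg (min a m) * Pr (fun _ => q) S (fun F => FA m X ↑F)) := by
          apply mul_le_mul_of_nonneg_right _ (mul_nonneg (wg_pos _).le hP0)
          unfold kadd; linarith
      _ = _ := by ring
  · have hsm : min a m ≤ 2 := by omega
    have h1 := wg_small hsm
    have s1 : Pr (fun _ => q) S (fun F => FA m (insert x X) ↑F) ≤
        Pr (fun _ => q) S (fun F => FA m X ↑F) :=
      Pr_mono ok (fun F _ hF => (FA_insert.1 hF).2)
    refine s1.trans ?_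
    have h2 : 1 ≤ kadd κ A * wg (min a m) := by
      have : 3 * wg (min a m) ≤ kadd κ A * wg (min a m) := by
        apply mul_le_mul_of_nonneg_right _ (wg_pos _).le
        unfold kadd; linarith
      linarith
    nlinarith

/-- Adding a connected point. -/
theorem add_cn {q κ a' A : ℝ} {n : ℕ} (h : NC q κ a' A n) (hA : 0 < A)
    {X : Finset Vtx} {x y : Vtx} {a : ℕ} (hy : y ∈ X) (hya : nv (y - x) = a)
    (hX : ∀ u ∈ X, a ≤ nv (u - x)) {S : Finset Edg} (hS : bo x (2 * n) ⊆ S) :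
    Pr (fun _ => q) S (fun F => Cn (insert x X) ↑F) ≤
      kadd κ A * wg (min a n) * Pr (fun _ => q) S (fun F => Cn X ↑F) := by
  have ok := h.ok
  have hκ := h.win.kpos
  have hP0 : 0 ≤ Pr (fun _ => q) S (fun F => Cn X ↑F) := Pr_nonneg ok _ _
  have hkk : 0 < (κ ^ 4)⁻¹ * (6 * A) := by positivity
  have hsub : ∀ F : Set Edg, Cn (insert x X) F → Cn X F := fun F hF u hu v hv =>
    hF u (Finset.mem_insert_of_mem hu) v (Finset.mem_insert_of_mem hv)
  by_cases hc : 3 ≤ a ∧ 2 ≤ n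
  · obtain ⟨ha, hm⟩ := hc
    obtain ⟨h1, h2, h3, h4⟩ := r_bound ha hm
    obtain ⟨r, hr⟩ : ∃ r : ℕ, r = min (a / 3) (n / 2) := ⟨_, rfl⟩
    have harm := arm_r h hA le_rfl ha hm
    rw [← hr] at h1 h2 h3 h4 harm
    have s1 : Pr (fun _ => q) S (fun F => Cn (insert x X) ↑F) ≤
        Pr (fun _ => q) S (fun F => LA x r F ∧ Cn X ↑F) := by
      apply Pr_mono ok
      intro F _ hF
      exact ⟨LA_of_reach (u := y) (by omega)
        (hF x (Finset.mem_insert_self _ _) y (Finset.mem_insert_of_mem hy)), hsub _ hF⟩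
    have s2 := decouple h (x := x) (r := r) h1 (by omega) (S := S) (by
        refine Finset.Subset.trans ?_ hS
        unfold bo
        exact RE_subset (by omega) (by omega) (by omega) (by omega))
      (Q := Cn X) (fun F G hFG hF => Cn.mono hFG hF) (by
        intro F hF hQ u hu v hv
        refine unwire_in (c := x) (R1 := r) (R2 := 3 * r) (by omega) hF (A := ↑(bo x r)) ?_
          (by have := hX u hu; omega) (by have := hX v hv; omega) (hQ u hu v hv)
        intro e he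
        exact bo_ends (Finset.mem_coe.mp he))
    refine s1.trans (s2.trans ?_)
    calc (κ ^ 4)⁻¹ * (arm q r * Pr (fun _ => q) S (fun F => Cn X ↑F)) ≤
        (κ ^ 4)⁻¹ * ((6 * A * wg (min a n)) * Pr (fun _ => q) S (fun F => Cn X ↑F)) := by
          apply mul_le_mul_of_nonneg_left _ (by positivity)
          exact mul_le_mul_of_nonneg_right harm hP0
      _ = (κ ^ 4)⁻¹ * (6 * A) * (wg (min a n) * Pr (fun _ => q) S (fun F => Cn X ↑F)) := by ring
      _ ≤ kadd κ A * (wg (min a n) * Pr (fun _ => q) S (fun F => Cn X ↑F)) := by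
          apply mul_le_mul_of_nonneg_right _ (mul_nonneg (wg_pos _).le hP0)
          unfold kadd; linarith
      _ = _ := by ring
  · have hsm : min a n ≤ 2 := by omega
    have h1 := wg_small hsm
    have s1 : Pr (fun _ => q) S (fun F => Cn (insert x X) ↑F) ≤
        Pr (fun _ => q) S (fun F => Cn X ↑F) :=
      Pr_mono ok (fun F _ hF => hsub _ hF)
    refine s1.trans ?_
    have h2 : 1 ≤ kadd κ A * wg (min a n) := by
      have : 3 * wg (min a n) ≤ kadd κ A * wg (min a n) := by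
        apply mul_le_mul_of_nonneg_right _ (wg_pos _).le
        unfold kadd; linarith
      linarith
    nlinarith

/-- Summation of the weights of the distance to `X`. -/
theorem sum_step {R m : ℕ} (hm : 1 ≤ m) (hR : m ≤ R) {X : Finset Vtx} (hX : X ⊆ bx R)
    {f : Vtx → ℝ} {K : ℝ} (hK : 0 ≤ K)
    (hf : ∀ x ∈ bx R, ∃ u ∈ X, f x ≤ K * wg (min (nv (u - x)) m)) :
    ∑ x ∈ bx R, f x ≤ K * (81 * vs R m) * X.card := by
  have h1 : ∀ x ∈ bx R, f x ≤ ∑ u ∈ X, K * wg (min (nv (x - u)) m) := by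
    intro x hx
    obtain ⟨u, hu, hle⟩ := hf x hx
    refine hle.trans ?_
    rw [show nv (u - x) = nv (x - u) by rw [← nv_neg, neg_sub]]
    exact Finset.single_le_sum (f := fun u => K * wg (min (nv (x - u)) m))
      (fun u _ => mul_nonneg hK (wg_pos _).le) hu
  refine (Finset.sum_le_sum h1).trans ?_
  rw [Finset.sum_comm]
  have h2 : ∀ u ∈ X, ∑ x ∈ bx R, K * wg (min (nv (x - u)) m) ≤ K * (81 * vs R m) := by
    intro u hu
    rw [← Finset.mul_sum]
    exact mul_le_mul_of_nonneg_left (sum_wg_min hm hR (hX hu)) hK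
  refine (Finset.sum_le_sum h2).trans (le_of_eq ?_)
  rw [Finset.sum_const, nsmul_eq_mul]
  ring

theorem mem_bx_iff' (R : ℕ) (x : Vtx) : x ∈ bx R ↔
    (-(R:ℤ) ≤ x.1 ∧ x.1 ≤ R) ∧ (-(R:ℤ) ≤ x.2 ∧ x.2 ≤ R) := by
  unfold bx
  rw [Finset.mem_product, Finset.mem_Icc, Finset.mem_Icc]

theorem exists_min_dist {X : Finset Vtx} (hX : X.Nonempty) (x : Vtx) :
    ∃ y ∈ X, ∀ u ∈ X, nv (y - x) ≤ nv (u - x) :=
  Finset.exists_min_image X (fun u => nv (u - x)) hX

/-- One step for far connections. -/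
theorem step_far {q κ a' A : ℝ} {n : ℕ} (h : NC q κ a' A n) (hA : 0 < A) {m R : ℕ}
    (hm : 1 ≤ m) (hmn : m ≤ n) (hR : m ≤ R) {X : Finset Vtx} (hXn : X.Nonempty) (hX : X ⊆ bx R)
    {S : Finset Edg} (hS : boxE (R + 2 * m) ⊆ S) :
    ∑ x ∈ bx R, Pr (fun _ => q) S (fun F => FA m (insert x X) ↑F) ≤
      kadd κ A * (81 * vs R m) * X.card * Pr (fun _ => q) S (fun F => FA m X ↑F) := by
  have hκ := h.win.kpos
  have hP0 : 0 ≤ Pr (fun _ => q) S (fun F => FA m X ↑F) := Pr_nonneg h.ok _ _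
  have h1 := sum_step (K := kadd κ A * Pr (fun _ => q) S (fun F => FA m X ↑F))
    (f := fun x => Pr (fun _ => q) S (fun F => FA m (insert x X) ↑F)) hm hR hX
    (mul_nonneg (kadd_pos hκ hA).le hP0) (by
      intro x hx
      obtain ⟨y, hy, hmin⟩ := exists_min_dist hXn x
      refine ⟨y, hy, ?_⟩
      have h2 := add_far h hA hmn (X := X) (x := x) (a := nv (y - x)) hmin (S := S) (by
        refine Finset.Subset.trans ?_ hS
        have hx' := (mem_bx_iff' R x).1 hx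
        unfold bo boxE
        apply RE_subset <;> push_cast <;> omega)
      refine h2.trans (le_of_eq ?_)
      ring)
  refine h1.trans (le_of_eq ?_)
  ring

/-- One step for connected sets. -/
theorem step_cn {q κ a' A : ℝ} {n : ℕ} (h : NC q κ a' A n) (hA : 0 < A) {R : ℕ}
    (hn : 1 ≤ n) (hR : n ≤ R) {X : Finset Vtx} (hXn : X.Nonempty) (hX : X ⊆ bx R)
    {S : Finset Edg} (hS : boxE (R + 2 * n) ⊆ S) :
    ∑ x ∈ bx R, Pr (fun _ => q) S (fun F => Cn (insert x X) ↑F) ≤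
      kadd κ A * (81 * vs R n) * X.card * Pr (fun _ => q) S (fun F => Cn X ↑F) := by
  have hκ := h.win.kpos
  have hP0 : 0 ≤ Pr (fun _ => q) S (fun F => Cn X ↑F) := Pr_nonneg h.ok _ _
  have h1 := sum_step (K := kadd κ A * Pr (fun _ => q) S (fun F => Cn X ↑F))
    (f := fun x => Pr (fun _ => q) S (fun F => Cn (insert x X) ↑F)) hn hR hX
    (mul_nonneg (kadd_pos hκ hA).le hP0) (by
      intro x hx
      obtain ⟨y, hy, hmin⟩ := exists_min_dist hXn x
      refine ⟨y, hy, ?_⟩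
      have h2 := add_cn h hA (X := X) (x := x) (a := nv (y - x)) hy rfl hmin (S := S) (by
        refine Finset.Subset.trans ?_ hS
        have hx' := (mem_bx_iff' R x).1 hx
        unfold bo boxE
        apply RE_subset <;> push_cast <;> omega)
      refine h2.trans (le_of_eq ?_)
      ring)
  refine h1.trans (le_of_eq ?_)
  ring

end Pool.Agent.NH39.CV
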