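import Pool.Agent.NH39.C2

/-! Moments and exponential moments of the number of vertices with far connections. -/

set_option autoImplicit false

namespace Pool.Agent.NH39.CV

open Finset H974 Pool.Agent.H160R2.CV Pool.Agent.H160R2.CV.Quad H362P
open H12S (Win)

/-! ### exponential moments -/

theorem exp_mom1 {E : Type*} [DecidableEq E] {p : E → ℝ} (hp : Ok p) {S : Finset E}
    {f g : Finset E → ℝ} (hg : ∀ F, 0 ≤ g F) {B G l : ℝ} (hl : 0 ≤ l) (hB : 0 ≤ B) (hG : 0 ≤ G)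
    (hlB : l * B ≤ 1 / 2)
    (h : ∀ k : ℕ, Ex p S (fun F => f F ^ (k + 1) * g F) ≤ B ^ (k + 1) * (k + 1).factorial * G) :
    Ex p S (fun F => (Real.exp (l * f F) - 1) * g F) ≤ 2 * (l * B) * G := by
  have h1 : ∀ F : Finset E, HasSum (fun k : ℕ => (l * f F) ^ (k + 1) / ((k + 1).factorial : ℝ))
      (Real.exp (l * f F) - 1) := by
    intro F
    have h2 := NormedSpace.expSeries_div_hasSum_exp (𝔸 := ℝ) (l * f F)
    rw [← Real.exp_eq_exp_ℝ] at h2
    have h3 := (hasSum_nat_add_iff' (f := fun k : ℕ => (l * f F) ^ k / (k.factorial : ℝ)) 1).2 h2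
    simpa using h3
  have h2 : HasSum (fun k : ℕ => Ex p S (fun F => ((l * f F) ^ (k + 1) / ((k + 1).factorial : ℝ)) *
      g F)) (Ex p S (fun F => (Real.exp (l * f F) - 1) * g F)) := by
    unfold Ex
    apply hasSum_sum
    intro F _
    exact ((h1 F).mul_right (g F)).mul_left _
  have h3 : HasSum (fun k : ℕ => (l * B) * (l * B) ^ k * G) ((l * B) * (1 - l * B)⁻¹ * G) := by
    have h4 := hasSum_geometric_of_lt_one (r := l * B) (by positivity) (by linarith)
    exact (h4.mul_left (l * B)).mul_right G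
  have h5 : Ex p S (fun F => (Real.exp (l * f F) - 1) * g F) ≤ (l * B) * (1 - l * B)⁻¹ * G := by
    refine hasSum_le ?_ h2 h3
    intro k
    have h6 : Ex p S (fun F => ((l * f F) ^ (k + 1) / ((k + 1).factorial : ℝ)) * g F) =
        l ^ (k + 1) / ((k + 1).factorial : ℝ) * Ex p S (fun F => f F ^ (k + 1) * g F) := by
      rw [← Ex_mul_left]
      apply Ex_congr
      intro F _
      rw [mul_pow]
      ring
    rw [h6]
    have h7 : (0:ℝ) < ((k + 1).factorial : ℝ) := by exact_mod_cast Nat.factorial_pos _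
    calc l ^ (k + 1) / ((k + 1).factorial : ℝ) * Ex p S (fun F => f F ^ (k + 1) * g F) ≤
        l ^ (k + 1) / ((k + 1).factorial : ℝ) * (B ^ (k + 1) * (k + 1).factorial * G) :=
          mul_le_mul_of_nonneg_left (h k) (by positivity)
      _ = (l * B) * (l * B) ^ k * G := by
          field_simp
          ring
  refine h5.trans ?_
  apply mul_le_mul_of_nonneg_right _ hG
  have h6 : (1 - l * B)⁻¹ ≤ 2 := by
    rw [inv_le_comm₀ (by linarith) (by norm_num)]
    linarith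
  calc l * B * (1 - l * B)⁻¹ ≤ l * B * 2 := mul_le_mul_of_nonneg_left h6 (by positivity)
    _ = _ := by ring

theorem exp_mom {E : Type*} [DecidableEq E] {p : E → ℝ} (hp : Ok p) {S : Finset E}
    {f g : Finset E → ℝ} (hg : ∀ F, 0 ≤ g F) {B G l : ℝ} (hl : 0 ≤ l) (hB : 0 ≤ B) (hG : 0 ≤ G)
    (hlB : l * B ≤ 1 / 2)
    (h : ∀ k : ℕ, Ex p S (fun F => f F ^ k * g F) ≤ B ^ k * k.factorial * G) :
    Ex p S (fun F => Real.exp (l * f F) * g F) ≤ (1 + 2 * (l * B)) * G := by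
  have h1 := exp_mom1 hp hg hl hB hG hlB (fun k => h (k + 1))
  have h2 := h 0
  simp only [pow_zero, one_mul, Nat.factorial_zero, Nat.cast_one] at h2
  have h3 : Ex p S (fun F => Real.exp (l * f F) * g F) =
      Ex p S (fun F => (Real.exp (l * f F) - 1) * g F) + Ex p S g := by
    rw [← Ex_add]
    apply Ex_congr
    intro F _
    ring
  rw [h3]
  linarith

/-! ### moments from adding points -/

/-- the product of the moments -/
noncomputable def pf (K : ℝ) (c k : ℕ) : ℝ := ∏ i ∈ range k, K * ((c:ℝ) + i)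

theorem pf_nonneg {K : ℝ} (hK : 0 ≤ K) (c k : ℕ) : 0 ≤ pf K c k :=
  Finset.prod_nonneg fun i _ => by positivity

theorem pf_succ (K : ℝ) (c k : ℕ) : pf K c (k + 1) = K * c * pf K (c + 1) k := by
  unfold pf
  rw [Finset.prod_range_succ']
  simp only [Nat.cast_zero, add_zero]
  rw [mul_comm]
  congr 1
  apply Finset.prod_congr rfl
  intro i _
  push_cast
  ring

theorem pf_mono {K : ℝ} (hK : 0 ≤ K) {c d : ℕ} (h : c ≤ d) (k : ℕ) : pf K c k ≤ pf K d k := by
  unfold pf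
  apply Finset.prod_le_prod
  · intro i _; positivity
  · intro i _
    have : (c:ℝ) ≤ d := by exact_mod_cast h
    apply mul_le_mul_of_nonneg_left _ hK
    linarith

theorem pf_one (K : ℝ) (k : ℕ) : pf K 1 k = K ^ k * k.factorial := by
  induction k with
  | zero => simp [pf]
  | succ k ih =>
    unfold pf at ih ⊢
    rw [Finset.prod_range_succ, ih, Nat.factorial_succ]
    push_cast
    ring

theorem pf_two (K : ℝ) (k : ℕ) : pf K 2 k = K ^ k * (k + 1).factorial := by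
  induction k with
  | zero => simp [pf]
  | succ k ih =>
    unfold pf at ih ⊢
    rw [Finset.prod_range_succ, ih, Nat.factorial_succ (k + 1)]
    push_cast
    ring

/-- Moments of a sum of indicators from a bound on the addition of a point. -/
theorem mom_gen {p : Edg → ℝ} (hp : Ok p) {S : Finset Edg} {D : Finset Vtx}
    {h : Vtx → Finset Edg → Prop} {Q : Finset Vtx → Finset Edg → Prop} {ok : Finset Vtx → Prop}
    {K : ℝ} (hK : 0 ≤ K) (hok : ∀ X, ok X → ∀ x ∈ D, ok (insert x X))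
    (hQ : ∀ X, ok X → ∀ x ∈ D, ∀ F, Q (insert x X) F ↔ h x F ∧ Q X F)
    (hst : ∀ X, ok X → ∑ x ∈ D, Pr p S (Q (insert x X)) ≤ K * X.card * Pr p S (Q X))
    (k : ℕ) : ∀ X, ok X → Ex p S (fun F => (∑ x ∈ D, ind (h x F)) ^ k * ind (Q X F)) ≤
      pf K X.card k * Pr p S (Q X) := by
  induction k with
  | zero =>
    intro X _
    simp only [pow_zero, one_mul]
    simp [pf, Pr]
  | succ k ih =>
    intro X hX
    have e1 : Ex p S (fun F => (∑ x ∈ D, ind (h x F)) ^ (k + 1) * ind (Q X F)) =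
        ∑ x ∈ D, Ex p S (fun F => (∑ x ∈ D, ind (h x F)) ^ k * ind (Q (insert x X) F)) := by
      rw [← Ex_sum]
      apply Ex_congr
      intro F _
      rw [pow_succ, mul_assoc, Finset.sum_mul, Finset.mul_sum]
      apply Finset.sum_congr rfl
      intro x hx
      rw [← ind_and, ind_congr (hQ X hX x hx F)]
    rw [e1]
    calc ∑ x ∈ D, Ex p S (fun F => (∑ x ∈ D, ind (h x F)) ^ k * ind (Q (insert x X) F)) ≤
        ∑ x ∈ D, pf K (X.card + 1) k * Pr p S (Q (insert x X)) := by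
          apply Finset.sum_le_sum
          intro x hx
          refine (ih (insert x X) (hok X hX x hx)).trans ?_
          apply mul_le_mul_of_nonneg_right _ (Pr_nonneg hp _ _)
          exact pf_mono hK (Finset.card_insert_le _ _) k
      _ = pf K (X.card + 1) k * ∑ x ∈ D, Pr p S (Q (insert x X)) := by rw [Finset.mul_sum]
      _ ≤ pf K (X.card + 1) k * (K * X.card * Pr p S (Q X)) :=
          mul_le_mul_of_nonneg_left (hst X hX) (pf_nonneg hK _ _)
      _ = pf K X.card (k + 1) * Pr p S (Q X) := by rw [pf_succ]; ring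

/-- The number of vertices of the box with a far connection. -/
noncomputable def ZZ (R m : ℕ) (F : Finset Edg) : ℝ := ∑ x ∈ bx R, ind (FarS x m ↑F)

theorem ZZ_nonneg (R m : ℕ) (F : Finset Edg) : 0 ≤ ZZ R m F :=
  Finset.sum_nonneg fun _ _ => ind_nonneg _

theorem FA_single {m : ℕ} {x : Vtx} {F : Set Edg} : FA m {x} F ↔ FarS x m F := by
  unfold FA
  simp

theorem pr_farS {q : ℝ} (h0 : 0 ≤ q) (h1 : q ≤ 1) (S : Finset Edg) (v : Vtx) (m : ℕ) :
    Pr (fun _ => q) S (fun F => FarS v m ↑F) ≤ arm q m := by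
  refine le_trans (Pr_mono (okq h0 h1) ?_) (pr_LA_q h0 h1 S v m)
  rintro F _ ⟨u, hu, hr⟩
  exact LA_of_reach hu hr

theorem card_bx_le {R : ℕ} (hR : 1 ≤ R) : ((bx R).card : ℝ) ≤ 9 * (R:ℝ) ^ 2 := by
  rw [w_card_bx]
  have : (1:ℝ) ≤ R := by exact_mod_cast hR
  nlinarith

/-- the constant of the moments -/
noncomputable def kmom (κ A : ℝ) : ℝ := kadd κ A * 81 + 9 * A

theorem kmom_pos {κ A : ℝ} (hκ : 0 < κ) (hA : 0 < A) : 0 < kmom κ A := by
  unfold kmom
  have := kadd_pos hκ hA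
  positivity

/-- Marked moments. -/
theorem mom_mark {q κ a' A : ℝ} {n : ℕ} (h : NC q κ a' A n) (hA : 0 < A) {m R : ℕ}
    (hm : 1 ≤ m) (hmn : m ≤ n) (hR : m ≤ R) {S : Finset Edg} (hS : boxE (R + 2 * m) ⊆ S)
    {v : Vtx} (hv : v ∈ bx R) (k : ℕ) :
    Ex (fun _ => q) S (fun F => ZZ R m F ^ k * ind (FarS v m ↑F)) ≤
      (kmom κ A * vs R m) ^ k * k.factorial * arm q m := by
  have hκ := h.win.kpos
  have hk := kadd_pos hκ hA
  have hvs := vs_pos (hm.trans hR) hm
  have hK0 : 0 ≤ kadd κ A * (81 * vs R m) := by positivity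
  have hKK : kadd κ A * (81 * vs R m) ≤ kmom κ A * vs R m := by
    unfold kmom
    have : 0 ≤ 9 * A * vs R m := by positivity
    linarith
  have h1 := mom_gen (p := fun _ => q) h.ok (S := S) (D := bx R)
    (h := fun x F => FarS x m ↑F) (Q := fun X F => FA m X ↑F)
    (ok := fun X => X.Nonempty ∧ X ⊆ bx R) (K := kadd κ A * (81 * vs R m)) hK0
    (fun X hX x hx => ⟨Finset.insert_nonempty _ _, Finset.insert_subset hx hX.2⟩)
    (fun X _ x _ F => FA_insert)
    (fun X hX => step_far h hA hm hmn hR hX.1 hX.2 hS) k {v}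
    ⟨Finset.singleton_nonempty _, by simpa using hv⟩
  rw [Finset.card_singleton, pf_one] at h1
  have h2 : Pr (fun _ => q) S (fun F => FA m {v} ↑F) ≤ arm q m := by
    refine le_trans (le_of_eq ?_) (pr_farS h.q0 h.q1 S v m)
    apply Pr_congr
    intro F _
    exact FA_single
  have h3 : Ex (fun _ => q) S (fun F => ZZ R m F ^ k * ind (FarS v m ↑F)) =
      Ex (fun _ => q) S (fun F => (∑ x ∈ bx R, ind (FarS x m ↑F)) ^ k * ind (FA m {v} ↑F)) := by
    apply Ex_congr
    intro F _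
    unfold ZZ
    rw [ind_congr FA_single]
  rw [h3]
  refine h1.trans ?_
  have h4 : (kadd κ A * (81 * vs R m)) ^ k ≤ (kmom κ A * vs R m) ^ k :=
    pow_le_pow_left₀ hK0 hKK k
  have h5 : (0:ℝ) ≤ (k.factorial : ℝ) := by positivity
  have h6 : 0 ≤ (kmom κ A * vs R m) ^ k := le_trans (by positivity) h4
  calc (kadd κ A * (81 * vs R m)) ^ k * k.factorial * Pr (fun _ => q) S (fun F => FA m {v} ↑F) ≤
      ((kmom κ A * vs R m) ^ k * k.factorial) * arm q m :=
        mul_le_mul (mul_le_mul_of_nonneg_right h4 h5) h2 (Pr_nonneg h.ok _ _) (by positivity)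
    _ = _ := rfl

/-- Unmarked moments. -/
theorem mom_all {q κ a' A : ℝ} {n : ℕ} (h : NC q κ a' A n) (hA : 0 < A) {m R : ℕ}
    (hm : 1 ≤ m) (hmn : m ≤ n) (hR : m ≤ R) {S : Finset Edg} (hS : boxE (R + 2 * m) ⊆ S) (k : ℕ) :
    Ex (fun _ => q) S (fun F => ZZ R m F ^ k * 1) ≤ (kmom κ A * vs R m) ^ k * k.factorial * 1 := by
  have hκ := h.win.kpos
  have hk := kadd_pos hκ hA
  have hvs := vs_pos (hm.trans hR) hm
  have hkm := kmom_pos hκ hA
  rcases k with _ | k
  · simp [Ex_const]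
  · have e1 : Ex (fun _ => q) S (fun F => ZZ R m F ^ (k + 1) * 1) =
        ∑ x ∈ bx R, Ex (fun _ => q) S (fun F => ZZ R m F ^ k * ind (FarS x m ↑F)) := by
      rw [← Ex_sum]
      apply Ex_congr
      intro F _
      rw [mul_one, ← Finset.mul_sum, pow_succ]
      rfl
    rw [e1]
    have h1 : ∀ x ∈ bx R, Ex (fun _ => q) S (fun F => ZZ R m F ^ k * ind (FarS x m ↑F)) ≤
        (kmom κ A * vs R m) ^ k * k.factorial * arm q m :=
      fun x hx => mom_mark h hA hm hmn hR hS hx k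
    refine (Finset.sum_le_sum h1).trans ?_
    rw [Finset.sum_const, nsmul_eq_mul]
    have h2 := card_bx_le (hm.trans hR)
    have h3 := h.hi m hm hmn
    have h4 : ((bx R).card : ℝ) * arm q m ≤ 9 * A * vs R m := by
      calc ((bx R).card : ℝ) * arm q m ≤ (9 * (R:ℝ) ^ 2) * (A * (m:ℝ) ^ (-(5/48) : ℝ)) :=
            mul_le_mul h2 h3 (arm_nonneg h.q0 h.q1 m) (by positivity)
        _ = 9 * A * vs R m := by unfold vs; ring
    have h5 : 9 * A * vs R m ≤ kmom κ A * vs R m := by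
      apply mul_le_mul_of_nonneg_right _ hvs.le
      unfold kmom
      linarith
    have h6 : (0:ℝ) ≤ (kmom κ A * vs R m) ^ k * k.factorial := by positivity
    calc ((bx R).card : ℝ) * ((kmom κ A * vs R m) ^ k * k.factorial * arm q m) =
        (kmom κ A * vs R m) ^ k * k.factorial * (((bx R).card : ℝ) * arm q m) := by ring
      _ ≤ (kmom κ A * vs R m) ^ k * k.factorial * (kmom κ A * vs R m) :=
          mul_le_mul_of_nonneg_left (h4.trans h5) h6
      _ = (kmom κ A * vs R m) ^ (k + 1) * k.factorial * 1 := by ring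
      _ ≤ (kmom κ A * vs R m) ^ (k + 1) * (k + 1).factorial * 1 := by
          apply mul_le_mul_of_nonneg_right _ (by norm_num)
          apply mul_le_mul_of_nonneg_left _ (by positivity)
          exact_mod_cast Nat.factorial_le (Nat.le_succ k)

/-! ### the two-point function and the connected moments -/

theorem two_pt {q κ a' A : ℝ} {n : ℕ} (h : NC q κ a' A n) (hA : 0 < A) {m : ℕ} (hmn : m ≤ n)
    (S : Finset Edg) (x : Vtx) :
    Pr (fun _ => q) S (fun F => Reach (↑F) (0, 0) x) ≤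
      ((6 * A) ^ 2 + 9) * wg (min (nv x) m) ^ 2 := by
  have ok := h.ok
  have hw := wg_pos (min (nv x) m)
  by_cases hc : 3 ≤ nv x ∧ 2 ≤ m
  · obtain ⟨ha, hm⟩ := hc
    obtain ⟨h1, h2, h3, h4⟩ := r_bound ha hm
    obtain ⟨r, hr⟩ : ∃ r : ℕ, r = min (nv x / 3) (m / 2) := ⟨_, rfl⟩
    have harm := arm_r h hA hmn ha hm
    rw [← hr] at h1 h2 h3 h4 harm
    have s1 : Pr (fun _ => q) S (fun F => Reach (↑F) (0, 0) x) ≤
        Pr (fun _ => q) S (fun F => LA (0, 0) r F ∧ LA x r F) := by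
      apply Pr_mono ok
      intro F _ hF
      refine ⟨LA_of_reach (u := x) ?_ hF, LA_of_reach (u := (0, 0)) ?_ hF.symm⟩
      · rw [show x - (0, 0) = x by ext <;> simp]
        omega
      · rw [show ((0, 0) : Vtx) - x = -x by ext <;> simp, nv_neg]
        omega
    have s2 := indep2_q ok S (bo (0, 0) r) (bo x r) (bo_disj (by
      rw [show ((0, 0) : Vtx) - x = -x by ext <;> simp, nv_neg]
      omega)) (LA_inc (0, 0) r) (LA_inc x r) (LA_loc (Finset.Subset.refl _))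
      (LA_loc (Finset.Subset.refl _))
    have s3 := pr_LA_q h.q0 h.q1 (bo (0, 0) r) (0, 0) r
    have s4 := pr_LA_q h.q0 h.q1 (bo x r) x r
    have s0 := arm_nonneg h.q0 h.q1 r
    calc Pr (fun _ => q) S (fun F => Reach (↑F) (0, 0) x) ≤ _ := s1.trans s2
      _ ≤ arm q r * arm q r := mul_le_mul s3 s4 (Pr_nonneg ok _ _) s0
      _ ≤ (6 * A * wg (min (nv x) m)) * (6 * A * wg (min (nv x) m)) :=
          mul_le_mul harm harm s0 (by positivity)
      _ ≤ _ := by nlinarith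
  · have hsm : min (nv x) m ≤ 2 := by omega
    have h1 := wg_small hsm
    have h2 := Pr_le_one ok S (fun F => Reach (↑F) (0, 0) x)
    have h3 : 1 ≤ 9 * wg (min (nv x) m) ^ 2 := by nlinarith
    have h4 : 0 ≤ (6 * A) ^ 2 * wg (min (nv x) m) ^ 2 := by positivity
    linarith

theorem wg_sq (k : ℕ) : wg k ^ 2 = ((k:ℝ) + 1) ^ (-(5/24) : ℝ) := by
  unfold wg
  rw [← Real.rpow_natCast, ← Real.rpow_mul (by positivity)]
  norm_num

theorem sum_wg2 {R m : ℕ} (hm : 1 ≤ m) (hR : m ≤ R) :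
    ∑ x ∈ bx R, wg (min (nv x) m) ^ 2 ≤ 41 * (vs R m * (m:ℝ) ^ (-(5/48) : ℝ)) := by
  have hR1 : 1 ≤ R := hm.trans hR
  have hm0 : (0:ℝ) < m := by exact_mod_cast hm
  have hR0 : (0:ℝ) < R := by exact_mod_cast hR1
  have hR1' : (1:ℝ) ≤ R := by exact_mod_cast hR1
  have e0 : vs R m * (m:ℝ) ^ (-(5/48) : ℝ) = (R:ℝ) ^ 2 * (m:ℝ) ^ (-(5/24) : ℝ) := by
    unfold vs
    rw [mul_assoc, ← Real.rpow_add hm0]
    norm_num
  rw [e0]
  have h1 : ∑ x ∈ bx R, wg (min (nv x) m) ^ 2 ≤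
      ∑ x ∈ bx R, wg (nv x) ^ 2 + ∑ _x ∈ bx R, wg m ^ 2 := by
    rw [← Finset.sum_add_distrib]
    apply Finset.sum_le_sum
    intro x _
    have h1 : 0 ≤ wg (nv x) ^ 2 := by positivity
    have h2 : 0 ≤ wg m ^ 2 := by positivity
    rcases min_choice (nv x) m with h | h <;> rw [h] <;> linarith
  have h2 : ∑ x ∈ bx R, wg (nv x) ^ 2 ≤ 32 * ((R:ℝ) ^ 2 * (m:ℝ) ^ (-(5/24) : ℝ)) := by
    refine (sum_bx R (fun k => wg k ^ 2) (fun k => by positivity)).trans ?_
    have h3 : ∑ k ∈ range (R + 1), ((k:ℝ) + 1) * wg k ^ 2 ≤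
        ∑ k ∈ range (R + 1), ((R:ℝ) + 1) ^ (19/24 : ℝ) := by
      apply Finset.sum_le_sum
      intro k hk
      rw [Finset.mem_range] at hk
      have e1 : ((k:ℝ) + 1) * wg k ^ 2 = ((k:ℝ) + 1) ^ (19/24 : ℝ) := by
        rw [wg_sq]
        nth_rewrite 1 [← Real.rpow_one ((k:ℝ) + 1)]
        rw [← Real.rpow_add (by positivity)]
        norm_num
      rw [e1]
      apply Real.rpow_le_rpow (by positivity) _ (by norm_num)
      have : (k:ℝ) + 1 ≤ ((R + 1 : ℕ) : ℝ) := by exact_mod_cast hk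
      push_cast at this
      exact this
    rw [Finset.sum_const, Finset.card_range, nsmul_eq_mul] at h3
    have h4 : ((R + 1 : ℕ) : ℝ) * ((R:ℝ) + 1) ^ (19/24 : ℝ) = ((R:ℝ) + 1) ^ (43/24 : ℝ) := by
      push_cast
      nth_rewrite 1 [← Real.rpow_one ((R:ℝ) + 1)]
      rw [← Real.rpow_add (by positivity)]
      norm_num
    rw [h4] at h3
    have h5 : ((R:ℝ) + 1) ^ (43/24 : ℝ) ≤ 4 * (R:ℝ) ^ (43/24 : ℝ) := by
      calc ((R:ℝ) + 1) ^ (43/24 : ℝ) ≤ (2 * (R:ℝ)) ^ (43/24 : ℝ) :=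
            Real.rpow_le_rpow (by positivity) (by linarith) (by norm_num)
        _ = 2 ^ (43/24 : ℝ) * (R:ℝ) ^ (43/24 : ℝ) := Real.mul_rpow (by norm_num) (by positivity)
        _ ≤ 4 * (R:ℝ) ^ (43/24 : ℝ) := by
            apply mul_le_mul_of_nonneg_right _ (by positivity)
            calc (2:ℝ) ^ (43/24 : ℝ) ≤ 2 ^ (2:ℝ) :=
                  Real.rpow_le_rpow_of_exponent_le (by norm_num) (by norm_num)
              _ = 4 := by norm_num
    have h6 : (R:ℝ) ^ (43/24 : ℝ) ≤ (R:ℝ) ^ 2 * (m:ℝ) ^ (-(5/24) : ℝ) := by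
      have e1 : (R:ℝ) ^ (43/24 : ℝ) = (R:ℝ) ^ 2 * (R:ℝ) ^ (-(5/24) : ℝ) := by
        rw [← Real.rpow_natCast, ← Real.rpow_add hR0]
        norm_num
      rw [e1]
      apply mul_le_mul_of_nonneg_left _ (by positivity)
      exact Real.rpow_le_rpow_of_nonpos hm0 (by exact_mod_cast hR) (by norm_num)
    linarith
  have h3 : ∑ _x ∈ bx R, wg m ^ 2 ≤ 9 * ((R:ℝ) ^ 2 * (m:ℝ) ^ (-(5/24) : ℝ)) := by
    rw [Finset.sum_const, nsmul_eq_mul, wg_sq]
    have h4 : ((m:ℝ) + 1) ^ (-(5/24) : ℝ) ≤ (m:ℝ) ^ (-(5/24) : ℝ) :=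
      Real.rpow_le_rpow_of_nonpos hm0 (by linarith) (by norm_num)
    calc ((bx R).card : ℝ) * ((m:ℝ) + 1) ^ (-(5/24) : ℝ) ≤
        (9 * (R:ℝ) ^ 2) * (m:ℝ) ^ (-(5/24) : ℝ) :=
          mul_le_mul (card_bx_le hR1) h4 (by positivity) (by positivity)
      _ = _ := by ring
  linarith

/-- The number of vertices of the box connected to the origin. -/
noncomputable def YY (R : ℕ) (F : Finset Edg) : ℝ := ∑ x ∈ bx R, ind (Reach (↑F) (0, 0) x)

theorem YY_nonneg (R : ℕ) (F : Finset Edg) : 0 ≤ YY R F :=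
  Finset.sum_nonneg fun _ _ => ind_nonneg _

theorem Cn_insert {X : Finset Vtx} (h0 : (0, 0) ∈ X) {x : Vtx} {F : Set Edg} :
    Cn (insert x X) F ↔ Reach F (0, 0) x ∧ Cn X F := by
  constructor
  · intro h
    exact ⟨h _ (Finset.mem_insert_of_mem h0) x (Finset.mem_insert_self _ _),
      fun u hu v hv => h u (Finset.mem_insert_of_mem hu) v (Finset.mem_insert_of_mem hv)⟩
  · rintro ⟨h1, h2⟩ u hu v hv
    have key : ∀ w ∈ insert x X, Reach F (0, 0) w := by
      intro w hw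
      rcases Finset.mem_insert.1 hw with rfl | hw
      · exact h1
      · exact h2 _ h0 w hw
    exact (key u hu).symm.trans (key v hv)

/-- the constant of the connected moments -/
noncomputable def kcn (κ A : ℝ) : ℝ := kmom κ A + ((6 * A) ^ 2 + 9) * 41

theorem kcn_pos {κ A : ℝ} (hκ : 0 < κ) (hA : 0 < A) : 0 < kcn κ A := by
  unfold kcn
  have := kmom_pos hκ hA
  positivity

/-- Connected moments. -/
theorem mom_cn {q κ a' A : ℝ} {n : ℕ} (h : NC q κ a' A n) (hA : 0 < A) {m R : ℕ}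
    (hm : 1 ≤ m) (hmn : m ≤ n) (hR : m ≤ R) {S : Finset Edg} (hS : boxE (R + 2 * m) ⊆ S) (k : ℕ) :
    Ex (fun _ => q) S (fun F => YY R F ^ (k + 1) * 1) ≤
      (kcn κ A * vs R m) ^ (k + 1) * (k + 1).factorial * (m:ℝ) ^ (-(5/48) : ℝ) := by
  have hκ := h.win.kpos
  have hk := kadd_pos hκ hA
  have hvs := vs_pos (hm.trans hR) hm
  have hkm := kmom_pos hκ hA
  have hkc := kcn_pos hκ hA
  have hm0 : (0:ℝ) < m := by exact_mod_cast hm
  have hK0 : 0 ≤ kadd κ A * (81 * vs R m) := by positivity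
  have hKK : kadd κ A * (81 * vs R m) ≤ kcn κ A * vs R m := by
    unfold kcn kmom
    have h1 : 0 ≤ 9 * A * vs R m := by positivity
    have h2 : 0 ≤ ((6 * A) ^ 2 + 9) * 41 * vs R m := by positivity
    linarith
  have h00 : ((0, 0) : Vtx) ∈ bx R := by
    rw [mem_bx_iff']
    simp
  have e1 : Ex (fun _ => q) S (fun F => YY R F ^ (k + 1) * 1) =
      ∑ x ∈ bx R, Ex (fun _ => q) S (fun F => (∑ x ∈ bx R, ind (Reach (↑F) (0, 0) x)) ^ k *
        ind (Cn {x, (0, 0)} ↑F)) := by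
    rw [← Ex_sum]
    apply Ex_congr
    intro F _
    rw [mul_one, ← Finset.mul_sum, pow_succ]
    unfold YY
    congr 1
    apply Finset.sum_congr rfl
    intro x _
    apply ind_congr
    rw [Cn_insert (Finset.mem_singleton_self _)]
    refine ⟨fun h => ⟨h, ?_⟩, fun h => h.1⟩
    intro u hu v hv
    rw [Finset.mem_singleton] at hu hv
    rw [hu, hv]
    exact Reach.refl _ _
  rw [e1]
  have h1 : ∀ x ∈ bx R, Ex (fun _ => q) S (fun F => (∑ x ∈ bx R, ind (Reach (↑F) (0, 0) x)) ^ k *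
        ind (Cn {x, (0, 0)} ↑F)) ≤ (kadd κ A * (81 * vs R m)) ^ k * (k + 1).factorial *
          Pr (fun _ => q) S (fun F => Reach (↑F) (0, 0) x) := by
    intro x hx
    have h2 := mom_gen (p := fun _ => q) h.ok (S := S) (D := bx R)
      (h := fun x F => Reach (↑F) (0, 0) x) (Q := fun X F => Cn X ↑F)
      (ok := fun X => (0, 0) ∈ X ∧ X ⊆ bx R) (K := kadd κ A * (81 * vs R m)) hK0
      (fun X hX x hx => ⟨Finset.mem_insert_of_mem hX.1, Finset.insert_subset hx hX.2⟩)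
      (fun X hX x _ F => Cn_insert hX.1)
      (fun X hX => step_cn (h.anti hmn) hA hm hR ⟨_, hX.1⟩ hX.2 hS) k {x, (0, 0)}
      ⟨by simp, by
        intro y hy
        rw [Finset.mem_insert, Finset.mem_singleton] at hy
        rcases hy with rfl | rfl
        · exact hx
        · exact h00⟩
    refine h2.trans ?_
    have h3 : pf (kadd κ A * (81 * vs R m)) ({x, (0, 0)} : Finset Vtx).card k ≤
        (kadd κ A * (81 * vs R m)) ^ k * (k + 1).factorial := by
      rw [← pf_two]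
      exact pf_mono hK0 Finset.card_le_two k
    refine mul_le_mul h3 ?_ (Pr_nonneg h.ok _ _) (by positivity)
    apply Pr_mono h.ok
    intro F _ hF
    exact hF (0, 0) (by simp) x (by simp)
  refine (Finset.sum_le_sum h1).trans ?_
  rw [← Finset.mul_sum]
  have h2 : ∑ x ∈ bx R, Pr (fun _ => q) S (fun F => Reach (↑F) (0, 0) x) ≤
      (kcn κ A * vs R m) * (m:ℝ) ^ (-(5/48) : ℝ) := by
    calc ∑ x ∈ bx R, Pr (fun _ => q) S (fun F => Reach (↑F) (0, 0) x) ≤
        ∑ x ∈ bx R, ((6 * A) ^ 2 + 9) * wg (min (nv x) m) ^ 2 :=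
          Finset.sum_le_sum fun x _ => two_pt h hA hmn S x
      _ = ((6 * A) ^ 2 + 9) * ∑ x ∈ bx R, wg (min (nv x) m) ^ 2 := by rw [Finset.mul_sum]
      _ ≤ ((6 * A) ^ 2 + 9) * (41 * (vs R m * (m:ℝ) ^ (-(5/48) : ℝ))) :=
          mul_le_mul_of_nonneg_left (sum_wg2 hm hR) (by positivity)
      _ ≤ (kcn κ A * vs R m) * (m:ℝ) ^ (-(5/48) : ℝ) := by
          unfold kcn
          have h1 : 0 ≤ kmom κ A * (vs R m * (m:ℝ) ^ (-(5/48) : ℝ)) := by positivity
          linarith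
  have h3 : (kadd κ A * (81 * vs R m)) ^ k ≤ (kcn κ A * vs R m) ^ k :=
    pow_le_pow_left₀ hK0 hKK k
  have h5 : (0:ℝ) ≤ ((k + 1).factorial : ℝ) := by positivity
  calc (kadd κ A * (81 * vs R m)) ^ k * (k + 1).factorial *
        ∑ x ∈ bx R, Pr (fun _ => q) S (fun F => Reach (↑F) (0, 0) x) ≤
      ((kcn κ A * vs R m) ^ k * (k + 1).factorial) * ((kcn κ A * vs R m) *
        (m:ℝ) ^ (-(5/48) : ℝ)) :=
        mul_le_mul (mul_le_mul_of_nonneg_right h3 h5) h2
          (Finset.sum_nonneg fun _ _ => Pr_nonneg h.ok _ _) (by positivity)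
    _ = _ := by ring

end Pool.Agent.NH39.CV
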