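import Pool.Agent.NH39.C3
import Pool.Agent.Y244.PC.ManyLow

/-! Blocks: walks, block sets of clusters, crossed blocks. -/

set_option autoImplicit false

namespace Pool.Agent.NH39.CV

open Finset H974 Pool.Agent.H160R2.CV Pool.Agent.H160R2.CV.Quad H362P Pool.Agent.Y244.PC

/-! ### walks -/

/-- `o ∈ Γ` and `Γ` is connected through `adj` -/
def Anm {C : Type} (adj : C → C → Prop) (o : C) (Γ : Finset C) : Prop :=
  o ∈ Γ ∧ ∀ P ∈ Γ, Relation.ReflTransGen (fun P Q => adj P Q ∧ P ∈ Γ ∧ Q ∈ Γ) o P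

theorem anm_step {C : Type} (adj : C → C → Prop) (Γ S : Finset C) (o Q : C) (ho : o ∈ S)
    (hQ : Q ∉ S)
    (h : Relation.ReflTransGen (fun P Q => adj P Q ∧ P ∈ Γ ∧ Q ∈ Γ) o Q) :
    ∃ P R, P ∈ S ∧ R ∉ S ∧ R ∈ Γ ∧ adj P R := by
  induction h with
  | refl => exact absurd ho hQ
  | tail _ hst ih =>
    rename_i b c _
    by_cases hb : b ∈ S
    · exact ⟨b, c, hb, hQ, hst.2.2, hst.1⟩
    · exact ih hb

theorem anm_chain {C : Type} (adj : C → C → Prop) (hs : ∀ P Q, adj P Q → adj Q P)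
    (s t : List C) (P R : C) (h : List.IsChain adj (s ++ P :: t)) (hR : adj P R) :
    List.IsChain adj (s ++ P :: R :: P :: t) := by
  rw [List.isChain_append] at h ⊢
  refine ⟨h.1, ?_, ?_⟩
  · rw [List.isChain_cons_cons, List.isChain_cons_cons]
    exact ⟨hR, hs _ _ hR, h.2.1⟩
  · intro x hx y hy
    exact h.2.2 x hx y (by simpa using hy)

theorem anm_walk {C : Type} [DecidableEq C] (adj : C → C → Prop) (hs : ∀ P Q, adj P Q → adj Q P)
    (o : C) (Γ : Finset C) (h : Anm adj o Γ) (k : ℕ) (hk : k + 1 ≤ Γ.card) :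
    ∃ l : List C, List.IsChain adj (o :: l) ∧ (o :: l).toFinset ⊆ Γ ∧
      (o :: l).toFinset.card = k + 1 ∧ l.length = 2 * k := by
  induction k with
  | zero =>
    refine ⟨[], by simp, ?_, by simp, by simp⟩
    simpa using h.1
  | succ k ih =>
    obtain ⟨l, h1, h2, h3, h4⟩ := ih (by omega)
    have hlt : (o :: l).toFinset.card < Γ.card := by omega
    obtain ⟨Q, hQ, hQn⟩ := Finset.exists_mem_notMem_of_card_lt_card hlt
    obtain ⟨P, R, hP, hR, hRΓ, hadj⟩ :=
      anm_step adj Γ (o :: l).toFinset o Q (by simp) hQn (h.2 Q hQ)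
    rw [List.mem_toFinset] at hP
    obtain ⟨s, t, hst⟩ := List.append_of_mem hP
    have h5 := anm_chain adj hs s t P R (hst ▸ h1) hadj
    obtain ⟨l', hl'⟩ : ∃ l', s ++ P :: R :: P :: t = o :: l' := by
      cases s with
      | nil =>
        have : o = P := by simpa using (List.cons_eq_cons.1 hst).1
        exact ⟨R :: P :: t, by rw [this]; rfl⟩
      | cons a s =>
        have : o = a := by simpa using (List.cons_eq_cons.1 hst).1
        exact ⟨s ++ P :: R :: P :: t, by rw [this]; rfl⟩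
    have hset : (o :: l').toFinset = insert R (o :: l).toFinset := by
      rw [← hl', hst]
      ext x
      simp only [List.mem_toFinset, List.mem_append, List.mem_cons, Finset.mem_insert]
      tauto
    refine ⟨l', hl' ▸ h5, ?_, ?_, ?_⟩
    · rw [hset]
      exact Finset.insert_subset hRΓ h2
    · rw [hset, Finset.card_insert_of_notMem hR, h3]
    · have e1 : (s ++ P :: R :: P :: t).length = (o :: l').length := by rw [hl']
      have e2 : (o :: l).length = (s ++ P :: t).length := by rw [hst]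
      simp only [List.length_append, List.length_cons] at e1 e2
      omega

/-- adjacency of blocks -/
def adjB (P Q : Vtx) : Prop := nv (Q - P) ≤ 1

theorem adjB_symm (P Q : Vtx) (h : adjB P Q) : adjB Q P := by
  unfold adjB at *
  rwa [← nv_neg, neg_sub]

/-- the walks with `k` steps from `o`, without the first vertex -/
noncomputable def WW : ℕ → Vtx → Finset (List Vtx)
  | 0, _ => {[]}
  | k + 1, o => (bx 1).biUnion fun d => (WW k (o + d)).image fun l => (o + d) :: l

theorem card_WW (k : ℕ) (o : Vtx) : (WW k o).card ≤ 9 ^ k := by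
  induction k generalizing o with
  | zero => simp [WW]
  | succ k ih =>
    rw [WW]
    refine le_trans (Finset.card_biUnion_le_card_mul _ _ (9 ^ k) ?_) ?_
    · intro Q _
      exact le_trans Finset.card_image_le (ih _)
    · have h9 : (bx 1).card = 9 := by
        unfold bx
        rw [Finset.card_product, Int.card_Icc]
        rfl
      rw [h9, pow_succ, mul_comm]

theorem mem_WW (l : List Vtx) (o : Vtx) (h : List.IsChain adjB (o :: l)) : l ∈ WW l.length o := by
  induction l generalizing o with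
  | nil => simp [WW]
  | cons Q l ih =>
    rw [List.length_cons, WW]
    rw [List.isChain_cons_cons] at h
    rw [Finset.mem_biUnion]
    refine ⟨Q - o, ?_, ?_⟩
    · have := h.1
      unfold adjB nv at this
      rw [mem_bx_iff']
      simp only [Prod.fst_sub, Prod.snd_sub] at this ⊢
      omega
    · rw [Finset.mem_image]
      exact ⟨l, by rw [add_sub_cancel]; exact ih Q h.2, by rw [add_sub_cancel]⟩

theorem WW_near (k : ℕ) (o : Vtx) (l : List Vtx) (h : l ∈ WW k o) (b : Vtx) (hb : b ∈ o :: l) :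
    nv (b - o) ≤ k := by
  induction k generalizing o l with
  | zero =>
    simp only [WW, Finset.mem_singleton] at h
    rw [h] at hb
    simp only [List.mem_cons, List.not_mem_nil, or_false] at hb
    rw [hb, sub_self]
    simp [nv]
  | succ k ih =>
    rw [WW, Finset.mem_biUnion] at h
    obtain ⟨d, hd, h⟩ := h
    rw [Finset.mem_image] at h
    obtain ⟨l', hl', rfl⟩ := h
    rw [List.mem_cons] at hb
    rcases hb with rfl | hb
    · rw [sub_self]; simp [nv]
    · have h1 := ih (o + d) l' hl' hb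
      rw [mem_bx_iff'] at hd
      unfold nv at h1 ⊢
      simp only [Prod.fst_sub, Prod.snd_sub, Prod.fst_add, Prod.snd_add] at h1 ⊢
      push_cast at hd
      omega

/-- the sets of vertices of the walks with `2 k` steps from the origin -/
noncomputable def AS (k : ℕ) : Finset (Finset Vtx) :=
  (WW (2 * k) (0, 0)).image fun l => ((0, 0) :: l).toFinset

theorem card_AS (k : ℕ) : (AS k).card ≤ 81 ^ k := by
  unfold AS
  refine Finset.card_image_le.trans ((card_WW _ _).trans ?_)
  rw [pow_mul]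
  norm_num

theorem AS_near {k : ℕ} {Γ : Finset Vtx} (h : Γ ∈ AS k) {b : Vtx} (hb : b ∈ Γ) :
    nv b ≤ 2 * k := by
  unfold AS at h
  rw [Finset.mem_image] at h
  obtain ⟨l, hl, rfl⟩ := h
  rw [List.mem_toFinset] at hb
  have := WW_near _ _ l hl b hb
  rwa [show b - (0, 0) = b by ext <;> simp] at this

theorem exists_AS {Γ : Finset Vtx} (h : Anm adjB (0, 0) Γ) {k : ℕ} (hk : k + 1 ≤ Γ.card) :
    ∃ Δ ∈ AS k, Δ ⊆ Γ ∧ Δ.card = k + 1 := by
  obtain ⟨l, h1, h2, h3, h4⟩ := anm_walk adjB adjB_symm (0, 0) Γ h k hk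
  refine ⟨((0, 0) :: l).toFinset, ?_, h2, h3⟩
  unfold AS
  rw [Finset.mem_image]
  refine ⟨l, ?_, rfl⟩
  rw [← h4]
  exact mem_WW l _ h1

/-! ### the cluster of the origin -/

open Classical in
/-- the cluster of the origin -/
noncomputable def cl0 (F : Finset Edg) : Finset Vtx :=
  ({(0, 0)} ∪ F.image src ∪ F.image tgt).filter (fun u => Reach ↑F (0, 0) u)

theorem mem_cl0 {F : Finset Edg} {u : Vtx} : u ∈ cl0 F ↔ Reach (↑F) (0, 0) u := by
  classical
  unfold cl0
  rw [Finset.mem_filter]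
  refine ⟨fun h => h.2, fun h => ⟨?_, h⟩⟩
  rcases Relation.ReflTransGen.cases_tail h with h1 | ⟨w, _, e, he, hw⟩
  · rw [h1]; simp
  · have he' : e ∈ F := Finset.mem_coe.1 he
    simp only [Finset.mem_union, Finset.mem_singleton, Finset.mem_image]
    rcases hw with ⟨_, h3⟩ | ⟨h2, _⟩
    · right; exact ⟨e, he', h3⟩
    · left; right; exact ⟨e, he', h2⟩

theorem vol_iff {N : ℝ} {F : Finset Edg} : Vol N (↑F) ↔ N ≤ ((cl0 F).card : ℝ) := by
  constructor
  · rintro ⟨T, hT, hr⟩
    refine hT.trans ?_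
    exact_mod_cast Finset.card_le_card (fun u hu => mem_cl0.2 (hr u hu))
  · intro h
    exact ⟨cl0 F, h, fun u hu => mem_cl0.1 hu⟩

/-- the block of a vertex -/
def bi (L : ℕ) (x : Vtx) : Vtx := (x.1 / (L:ℤ), x.2 / (L:ℤ))

/-- the corner of a block -/
def ctr (L : ℕ) (b : Vtx) : Vtx := ((L:ℤ) * b.1, (L:ℤ) * b.2)

theorem bi_near {L : ℕ} (hL : 1 ≤ L) (x : Vtx) : nv (x - ctr L (bi L x)) ≤ L - 1 := by
  have hL' : (0:ℤ) < L := by exact_mod_cast hL
  unfold nv ctr bi
  simp only [Prod.fst_sub, Prod.snd_sub]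
  have h1 := Int.emod_add_mul_ediv x.1 L
  have h2 := Int.emod_add_mul_ediv x.2 L
  have h3 := Int.emod_nonneg x.1 hL'.ne'
  have h4 := Int.emod_nonneg x.2 hL'.ne'
  have h5 := Int.emod_lt_of_pos x.1 hL'
  have h6 := Int.emod_lt_of_pos x.2 hL'
  have e1 : x.1 - (L:ℤ) * (x.1 / (L:ℤ)) = x.1 % L := by linarith
  have e2 : x.2 - (L:ℤ) * (x.2 / (L:ℤ)) = x.2 % L := by linarith
  rw [e1, e2]
  omega

theorem div_near {L : ℕ} (hL : 1 ≤ L) {a b : ℤ} (h : a ≤ b + 1) : a / (L:ℤ) ≤ b / (L:ℤ) + 1 := by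
  have hL' : (0:ℤ) < L := by exact_mod_cast hL
  have h1 : a / (L:ℤ) ≤ (b + L * 1) / (L:ℤ) := Int.ediv_le_ediv hL' (by omega)
  rwa [Int.add_mul_ediv_left _ _ hL'.ne'] at h1

theorem bi_adj {L : ℕ} (hL : 1 ≤ L) {F : Set Edg} {u v : Vtx} (h : Adj F u v) :
    adjB (bi L u) (bi L v) := by
  have key : ∀ e : Edg, adjB (bi L (src e)) (bi L (tgt e)) := by
    rintro ⟨x, y, b⟩
    unfold adjB nv bi
    simp only [Prod.fst_sub, Prod.snd_sub]
    have a1 : x / (L:ℤ) ≤ x / (L:ℤ) + 1 := by omega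
    have a2 := div_near hL (a := x + 1) (b := x) le_rfl
    have a3 := div_near hL (a := y + 1) (b := y) le_rfl
    have hL' : (0:ℤ) < L := by exact_mod_cast hL
    have a4 : x / (L:ℤ) ≤ (x + 1) / (L:ℤ) := Int.ediv_le_ediv hL' (by omega)
    have a5 : y / (L:ℤ) ≤ (y + 1) / (L:ℤ) := Int.ediv_le_ediv hL' (by omega)
    cases b
    · simp only [src, tgt_false]; omega
    · simp only [src, tgt_true]; omega
  obtain ⟨e, -, ⟨h1, h2⟩ | ⟨h1, h2⟩⟩ := h
  · rw [← h1, ← h2]; exact key e
  · rw [← h1, ← h2]; exact adjB_symm _ _ (key e)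

/-- the blocks of the cluster of the origin -/
noncomputable def blk (L : ℕ) (F : Finset Edg) : Finset Vtx := (cl0 F).image (bi L)

theorem blk_anm {L : ℕ} (hL : 1 ≤ L) (F : Finset Edg) : Anm adjB (0, 0) (blk L F) := by
  have h0 : bi L (0, 0) = (0, 0) := by unfold bi; simp
  have key : ∀ u : Vtx, Reach (↑F) (0, 0) u →
      Relation.ReflTransGen (fun P Q => adjB P Q ∧ P ∈ blk L F ∧ Q ∈ blk L F) (0, 0) (bi L u) := by
    intro u hu
    induction hu with
    | refl => rw [h0]
    | tail h1 h2 ih =>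
      rename_i b c
      refine ih.tail ⟨bi_adj hL h2, ?_, ?_⟩
      · exact Finset.mem_image_of_mem _ (mem_cl0.2 h1)
      · exact Finset.mem_image_of_mem _ (mem_cl0.2 (h1.tail h2))
  refine ⟨?_, ?_⟩
  · unfold blk
    rw [Finset.mem_image]
    exact ⟨(0, 0), mem_cl0.2 (Reach.refl _ _), h0⟩
  · intro P hP
    unfold blk at hP
    rw [Finset.mem_image] at hP
    obtain ⟨u, hu, rfl⟩ := hP
    exact key u (mem_cl0.1 hu)

end Pool.Agent.NH39.CV
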