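import Pool.Agent.NH39.C4
import Pool.Agent.W424.NC.ArmUp

/-! Block events: crossed blocks and volumes of blocks. -/

set_option autoImplicit false

namespace Pool.Agent.NH39.CV

open Finset H974 Pool.Agent.H160R2.CV Pool.Agent.H160R2.CV.Quad H362P Pool.Agent.Y244.PC
open H12S (Win)

/-! ### crossed blocks -/

/-- the annulus of a block is crossed -/
def XB (L : ℕ) (b : Vtx) (F : Finset Edg) : Prop :=
  ¬ Blk ((L - 1 : ℕ) : ℤ) ((2 * L - 1 : ℕ) : ℤ) (sh (ctr L b) F)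

/-- the edges around a block -/
noncomputable def BX (L : ℕ) (b : Vtx) : Finset Edg := bo (ctr L b) (2 * L)

theorem XB_inc (L : ℕ) (b : Vtx) : IncA (XB L b) := by
  intro F G h hF hG
  apply hF
  have hs : sh (ctr L b) F ⊆ sh (ctr L b) G := sh_mono h
  unfold Blk at hG ⊢
  obtain ⟨h1, h2⟩ := hG
  push Not at h1 h2 ⊢
  exact ⟨⟨fun hh => h1.1 (LRc.mono hs hh), fun hh => h1.2 (LRc.mono hs hh)⟩,
    fun hh => h2.1 (TBc.mono hs hh), fun hh => h2.2 (TBc.mono hs hh)⟩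

theorem XB_loc {L : ℕ} (hL : 1 ≤ L) (b : Vtx) : LocE (BX L b) (XB L b) := by
  intro F
  unfold XB BX
  rw [sh_inter, sh_bo]
  exact Pool.Agent.W424.NC.Blk_loc (n := L - 1) (m := 2 * L - 1) (by omega)
    (S := boxE (2 * L)) ((Pool.Agent.W424.NC.annE_sub _ _).trans (boxE_mono (by omega))) _

theorem pr_sh_q (q : ℝ) (z : Vtx) (S : Finset Edg) (A : Finset Edg → Prop) :
    Pr (fun _ => q) S (fun F => A (sh z F)) = Pr (fun _ => q) (sh z S) A :=
  (LSym.pr (trl (-z.1) (-z.2)) q S A).symm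

theorem ex_sh_q (q : ℝ) (z : Vtx) (S : Finset Edg) (f : Finset Edg → ℝ) :
    Ex (fun _ => q) S (fun F => f (sh z F)) = Ex (fun _ => q) (sh z S) f := by
  unfold sh LSym.mp
  rw [Ex_map]

theorem pr_XB {p : ℝ} (h0 : 0 ≤ p) (h1 : p ≤ 1) {N0 : ℕ} (hN : 2 ≤ N0)
    (he : eps (1 - p) N0 ≤ 1 / 100) (j : ℕ) (b : Vtx) (S : Finset Edg) :
    Pr (fun _ => p) S (XB (2 ^ j * N0) b) ≤ (1 / 4) ^ (2 ^ j) := by
  have hL : 1 ≤ 2 ^ j * N0 := by
    have : 0 < 2 ^ j * N0 := by positivity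
    omega
  refine (pr_le_loc_q (okq h0 h1) S _ (XB_inc _ b) (XB_loc hL b)).trans ?_
  unfold XB BX
  rw [pr_sh_q p (ctr (2 ^ j * N0) b) _ (fun G => ¬ Blk ((2 ^ j * N0 - 1 : ℕ) : ℤ)
    ((2 * (2 ^ j * N0) - 1 : ℕ) : ℤ) G), sh_bo]
  exact Pool.Agent.W424.NC.pr_nblk_pow h0 h1 hN he j
    ((Pool.Agent.W424.NC.annE_sub _ _).trans (boxE_mono (by omega)))

theorem not_blk {F : Finset Edg} {R1 R2 : ℤ} (h2 : R1 < R2) {u v : Vtx}
    (hu : inR (-R1) R1 (-R1) R1 u)
    (h : Reach (↑F : Set Edg) u v) (hv : v.1 ≤ -R2 ∨ R2 ≤ v.1 ∨ v.2 ≤ -R2 ∨ R2 ≤ v.2) :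
    ¬ Blk R1 R2 F := by
  obtain ⟨⟨u1, u2⟩, u3, u4⟩ := hu
  obtain ⟨w, k1, k2, k3⟩ := first_exit (a := -R2) (b := R2) (c := -R2) (d := R2)
    (by unfold inR; omega) h hv
  rintro ⟨hb1, hb2⟩
  rcases k2 with k2 | k2 | k2 | k2
  · apply hb1
    right
    obtain ⟨y1, y2, m1, m2, m3, -⟩ := sub_LR (a := -R2) (b := -R1) (c := -R2) (d := R2) (by omega)
      (by rintro x y ⟨-, h⟩ _ _; simp only [Finset.mem_coe, mem_RE_true] at h; omega)
      (by rintro x y ⟨-, h⟩ _ _; simp only [Finset.mem_coe, mem_RE_false] at h; omega)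
      k3.symm k2.le u1
    exact ⟨y1, y2, m1, m2, m3.mono (by rintro e ⟨⟨h4, -⟩, h5⟩; exact ⟨h4, h5⟩)⟩
  · apply hb1
    left
    obtain ⟨y1, y2, m1, m2, m3, -⟩ := sub_LR (a := R1) (b := R2) (c := -R2) (d := R2) (by omega)
      (by rintro x y ⟨-, h⟩ _ _; simp only [Finset.mem_coe, mem_RE_true] at h; omega)
      (by rintro x y ⟨-, h⟩ _ _; simp only [Finset.mem_coe, mem_RE_false] at h; omega)
      k3 u2 k2.ge
    exact ⟨y1, y2, m1, m2, m3.mono (by rintro e ⟨⟨h4, -⟩, h5⟩; exact ⟨h4, h5⟩)⟩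
  · apply hb2
    right
    obtain ⟨y1, y2, m1, m2, m3, -⟩ := sub_TB (a := -R2) (b := R2) (c := -R2) (d := -R1) (by omega)
      (by rintro x y ⟨-, h⟩ _ _; simp only [Finset.mem_coe, mem_RE_false] at h; omega)
      (by rintro x y ⟨-, h⟩ _ _; simp only [Finset.mem_coe, mem_RE_true] at h; omega)
      k3.symm k2.le u3
    exact ⟨y1, y2, m1, m2, m3.mono (by rintro e ⟨⟨h4, -⟩, h5⟩; exact ⟨h4, h5⟩)⟩
  · apply hb2
    left
    obtain ⟨y1, y2, m1, m2, m3, -⟩ := sub_TB (a := -R2) (b := R2) (c := R1) (d := R2) (by omega)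
      (by rintro x y ⟨-, h⟩ _ _; simp only [Finset.mem_coe, mem_RE_false] at h; omega)
      (by rintro x y ⟨-, h⟩ _ _; simp only [Finset.mem_coe, mem_RE_true] at h; omega)
      k3 u4 k2.ge
    exact ⟨y1, y2, m1, m2, m3.mono (by rintro e ⟨⟨h4, -⟩, h5⟩; exact ⟨h4, h5⟩)⟩

theorem XB_of {L : ℕ} (hL : 1 ≤ L) {b u v : Vtx} {F : Finset Edg}
    (hu : nv (u - ctr L b) ≤ L - 1) (hv : 2 * L - 1 ≤ nv (v - ctr L b))
    (h : Reach (↑F) u v) : XB L b F := by
  unfold XB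
  have h1 : Reach (↑(sh (ctr L b) F)) (u - ctr L b) (v - ctr L b) := by
    rw [sh_reach, sub_add_cancel, sub_add_cancel]
    exact h
  refine not_blk (by omega) ?_ h1 ?_
  · unfold nv at hu
    unfold inR
    omega
  · unfold nv at hv
    omega

/-! ### classes of blocks -/

/-- the class of a block -/
def cls (b : Vtx) : Vtx := (b.1 % 5, b.2 % 5)

/-- the classes -/
noncomputable def CL : Finset Vtx := Finset.Icc (0:ℤ) 4 ×ˢ Finset.Icc (0:ℤ) 4

theorem cls_mem (b : Vtx) : cls b ∈ CL := by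
  unfold cls CL
  rw [Finset.mem_product, Finset.mem_Icc, Finset.mem_Icc]
  simp only
  omega

theorem card_CL : CL.card = 25 := by
  unfold CL
  rw [Finset.card_product, Int.card_Icc]
  rfl

theorem BX_disj {L : ℕ} (hL : 1 ≤ L) {b b' : Vtx} (h : cls b = cls b') (hne : b ≠ b') :
    Disjoint (BX L b) (BX L b') := by
  unfold BX
  apply bo_disj
  have hL' : (1:ℤ) ≤ L := by exact_mod_cast hL
  have key : 5 ≤ (b.1 - b'.1).natAbs ∨ 5 ≤ (b.2 - b'.2).natAbs := by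
    unfold cls at h
    have h1 := congrArg Prod.fst h
    have h2 := congrArg Prod.snd h
    simp only at h1 h2
    by_contra hc
    push Not at hc
    apply hne
    ext
    · omega
    · omega
  unfold nv ctr
  simp only [Prod.fst_sub, Prod.snd_sub]
  rw [← mul_sub, ← mul_sub, Int.natAbs_mul, Int.natAbs_mul, Int.natAbs_natCast]
  rcases key with k | k
  · have : L * 5 ≤ L * (b.1 - b'.1).natAbs := Nat.mul_le_mul_left _ k
    omega
  · have : L * 5 ≤ L * (b.2 - b'.2).natAbs := Nat.mul_le_mul_left _ k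
    omega

theorem BX_disj0 {L m : ℕ} (hL : 1 ≤ L) (hm : m ≤ L) {b : Vtx} (hb : 4 ≤ nv b) :
    Disjoint (bo (0, 0) m) (BX L b) := by
  unfold BX
  apply bo_disj
  have hL' : (1:ℤ) ≤ L := by exact_mod_cast hL
  unfold nv ctr at *
  simp only [Prod.fst_sub, Prod.snd_sub, zero_sub, Int.natAbs_neg]
  rw [Int.natAbs_mul, Int.natAbs_mul, Int.natAbs_natCast]
  have hb' : 4 ≤ b.1.natAbs ∨ 4 ≤ b.2.natAbs := by omega
  rcases hb' with k | k
  · have : L * 4 ≤ L * b.1.natAbs := Nat.mul_le_mul_left _ k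
    omega
  · have : L * 4 ≤ L * b.2.natAbs := Nat.mul_le_mul_left _ k
    omega

/-- Many crossed blocks are unlikely. -/
theorem pr_XBs {p : ℝ} (h0 : 0 ≤ p) (h1 : p ≤ 1) {N0 : ℕ} (hN : 2 ≤ N0)
    (he : eps (1 - p) N0 ≤ 1 / 100) (Γ : Finset Vtx) (S : Finset Edg) :
    Pr (fun _ => p) S (fun F => ∀ b ∈ Γ, XB (2 ^ 8 * N0) b F) ≤ ((1 / 4 : ℝ) ^ 10) ^ Γ.card := by
  classical
  have ok := okq h0 h1
  obtain ⟨L, hLdef⟩ : ∃ L : ℕ, L = 2 ^ 8 * N0 := ⟨_, rfl⟩
  have hL : 1 ≤ L := by omega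
  obtain ⟨ρ, -, hρ⟩ := Finset.exists_le_card_fiber_of_nsmul_le_card_of_maps_to (s := Γ) (t := CL)
    (f := cls) (b := (Γ.card : ℚ) / 25) (fun b _ => cls_mem b) ⟨_, cls_mem (0, 0)⟩
    (by rw [card_CL, nsmul_eq_mul]; push_cast; linarith)
  obtain ⟨I, hI⟩ : ∃ I : Finset Vtx, I = Γ.filter (fun b => cls b = ρ) := ⟨_, rfl⟩
  rw [← hI] at hρ
  have hcard : Γ.card ≤ 25 * I.card := by
    have : (Γ.card : ℚ) ≤ 25 * (I.card : ℚ) := by linarith
    exact_mod_cast this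
  have hIΓ : I ⊆ Γ := by rw [hI]; exact Finset.filter_subset _ _
  obtain ⟨S', hS'⟩ : ∃ S' : Finset Edg, S' = S ∪ I.biUnion (BX L) := ⟨_, rfl⟩
  have s1 : Pr (fun _ => p) S (fun F => ∀ b ∈ Γ, XB L b F) ≤
      Pr (fun _ => p) S (fun F => ∀ b ∈ I, XB L b F) :=
    Pr_mono ok (fun F _ hF b hb => hF b (hIΓ hb))
  have s2 : Pr (fun _ => p) S (fun F => ∀ b ∈ I, XB L b F) ≤
      Pr (fun _ => p) S' (fun F => ∀ b ∈ I, XB L b F) := by
    rw [hS']
    exact Pr_mono_set ok Finset.subset_union_left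
      (fun F G h _ hF b hb => XB_inc L b F G h (hF b hb))
  have s3 : Pr (fun _ => p) S' (fun F => ∀ b ∈ I, XB L b F) =
      ∏ b ∈ I, Pr (fun _ => p) S' (XB L b) := by
    apply indep_prod I (XB L) (BX L)
    · intro b hb
      rw [hS']
      exact (Finset.subset_biUnion_of_mem _ hb).trans Finset.subset_union_right
    · intro b hb b' hb' hne
      rw [hI, Finset.mem_filter] at hb hb'
      exact BX_disj hL (hb.2.trans hb'.2.symm) hne
    · intro b _ F
      exact XB_loc hL b F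
  have s4 : ∏ b ∈ I, Pr (fun _ => p) S' (XB L b) ≤ ∏ _b ∈ I, ((1:ℝ) / 4) ^ (2 ^ 8) := by
    apply Finset.prod_le_prod
    · intro b _; exact Pr_nonneg ok _ _
    · intro b _
      rw [hLdef]
      exact pr_XB h0 h1 hN he 8 b S'
  rw [Finset.prod_const] at s4
  rw [← hLdef]
  calc _ ≤ _ := s1.trans s2
    _ = _ := s3
    _ ≤ (((1:ℝ) / 4) ^ (2 ^ 8)) ^ I.card := s4
    _ = ((1:ℝ) / 4) ^ (256 * I.card) := by rw [← pow_mul]; norm_num
    _ ≤ ((1:ℝ) / 4) ^ (10 * Γ.card) := by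
        apply pow_le_pow_of_le_one (by norm_num) (by norm_num)
        omega
    _ = _ := by rw [pow_mul]

/-- Many crossed blocks and an arm at the origin. -/
theorem mk_XBs {p : ℝ} (h0 : 0 ≤ p) (h1 : p ≤ 1) {N0 : ℕ} (hN : 2 ≤ N0)
    (he : eps (1 - p) N0 ≤ 1 / 100) {m : ℕ} (hm : m ≤ 2 ^ 8 * N0) (Γ : Finset Vtx)
    (hΓ : ∀ b ∈ Γ, 4 ≤ nv b) (S : Finset Edg) :
    Pr (fun _ => p) S (fun F => LA (0, 0) m F ∧ ∀ b ∈ Γ, XB (2 ^ 8 * N0) b F) ≤
      arm p m * ((1 / 4 : ℝ) ^ 10) ^ Γ.card := by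
  have ok := okq h0 h1
  obtain ⟨L, hLdef⟩ : ∃ L : ℕ, L = 2 ^ 8 * N0 := ⟨_, rfl⟩
  have hL : 1 ≤ L := by omega
  have s1 := indep2_q ok S (bo (0, 0) m) (Γ.biUnion (BX L)) (by
    rw [Finset.disjoint_biUnion_right]
    intro b hb
    exact BX_disj0 hL (by omega) (hΓ b hb)) (A := LA (0, 0) m)
    (B := fun F => ∀ b ∈ Γ, XB L b F) (LA_inc (0, 0) m)
    (fun F G h hF b hb => XB_inc L b F G h (hF b hb)) (LA_loc (Finset.Subset.refl _)) (by
      intro F
      have key : ∀ b ∈ Γ, (XB L b F ↔ XB L b (F ∩ Γ.biUnion (BX L))) := by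
        intro b hb
        rw [XB_loc hL b F, XB_loc hL b (F ∩ Γ.biUnion (BX L)), Finset.inter_assoc,
          Finset.inter_eq_right.2 (Finset.subset_biUnion_of_mem (BX L) hb)]
      exact ⟨fun h b hb => (key b hb).1 (h b hb), fun h b hb => (key b hb).2 (h b hb)⟩)
  rw [← hLdef]
  refine s1.trans ?_
  have s2 := pr_XBs h0 h1 hN he Γ (Γ.biUnion (BX L))
  rw [← hLdef] at s2
  exact mul_le_mul (pr_LA_q h0 h1 _ _ _) s2 (Pr_nonneg ok _ _) (arm_nonneg h0 h1 m)

/-! ### volumes of blocks -/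

/-- the number of vertices near a block with a far connection -/
noncomputable def ZB (L m : ℕ) (b : Vtx) (F : Finset Edg) : ℝ := ZZ L m (sh (ctr L b) F)

theorem ZB_nonneg (L m : ℕ) (b : Vtx) (F : Finset Edg) : 0 ≤ ZB L m b F := ZZ_nonneg _ _ _

theorem farS_iff {x : Vtx} {m : ℕ} {F : Finset Edg} : FarS x m ↑F ↔ LA x m F := by
  constructor
  · rintro ⟨u, hu, hr⟩
    exact LA_of_reach hu hr
  · intro h
    exact far_of_LA h

theorem farS_loc {x : Vtx} {m : ℕ} {T : Finset Edg} (hT : bo x m ⊆ T) (F : Finset Edg) :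
    FarS x m ↑F ↔ FarS x m ↑(F ∩ T) := by
  rw [farS_iff, farS_iff]
  exact LA_loc hT F

theorem ZZ_loc {R m M : ℕ} (h : R + m ≤ M) (F : Finset Edg) :
    ZZ R m F = ZZ R m (F ∩ boxE M) := by
  unfold ZZ
  apply Finset.sum_congr rfl
  intro x hx
  apply ind_congr
  apply farS_loc
  rw [mem_bx_iff'] at hx
  unfold bo boxE
  apply RE_subset <;> push_cast <;> omega

theorem ZB_loc {L m : ℕ} (hm : m ≤ L) (b : Vtx) (F : Finset Edg) :
    ZB L m b F = ZB L m b (F ∩ BX L b) := by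
  unfold ZB BX
  rw [sh_inter, sh_bo]
  exact ZZ_loc (by omega) _

theorem sh_farS {z x : Vtx} {m : ℕ} {F : Finset Edg} :
    FarS x m ↑(sh z F) ↔ FarS (x + z) m ↑F := by
  unfold FarS
  constructor
  · rintro ⟨u, hu, hr⟩
    refine ⟨u + z, by rwa [add_sub_add_right_eq_sub], sh_reach.1 hr⟩
  · rintro ⟨u, hu, hr⟩
    refine ⟨u - z, ?_, sh_reach.2 (by rwa [sub_add_cancel])⟩
    rwa [sub_sub, add_comm z x]

/-- Exponential moment of the volume of a block. -/
theorem ex_ZB {q κ a' A : ℝ} {n : ℕ} (h : NC q κ a' A n) (hA : 0 < A) {m L : ℕ}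
    (hm : 1 ≤ m) (hmn : m ≤ n) (hL : m ≤ L) {b : Vtx} {S : Finset Edg}
    (hS : bo (ctr L b) (3 * L) ⊆ S) {l : ℝ} (hl : 0 ≤ l)
    (hlB : l * (kmom κ A * vs L m) ≤ 1 / 2) :
    Ex (fun _ => q) S (fun F => Real.exp (l * ZB L m b F)) ≤ 2 := by
  have hκ := h.win.kpos
  have hkm := kmom_pos hκ hA
  have hvs := vs_pos (hm.trans hL) hm
  have h1 : Ex (fun _ => q) S (fun F => Real.exp (l * ZB L m b F)) =
      Ex (fun _ => q) (sh (ctr L b) S) (fun F => Real.exp (l * ZZ L m F) * 1) := by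
    unfold ZB
    rw [ex_sh_q q (ctr L b) S (fun F => Real.exp (l * ZZ L m F))]
    simp only [mul_one]
  rw [h1]
  have hS' : boxE (L + 2 * m) ⊆ sh (ctr L b) S := by
    refine (boxE_mono (show L + 2 * m ≤ 3 * L by omega)).trans ?_
    rw [← sh_bo (ctr L b)]
    exact sh_mono hS
  have h2 := exp_mom (p := fun _ : Edg => q) h.ok (S := sh (ctr L b) S) (f := ZZ L m)
    (g := fun _ => 1) (fun _ => zero_le_one) (B := kmom κ A * vs L m) (G := 1) hl (by positivity)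
    zero_le_one hlB (fun k => mom_all h hA hm hmn hL hS' k)
  refine h2.trans ?_
  linarith

theorem exp_class {Γ : Finset Vtx} (Z : Vtx → ℝ) (l : ℝ) :
    Real.exp (l * ∑ b ∈ Γ, Z b) ≤
      ∑ ρ ∈ CL, (1 / 25) * ∏ b ∈ Γ.filter (fun b => cls b = ρ), Real.exp (25 * l * Z b) := by
  classical
  have h1 : ∑ b ∈ Γ, Z b = ∑ ρ ∈ CL, ∑ b ∈ Γ.filter (fun b => cls b = ρ), Z b :=
    (Finset.sum_fiberwise_of_maps_to (fun b _ => cls_mem b) Z).symm
  have h2 := convexOn_exp.map_sum_le (t := CL) (w := fun _ => (1:ℝ) / 25)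
    (p := fun ρ => 25 * l * ∑ b ∈ Γ.filter (fun b => cls b = ρ), Z b)
    (fun _ _ => by norm_num) (by rw [Finset.sum_const, card_CL]; norm_num) (fun _ _ => Set.mem_univ _)
  have e1 : l * ∑ b ∈ Γ, Z b = ∑ ρ ∈ CL, ((1:ℝ) / 25) • (25 * l * ∑ b ∈ Γ.filter
      (fun b => cls b = ρ), Z b) := by
    rw [h1, Finset.mul_sum]
    apply Finset.sum_congr rfl
    intro ρ _
    rw [smul_eq_mul]
    ring
  rw [e1]
  refine h2.trans (le_of_eq ?_)
  apply Finset.sum_congr rfl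
  intro ρ _
  rw [smul_eq_mul, Finset.mul_sum, Real.exp_sum]

/-- Exponential moment of the volumes of a set of blocks. -/
theorem ex_ZBs {q κ a' A : ℝ} {n : ℕ} (h : NC q κ a' A n) (hA : 0 < A) {m L : ℕ}
    (hm : 1 ≤ m) (hmn : m ≤ n) (hL : m ≤ L) (Γ : Finset Vtx) {S : Finset Edg}
    (hS : ∀ b ∈ Γ, bo (ctr L b) (3 * L) ⊆ S) {l : ℝ} (hl : 0 ≤ l)
    (hlB : 25 * l * (kmom κ A * vs L m) ≤ 1 / 2) :
    Ex (fun _ => q) S (fun F => Real.exp (l * ∑ b ∈ Γ, ZB L m b F)) ≤ 2 ^ Γ.card := by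
  classical
  have ok := h.ok
  have hL1 : 1 ≤ L := hm.trans hL
  have h1 : Ex (fun _ => q) S (fun F => Real.exp (l * ∑ b ∈ Γ, ZB L m b F)) ≤
      Ex (fun _ => q) S (fun F => ∑ ρ ∈ CL, (1 / 25) * ∏ b ∈ Γ.filter (fun b => cls b = ρ),
        Real.exp (25 * l * ZB L m b F)) :=
    Ex_mono ok (fun F _ => exp_class _ l)
  refine h1.trans ?_
  rw [Ex_sum]
  have h2 : ∀ ρ ∈ CL, Ex (fun _ => q) S (fun F => (1 / 25) * ∏ b ∈ Γ.filter (fun b => cls b = ρ),
        Real.exp (25 * l * ZB L m b F)) ≤ (1 / 25) * 2 ^ Γ.card := by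
    intro ρ _
    rw [Ex_mul_left]
    apply mul_le_mul_of_nonneg_left _ (by norm_num)
    rw [Ex_indep_prod (Γ.filter (fun b => cls b = ρ))
      (fun b F => Real.exp (25 * l * ZB L m b F)) (BX L)]
    · calc ∏ b ∈ Γ.filter (fun b => cls b = ρ), Ex (fun _ => q) S
            (fun F => Real.exp (25 * l * ZB L m b F)) ≤
          ∏ _b ∈ Γ.filter (fun b => cls b = ρ), (2:ℝ) := by
            apply Finset.prod_le_prod
            · intro b _
              exact Ex_nonneg ok (fun F _ => (Real.exp_pos _).le)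
            · intro b hb
              rw [Finset.mem_filter] at hb
              exact ex_ZB h hA hm hmn hL (hS b hb.1) (by positivity) hlB
        _ = 2 ^ (Γ.filter (fun b => cls b = ρ)).card := by rw [Finset.prod_const]
        _ ≤ 2 ^ Γ.card :=
            pow_le_pow_right₀ (by norm_num) (Finset.card_le_card (Finset.filter_subset _ _))
    · intro b hb
      rw [Finset.mem_filter] at hb
      refine Finset.Subset.trans ?_ (hS b hb.1)
      unfold BX bo
      apply RE_subset <;> push_cast <;> omega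
    · intro b hb b' hb' hne
      rw [Finset.mem_filter] at hb hb'
      exact BX_disj hL1 (hb.2.trans hb'.2.symm) hne
    · intro b _ F
      show Real.exp (25 * l * ZB L m b F) = Real.exp (25 * l * ZB L m b (F ∩ BX L b))
      rw [← ZB_loc hL]
  refine (Finset.sum_le_sum h2).trans (le_of_eq ?_)
  rw [Finset.sum_const, card_CL, nsmul_eq_mul]
  push_cast
  ring

/-- The volumes of a set of blocks, with an arm at the origin. -/
theorem mk_ZBs {q κ a' A : ℝ} {n : ℕ} (h : NC q κ a' A n) (hA : 0 < A) {m L : ℕ}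
    (hm : 1 ≤ m) (hmn : m ≤ n) (hL : m ≤ L) (Γ : Finset Vtx) {S : Finset Edg}
    (hS : ∀ b ∈ Γ, bo (ctr L b) (3 * L) ⊆ S) (hS0 : boxE (6 * L) ⊆ S) {l : ℝ} (hl : 0 ≤ l)
    (hlB : 100 * l * (kmom κ A * vs (4 * L) m) ≤ 1 / 2) :
    Ex (fun _ => q) S (fun F => Real.exp (l * ∑ b ∈ Γ, ZB L m b F) * ind (LA (0, 0) m F)) ≤
      2 * 2 ^ Γ.card * arm q m := by
  classical
  have ok := h.ok
  have hL1 : 1 ≤ L := hm.trans hL
  have hκ := h.win.kpos
  have hkm := kmom_pos hκ hA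
  have hvs := vs_pos hL1 hm
  have hvs4 : vs (4 * L) m = 16 * vs L m := by unfold vs; push_cast; ring
  have harm := arm_nonneg h.q0 h.q1 m
  obtain ⟨Γ1, hΓ1⟩ : ∃ Γ1, Γ1 = Γ.filter (fun b => 4 ≤ nv b) := ⟨_, rfl⟩
  obtain ⟨Γ2, hΓ2⟩ : ∃ Γ2, Γ2 = Γ.filter (fun b => ¬ 4 ≤ nv b) := ⟨_, rfl⟩
  have hsplit : ∀ F : Finset Edg, ∑ b ∈ Γ, ZB L m b F = ∑ b ∈ Γ1, ZB L m b F +
      ∑ b ∈ Γ2, ZB L m b F := by
    intro F
    rw [hΓ1, hΓ2, Finset.sum_filter_add_sum_filter_not]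
  have hc2 : (Γ2.card : ℝ) ≤ 49 := by
    have h1 : Γ2 ⊆ bx 3 := by
      intro b hb
      rw [hΓ2, Finset.mem_filter] at hb
      rw [mem_bx_iff']
      have := hb.2
      unfold nv at this
      push_cast
      omega
    have h2 : (bx 3).card = 49 := by
      unfold bx
      rw [Finset.card_product, Int.card_Icc]
      rfl
    have h3 := Finset.card_le_card h1
    rw [h2] at h3
    exact_mod_cast h3
  have hnear : ∀ F : Finset Edg, ∑ b ∈ Γ2, ZB L m b F ≤ 49 * ZZ (4 * L) m F := by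
    intro F
    have h1 : ∀ b ∈ Γ2, ZB L m b F ≤ ZZ (4 * L) m F := by
      intro b hb
      rw [hΓ2, Finset.mem_filter] at hb
      have hb2 := hb.2
      unfold ZB ZZ
      have e1 : ∑ x ∈ bx L, ind (FarS x m ↑(sh (ctr L b) F)) =
          ∑ x ∈ (bx L).image (fun x => x + ctr L b), ind (FarS x m ↑F) := by
        rw [Finset.sum_image (fun x _ y _ hxy => add_right_cancel hxy)]
        apply Finset.sum_congr rfl
        intro x _
        rw [ind_congr sh_farS]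
      rw [e1]
      apply Finset.sum_le_sum_of_subset_of_nonneg
      · intro y hy
        rw [Finset.mem_image] at hy
        obtain ⟨x, hx, rfl⟩ := hy
        rw [mem_bx_iff'] at hx ⊢
        unfold nv at hb2
        unfold ctr
        simp only [Prod.fst_add, Prod.snd_add]
        have hL' : (0:ℤ) ≤ L := by positivity
        have b1 : -3 ≤ b.1 ∧ b.1 ≤ 3 := by omega
        have b2 : -3 ≤ b.2 ∧ b.2 ≤ 3 := by omega
        push_cast
        refine ⟨⟨?_, ?_⟩, ?_, ?_⟩ <;> nlinarith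
      · intro x _ _
        exact ind_nonneg _
    refine (Finset.sum_le_sum h1).trans ?_
    rw [Finset.sum_const, nsmul_eq_mul]
    exact mul_le_mul_of_nonneg_right hc2 (ZZ_nonneg _ _ _)
  have hconv : ∀ F : Finset Edg, Real.exp (l * ∑ b ∈ Γ, ZB L m b F) ≤
      1 / 2 * Real.exp (2 * l * ∑ b ∈ Γ1, ZB L m b F) +
        1 / 2 * Real.exp (98 * l * ZZ (4 * L) m F) := by
    intro F
    rw [hsplit, mul_add, Real.exp_add]
    have h1 : Real.exp (2 * l * ∑ b ∈ Γ1, ZB L m b F) =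
        Real.exp (l * ∑ b ∈ Γ1, ZB L m b F) * Real.exp (l * ∑ b ∈ Γ1, ZB L m b F) := by
      rw [← Real.exp_add]; congr 1; ring
    have h2 : Real.exp (l * ∑ b ∈ Γ2, ZB L m b F) * Real.exp (l * ∑ b ∈ Γ2, ZB L m b F) ≤
        Real.exp (98 * l * ZZ (4 * L) m F) := by
      rw [← Real.exp_add]
      apply Real.exp_le_exp.2
      have := mul_le_mul_of_nonneg_left (hnear F) hl
      linarith
    rw [h1]
    nlinarith [sq_nonneg (Real.exp (l * ∑ b ∈ Γ1, ZB L m b F) -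
      Real.exp (l * ∑ b ∈ Γ2, ZB L m b F))]
  have hfar : Ex (fun _ => q) S (fun F => Real.exp (2 * l * ∑ b ∈ Γ1, ZB L m b F) *
      ind (LA (0, 0) m F)) ≤ 2 ^ Γ.card * arm q m := by
    rw [Ex_mul_indep (S := Γ1.biUnion (BX L)) (T := bo (0, 0) m)]
    · refine mul_le_mul ?_ (pr_LA_q h.q0 h.q1 S (0, 0) m) (Pr_nonneg ok _ _) (by positivity)
      refine (ex_ZBs h hA hm hmn hL Γ1 (S := S) ?_ (l := 2 * l) (by positivity) ?_).trans ?_
      · intro b hb
        rw [hΓ1, Finset.mem_filter] at hb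
        exact hS b hb.1
      · rw [hvs4] at hlB
        have h1 : 25 * (2 * l) * (kmom κ A * vs L m) = 50 * (l * (kmom κ A * vs L m)) := by ring
        have h2 : 0 ≤ l * (kmom κ A * vs L m) := by positivity
        rw [h1]
        linarith
      · apply pow_le_pow_right₀ (by norm_num)
        rw [hΓ1]
        exact Finset.card_le_card (Finset.filter_subset _ _)
    · intro e he
      rw [Finset.mem_biUnion] at he
      obtain ⟨b, hb, he⟩ := he
      rw [hΓ1, Finset.mem_filter] at hb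
      refine Finset.mem_of_subset ?_ he
      refine Finset.Subset.trans ?_ (hS b hb.1)
      unfold BX bo
      apply RE_subset <;> push_cast <;> omega
    · refine Finset.Subset.trans ?_ hS0
      unfold bo boxE
      apply RE_subset <;> simp only <;> push_cast <;> omega
    · rw [Finset.disjoint_biUnion_left]
      intro b hb
      rw [hΓ1, Finset.mem_filter] at hb
      exact (BX_disj0 hL1 hL hb.2).symm
    · intro F _
      congr 2
      apply Finset.sum_congr rfl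
      intro b hb
      rw [ZB_loc hL b F, ZB_loc hL b (F ∩ Γ1.biUnion (BX L)), Finset.inter_assoc,
        Finset.inter_eq_right.2 (Finset.subset_biUnion_of_mem (BX L) hb)]
    · intro F _
      exact ind_congr (LA_loc (Finset.Subset.refl _) F)
  have hnr : Ex (fun _ => q) S (fun F => Real.exp (98 * l * ZZ (4 * L) m F) *
      ind (LA (0, 0) m F)) ≤ 2 * arm q m := by
    have hB : 98 * l * (kmom κ A * vs (4 * L) m) ≤ 1 / 2 := by
      have h2 : 0 ≤ l * (kmom κ A * vs (4 * L) m) := by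
        rw [hvs4]; positivity
      linarith
    have h1 := exp_mom (p := fun _ : Edg => q) ok (S := S) (f := ZZ (4 * L) m)
      (g := fun F => ind (LA (0, 0) m F)) (fun _ => ind_nonneg _) (B := kmom κ A * vs (4 * L) m)
      (G := arm q m) (l := 98 * l) (by positivity) (by rw [hvs4]; positivity) harm hB (fun k => by
        have h2 := mom_mark h hA hm hmn (R := 4 * L) (by omega) (S := S)
          ((boxE_mono (by omega)).trans hS0) (v := (0, 0)) (by rw [mem_bx_iff']; simp) k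
        refine le_trans (le_of_eq ?_) h2
        apply Ex_congr
        intro F _
        rw [ind_congr farS_iff])
    refine h1.trans ?_
    apply mul_le_mul_of_nonneg_right _ harm
    linarith
  have h2c : (1:ℝ) ≤ 2 ^ Γ.card := one_le_pow₀ (by norm_num)
  calc Ex (fun _ => q) S (fun F => Real.exp (l * ∑ b ∈ Γ, ZB L m b F) * ind (LA (0, 0) m F)) ≤
      Ex (fun _ => q) S (fun F => 1 / 2 * (Real.exp (2 * l * ∑ b ∈ Γ1, ZB L m b F) *
        ind (LA (0, 0) m F)) + 1 / 2 * (Real.exp (98 * l * ZZ (4 * L) m F) *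
          ind (LA (0, 0) m F))) := by
        apply Ex_mono ok
        intro F _
        have h1 := mul_le_mul_of_nonneg_right (hconv F) (ind_nonneg (LA (0, 0) m F))
        linarith
    _ = 1 / 2 * Ex (fun _ => q) S (fun F => Real.exp (2 * l * ∑ b ∈ Γ1, ZB L m b F) *
        ind (LA (0, 0) m F)) + 1 / 2 * Ex (fun _ => q) S (fun F =>
          Real.exp (98 * l * ZZ (4 * L) m F) * ind (LA (0, 0) m F)) := by
        rw [Ex_add, Ex_mul_left, Ex_mul_left]
    _ ≤ 1 / 2 * (2 ^ Γ.card * arm q m) + 1 / 2 * (2 * arm q m) := by linarith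
    _ ≤ 2 * 2 ^ Γ.card * arm q m := by nlinarith

end Pool.Agent.NH39.CV
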