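import Pool.Agent.NH39.C5
import Pool.Agent.Y244.PC.Bkk

/-! The volume of the cluster of the origin in a finite box: upper bound. -/

set_option autoImplicit false

namespace Pool.Agent.NH39.CV

open Finset H974 Pool.Agent.H160R2.CV Pool.Agent.H160R2.CV.Quad H362P Pool.Agent.Y244.PC
open H12S (Win)

/-! ### geometry of the cluster -/

theorem far_all {m : ℕ} {F : Finset Edg} (h : ¬ cl0 F ⊆ bx (2 * m)) :
    ∀ x ∈ cl0 F, FarS x m ↑F := by
  rw [Finset.not_subset] at h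
  obtain ⟨u, hu, hub⟩ := h
  have hu2 : 2 * m < nv u := by
    by_contra hc
    push Not at hc
    apply hub
    rw [mem_bx_iff']
    unfold nv at hc
    push_cast
    omega
  intro x hx
  rw [mem_cl0] at hx hu
  by_cases hxm : m ≤ nv x
  · refine ⟨(0, 0), ?_, hx.symm⟩
    rw [show ((0, 0) : Vtx) - x = -x by ext <;> simp, nv_neg]
    exact hxm
  · refine ⟨u, ?_, hx.symm.trans hu⟩
    unfold nv at *
    simp only [Prod.fst_sub, Prod.snd_sub]
    omega

theorem zero_cl0 (F : Finset Edg) : (0, 0) ∈ cl0 F := mem_cl0.2 (Reach.refl _ _)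

theorem cl0_le {L m : ℕ} (hL : 1 ≤ L) {F : Finset Edg} (h : ∀ x ∈ cl0 F, FarS x m ↑F) :
    ((cl0 F).card : ℝ) ≤ ∑ b ∈ blk L F, ZB L m b F := by
  classical
  have h1 : (cl0 F).card = ∑ b ∈ blk L F, ((cl0 F).filter (fun x => bi L x = b)).card :=
    Finset.card_eq_sum_card_fiberwise (fun x hx => Finset.mem_image_of_mem _ hx)
  rw [h1]
  push_cast
  apply Finset.sum_le_sum
  intro b _
  unfold ZB ZZ
  have h2 : (((cl0 F).filter (fun x => bi L x = b)).card : ℝ) =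
      ∑ y ∈ ((cl0 F).filter (fun x => bi L x = b)).image (fun x => x - ctr L b), (1:ℝ) := by
    rw [Finset.sum_const, nsmul_eq_mul, mul_one, Finset.card_image_of_injective]
    exact sub_left_injective
  rw [h2]
  have h3 : ∑ y ∈ ((cl0 F).filter (fun x => bi L x = b)).image (fun x => x - ctr L b), (1:ℝ) ≤
      ∑ y ∈ ((cl0 F).filter (fun x => bi L x = b)).image (fun x => x - ctr L b),
        ind (FarS y m ↑(sh (ctr L b) F)) := by
    apply Finset.sum_le_sum
    intro y hy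
    rw [Finset.mem_image] at hy
    obtain ⟨x, hx, rfl⟩ := hy
    rw [Finset.mem_filter] at hx
    rw [ind_of]
    rw [sh_farS, sub_add_cancel]
    exact h x hx.1
  refine h3.trans ?_
  apply Finset.sum_le_sum_of_subset_of_nonneg
  · intro y hy
    rw [Finset.mem_image] at hy
    obtain ⟨x, hx, rfl⟩ := hy
    rw [Finset.mem_filter] at hx
    have h4 := bi_near hL x
    rw [hx.2] at h4
    rw [mem_bx_iff']
    unfold nv at h4
    omega
  · intro _ _ _
    exact ind_nonneg _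

theorem near_blocks {L : ℕ} (hL : 1 ≤ L) {b x : Vtx} (h : nv (x - ctr L b) < 2 * L - 1) :
    bi L x ∈ Finset.Icc (b.1 - 2) (b.1 + 1) ×ˢ Finset.Icc (b.2 - 2) (b.2 + 1) := by
  have hL' : (0:ℤ) < L := by exact_mod_cast hL
  unfold nv ctr at h
  simp only [Prod.fst_sub, Prod.snd_sub] at h
  rw [Finset.mem_product, Finset.mem_Icc, Finset.mem_Icc]
  unfold bi
  simp only
  have key : ∀ a c : ℤ, (c - (L:ℤ) * a).natAbs < 2 * L - 1 →
      a - 2 ≤ c / (L:ℤ) ∧ c / (L:ℤ) ≤ a + 1 := by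
    intro a c hac
    constructor
    · rw [Int.le_ediv_iff_mul_le hL']
      have : (a - 2) * (L:ℤ) = (L:ℤ) * a - 2 * L := by ring
      rw [this]
      omega
    · rw [← Int.lt_add_one_iff, Int.ediv_lt_iff_lt_mul hL']
      have : (a + 1 + 1) * (L:ℤ) = (L:ℤ) * a + 2 * L := by ring
      rw [this]
      omega
  exact ⟨key _ _ (by omega), key _ _ (by omega)⟩

theorem all_XB {L : ℕ} (hL : 1 ≤ L) {F : Finset Edg} (h : 17 ≤ (blk L F).card) :
    ∀ b ∈ blk L F, XB L b F := by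
  intro b hb
  unfold blk at hb
  rw [Finset.mem_image] at hb
  obtain ⟨u, hu, rfl⟩ := hb
  by_contra hc
  have hall : ∀ v ∈ cl0 F, nv (v - ctr L (bi L u)) < 2 * L - 1 := by
    intro v hv
    by_contra hv2
    push Not at hv2
    apply hc
    rw [mem_cl0] at hu hv
    exact XB_of hL (bi_near hL u) hv2 (hu.symm.trans hv)
  have hsub : blk L F ⊆ Finset.Icc ((bi L u).1 - 2) ((bi L u).1 + 1) ×ˢ
      Finset.Icc ((bi L u).2 - 2) ((bi L u).2 + 1) := by
    intro c hcm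
    unfold blk at hcm
    rw [Finset.mem_image] at hcm
    obtain ⟨v, hv, rfl⟩ := hcm
    exact near_blocks hL (hall v hv)
  have h2 := Finset.card_le_card hsub
  rw [Finset.card_product, Int.card_Icc, Int.card_Icc] at h2
  have e1 : ((bi L u).1 + 1 + 1 - ((bi L u).1 - 2)).toNat = 4 := by omega
  have e2 : ((bi L u).2 + 1 + 1 - ((bi L u).2 - 2)).toNat = 4 := by omega
  rw [e1, e2] at h2
  omega

theorem cl0_YY {R : ℕ} {F : Finset Edg} (h : cl0 F ⊆ bx R) : ((cl0 F).card : ℝ) ≤ YY R F := by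
  unfold YY
  calc ((cl0 F).card : ℝ) = ∑ x ∈ cl0 F, (1:ℝ) := by simp
    _ ≤ ∑ x ∈ cl0 F, ind (Reach (↑F) (0, 0) x) := by
        apply Finset.sum_le_sum
        intro x hx
        rw [ind_of (mem_cl0.1 hx)]
    _ ≤ _ := Finset.sum_le_sum_of_subset_of_nonneg h (fun _ _ _ => ind_nonneg _)

/-! ### the three cases -/

/-- Markov's inequality for an exponential. -/
theorem markov_exp {E : Type*} [DecidableEq E] {p : E → ℝ} (hp : Ok p) {S : Finset E}
    {f : Finset E → ℝ} {A : Finset E → Prop} {l N c : ℝ} (hl : 0 ≤ l)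
    (h : Ex p S (fun F => Real.exp (l * f F) * ind (A F)) ≤ c) :
    Pr p S (fun F => A F ∧ N ≤ f F) ≤ c * Real.exp (-(l * N)) := by
  have h1 : Pr p S (fun F => A F ∧ N ≤ f F) ≤
      Ex p S (fun F => Real.exp (-(l * N)) * (Real.exp (l * f F) * ind (A F))) := by
    apply Ex_mono hp
    intro F _
    by_cases hF : A F ∧ N ≤ f F
    · rw [ind_of hF, ind_of hF.1, mul_one, ← Real.exp_add]
      apply Real.one_le_exp
      have := mul_le_mul_of_nonneg_left hF.2 hl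
      linarith
    · rw [ind_not_of hF]
      have := ind_nonneg (A F)
      positivity
  rw [Ex_mul_left] at h1
  have := mul_le_mul_of_nonneg_left h (Real.exp_pos (-(l * N))).le
  linarith

theorem case1 {q κ a' A : ℝ} {n : ℕ} (h : NC q κ a' A n) (hA : 0 < A) {m : ℕ}
    (hm : 1 ≤ m) (hmn : m ≤ n) {S : Finset Edg} (hS : boxE (4 * m) ⊆ S) {l N : ℝ} (hl : 0 ≤ l)
    (hlB : l * (kcn κ A * vs (2 * m) m) ≤ 1 / 2) (hlN : 1 ≤ l * N) :
    Pr (fun _ => q) S (fun F => N ≤ YY (2 * m) F) ≤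
      2 * (m:ℝ) ^ (-(5/48) : ℝ) * Real.exp (-(l * N)) := by
  have ok := h.ok
  have hκ := h.win.kpos
  have hkc := kcn_pos hκ hA
  have hvs := vs_pos (R := 2 * m) (n := m) (by omega) hm
  have hG : 0 ≤ (m:ℝ) ^ (-(5/48) : ℝ) := by positivity
  have h1 := exp_mom1 (p := fun _ : Edg => q) ok (S := S) (f := YY (2 * m)) (g := fun _ => 1)
    (fun _ => zero_le_one) (B := kcn κ A * vs (2 * m) m) (G := (m:ℝ) ^ (-(5/48) : ℝ)) hl
    (by positivity) hG hlB (fun k => mom_cn h hA hm hmn (by omega) (by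
      refine Finset.Subset.trans (boxE_mono ?_) hS
      omega) k)
  have h2 : 2 * (l * (kcn κ A * vs (2 * m) m)) * (m:ℝ) ^ (-(5/48) : ℝ) ≤
      (m:ℝ) ^ (-(5/48) : ℝ) := by
    have : 2 * (l * (kcn κ A * vs (2 * m) m)) ≤ 1 := by linarith
    exact mul_le_of_le_one_left hG this
  have he2 : 2 ≤ Real.exp (l * N) := by
    have h3 : Real.exp 1 ≤ Real.exp (l * N) := Real.exp_le_exp.2 hlN
    have h4 := Real.exp_one_gt_d9
    linarith
  have h3 : Pr (fun _ => q) S (fun F => N ≤ YY (2 * m) F) ≤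
      Ex (fun _ => q) S (fun F => (2 * Real.exp (-(l * N))) *
        ((Real.exp (l * YY (2 * m) F) - 1) * 1)) := by
    apply Ex_mono ok
    intro F _
    have hY : 0 ≤ Real.exp (l * YY (2 * m) F) - 1 := by
      have : 0 ≤ l * YY (2 * m) F := mul_nonneg hl (YY_nonneg _ _)
      have := Real.one_le_exp this
      linarith
    by_cases hF : N ≤ YY (2 * m) F
    · rw [ind_of hF, mul_one]
      have h4 : Real.exp (l * N) ≤ Real.exp (l * YY (2 * m) F) :=
        Real.exp_le_exp.2 (mul_le_mul_of_nonneg_left hF hl)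
      have h5 : Real.exp (-(l * N)) * Real.exp (l * N) = 1 := by
        rw [← Real.exp_add]; simp
      have h6 : 0 < Real.exp (-(l * N)) := Real.exp_pos _
      calc (1:ℝ) = Real.exp (-(l * N)) * Real.exp (l * N) := h5.symm
        _ ≤ Real.exp (-(l * N)) * (2 * (Real.exp (l * YY (2 * m) F) - 1)) := by
            apply mul_le_mul_of_nonneg_left _ h6.le
            linarith
        _ = _ := by ring
    · rw [ind_not_of hF]
      positivity
  rw [Ex_mul_left] at h3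
  have h6 : 0 < Real.exp (-(l * N)) := Real.exp_pos _
  calc _ ≤ _ := h3
    _ ≤ 2 * Real.exp (-(l * N)) * (m:ℝ) ^ (-(5/48) : ℝ) :=
        mul_le_mul_of_nonneg_left (h1.trans h2) (by positivity)
    _ = _ := by ring

theorem near_card {Γ : Finset Vtx} : Γ.card ≤ (Γ.filter (fun b => 4 ≤ nv b)).card + 49 := by
  have h1 : Γ.filter (fun b => ¬ 4 ≤ nv b) ⊆ bx 3 := by
    intro b hb
    rw [Finset.mem_filter] at hb
    rw [mem_bx_iff']
    have := hb.2
    unfold nv at this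
    push_cast
    omega
  have h2 : (bx 3).card = 49 := by
    unfold bx
    rw [Finset.card_product, Int.card_Icc]
    rfl
  have h3 := Finset.card_le_card h1
  rw [h2] at h3
  have h4 := Finset.card_filter_add_card_filter_not (s := Γ) (fun b => 4 ≤ nv b)
  omega

theorem case2 {p : ℝ} (h0 : 0 ≤ p) (h1 : p ≤ 1) {N0 : ℕ} (hN : 2 ≤ N0)
    (he : eps (1 - p) N0 ≤ 1 / 100) {m L : ℕ} (hLd : L = 2 ^ 8 * N0) (hm : m ≤ L) {r k : ℕ}
    (hk : k = r + 48) (S : Finset Edg) :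
    Pr (fun _ => p) S (fun F => LA (0, 0) m F ∧ k + 1 ≤ (blk L F).card) ≤
      arm p m * (81 ^ 48 * Real.exp (-(r:ℝ))) := by
  classical
  have ok := okq h0 h1
  have hL : 1 ≤ L := by omega
  have harm := arm_nonneg h0 h1 m
  have s1 : Pr (fun _ => p) S (fun F => LA (0, 0) m F ∧ k + 1 ≤ (blk L F).card) ≤
      Pr (fun _ => p) S (fun F => ∃ Δ ∈ (AS k).filter (fun Δ => Δ.card = k + 1),
        LA (0, 0) m F ∧ ∀ b ∈ Δ.filter (fun b => 4 ≤ nv b), XB L b F) := by
    apply Pr_mono ok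
    rintro F _ ⟨hF1, hF2⟩
    obtain ⟨Δ, hΔ, hsub, hcard⟩ := exists_AS (blk_anm hL F) hF2
    have h17 : 17 ≤ (blk L F).card := le_trans (by omega) hF2
    refine ⟨Δ, ?_, hF1, fun b hb => ?_⟩
    · rw [Finset.mem_filter]
      exact ⟨hΔ, hcard⟩
    · exact all_XB hL h17 b (hsub (Finset.mem_filter.1 hb).1)
  refine s1.trans ((Pool.Agent.Y244.PC.Pr_exists_le ok S _ _).trans ?_)
  have s2 : ∀ Δ ∈ (AS k).filter (fun Δ => Δ.card = k + 1),
      Pr (fun _ => p) S (fun F => LA (0, 0) m F ∧ ∀ b ∈ Δ.filter (fun b => 4 ≤ nv b),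
        XB L b F) ≤ arm p m * ((1 / 4 : ℝ) ^ 10) ^ r := by
    intro Δ hΔ
    rw [Finset.mem_filter] at hΔ
    have h5 := mk_XBs h0 h1 hN he (m := m) (by rw [← hLd]; exact hm) (Δ.filter (fun b => 4 ≤ nv b))
      (fun b hb => (Finset.mem_filter.1 hb).2) S
    rw [← hLd] at h5
    refine h5.trans ?_
    apply mul_le_mul_of_nonneg_left _ harm
    apply pow_le_pow_of_le_one (by norm_num) (by norm_num)
    have := near_card (Γ := Δ)
    omega
  refine (Finset.sum_le_sum s2).trans ?_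
  rw [Finset.sum_const, nsmul_eq_mul]
  have s3 : ((((AS k).filter (fun Δ => Δ.card = k + 1)).card : ℕ) : ℝ) ≤
      81 ^ (r + 48) := by
    rw [← hk]
    exact_mod_cast (Finset.card_le_card (Finset.filter_subset _ _)).trans (card_AS k)
  have s4 : (0:ℝ) ≤ arm p m * ((1 / 4 : ℝ) ^ 10) ^ r := by positivity
  refine (mul_le_mul_of_nonneg_right s3 s4).trans ?_
  have s5 : (81:ℝ) ^ (r + 48) * (arm p m * ((1 / 4 : ℝ) ^ 10) ^ r) =
      arm p m * (81 ^ 48 * (81 * (1 / 4 : ℝ) ^ 10) ^ r) := by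
    rw [pow_add, mul_pow 81 ((1 / 4 : ℝ) ^ 10) r]; ring
  rw [s5]
  apply mul_le_mul_of_nonneg_left _ harm
  apply mul_le_mul_of_nonneg_left _ (by positivity)
  have s6 : (81 * (1 / 4 : ℝ) ^ 10) ≤ Real.exp (-1) := by
    rw [Real.exp_neg]
    rw [le_inv_comm₀ (by norm_num) (Real.exp_pos _)]
    have := Real.exp_one_lt_d9
    refine this.le.trans ?_
    norm_num
  calc (81 * (1 / 4 : ℝ) ^ 10) ^ r ≤ (Real.exp (-1)) ^ r := pow_le_pow_left₀ (by positivity) s6 r
    _ = Real.exp (-(r:ℝ)) := by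
        rw [← Real.exp_nat_mul]
        congr 1
        ring

theorem case3 {q κ a' A : ℝ} {n : ℕ} (h : NC q κ a' A n) (hA : 0 < A) {m L : ℕ}
    (hm : 1 ≤ m) (hmn : m ≤ n) (hL : m ≤ L) (k0 : ℕ) {S : Finset Edg}
    (hS : boxE ((2 * k0 + 6) * L) ⊆ S) {l N : ℝ} (hl : 0 ≤ l)
    (hlB : 100 * l * (kmom κ A * vs (4 * L) m) ≤ 1 / 2) :
    Pr (fun _ => q) S (fun F => (LA (0, 0) m F ∧ (blk L F).card ≤ k0) ∧
      N ≤ ∑ b ∈ blk L F, ZB L m b F) ≤ 4 * 162 ^ k0 * arm q m * Real.exp (-(l * N)) := by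
  classical
  have ok := h.ok
  have hL1 : 1 ≤ L := hm.trans hL
  have harm := arm_nonneg h.q0 h.q1 m
  have s1 : Pr (fun _ => q) S (fun F => (LA (0, 0) m F ∧ (blk L F).card ≤ k0) ∧
      N ≤ ∑ b ∈ blk L F, ZB L m b F) ≤
      Pr (fun _ => q) S (fun F => ∃ k ∈ range k0, ∃ Δ ∈ (AS k).filter (fun Δ => Δ.card = k + 1),
        LA (0, 0) m F ∧ N ≤ ∑ b ∈ Δ, ZB L m b F) := by
    apply Pr_mono ok
    rintro F _ ⟨⟨hF1, hF2⟩, hF3⟩
    have hpos : 0 < (blk L F).card := Finset.card_pos.2 ⟨_, (blk_anm hL1 F).1⟩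
    obtain ⟨Δ, hΔ, hsub, hcard⟩ := exists_AS (blk_anm hL1 F) (k := (blk L F).card - 1) (by omega)
    have hΔe : Δ = blk L F := Finset.eq_of_subset_of_card_le hsub (by omega)
    refine ⟨(blk L F).card - 1, Finset.mem_range.2 (by omega), Δ,
      Finset.mem_filter.2 ⟨hΔ, hcard⟩, hF1, ?_⟩
    rw [hΔe]
    exact hF3
  refine s1.trans ((Pool.Agent.Y244.PC.Pr_exists_le ok S _ _).trans ?_)
  have s2 : ∀ k ∈ range k0, Pr (fun _ => q) S (fun F => ∃ Δ ∈ (AS k).filter
      (fun Δ => Δ.card = k + 1), LA (0, 0) m F ∧ N ≤ ∑ b ∈ Δ, ZB L m b F) ≤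
      4 * 162 ^ k * arm q m * Real.exp (-(l * N)) := by
    intro k hk
    rw [Finset.mem_range] at hk
    refine (Pool.Agent.Y244.PC.Pr_exists_le ok S _ _).trans ?_
    have s3 : ∀ Δ ∈ (AS k).filter (fun Δ => Δ.card = k + 1),
        Pr (fun _ => q) S (fun F => LA (0, 0) m F ∧ N ≤ ∑ b ∈ Δ, ZB L m b F) ≤
          (2 * 2 ^ (k + 1) * arm q m) * Real.exp (-(l * N)) := by
      intro Δ hΔ
      rw [Finset.mem_filter] at hΔ
      have hLr : (0:ℤ) ≤ L := by positivity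
      refine markov_exp ok (f := fun F => ∑ b ∈ Δ, ZB L m b F) hl ?_
      have h5 := mk_ZBs h hA hm hmn hL Δ (S := S) ?_ ?_ hl hlB
      · rw [hΔ.2] at h5
        exact h5
      · intro b hb
        have h4 := AS_near hΔ.1 hb
        refine Finset.Subset.trans ?_ hS
        unfold nv at h4
        have b1 : -(2 * (k:ℤ)) ≤ b.1 ∧ b.1 ≤ 2 * k := by omega
        have b2 : -(2 * (k:ℤ)) ≤ b.2 ∧ b.2 ≤ 2 * k := by omega
        have hk' : (k:ℤ) ≤ k0 := by exact_mod_cast hk.le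
        unfold bo boxE ctr
        simp only
        have g1 : (L:ℤ) * b.1 ≤ L * (2 * k0) := mul_le_mul_of_nonneg_left (by linarith) hLr
        have g2 : (L:ℤ) * (-(2 * k0)) ≤ L * b.1 := mul_le_mul_of_nonneg_left (by linarith) hLr
        have g3 : (L:ℤ) * b.2 ≤ L * (2 * k0) := mul_le_mul_of_nonneg_left (by linarith) hLr
        have g4 : (L:ℤ) * (-(2 * k0)) ≤ L * b.2 := mul_le_mul_of_nonneg_left (by linarith) hLr
        have g5 : (((2 * k0 + 6) * L : ℕ) : ℤ) = L * (2 * k0) + 6 * L := by push_cast; ring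
        apply RE_subset <;> rw [g5] <;> push_cast <;> linarith
      · refine (boxE_mono ?_).trans hS
        nlinarith
    refine (Finset.sum_le_sum s3).trans ?_
    rw [Finset.sum_const, nsmul_eq_mul]
    have s4 : ((((AS k).filter (fun Δ => Δ.card = k + 1)).card : ℕ) : ℝ) ≤ 81 ^ k := by
      exact_mod_cast (Finset.card_le_card (Finset.filter_subset _ _)).trans (card_AS k)
    have s5 : (0:ℝ) ≤ (2 * 2 ^ (k + 1) * arm q m) * Real.exp (-(l * N)) := by positivity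
    refine (mul_le_mul_of_nonneg_right s4 s5).trans (le_of_eq ?_)
    rw [show (162:ℝ) = 81 * 2 by norm_num, mul_pow, pow_succ]
    ring
  refine (Finset.sum_le_sum s2).trans ?_
  have s3 : ∑ k ∈ range k0, (162:ℝ) ^ k ≤ 162 ^ k0 := by
    have h5 : ∑ k ∈ range k0, (162:ℝ) ^ k = (162 ^ k0 - 1) / (162 - 1) :=
      geom_sum_eq (by norm_num) k0
    rw [h5, div_le_iff₀ (by norm_num)]
    have : (1:ℝ) ≤ 162 ^ k0 := one_le_pow₀ (by norm_num)
    linarith
  have e1 : ∑ k ∈ range k0, 4 * (162:ℝ) ^ k * arm q m * Real.exp (-(l * N)) =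
      (4 * arm q m * Real.exp (-(l * N))) * ∑ k ∈ range k0, (162:ℝ) ^ k := by
    rw [Finset.mul_sum]
    apply Finset.sum_congr rfl
    intro k _
    ring
  rw [e1]
  refine (mul_le_mul_of_nonneg_left s3 (by positivity)).trans (le_of_eq ?_)
  ring

/-- The constant. -/
noncomputable def KF (A : ℝ) : ℝ := 2 + A * (81 ^ 48 + 4 * 162 ^ 50)

/-- Upper bound for the volume in a large finite box. -/
theorem sub_fin {p κ a' A : ℝ} {n : ℕ} (h : NC p κ a' A n) (hA : 0 < A) {N0 : ℕ} (hN : 2 ≤ N0)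
    (he : eps (1 - p) N0 ≤ 1 / 100) {m : ℕ} (hm : 1 ≤ m) (hmn : m ≤ n) (hmL : m ≤ 2 ^ 8 * N0)
    {l N : ℝ} (hl : 0 ≤ l)
    (hlB : 100 * l * (kcn κ A * vs (4 * (2 ^ 8 * N0)) m) ≤ 1 / 2) (hlN : 1 ≤ l * N) :
    ∀ M : ℕ, Pr (fun _ => p) (boxE M) (fun F => Vol N ↑F) ≤
      KF A * (m:ℝ) ^ (-(5/48) : ℝ) * Real.exp (-(l * N / 12)) := by
  obtain ⟨L, hLdef⟩ : ∃ L : ℕ, L = 2 ^ 8 * N0 := ⟨_, rfl⟩
  rw [← hLdef] at hlB hmL
  have hL1 : 1 ≤ L := by omega
  have ok := h.ok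
  have hκ := h.win.kpos
  have hkc := kcn_pos hκ hA
  have hkm := kmom_pos hκ hA
  have harm := arm_nonneg h.q0 h.q1 m
  have hm0 : (0:ℝ) < m := by exact_mod_cast hm
  have hpi : 0 < (m:ℝ) ^ (-(5/48) : ℝ) := by positivity
  have hvs4 := vs_pos (R := 4 * L) (n := m) (by omega) hm
  obtain ⟨k, hk⟩ : ∃ k : ℕ, k = ⌊l * N / 12⌋₊ := ⟨_, rfl⟩
  have hk1 : (k:ℝ) ≤ l * N / 12 := by rw [hk]; exact Nat.floor_le (by linarith)
  have hk2 : l * N / 12 < k + 1 := by rw [hk]; exact Nat.lt_floor_add_one _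
  -- the box is large enough
  suffices hbig : ∀ M : ℕ, (2 * (k + 49) + 6) * L ≤ M →
      Pr (fun _ => p) (boxE M) (fun F => Vol N ↑F) ≤
        KF A * (m:ℝ) ^ (-(5/48) : ℝ) * Real.exp (-(l * N / 12)) by
    intro M
    refine le_trans ?_ (hbig (M + (2 * (k + 49) + 6) * L) (by omega))
    exact Pr_mono_set ok (boxE_mono (by omega))
      (fun F G hFG _ hF => InfAux.vol_mono (by exact_mod_cast hFG) hF)
  intro M hM
  obtain ⟨S, hS⟩ : ∃ S, S = boxE M := ⟨_, rfl⟩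
  rw [← hS]
  have hSb : ∀ K : ℕ, K ≤ (2 * (k + 49) + 6) * L → boxE K ⊆ S := by
    intro K hK
    rw [hS]
    exact boxE_mono (hK.trans hM)
  have hvs2 : vs (2 * m) m ≤ vs (4 * L) m := by
    unfold vs
    apply mul_le_mul_of_nonneg_right _ hpi.le
    apply pow_le_pow_left₀ (by positivity)
    exact_mod_cast (show 2 * m ≤ 4 * L by omega)
  have t0 : 0 ≤ l * (kcn κ A * vs (4 * L) m) := by positivity
  have t1 : l * (kcn κ A * vs (2 * m) m) ≤ l * (kcn κ A * vs (4 * L) m) :=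
    mul_le_mul_of_nonneg_left (mul_le_mul_of_nonneg_left hvs2 hkc.le) hl
  have t2 : l * (kmom κ A * vs (4 * L) m) ≤ l * (kcn κ A * vs (4 * L) m) := by
    apply mul_le_mul_of_nonneg_left _ hl
    apply mul_le_mul_of_nonneg_right _ hvs4.le
    unfold kcn
    have : 0 ≤ ((6 * A) ^ 2 + 9) * 41 := by positivity
    linarith
  have c1 := case1 h hA hm hmn (S := S) (hSb _ (by nlinarith)) hl (by linarith) hlN
  have c2 := case2 h.q0 h.q1 hN he (m := m) hLdef hmL (r := k + 1) (k := k + 49) rfl S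
  have c3 := case3 h hA hm hmn hmL (k + 49) (S := S) (hSb _ le_rfl) (N := N) hl (by linarith)
  have key : Pr (fun _ => p) S (fun F => Vol N ↑F) ≤
      Pr (fun _ => p) S (fun F => N ≤ YY (2 * m) F) +
      (Pr (fun _ => p) S (fun F => LA (0, 0) m F ∧ (k + 49) + 1 ≤ (blk L F).card) +
        Pr (fun _ => p) S (fun F => (LA (0, 0) m F ∧ (blk L F).card ≤ k + 49) ∧
          N ≤ ∑ b ∈ blk L F, ZB L m b F)) := by
    refine le_trans ?_ ((Pr_or_le ok S _ _).trans (add_le_add le_rfl (Pr_or_le ok S _ _)))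
    apply Pr_mono ok
    intro F _ hF
    rw [vol_iff] at hF
    by_cases hc : cl0 F ⊆ bx (2 * m)
    · left
      exact hF.trans (cl0_YY hc)
    · right
      have hall := far_all hc
      have hLA : LA (0, 0) m F := farS_iff.1 (hall _ (zero_cl0 F))
      by_cases hcard : (k + 49) + 1 ≤ (blk L F).card
      · left
        exact ⟨hLA, hcard⟩
      · right
        exact ⟨⟨hLA, by omega⟩, hF.trans (cl0_le hL1 hall)⟩
  have hexp : 0 < Real.exp (-(l * N / 12)) := Real.exp_pos _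
  have harmA : arm p m ≤ A * (m:ℝ) ^ (-(5/48) : ℝ) := h.hi m hm hmn
  -- first
  have d1 : 2 * (m:ℝ) ^ (-(5/48) : ℝ) * Real.exp (-(l * N)) ≤
      2 * (m:ℝ) ^ (-(5/48) : ℝ) * Real.exp (-(l * N / 12)) := by
    apply mul_le_mul_of_nonneg_left _ (by positivity)
    apply Real.exp_le_exp.2
    linarith
  have d2 : arm p m * (81 ^ 48 * Real.exp (-((k + 1 : ℕ):ℝ))) ≤
      (A * (m:ℝ) ^ (-(5/48) : ℝ)) * (81 ^ 48 * Real.exp (-(l * N / 12))) := by
    apply mul_le_mul harmA _ (by positivity) (by positivity)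
    apply mul_le_mul_of_nonneg_left _ (by positivity)
    apply Real.exp_le_exp.2
    push_cast
    linarith
  have d3 : 4 * 162 ^ (k + 49) * arm p m * Real.exp (-(l * N)) ≤
      (A * (m:ℝ) ^ (-(5/48) : ℝ)) * (4 * 162 ^ 50 * Real.exp (-(l * N / 12))) := by
    have g1 : (162:ℝ) ^ k ≤ Real.exp (l * N / 2) := by
      have g2 : (162:ℝ) ≤ Real.exp 6 := by
        have g3 : (2.7:ℝ) ≤ Real.exp 1 := by
          have := Real.exp_one_gt_d9
          linarith
        have g4 : Real.exp 6 = Real.exp 1 ^ 6 := by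
          rw [← Real.exp_nat_mul]; norm_num
        rw [g4]
        calc (162:ℝ) ≤ 2.7 ^ 6 := by norm_num
          _ ≤ _ := pow_le_pow_left₀ (by norm_num) g3 6
      calc (162:ℝ) ^ k ≤ (Real.exp 6) ^ k := pow_le_pow_left₀ (by norm_num) g2 k
        _ = Real.exp (k * 6) := by rw [← Real.exp_nat_mul]
        _ ≤ Real.exp (l * N / 2) := Real.exp_le_exp.2 (by linarith)
    have g5 : Real.exp (l * N / 2) * Real.exp (-(l * N)) ≤ Real.exp (-(l * N / 12)) := by
      rw [← Real.exp_add]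
      apply Real.exp_le_exp.2
      linarith
    have g6 : (162:ℝ) ^ 49 ≤ 162 ^ 50 := pow_le_pow_right₀ (by norm_num) (by norm_num)
    have g7 : (162:ℝ) ^ k * Real.exp (-(l * N)) ≤ Real.exp (-(l * N / 12)) :=
      (mul_le_mul_of_nonneg_right g1 (Real.exp_pos _).le).trans g5
    have g8 : (162:ℝ) ^ k * Real.exp (-(l * N)) * 162 ^ 49 ≤
        Real.exp (-(l * N / 12)) * 162 ^ 50 :=
      mul_le_mul g7 g6 (by positivity) hexp.le
    calc 4 * 162 ^ (k + 49) * arm p m * Real.exp (-(l * N)) =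
        arm p m * (4 * ((162:ℝ) ^ k * Real.exp (-(l * N)) * 162 ^ 49)) := by
          rw [pow_add]; ring
      _ ≤ (A * (m:ℝ) ^ (-(5/48) : ℝ)) * (4 * (Real.exp (-(l * N / 12)) * 162 ^ 50)) := by
          apply mul_le_mul harmA _ (by positivity) (by positivity)
          exact mul_le_mul_of_nonneg_left g8 (by norm_num)
      _ = _ := by ring
  unfold KF
  calc _ ≤ _ := key
    _ ≤ 2 * (m:ℝ) ^ (-(5/48) : ℝ) * Real.exp (-(l * N / 12)) +
        ((A * (m:ℝ) ^ (-(5/48) : ℝ)) * (81 ^ 48 * Real.exp (-(l * N / 12))) +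
          (A * (m:ℝ) ^ (-(5/48) : ℝ)) * (4 * 162 ^ 50 * Real.exp (-(l * N / 12)))) :=
        add_le_add (c1.trans d1) (add_le_add (c2.trans d2) (c3.trans d3))
    _ = _ := by ring

end Pool.Agent.NH39.CV
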