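import Pool.Agent.NH39.C6
import Pool.Agent.Y554.NC.Theta
import Pool.Agent.H160R2.SA.Arm

/-! The subcritical cluster-size distribution: upper bound, uniformly up to the critical point. -/

set_option autoImplicit false

namespace Pool.Agent.NH39.CV

open Finset H974 Pool.Agent.H160R2.CV Pool.Agent.H160R2.CV.Quad H362P Pool.Agent.Y244.PC
open H12S (Win)
open MeasureTheory Filter

/-! ### passage to the infinite lattice -/

theorem law_box_p (p : unitInterval) (m : ℕ) (Q : Set Edg → Prop) :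
    (bondLaw p).real {ω | Q (opn ω ∩ ↑(boxE m))} =
      Pr (fun _ => (p:ℝ)) (boxE m) (fun F => Q ↑F) := by
  have h := law_event p (boxE m) (fun F => Q ↑F)
  have e : {ω | Q (opn ω ∩ ↑(boxE m))} = {ω | (fun F : Finset Edg => Q ↑F) (FF (boxE m) ω)} := by
    ext ω
    simp only [Set.mem_ofPred_eq, FF_coe]
  rw [e, h]

theorem upper_p (p : unitInterval) (Q : Set Edg → Prop) (hmono : ∀ F G, F ⊆ G → Q F → Q G)
    (hbox : ∀ F, Q F → ∃ m : ℕ, Q (F ∩ ↑(boxE m))) (c : ℝ)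
    (h : ∀ m : ℕ, Pr (fun _ => (p:ℝ)) (boxE m) (fun F => Q ↑F) ≤ c) :
    (bondLaw p).real {ω | Q (opn ω)} ≤ c := by
  have e : {ω : sqLattice.edgeSet → Bool | Q (opn ω)} = ⋃ m : ℕ, {ω | Q (opn ω ∩ ↑(boxE m))} := by
    ext ω
    rw [Set.mem_iUnion]
    constructor
    · intro hω
      exact hbox _ hω
    · rintro ⟨m, hm⟩
      exact hmono _ _ Set.inter_subset_left hm
  have hm : Monotone (fun m : ℕ => {ω : sqLattice.edgeSet → Bool | Q (opn ω ∩ ↑(boxE m))}) := by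
    intro m m' hmm ω hω
    exact hmono _ _ (Set.inter_subset_inter_right _ (InfAux.boxE_coe_mono hmm)) hω
  have h1 := tendsto_measure_iUnion_atTop (μ := bondLaw p) hm
  rw [← e] at h1
  have h2 : Tendsto (fun m : ℕ => (bondLaw p).real {ω | Q (opn ω ∩ ↑(boxE m))}) atTop
      (nhds ((bondLaw p).real {ω | Q (opn ω)})) :=
    (ENNReal.tendsto_toReal (measure_ne_top _ _)).comp h1
  refine le_of_tendsto' h2 (fun m => ?_)
  rw [law_box_p]
  exact h m

theorem lower_p (p : unitInterval) (Q : Set Edg → Prop) (hmono : ∀ F G, F ⊆ G → Q F → Q G)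
    (m : ℕ) :
    Pr (fun _ => (p:ℝ)) (boxE m) (fun F => Q ↑F) ≤ (bondLaw p).real {ω | Q (opn ω)} := by
  rw [← law_box_p]
  exact measureReal_mono (fun ω hω => hmono _ _ Set.inter_subset_left hω)

/-! ### the critical point -/

theorem crit_fin : ∃ C : ℝ, 0 < C ∧ ∀ p : ℝ, 0 ≤ p → p ≤ 1/2 → ∀ N : ℕ, 1 ≤ N → ∀ M : ℕ,
    Pr (fun _ => p) (boxE M) (fun F => Vol N ↑F) ≤ C * (N:ℝ) ^ (-(5/91) : ℝ) := by
  obtain ⟨c, C, hc, hC, h⟩ := sharp_vol Pool.Agent.H160R2.SA.arSharp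
  refine ⟨C, hC, fun p hp0 hp N hN M => ?_⟩
  have h1 : Pr (fun _ => p) (boxE M) (fun F => Vol N ↑F) ≤
      Pr (fun _ => (1/2 : ℝ)) (boxE M) (fun F => Vol N ↑F) := by
    apply Pr_mono_param (okq hp0 (by linarith)) (okq (by norm_num) (by norm_num)) (fun _ => hp)
    exact fun F G hFG _ hF => InfAux.vol_mono (by exact_mod_cast hFG) hF
  have h2 := InfAux.lower (fun F => Vol N F) (fun F G h hF => InfAux.vol_mono h hF) M
  have h3 := (h N hN).2
  have e : {ω : sqLattice.edgeSet → Bool | (N : ℕ∞) ≤ (cluster0 ω).encard} =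
      {ω | Vol N (opn ω)} := by
    ext ω
    exact InfAux.encard_iff ω N
  rw [e] at h3
  exact h1.trans (h2.trans h3)

theorem xexp {x : ℝ} (hx : 1 ≤ x) : x ^ (5/91 : ℝ) ≤ 24 * Real.exp (x / 24) := by
  have h1 : x ^ (5/91 : ℝ) ≤ x ^ (1:ℝ) := Real.rpow_le_rpow_of_exponent_le hx (by norm_num)
  rw [Real.rpow_one] at h1
  have h2 := Real.add_one_le_exp (x / 24)
  linarith

/-- The upper bound near the critical point. -/
theorem sub_near : ∃ b c C : ℝ, 0 < b ∧ b ≤ 1/4 ∧ 0 < c ∧ 0 < C ∧ ∀ p : ℝ, 1/2 - b ≤ p → p < 1/2 →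
    ∀ N : ℕ, 1 ≤ N → ∀ M : ℕ, Pr (fun _ => p) (boxE M) (fun F => Vol N ↑F) ≤
      C * (N:ℝ) ^ (-(5/91) : ℝ) * Real.exp (-(c * (N * (1/2 - p) ^ (91/36 : ℝ)))) := by
  obtain ⟨κ, b0, a, A, hκ, hb0, ha, hA, hnear⟩ := nearA
  obtain ⟨E, hE, hfar⟩ := Pool.Agent.W424.NC.farN
  obtain ⟨C0, hC0, hcrit⟩ := crit_fin
  obtain ⟨b, hb⟩ : ∃ b : ℝ, b = min b0 (1/4) := ⟨_, rfl⟩
  have hb1 : 0 < b := by rw [hb]; exact lt_min hb0 (by norm_num)
  have hb2 : b ≤ 1/4 := by rw [hb]; exact min_le_right _ _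
  have hb3 : b ≤ b0 := by rw [hb]; exact min_le_left _ _
  have hkc := kcn_pos hκ hA
  -- constants
  obtain ⟨D, hD⟩ : ∃ D : ℝ, D = (b ^ (4/3 : ℝ) / 2) ^ (-(5/48) : ℝ) := ⟨_, rfl⟩
  have hD0 : 0 < D := by rw [hD]; positivity
  obtain ⟨W, hW⟩ : ∃ W : ℝ, W = 16 * (2 ^ 8 * E) ^ 2 * D := ⟨_, rfl⟩
  have hW0 : 0 < W := by rw [hW]; positivity
  obtain ⟨c0, hc0⟩ : ∃ c0 : ℝ, c0 = 1 / (200 * kcn κ A * W) := ⟨_, rfl⟩
  have hc00 : 0 < c0 := by rw [hc0]; positivity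
  have hKF : 0 < KF A := by unfold KF; positivity
  refine ⟨b, c0 / 24, C0 * Real.exp 1 + KF A * D * c0 ^ (-(5/91) : ℝ) * 24, hb1, hb2, by positivity,
    by positivity, ?_⟩
  intro p hp hp1 N hN M
  obtain ⟨s, hs⟩ : ∃ s : ℝ, s = 1/2 - p := ⟨_, rfl⟩
  have hs0 : 0 < s := by rw [hs]; linarith
  have hsb : s ≤ b := by rw [hs]; linarith
  have hp0 : 0 ≤ p := by linarith
  obtain ⟨N0, hN0, hNE, hN1, he⟩ := hfar p hp0 hp1
  obtain ⟨n, hn, hn1, hn2, hn3⟩ := Pool.Agent.Y554.NC.scale_exists hb1 hs0 hsb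
  rw [← hs] at hNE hN1 ⊢
  have hN' : (1:ℝ) ≤ N := by exact_mod_cast hN
  have hNp : (0:ℝ) < N := by linarith
  have hn0 : (0:ℝ) < n := by exact_mod_cast hn
  have hs43 : 0 < s ^ (4/3 : ℝ) := by positivity
  have hNC : NC p κ a A n := by
    apply hnear n hn p
    rw [abs_sub_comm, abs_of_pos (by linarith), ← hs]
    refine hn1.trans (mul_le_mul_of_nonneg_right hb3 (by positivity))
  have hbs : (b / s) ^ (4/3 : ℝ) = b ^ (4/3 : ℝ) / s ^ (4/3 : ℝ) := Real.div_rpow hb1.le hs0.le _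
  -- n ≤ N0
  have hnN : (n:ℝ) ≤ N0 := by
    rw [hbs] at hn2
    refine hn2.trans ?_
    rw [div_le_iff₀ hs43]
    refine le_trans ?_ hN1
    exact Real.rpow_le_one hb1.le (by linarith) (by norm_num)
  have hnN' : n ≤ 2 ^ 8 * N0 := by
    have : n ≤ N0 := by exact_mod_cast hnN
    omega
  -- the size of the arm
  have hpi : (n:ℝ) ^ (-(5/48) : ℝ) ≤ D * s ^ (5/36 : ℝ) := by
    have h1 : (b ^ (4/3 : ℝ) / 2) * s ^ (-(4/3) : ℝ) ≤ n := by
      rw [Real.rpow_neg hs0.le]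
      rw [hbs, div_eq_mul_inv] at hn3
      linarith
    have h2 : (n:ℝ) ^ (-(5/48) : ℝ) ≤ ((b ^ (4/3 : ℝ) / 2) * s ^ (-(4/3) : ℝ)) ^ (-(5/48) : ℝ) :=
      Real.rpow_le_rpow_of_nonpos (by positivity) h1 (by norm_num)
    refine h2.trans (le_of_eq ?_)
    rw [Real.mul_rpow (by positivity) (by positivity), ← Real.rpow_mul hs0.le, hD]
    norm_num
  -- the volume scale
  have hvs : vs (4 * (2 ^ 8 * N0)) n ≤ W * s ^ (-(91/36) : ℝ) := by
    unfold vs
    have h1 : (N0:ℝ) ≤ E * s ^ (-(4/3) : ℝ) := by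
      rw [Real.rpow_neg hs0.le, ← div_eq_mul_inv, le_div_iff₀ hs43]
      exact hNE
    have h2 : (((4 * (2 ^ 8 * N0) : ℕ)) : ℝ) ^ 2 ≤ 16 * (2 ^ 8 * E) ^ 2 * s ^ (-(8/3) : ℝ) := by
      have h3 : (((4 * (2 ^ 8 * N0) : ℕ)) : ℝ) ≤ 4 * (2 ^ 8 * (E * s ^ (-(4/3) : ℝ))) := by
        push_cast
        linarith
      calc (((4 * (2 ^ 8 * N0) : ℕ)) : ℝ) ^ 2 ≤ (4 * (2 ^ 8 * (E * s ^ (-(4/3) : ℝ)))) ^ 2 :=
            pow_le_pow_left₀ (by positivity) h3 2
        _ = 16 * (2 ^ 8 * E) ^ 2 * (s ^ (-(4/3) : ℝ)) ^ 2 := by ring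
        _ = _ := by
            rw [← Real.rpow_natCast (s ^ (-(4/3) : ℝ)), ← Real.rpow_mul hs0.le]
            norm_num
    calc (((4 * (2 ^ 8 * N0) : ℕ)) : ℝ) ^ 2 * (n:ℝ) ^ (-(5/48) : ℝ) ≤
        (16 * (2 ^ 8 * E) ^ 2 * s ^ (-(8/3) : ℝ)) * (D * s ^ (5/36 : ℝ)) :=
          mul_le_mul h2 hpi (by positivity) (by positivity)
      _ = W * (s ^ (-(8/3) : ℝ) * s ^ (5/36 : ℝ)) := by rw [hW]; ring
      _ = _ := by rw [← Real.rpow_add hs0]; norm_num
  obtain ⟨l, hl⟩ : ∃ l : ℝ, l = c0 * s ^ (91/36 : ℝ) := ⟨_, rfl⟩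
  have hl0 : 0 < l := by rw [hl]; positivity
  have hlB : 100 * l * (kcn κ A * vs (4 * (2 ^ 8 * N0)) n) ≤ 1 / 2 := by
    calc 100 * l * (kcn κ A * vs (4 * (2 ^ 8 * N0)) n) ≤
        100 * l * (kcn κ A * (W * s ^ (-(91/36) : ℝ))) := by
          apply mul_le_mul_of_nonneg_left _ (by positivity)
          exact mul_le_mul_of_nonneg_left hvs hkc.le
      _ = 100 * c0 * kcn κ A * W * (s ^ (91/36 : ℝ) * s ^ (-(91/36) : ℝ)) := by rw [hl]; ring
      _ = 100 * c0 * kcn κ A * W := by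
          rw [← Real.rpow_add hs0]; norm_num
      _ = 1 / 2 := by
          rw [hc0]
          field_simp
          norm_num
      _ ≤ _ := le_rfl
  have hNpow : 0 < (N:ℝ) ^ (-(5/91) : ℝ) := by positivity
  have htgt : c0 / 24 * (N * s ^ (91/36 : ℝ)) = l * N / 24 := by rw [hl]; ring
  rw [htgt]
  rcases le_or_gt 1 (l * N) with hlN | hlN
  · have h1 := sub_fin hNC hA hN0 he hn le_rfl hnN' hl0.le hlB hlN M
    refine h1.trans ?_
    have h2 : s ^ (5/36 : ℝ) = c0 ^ (-(5/91) : ℝ) * (N:ℝ) ^ (-(5/91) : ℝ) * (l * N) ^ (5/91 : ℝ) := by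
      rw [hl, Real.mul_rpow (by positivity) hNp.le, Real.mul_rpow hc00.le (by positivity),
        ← Real.rpow_mul hs0.le]
      have e1 : c0 ^ (-(5/91) : ℝ) * c0 ^ (5/91 : ℝ) = 1 := by
        rw [← Real.rpow_add hc00]; norm_num
      have e2 : (N:ℝ) ^ (-(5/91) : ℝ) * (N:ℝ) ^ (5/91 : ℝ) = 1 := by
        rw [← Real.rpow_add hNp]; norm_num
      have e3 : s ^ (91/36 * (5/91) : ℝ) = s ^ (5/36 : ℝ) := by norm_num
      rw [e3]
      calc s ^ (5/36 : ℝ) = 1 * 1 * s ^ (5/36 : ℝ) := by ring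
        _ = (c0 ^ (-(5/91) : ℝ) * c0 ^ (5/91 : ℝ)) * ((N:ℝ) ^ (-(5/91) : ℝ) * (N:ℝ) ^ (5/91 : ℝ)) *
            s ^ (5/36 : ℝ) := by rw [e1, e2]
        _ = _ := by ring
    have h3 := xexp hlN
    have h4 : Real.exp (l * N / 24) * Real.exp (-(l * N / 12)) = Real.exp (-(l * N / 24)) := by
      rw [← Real.exp_add]; congr 1; ring
    calc KF A * (n:ℝ) ^ (-(5/48) : ℝ) * Real.exp (-(l * N / 12)) ≤
        KF A * (D * s ^ (5/36 : ℝ)) * Real.exp (-(l * N / 12)) := by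
          apply mul_le_mul_of_nonneg_right _ (Real.exp_pos _).le
          exact mul_le_mul_of_nonneg_left hpi hKF.le
      _ = (KF A * D * c0 ^ (-(5/91) : ℝ)) * (N:ℝ) ^ (-(5/91) : ℝ) *
          ((l * N) ^ (5/91 : ℝ) * Real.exp (-(l * N / 12))) := by rw [h2]; ring
      _ ≤ (KF A * D * c0 ^ (-(5/91) : ℝ)) * (N:ℝ) ^ (-(5/91) : ℝ) *
          ((24 * Real.exp (l * N / 24)) * Real.exp (-(l * N / 12))) := by
          apply mul_le_mul_of_nonneg_left _ (by positivity)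
          exact mul_le_mul_of_nonneg_right h3 (Real.exp_pos _).le
      _ = (KF A * D * c0 ^ (-(5/91) : ℝ) * 24) * (N:ℝ) ^ (-(5/91) : ℝ) *
          Real.exp (-(l * N / 24)) := by rw [mul_assoc 24, h4]; ring
      _ ≤ _ := by
          apply mul_le_mul_of_nonneg_right _ (Real.exp_pos _).le
          apply mul_le_mul_of_nonneg_right _ hNpow.le
          have : 0 < C0 * Real.exp 1 := by positivity
          linarith
  · have h1 := hcrit p hp0 hp1.le N hN M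
    refine h1.trans ?_
    have h2 : 1 ≤ Real.exp 1 * Real.exp (-(l * N / 24)) := by
      rw [← Real.exp_add]
      apply Real.one_le_exp
      linarith
    calc C0 * (N:ℝ) ^ (-(5/91) : ℝ) = C0 * (N:ℝ) ^ (-(5/91) : ℝ) * 1 := by ring
      _ ≤ C0 * (N:ℝ) ^ (-(5/91) : ℝ) * (Real.exp 1 * Real.exp (-(l * N / 24))) :=
          mul_le_mul_of_nonneg_left h2 (by positivity)
      _ = (C0 * Real.exp 1) * (N:ℝ) ^ (-(5/91) : ℝ) * Real.exp (-(l * N / 24)) := by ring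
      _ ≤ _ := by
          apply mul_le_mul_of_nonneg_right _ (Real.exp_pos _).le
          apply mul_le_mul_of_nonneg_right _ hNpow.le
          have : 0 < KF A * D * c0 ^ (-(5/91) : ℝ) * 24 := by positivity
          linarith

/-- The upper bound for all parameters up to the critical point. -/
theorem sub_upper : ∃ c C : ℝ, 0 < c ∧ 0 < C ∧ ∀ p : ℝ, 0 ≤ p → p ≤ 1/2 →
    ∀ N : ℕ, 1 ≤ N → ∀ M : ℕ, Pr (fun _ => p) (boxE M) (fun F => Vol N ↑F) ≤
      C * (N:ℝ) ^ (-(5/91) : ℝ) * Real.exp (-(c * (N * (1/2 - p) ^ (91/36 : ℝ)))) := by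
  obtain ⟨b, c, C, hb, hb4, hc, hC, h⟩ := sub_near
  obtain ⟨C0, hC0, hcrit⟩ := crit_fin
  have hbp : 0 < b ^ (91/36 : ℝ) := by positivity
  have hbp1 : b ^ (91/36 : ℝ) ≤ 1 := Real.rpow_le_one hb.le (by linarith) (by norm_num)
  refine ⟨c * b ^ (91/36 : ℝ), C + C0, by positivity, by positivity, ?_⟩
  intro p hp0 hp N hN M
  have hNp : (0:ℝ) < N := by exact_mod_cast hN
  have hNpow : 0 < (N:ℝ) ^ (-(5/91) : ℝ) := by positivity
  rcases hp.eq_or_lt with heq | hlt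
  · rw [heq]
    have h1 := hcrit (1/2) (by norm_num) le_rfl N hN M
    rw [sub_self, Real.zero_rpow (by norm_num), mul_zero, mul_zero, neg_zero, Real.exp_zero,
      mul_one]
    refine h1.trans ?_
    apply mul_le_mul_of_nonneg_right _ hNpow.le
    linarith
  · have hs0 : 0 ≤ 1/2 - p := by linarith
    have hsp : 0 ≤ (1/2 - p) ^ (91/36 : ℝ) := by positivity
    have hsp1 : (1/2 - p) ^ (91/36 : ℝ) ≤ 1 := Real.rpow_le_one hs0 (by linarith) (by norm_num)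
    rcases le_or_gt (1/2 - b) p with hpb | hpb
    · refine (h p hpb hlt N hN M).trans ?_
      have h1 : Real.exp (-(c * (N * (1/2 - p) ^ (91/36 : ℝ)))) ≤
          Real.exp (-(c * b ^ (91/36 : ℝ) * (N * (1/2 - p) ^ (91/36 : ℝ)))) := by
        apply Real.exp_le_exp.2
        have h2 : c * b ^ (91/36 : ℝ) * (N * (1/2 - p) ^ (91/36 : ℝ)) ≤
            c * 1 * (N * (1/2 - p) ^ (91/36 : ℝ)) := by
          apply mul_le_mul_of_nonneg_right _ (by positivity)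
          exact mul_le_mul_of_nonneg_left hbp1 hc.le
        linarith
      calc C * (N:ℝ) ^ (-(5/91) : ℝ) * Real.exp (-(c * (N * (1/2 - p) ^ (91/36 : ℝ)))) ≤
          (C + C0) * (N:ℝ) ^ (-(5/91) : ℝ) *
            Real.exp (-(c * b ^ (91/36 : ℝ) * (N * (1/2 - p) ^ (91/36 : ℝ)))) := by
            apply mul_le_mul _ h1 (Real.exp_pos _).le (by positivity)
            apply mul_le_mul_of_nonneg_right _ hNpow.le
            linarith
        _ = _ := rfl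
    · have h1 := h (1/2 - b) le_rfl (by linarith) N hN M
      have h2 : Pr (fun _ => p) (boxE M) (fun F => Vol N ↑F) ≤
          Pr (fun _ => 1/2 - b) (boxE M) (fun F => Vol N ↑F) := by
        apply Pr_mono_param (okq hp0 (by linarith)) (okq (by linarith) (by linarith))
          (fun _ => hpb.le)
        exact fun F G hFG _ hF => InfAux.vol_mono (by exact_mod_cast hFG) hF
      refine h2.trans (h1.trans ?_)
      have e1 : 1/2 - (1/2 - b) = b := by ring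
      rw [e1]
      have h3 : Real.exp (-(c * (N * b ^ (91/36 : ℝ)))) ≤
          Real.exp (-(c * b ^ (91/36 : ℝ) * (N * (1/2 - p) ^ (91/36 : ℝ)))) := by
        apply Real.exp_le_exp.2
        have h4 : c * b ^ (91/36 : ℝ) * (N * (1/2 - p) ^ (91/36 : ℝ)) ≤
            c * b ^ (91/36 : ℝ) * (N * 1) := by
          apply mul_le_mul_of_nonneg_left _ (by positivity)
          exact mul_le_mul_of_nonneg_left hsp1 hNp.le
        have h5 : c * b ^ (91/36 : ℝ) * (N * 1) = c * (N * b ^ (91/36 : ℝ)) := by ring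
        linarith
      calc C * (N:ℝ) ^ (-(5/91) : ℝ) * Real.exp (-(c * (N * b ^ (91/36 : ℝ)))) ≤
          (C + C0) * (N:ℝ) ^ (-(5/91) : ℝ) *
            Real.exp (-(c * b ^ (91/36 : ℝ) * (N * (1/2 - p) ^ (91/36 : ℝ)))) := by
            apply mul_le_mul _ h3 (Real.exp_pos _).le (by positivity)
            apply mul_le_mul_of_nonneg_right _ hNpow.le
            linarith
        _ = _ := rfl

end Pool.Agent.NH39.CV
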