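import Pool.Agent.NH39.C7

/-! The subcritical cluster-size distribution: lower bound. -/

set_option autoImplicit false

namespace Pool.Agent.NH39.CV

open Finset H974 Pool.Agent.H160R2.CV Pool.Agent.H160R2.CV.Quad H362P Pool.Agent.Y244.PC
open H12S (Win)
open MeasureTheory Filter

/-! ### arms from a point -/

theorem LA_iff_Arm {x : Vtx} {m : ℕ} {F : Finset Edg} : LA x m F ↔ Arm m (sh x F) := by
  unfold LA Arm
  constructor
  · rintro ⟨w, h1, h2, h3⟩
    refine ⟨w - x, ?_, ?_⟩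
    · unfold onB inR
      unfold inR at h1
      simp only [Prod.fst_sub, Prod.snd_sub]
      omega
    · rw [show ((0, 0) : Vtx) = x - x by rw [sub_self]; rfl, sh_reach_box, sub_add_cancel,
        sub_add_cancel]
      exact h3
  · rintro ⟨v, h1, h3⟩
    refine ⟨v + x, ?_, ?_, ?_⟩
    · unfold onB inR at h1
      unfold inR
      simp only [Prod.fst_add, Prod.snd_add]
      omega
    · unfold onB inR at h1
      simp only [Prod.fst_add, Prod.snd_add]
      omega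
    · rw [sh_reach_box] at h3
      have e : ((0, 0) : Vtx) + x = x := by ext <;> simp
      rwa [e] at h3

theorem pr_LA_eq (q : ℝ) {x : Vtx} {m : ℕ} {S : Finset Edg} (hS : bo x m ⊆ S) :
    Pr (fun _ => q) S (LA x m) = arm q m := by
  have h1 : Pr (fun _ => q) S (LA x m) = Pr (fun _ => q) S (fun F => Arm m (sh x F)) :=
    Pr_congr (fun F _ => LA_iff_Arm)
  rw [h1, pr_sh_q q x S (Arm m)]
  apply pr_Arm
  rw [← sh_bo x m]
  exact sh_mono hS

/-! ### Paley–Zygmund -/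

theorem paley {E : Type*} [DecidableEq E] {p : E → ℝ} (hp : Ok p) {S : Finset E}
    {f : Finset E → ℝ} (hf : ∀ F, 0 ≤ f F) {m1 m2 : ℝ} (hm1 : 0 < m1) (hm2 : 0 < m2)
    (h1 : m1 ≤ Ex p S f) (h2 : Ex p S (fun F => f F ^ 2) ≤ m2) :
    m1 ^ 2 / (4 * m2) ≤ Pr p S (fun F => m1 / 2 ≤ f F) := by
  have hb : ∀ F : Finset E, f F ≤ m1 / 2 + (m1 / (4 * m2) * f F ^ 2 + m2 / m1 *
      ind (m1 / 2 ≤ f F)) := by
    intro F
    by_cases hF : m1 / 2 ≤ f F
    · rw [ind_of hF]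
      have h3 : f F ≤ m1 / (4 * m2) * f F ^ 2 + m2 / m1 := by
        have e : m1 / (4 * m2) * f F ^ 2 + m2 / m1 - f F =
            (m1 * f F - 2 * m2) ^ 2 / (4 * m2 * m1) := by
          field_simp
          ring
        have : 0 ≤ (m1 * f F - 2 * m2) ^ 2 / (4 * m2 * m1) := by positivity
        linarith
      linarith
    · rw [ind_not_of hF]
      push Not at hF
      have : 0 ≤ m1 / (4 * m2) * f F ^ 2 := by positivity
      linarith
  have h3 := Ex_mono hp (S := S) (fun F _ => hb F)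
  rw [Ex_add, Ex_add, Ex_const, Ex_mul_left, Ex_mul_left] at h3
  have h4 : m1 / (4 * m2) * Ex p S (fun F => f F ^ 2) ≤ m1 / 4 := by
    calc m1 / (4 * m2) * Ex p S (fun F => f F ^ 2) ≤ m1 / (4 * m2) * m2 :=
          mul_le_mul_of_nonneg_left h2 (by positivity)
      _ = m1 / 4 := by field_simp
  have h5 : m1 / 4 ≤ m2 / m1 * Pr p S (fun F => m1 / 2 ≤ f F) := by
    unfold Pr
    linarith
  rw [div_le_iff₀ (by positivity)]
  have h6 : m1 / 4 * m1 ≤ m2 * Pr p S (fun F => m1 / 2 ≤ f F) := by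
    calc m1 / 4 * m1 ≤ (m2 / m1 * Pr p S (fun F => m1 / 2 ≤ f F)) * m1 :=
          mul_le_mul_of_nonneg_right h5 hm1.le
      _ = m2 * Pr p S (fun F => m1 / 2 ≤ f F) := by field_simp
  nlinarith

/-- Many vertices with far connections, with positive probability. -/
theorem pr_ZZ {q κ a A : ℝ} {n : ℕ} (h : NC q κ a A n) (ha : 0 < a) (hA : 0 < A) {r : ℕ}
    (hr : 1 ≤ r) (hrn : 4 * r ≤ n) {S : Finset Edg} (hS : boxE (5 * r) ⊆ S) :
    a ^ 2 / (8 * (kmom κ A) ^ 2) ≤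
      Pr (fun _ => q) S (fun F => a * vs r r / 2 ≤ ZZ r (4 * r) F) := by
  have ok := h.ok
  have hκ := h.win.kpos
  have hkm := kmom_pos hκ hA
  have hvs := vs_pos hr hr
  have hr0 : (0:ℝ) < r := by exact_mod_cast hr
  have h1 : a * vs r r ≤ Ex (fun _ => q) S (ZZ r (4 * r)) := by
    unfold ZZ
    rw [Ex_sum]
    have h2 : ∀ x ∈ bx r, a * (4 ^ (-(1:ℝ)) * (r:ℝ) ^ (-(5/48) : ℝ)) ≤
        Ex (fun _ => q) S (fun F => ind (FarS x (4 * r) ↑F)) := by
      intro x hx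
      have h3 : Pr (fun _ => q) S (fun F => FarS x (4 * r) ↑F) = arm q (4 * r) := by
        have h4 : Pr (fun _ => q) S (fun F => FarS x (4 * r) ↑F) =
            Pr (fun _ => q) S (LA x (4 * r)) := Pr_congr (fun F _ => farS_iff)
        rw [h4]
        apply pr_LA_eq
        refine Finset.Subset.trans ?_ hS
        rw [mem_bx_iff'] at hx
        unfold bo boxE
        apply RE_subset <;> push_cast <;> omega
      have h5 := h.lo (4 * r) (by omega) hrn
      show _ ≤ Pr (fun _ => q) S (fun F => FarS x (4 * r) ↑F)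
      rw [h3]
      refine le_trans ?_ h5
      apply mul_le_mul_of_nonneg_left _ ha.le
      push_cast
      rw [Real.mul_rpow (by norm_num) hr0.le]
      apply mul_le_mul_of_nonneg_right _ (by positivity)
      exact Real.rpow_le_rpow_of_exponent_le (by norm_num) (by norm_num)
    refine le_trans ?_ (Finset.sum_le_sum h2)
    rw [Finset.sum_const, nsmul_eq_mul, w_card_bx]
    have h3 : (4:ℝ) ^ (-(1:ℝ)) = 1 / 4 := by rw [Real.rpow_neg (by norm_num), Real.rpow_one]; norm_num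
    rw [h3]
    unfold vs
    have h4 : 4 * (r:ℝ) ^ 2 ≤ (2 * (r:ℝ) + 1) ^ 2 := by nlinarith
    calc a * ((r:ℝ) ^ 2 * (r:ℝ) ^ (-(5/48) : ℝ)) =
        4 * (r:ℝ) ^ 2 * (a * (1 / 4 * (r:ℝ) ^ (-(5/48) : ℝ))) := by ring
      _ ≤ _ := mul_le_mul_of_nonneg_right h4 (by positivity)
  have h2 : Ex (fun _ => q) S (fun F => ZZ r (4 * r) F ^ 2) ≤ 2 * (kmom κ A * vs r r) ^ 2 := by
    have h3 := mom_all h hA hr (by omega) (le_refl r) (S := S)
      ((boxE_mono (by omega)).trans hS) 2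
    have h4 : Ex (fun _ => q) S (fun F => ZZ r (4 * r) F ^ 2) ≤
        Ex (fun _ => q) S (fun F => ZZ r r F ^ 2 * 1) := by
      apply Ex_mono ok
      intro F _
      rw [mul_one]
      apply pow_le_pow_left₀ (ZZ_nonneg _ _ _)
      unfold ZZ
      apply Finset.sum_le_sum
      intro x _
      apply ind_mono
      rintro ⟨u, hu, hr'⟩
      exact ⟨u, by omega, hr'⟩
    refine h4.trans (h3.trans (le_of_eq ?_))
    rw [show (Nat.factorial 2 : ℝ) = 2 by norm_num [Nat.factorial]]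
    ring
  have h3 := paley ok (S := S) (f := ZZ r (4 * r)) (ZZ_nonneg r (4 * r)) (m1 := a * vs r r)
    (m2 := 2 * (kmom κ A * vs r r) ^ 2) (by positivity) (by positivity) h1 h2
  refine le_trans (le_of_eq ?_) h3
  field_simp
  ring

/-! ### the chain of blocks -/

/-- the centres -/
def zj (r j : ℕ) : Vtx := (((3 * r * j : ℕ) : ℤ), 0)

theorem chain_vol {r J : ℕ} (hr : 1 ≤ r) (hJ : 1 ≤ J) {F : Finset Edg}
    (hA : LA (0, 0) (4 * r) F) (hC : ∀ j ∈ range J, CA (zj r j) r (3 * r) F)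
    (hH : LRc (-(4 * r : ℕ)) ((3 * r * J + 4 * r : ℕ)) (-(r:ℤ)) r F) {t : ℝ}
    (hB : ∀ j ∈ range J, t ≤ ZZ r (4 * r) (sh (zj r j) F)) : Vol ((J:ℝ) * t) ↑F := by
  classical
  obtain ⟨y, y', hy, hy', hγ⟩ := hH
  -- points of the crossing
  obtain ⟨v0, hv0⟩ : ∃ v0 : Vtx, v0 = (-((4 * r : ℕ) : ℤ), y) := ⟨_, rfl⟩
  have hpt : ∀ j ∈ range J, ∃ u : Vtx, nv (u - zj r j) ≤ r ∧ Reach (↑F) v0 u := by
    intro j hj
    rw [Finset.mem_range] at hj
    have hj1 : 3 * r * j + 1 ≤ 3 * r * J := by nlinarith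
    obtain ⟨y1, y2, k1, k2, k3, k4⟩ := sub_LR (a := ((3 * r * j : ℕ) : ℤ))
      (b := ((3 * r * J + 4 * r : ℕ) : ℤ)) (c := -(r:ℤ)) (d := r) (by omega)
      (by rintro x y ⟨-, h⟩ _ _; simp only [Finset.mem_coe, mem_LRE_true] at h; omega)
      (by rintro x y ⟨-, h⟩ _ _; simp only [Finset.mem_coe, mem_LRE_false] at h; omega)
      hγ (show -((4 * r : ℕ) : ℤ) ≤ _ by omega) (le_refl _)
    refine ⟨(((3 * r * j : ℕ) : ℤ), y1), ?_, ?_⟩
    · unfold nv zj
      simp only [Prod.fst_sub, Prod.snd_sub]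
      omega
    · rw [hv0]
      exact k4.mono Set.inter_subset_left
  have hv0far : ∀ j, 3 * r ≤ nv (v0 - zj r j) := by
    intro j
    rw [hv0]
    unfold nv zj
    simp only [Prod.fst_sub, Prod.snd_sub]
    have : (0:ℤ) ≤ ((3 * r * j : ℕ) : ℤ) := by positivity
    omega
  -- far connected points of the blocks are connected to the crossing
  have hconn : ∀ j ∈ range J, ∀ x : Vtx, nv (x - zj r j) ≤ r → FarS x (4 * r) ↑F →
      Reach (↑F) v0 x := by
    intro j hj x hx hfar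
    obtain ⟨z, hz, -⟩ := CA_sides (by omega) (hC j hj)
    obtain ⟨u, hu, hru⟩ := hpt j hj
    obtain ⟨w, hw, hrw⟩ := hfar
    have h1 : Reach (↑F) u z := hz u v0 hu (hv0far j) hru.symm
    have h2 : Reach (↑F) x z := hz x w hx (by
      unfold nv at hx hw ⊢
      simp only [Prod.fst_sub, Prod.snd_sub] at hx hw ⊢
      omega) hrw
    exact hru.trans (h1.trans h2.symm)
  have h0 : Reach (↑F) v0 (0, 0) := by
    refine hconn 0 (Finset.mem_range.2 hJ) (0, 0) ?_ (farS_iff.2 hA)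
    unfold nv zj
    simp
  -- the vertices counted in the blocks
  obtain ⟨T, hT⟩ : ∃ T : ℕ → Finset Vtx, T = fun j =>
    ((bx r).filter (fun x => FarS x (4 * r) ↑(sh (zj r j) F))).image (fun x => x + zj r j) :=
    ⟨_, rfl⟩
  have hTc : ∀ j ∈ range J, t ≤ ((T j).card : ℝ) := by
    intro j hj
    refine (hB j hj).trans (le_of_eq ?_)
    rw [hT]
    simp only
    rw [Finset.card_image_of_injective _ (add_left_injective _)]
    unfold ZZ
    rw [w_sum_ind]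
  have hTm : ∀ j, ∀ x ∈ T j, nv (x - zj r j) ≤ r ∧ FarS x (4 * r) ↑F := by
    intro j x hx
    rw [hT] at hx
    simp only [Finset.mem_image, Finset.mem_filter] at hx
    obtain ⟨y, ⟨hy1, hy2⟩, rfl⟩ := hx
    refine ⟨?_, sh_farS.1 hy2⟩
    rw [add_sub_cancel_right]
    rw [mem_bx_iff'] at hy1
    unfold nv
    omega
  have hdisj : ∀ i ∈ range J, ∀ j ∈ range J, i ≠ j → Disjoint (T i) (T j) := by
    intro i _ j _ hij
    rw [Finset.disjoint_left]
    intro x hx1 hx2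
    have h1 := (hTm i x hx1).1
    have h2 := (hTm j x hx2).1
    unfold nv zj at h1 h2
    simp only [Prod.fst_sub, Prod.snd_sub] at h1 h2
    rcases Nat.lt_or_gt_of_ne hij with h | h
    · have : 3 * r * i + 3 * r ≤ 3 * r * j := by nlinarith
      omega
    · have : 3 * r * j + 3 * r ≤ 3 * r * i := by nlinarith
      omega
  refine ⟨(range J).biUnion T, ?_, ?_⟩
  · rw [Finset.card_biUnion hdisj]
    push_cast
    calc (J:ℝ) * t = ∑ _j ∈ range J, t := by rw [Finset.sum_const, Finset.card_range, nsmul_eq_mul]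
      _ ≤ _ := Finset.sum_le_sum hTc
  · intro x hx
    rw [Finset.mem_biUnion] at hx
    obtain ⟨j, hj, hx⟩ := hx
    obtain ⟨h1, h2⟩ := hTm j x hx
    exact h0.symm.trans (hconn j hj x h1 h2)

/-- The probability of the chain. -/
theorem chain_pr {q κ a A : ℝ} {n : ℕ} (h : NC q κ a A n) (ha : 0 < a) (hA : 0 < A) {r : ℕ}
    (hr : 1 ≤ r) (hrn : 4 * r ≤ n) {J : ℕ} (hJ : 1 ≤ J) {M : ℕ} (hM : 3 * r * J + 5 * r ≤ M) :
    a * ((4 * r : ℕ) : ℝ) ^ (-(5/48) : ℝ) * κ ^ (2 * J + 1) *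
      (κ ^ 4 * (a ^ 2 / (8 * (kmom κ A) ^ 2))) ^ J ≤
      Pr (fun _ => q) (boxE M) (fun F => Vol ((J:ℝ) * (a * vs r r / 2)) ↑F) := by
  classical
  have ok := h.ok
  have hκ := h.win.kpos
  have hkm := kmom_pos hκ hA
  obtain ⟨S, hS⟩ : ∃ S, S = boxE M := ⟨_, rfl⟩
  rw [← hS]
  obtain ⟨c1, hc1⟩ : ∃ c1 : ℝ, c1 = a ^ 2 / (8 * (kmom κ A) ^ 2) := ⟨_, rfl⟩
  have hc10 : 0 < c1 := by rw [hc1]; positivity
  rw [← hc1]
  obtain ⟨t, ht⟩ : ∃ t : ℝ, t = a * vs r r / 2 := ⟨_, rfl⟩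
  rw [← ht]
  have hbz : ∀ j ∈ range J, bo (zj r j) (5 * r) ⊆ S := by
    intro j hj
    rw [Finset.mem_range] at hj
    have hle : 3 * r * j ≤ 3 * r * J := Nat.mul_le_mul_left _ hj.le
    obtain ⟨w, hw⟩ : ∃ w : ℕ, w = 3 * r * j := ⟨_, rfl⟩
    rw [hS]
    unfold bo boxE zj
    rw [← hw] at hle ⊢
    apply RE_subset <;> omega
  have e1 : a * ((4 * r : ℕ) : ℝ) ^ (-(5/48) : ℝ) ≤ Pr (fun _ => q) S (LA (0, 0) (4 * r)) := by
    rw [pr_LA_eq]
    · exact h.lo _ (by omega) hrn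
    · rw [hS]
      unfold bo boxE
      apply RE_subset <;> simp only <;> push_cast <;> nlinarith
  have e2 : κ ^ (2 * J + 1) ≤ Pr (fun _ => q) S
      (LRc (-(4 * r : ℕ)) ((3 * r * J + 4 * r : ℕ)) (-(r:ℤ)) r) := by
    rw [pr_LRc]
    · refine (Pool.Agent.W424.NC.hh_long (h.win.anti (show r ≤ n by omega)) hr J).trans ?_
      have hr' : (1:ℤ) ≤ r := by exact_mod_cast hr
      have hJ' : (1:ℤ) ≤ J := by exact_mod_cast hJ
      apply hh_mono h.q0 h.q1
      · push_cast; nlinarith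
      · push_cast; nlinarith
      · omega
    · refine Finset.Subset.trans (LRE_subset_RE) ?_
      rw [hS]
      unfold boxE
      apply RE_subset <;> push_cast <;> nlinarith
  have e3 : ∀ j ∈ range J, κ ^ 4 ≤ Pr (fun _ => q) S (CA (zj r j) r (3 * r)) := by
    intro j hj
    apply pr_CA_q h hr (by omega)
    refine Finset.Subset.trans ?_ (hbz j hj)
    unfold bo
    apply RE_subset <;> push_cast <;> omega
  have e4 : ∀ j ∈ range J, c1 ≤ Pr (fun _ => q) S (fun F => t ≤ ZZ r (4 * r) (sh (zj r j) F)) := by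
    intro j hj
    rw [pr_sh_q q (zj r j) S (fun F => t ≤ ZZ r (4 * r) F), hc1, ht]
    apply pr_ZZ h ha hA hr hrn
    rw [← sh_bo (zj r j)]
    exact sh_mono (hbz j hj)
  -- products
  have f3 : (κ ^ 4) ^ J ≤ Pr (fun _ => q) S (fun F => ∀ j ∈ range J, CA (zj r j) r (3 * r) F) := by
    refine le_trans ?_ (fkg_incr ok (range J) (fun j => CA (zj r j) r (3 * r))
      (fun j _ => CA_incr S (zj r j) r (3 * r)))
    calc (κ ^ 4) ^ J = ∏ _j ∈ range J, κ ^ 4 := by rw [Finset.prod_const, Finset.card_range]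
      _ ≤ _ := Finset.prod_le_prod (fun _ _ => by positivity) e3
  have hBi : ∀ j, IncrE S (fun F => t ≤ ZZ r (4 * r) (sh (zj r j) F)) := by
    intro j F G hFG _ hF
    refine hF.trans ?_
    unfold ZZ
    apply Finset.sum_le_sum
    intro x _
    apply ind_mono
    intro hx
    exact hx.mono (by exact_mod_cast sh_mono hFG)
  have f4 : c1 ^ J ≤ Pr (fun _ => q) S (fun F => ∀ j ∈ range J,
      t ≤ ZZ r (4 * r) (sh (zj r j) F)) := by
    refine le_trans ?_ (fkg_incr ok (range J) (fun j F => t ≤ ZZ r (4 * r) (sh (zj r j) F))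
      (fun j _ => hBi j))
    calc c1 ^ J = ∏ _j ∈ range J, c1 := by rw [Finset.prod_const, Finset.card_range]
      _ ≤ _ := Finset.prod_le_prod (fun _ _ => hc10.le) e4
  -- intersections
  have i1 : IncrE S (LA (0, 0) (4 * r)) := fun F G hFG _ hF => LA_inc _ _ F G hFG hF
  have i2 : IncrE S (LRc (-(4 * r : ℕ)) ((3 * r * J + 4 * r : ℕ)) (-(r:ℤ)) r) := LRc_incr _ _ _ _ _
  have i3 : IncrE S (fun F => ∀ j ∈ range J, CA (zj r j) r (3 * r) F) :=
    fun F G hFG hG hF j hj => CA_incr S (zj r j) r (3 * r) F G hFG hG (hF j hj)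
  have i4 : IncrE S (fun F => ∀ j ∈ range J, t ≤ ZZ r (4 * r) (sh (zj r j) F)) :=
    fun F G hFG hG hF j hj => hBi j F G hFG hG (hF j hj)
  have g1 := Pr_harris ok i1 i2
  have i12 : IncrE S (fun F => LA (0, 0) (4 * r) F ∧
      LRc (-(4 * r : ℕ)) ((3 * r * J + 4 * r : ℕ)) (-(r:ℤ)) r F) :=
    fun F G hFG hG hF => ⟨i1 F G hFG hG hF.1, i2 F G hFG hG hF.2⟩
  have g2 := Pr_harris ok i3 i4
  have i34 : IncrE S (fun F => (∀ j ∈ range J, CA (zj r j) r (3 * r) F) ∧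
      ∀ j ∈ range J, t ≤ ZZ r (4 * r) (sh (zj r j) F)) :=
    fun F G hFG hG hF => ⟨i3 F G hFG hG hF.1, i4 F G hFG hG hF.2⟩
  have g3 := Pr_harris ok i12 i34
  have hr0 : (0:ℝ) < ((4 * r : ℕ) : ℝ) := by
    have : 0 < 4 * r := by omega
    exact_mod_cast this
  have k1 : a * ((4 * r : ℕ) : ℝ) ^ (-(5/48) : ℝ) * κ ^ (2 * J + 1) ≤
      Pr (fun _ => q) S (fun F => LA (0, 0) (4 * r) F ∧
        LRc (-(4 * r : ℕ)) ((3 * r * J + 4 * r : ℕ)) (-(r:ℤ)) r F) :=
    (mul_le_mul e1 e2 (by positivity) (Pr_nonneg ok _ _)).trans g1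
  have k2 : (κ ^ 4) ^ J * c1 ^ J ≤ Pr (fun _ => q) S (fun F =>
      (∀ j ∈ range J, CA (zj r j) r (3 * r) F) ∧
        ∀ j ∈ range J, t ≤ ZZ r (4 * r) (sh (zj r j) F)) :=
    (mul_le_mul f3 f4 (by positivity) (Pr_nonneg ok _ _)).trans g2
  have k3 := (mul_le_mul k1 k2 (by positivity) (Pr_nonneg ok _ _)).trans g3
  rw [mul_pow]
  refine k3.trans ?_
  apply Pr_mono ok
  rintro F _ ⟨⟨h1, h2⟩, h3, h4⟩
  exact chain_vol hr hJ h1 h3 h2 h4

end Pool.Agent.NH39.CV
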