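import Pool.Agent.NH39.C8
import Pool.Agent.W424.NC.ArmLow

/-! The subcritical cluster-size distribution: final lower bound, and both bounds on the infinite
lattice. -/

set_option autoImplicit false

namespace Pool.Agent.NH39.CV

open Finset H974 Pool.Agent.H160R2.CV Pool.Agent.H160R2.CV.Quad H362P Pool.Agent.Y244.PC
open H12S (Win)
open MeasureTheory Filter

/-- The near-critical context for all parameters in `[1/4, 1/2]`. -/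
theorem nearL : ∃ κ a A C : ℝ, 0 < κ ∧ 0 < a ∧ 0 < A ∧ 0 < C ∧ ∀ (p : ℝ) (n : ℕ), 1/4 ≤ p →
    p ≤ 1/2 → 1 ≤ n → ∃ m : ℕ, 1 ≤ m ∧ m ≤ n ∧ NC p κ a A (4 * m) ∧
      (m = n ∨ 1 ≤ C * (m * (1/2 - p) ^ (4/3 : ℝ))) := by
  obtain ⟨κ, a, C, hκ, ha, hC, hG⟩ := Pool.Agent.W424.NC.nearG
  obtain ⟨cc, A, hcc, hA, harm⟩ := Pool.Agent.W424.NC.arm_crit
  refine ⟨κ, a, A, C, hκ, ha, hA, hC, ?_⟩
  intro p n hp hp1 hn
  obtain ⟨m, h1, h2, h3, h4, h5⟩ := hG p n hp hp1 hn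
  refine ⟨m, h1, h2, ⟨h3, h4, ?_⟩, h5⟩
  intro k hk _
  exact (arm_mono_param (by linarith) hp1 (by norm_num) k).trans (harm k hk).2

theorem vs_self {m : ℕ} (hm : 1 ≤ m) : vs m m = (m:ℝ) ^ (91/48 : ℝ) := by
  have hm0 : (0:ℝ) < m := by exact_mod_cast hm
  unfold vs
  rw [← Real.rpow_natCast, ← Real.rpow_add hm0]
  norm_num

/-- The lower bound in finite volume. -/
theorem sub_lower : ∃ c C : ℝ, 0 < c ∧ 0 < C ∧ ∀ p : ℝ, 1/4 ≤ p → p ≤ 1/2 →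
    ∀ N : ℕ, 1 ≤ N → ∃ M : ℕ, c * (N:ℝ) ^ (-(5/91) : ℝ) *
      Real.exp (-(C * (N * (1/2 - p) ^ (91/36 : ℝ)))) ≤
        Pr (fun _ => p) (boxE M) (fun F => Vol N ↑F) := by
  obtain ⟨κ, a, A, C1, hκ, ha, hA, hC1, hG⟩ := nearL
  have hkm := kmom_pos hκ hA
  obtain ⟨c1, hc1⟩ : ∃ c1 : ℝ, c1 = a ^ 2 / (8 * (kmom κ A) ^ 2) := ⟨_, rfl⟩
  have hc10 : 0 < c1 := by rw [hc1]; positivity
  obtain ⟨ρ, hρ⟩ : ∃ ρ : ℝ, ρ = min (κ ^ 6 * c1) 1 := ⟨_, rfl⟩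
  have hρ0 : 0 < ρ := by rw [hρ]; exact lt_min (by positivity) one_pos
  have hρ1 : ρ ≤ 1 := by rw [hρ]; exact min_le_right _ _
  obtain ⟨Λ, hΛ⟩ : ∃ Λ : ℝ, Λ = -Real.log ρ := ⟨_, rfl⟩
  have hΛ0 : 0 ≤ Λ := by
    rw [hΛ]
    have := Real.log_nonpos hρ0.le hρ1
    linarith
  obtain ⟨K0, hK0⟩ : ∃ K0 : ℝ, K0 = 2 / a := ⟨_, rfl⟩
  have hK00 : 0 < K0 := by rw [hK0]; positivity
  obtain ⟨K1, hK1⟩ : ∃ K1 : ℝ, K1 = 2 / a * C1 ^ (91/48 : ℝ) := ⟨_, rfl⟩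
  have hK10 : 0 < K1 := by rw [hK1]; positivity
  refine ⟨a * 8 ^ (-(5/48) : ℝ) * κ * Real.exp (-(Λ * (K0 + 1))), Λ * K1 + 1, by positivity,
    by positivity, ?_⟩
  intro p hp hp1 N hN
  obtain ⟨s, hs⟩ : ∃ s : ℝ, s = 1/2 - p := ⟨_, rfl⟩
  have hs0 : 0 ≤ s := by rw [hs]; linarith
  have hN' : (1:ℝ) ≤ N := by exact_mod_cast hN
  have hNp : (0:ℝ) < N := by linarith
  have hq1 : 1 ≤ (N:ℝ) ^ (48/91 : ℝ) := Real.one_le_rpow hN' (by norm_num)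
  obtain ⟨n, hn⟩ : ∃ n : ℕ, n = ⌈(N:ℝ) ^ (48/91 : ℝ)⌉₊ := ⟨_, rfl⟩
  have hn1 : (N:ℝ) ^ (48/91 : ℝ) ≤ n := by rw [hn]; exact Nat.le_ceil _
  have hn2 : (n:ℝ) ≤ 2 * (N:ℝ) ^ (48/91 : ℝ) := by
    rw [hn]
    have := Nat.ceil_lt_add_one (a := (N:ℝ) ^ (48/91 : ℝ)) (by linarith)
    linarith
  have hn3 : 1 ≤ n := by
    have : (1:ℝ) ≤ n := hq1.trans hn1
    exact_mod_cast this
  obtain ⟨m, hm, hmn, hNC, hcase⟩ := hG p n hp hp1 hn3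
  rw [← hs] at hcase ⊢
  have hm0 : (0:ℝ) < m := by exact_mod_cast hm
  have hvs := vs_pos hm hm
  obtain ⟨t, ht⟩ : ∃ t : ℝ, t = a * vs m m / 2 := ⟨_, rfl⟩
  have ht0 : 0 < t := by rw [ht]; positivity
  obtain ⟨J, hJ⟩ : ∃ J : ℕ, J = ⌈(N:ℝ) / t⌉₊ := ⟨_, rfl⟩
  have hJ1 : 1 ≤ J := by
    rw [hJ]
    exact Nat.one_le_ceil_iff.2 (by positivity)
  have hJt : (N:ℝ) ≤ J * t := by
    have : (N:ℝ) / t ≤ J := by rw [hJ]; exact Nat.le_ceil _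
    rwa [div_le_iff₀ ht0] at this
  have hsp : 0 ≤ s ^ (91/36 : ℝ) := by positivity
  have hJ2 : (J:ℝ) ≤ K0 + K1 * (N * s ^ (91/36 : ℝ)) + 1 := by
    have h1 : (J:ℝ) < N / t + 1 := by
      rw [hJ]; exact Nat.ceil_lt_add_one (by positivity)
    have h2 : (N:ℝ) / t ≤ K0 + K1 * (N * s ^ (91/36 : ℝ)) := by
      rw [div_le_iff₀ ht0, ht, vs_self hm]
      rcases hcase with hc | hc
      · have h3 : (N:ℝ) ≤ (m:ℝ) ^ (91/48 : ℝ) := by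
          rw [hc]
          calc (N:ℝ) = ((N:ℝ) ^ (48/91 : ℝ)) ^ (91/48 : ℝ) := by
                rw [← Real.rpow_mul hNp.le]; norm_num
            _ ≤ _ := Real.rpow_le_rpow (by positivity) hn1 (by norm_num)
        have h4 : K0 * (a * (m:ℝ) ^ (91/48 : ℝ) / 2) = (m:ℝ) ^ (91/48 : ℝ) := by
          rw [hK0]; field_simp
        have h5 : 0 ≤ K1 * (N * s ^ (91/36 : ℝ)) * (a * (m:ℝ) ^ (91/48 : ℝ) / 2) := by positivity
        nlinarith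
      · have h3 : 1 ≤ C1 ^ (91/48 : ℝ) * ((m:ℝ) ^ (91/48 : ℝ) * s ^ (91/36 : ℝ)) := by
          have h4 : (1:ℝ) ≤ (C1 * (m * s ^ (4/3 : ℝ))) ^ (91/48 : ℝ) :=
            Real.one_le_rpow hc (by norm_num)
          rw [Real.mul_rpow hC1.le (by positivity), Real.mul_rpow hm0.le (by positivity),
            ← Real.rpow_mul hs0] at h4
          have e : (4/3 * (91/48) : ℝ) = 91/36 := by norm_num
          rw [e] at h4
          exact h4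
        have h4 : K1 * (N * s ^ (91/36 : ℝ)) * (a * (m:ℝ) ^ (91/48 : ℝ) / 2) =
            N * (C1 ^ (91/48 : ℝ) * ((m:ℝ) ^ (91/48 : ℝ) * s ^ (91/36 : ℝ))) := by
          rw [hK1]; field_simp
        have h5 : 0 ≤ K0 * (a * (m:ℝ) ^ (91/48 : ℝ) / 2) := by positivity
        have h6 := mul_le_mul_of_nonneg_left h3 hNp.le
        rw [add_mul, h4]
        linarith
    linarith
  refine ⟨3 * m * J + 5 * m, ?_⟩
  have h1 := chain_pr hNC ha hA hm le_rfl hJ1 (M := 3 * m * J + 5 * m) le_rfl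
  rw [← hc1, ← ht] at h1
  have h2 : Pr (fun _ => p) (boxE (3 * m * J + 5 * m)) (fun F => Vol ((J:ℝ) * t) ↑F) ≤
      Pr (fun _ => p) (boxE (3 * m * J + 5 * m)) (fun F => Vol N ↑F) :=
    Pr_mono hNC.ok (fun F _ ⟨T, hT, hr⟩ => ⟨T, hJt.trans hT, hr⟩)
  refine le_trans ?_ (h1.trans h2)
  -- comparison of the bounds
  have h3 : a * 8 ^ (-(5/48) : ℝ) * (N:ℝ) ^ (-(5/91) : ℝ) ≤
      a * ((4 * m : ℕ) : ℝ) ^ (-(5/48) : ℝ) := by
    rw [mul_assoc]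
    apply mul_le_mul_of_nonneg_left _ ha.le
    have h4 : ((4 * m : ℕ) : ℝ) ≤ 8 * (N:ℝ) ^ (48/91 : ℝ) := by
      push_cast
      have : (m:ℝ) ≤ n := by exact_mod_cast hmn
      linarith
    have h5 : (8 * (N:ℝ) ^ (48/91 : ℝ)) ^ (-(5/48) : ℝ) ≤ ((4 * m : ℕ) : ℝ) ^ (-(5/48) : ℝ) :=
      Real.rpow_le_rpow_of_nonpos (by positivity) h4 (by norm_num)
    refine le_trans (le_of_eq ?_) h5
    rw [Real.mul_rpow (by norm_num) (by positivity), ← Real.rpow_mul hNp.le]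
    norm_num
  have h6 : κ * (Real.exp (-(Λ * (K0 + 1))) *
      Real.exp (-((Λ * K1 + 1) * (N * s ^ (91/36 : ℝ))))) ≤
      κ ^ (2 * J + 1) * (κ ^ 4 * c1) ^ J := by
    have e1 : κ ^ (2 * J + 1) * (κ ^ 4 * c1) ^ J = κ * (κ ^ 6 * c1) ^ J := by
      rw [pow_succ, pow_mul, mul_right_comm, ← mul_pow]
      ring
    rw [e1]
    apply mul_le_mul_of_nonneg_left _ hκ.le
    have e2 : ρ ^ J ≤ (κ ^ 6 * c1) ^ J := by
      apply pow_le_pow_left₀ hρ0.le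
      rw [hρ]; exact min_le_left _ _
    refine le_trans ?_ e2
    have e3 : ρ ^ J = Real.exp (-(Λ * J)) := by
      rw [hΛ, ← Real.exp_log hρ0, ← Real.exp_nat_mul, Real.exp_log hρ0]
      congr 1
      ring
    rw [e3, ← Real.exp_add]
    apply Real.exp_le_exp.2
    have e4 := mul_le_mul_of_nonneg_left hJ2 hΛ0
    have e5 : 0 ≤ (N:ℝ) * s ^ (91/36 : ℝ) := by positivity
    nlinarith
  calc a * 8 ^ (-(5/48) : ℝ) * κ * Real.exp (-(Λ * (K0 + 1))) * (N:ℝ) ^ (-(5/91) : ℝ) *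
        Real.exp (-((Λ * K1 + 1) * (N * s ^ (91/36 : ℝ)))) =
      (a * 8 ^ (-(5/48) : ℝ) * (N:ℝ) ^ (-(5/91) : ℝ)) * (κ * (Real.exp (-(Λ * (K0 + 1))) *
        Real.exp (-((Λ * K1 + 1) * (N * s ^ (91/36 : ℝ)))))) := by ring
    _ ≤ (a * ((4 * m : ℕ) : ℝ) ^ (-(5/48) : ℝ)) * (κ ^ (2 * J + 1) * (κ ^ 4 * c1) ^ J) :=
        mul_le_mul h3 h6 (by positivity) (by positivity)
    _ = _ := by ring

/-- Both bounds for the cluster of the origin. -/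
theorem sub_both : ∃ c C : ℝ, 0 < c ∧ 0 < C ∧
    (∀ p : unitInterval, (p:ℝ) ≤ 1/2 → ∀ N : ℕ, 1 ≤ N →
      (bondLaw p).real {ω | (N : ℕ∞) ≤ (cluster0 ω).encard} ≤
        C * (N:ℝ) ^ (-(5/91) : ℝ) * Real.exp (-(c * (N * (1/2 - (p:ℝ)) ^ (91/36 : ℝ))))) ∧
    (∀ p : unitInterval, 1/4 ≤ (p:ℝ) → (p:ℝ) ≤ 1/2 → ∀ N : ℕ, 1 ≤ N →
      c * (N:ℝ) ^ (-(5/91) : ℝ) * Real.exp (-(C * (N * (1/2 - (p:ℝ)) ^ (91/36 : ℝ)))) ≤
        (bondLaw p).real {ω | (N : ℕ∞) ≤ (cluster0 ω).encard}) := by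
  obtain ⟨c, C, hc, hC, hup⟩ := sub_upper
  obtain ⟨c', C', hc', hC', hlo⟩ := sub_lower
  have hev : ∀ N : ℕ, {ω : sqLattice.edgeSet → Bool | (N : ℕ∞) ≤ (cluster0 ω).encard} =
      {ω | Vol N (opn ω)} := by
    intro N
    ext ω
    exact InfAux.encard_iff ω N
  refine ⟨min c c', max C C', lt_min hc hc', lt_max_of_lt_left hC, ?_, ?_⟩
  · intro p hp N hN
    rw [hev]
    have hs0 : 0 ≤ 1/2 - (p:ℝ) := by linarith
    have h1 := upper_p p (fun F => Vol N F) (fun F G h hF => InfAux.vol_mono h hF)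
      (fun F hF => InfAux.vol_box hF) _ (fun M => hup p p.2.1 hp N hN M)
    refine h1.trans ?_
    have h2 : 0 ≤ (N:ℝ) * (1/2 - (p:ℝ)) ^ (91/36 : ℝ) := by positivity
    apply mul_le_mul
    · exact mul_le_mul_of_nonneg_right (le_max_left _ _) (by positivity)
    · apply Real.exp_le_exp.2
      have := mul_le_mul_of_nonneg_right (min_le_left c c') h2
      linarith
    · exact (Real.exp_pos _).le
    · have : 0 < max C C' := lt_max_of_lt_left hC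
      positivity
  · intro p hp0 hp N hN
    rw [hev]
    have hs0 : 0 ≤ 1/2 - (p:ℝ) := by linarith
    obtain ⟨M, hM⟩ := hlo p hp0 hp N hN
    have h1 := lower_p p (fun F => Vol N F) (fun F G h hF => InfAux.vol_mono h hF) M
    refine le_trans ?_ (hM.trans h1)
    have h2 : 0 ≤ (N:ℝ) * (1/2 - (p:ℝ)) ^ (91/36 : ℝ) := by positivity
    apply mul_le_mul
    · exact mul_le_mul_of_nonneg_right (min_le_right _ _) (by positivity)
    · apply Real.exp_le_exp.2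
      have := mul_le_mul_of_nonneg_right (le_max_right C C') h2
      linarith
    · exact (Real.exp_pos _).le
    · positivity

end Pool.Agent.NH39.CV
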