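import Pool.Agent.NH39.C9
import Pool.Agent.W424.NC.Win

/-! Above the critical point: chains of circuits, the probability that a far-reaching cluster is
finite. -/

set_option autoImplicit false

namespace Pool.Agent.NH39.CV

open Finset H974 Pool.Agent.H160R2.CV Pool.Agent.H160R2.CV.Quad H362P Pool.Agent.Y244.PC
open H12S (Win)
open MeasureTheory Filter

theorem circ0 {R1 R2 : ℕ} (h12 : R1 < R2) {F : Finset Edg} (h : Circ R1 R2 F) :
    ∃ z : Vtx, ∀ u v : Vtx, nv u ≤ R1 → R2 ≤ nv v → Reach (↑F) u v → Reach (↑F) u z := by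
  obtain ⟨z, hz⟩ := circ_meet (R1 := R1) (R2 := R2) (by positivity) (by exact_mod_cast h12) h
  refine ⟨z, fun u v hu hv hr => ?_⟩
  have hu1 := nv_in hu
  have h12' : (R1 : ℤ) < R2 := by exact_mod_cast h12
  obtain ⟨w, k1, k2, k3⟩ := first_exit (a := -(R2 : ℤ)) (b := R2) (c := -(R2 : ℤ)) (d := R2)
    (by unfold inR at hu1 ⊢; omega) hr (by unfold nv at hv; omega)
  exact (hz u w hu1 k2 k3).mono Set.inter_subset_left

/-- a circuit around the origin between the radii `R` and `2 R`, and a crossing which links it to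
the radius `4 R` -/
def GG (R : ℕ) (F : Finset Edg) : Prop :=
  Circ R ((2 * R : ℕ) : ℤ) F ∧ LRc R ((4 * R : ℕ) : ℤ) (-(R:ℤ)) R F

theorem GG_inc (R : ℕ) : IncA (GG R) := fun _ _ h hF => ⟨hF.1.mono h, hF.2.mono h⟩

theorem GG_loc {R : ℕ} (hR : 1 ≤ R) {S : Finset Edg} (hS : boxE (4 * R) \ boxE (R - 1) ⊆ S) :
    LocE S (GG R) := by
  intro F
  have key : ∀ T : Finset Edg, T ⊆ boxE (4 * R) \ boxE (R - 1) → T ⊆ S := fun T h => h.trans hS
  unfold GG Circ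
  rw [LRc_local (F := F) (S := S) (a := -((2 * R : ℕ) : ℤ)) (c := (R:ℤ)) (key _ ?_),
    LRc_local (F := F) (S := S) (a := -((2 * R : ℕ) : ℤ)) (c := -((2 * R : ℕ) : ℤ)) (key _ ?_),
    TBc_local (F := F) (S := S) (a := (R:ℤ)) (key _ ?_),
    TBc_local (F := F) (S := S) (a := -((2 * R : ℕ) : ℤ)) (key _ ?_),
    LRc_local (F := F) (S := S) (a := (R:ℤ)) (key _ ?_)]
  · rintro ⟨x, y, _ | _⟩ h
    · simp only [mem_LRE_false, Finset.mem_sdiff, boxE, mem_RE_false] at h ⊢; omega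
    · simp only [mem_LRE_true, Finset.mem_sdiff, boxE, mem_RE_true] at h ⊢; omega
  · rintro ⟨x, y, _ | _⟩ h
    · simp only [mem_TBE_false, Finset.mem_sdiff, boxE, mem_RE_false] at h ⊢; omega
    · simp only [mem_TBE_true, Finset.mem_sdiff, boxE, mem_RE_true] at h ⊢; omega
  · rintro ⟨x, y, _ | _⟩ h
    · simp only [mem_TBE_false, Finset.mem_sdiff, boxE, mem_RE_false] at h ⊢; omega
    · simp only [mem_TBE_true, Finset.mem_sdiff, boxE, mem_RE_true] at h ⊢; omega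
  · rintro ⟨x, y, _ | _⟩ h
    · simp only [mem_LRE_false, Finset.mem_sdiff, boxE, mem_RE_false] at h ⊢; omega
    · simp only [mem_LRE_true, Finset.mem_sdiff, boxE, mem_RE_true] at h ⊢; omega
  · rintro ⟨x, y, _ | _⟩ h
    · simp only [mem_LRE_false, Finset.mem_sdiff, boxE, mem_RE_false] at h ⊢; omega
    · simp only [mem_LRE_true, Finset.mem_sdiff, boxE, mem_RE_true] at h ⊢; omega

/-- the cluster of the origin reaches distance `M` -/
def FO (M : ℕ) (F : Set Edg) : Prop := ∃ v : Vtx, M ≤ nv v ∧ Reach F (0, 0) v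

theorem FO.mono {M : ℕ} {F G : Set Edg} (h : F ⊆ G) (hF : FO M F) : FO M G := by
  obtain ⟨v, h1, h2⟩ := hF
  exact ⟨v, h1, h2.mono h⟩

/-- Through a chain of circuits the cluster reaches the outside. -/
theorem chain_out {R J : ℕ} (hR : 1 ≤ R) {F : Finset Edg} (h0 : FO (2 * R) ↑F)
    (hG : ∀ k ∈ range J, GG (2 ^ k * R) F) : FO (2 ^ (J + 1) * R) ↑F := by
  rcases J with _ | J
  · simpa using h0
  have hpos : ∀ k : ℕ, 1 ≤ 2 ^ k * R := fun k => Nat.one_le_iff_ne_zero.2 (by positivity)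
  -- the points of the circuits
  have hz : ∀ k ∈ range (J + 1), ∃ z : Vtx, (∀ u v : Vtx, nv u ≤ 2 ^ k * R →
      2 ^ (k + 1) * R ≤ nv v → Reach (↑F) u v → Reach (↑F) u z) ∧
      ∃ a b : Vtx, nv a ≤ 2 ^ k * R ∧ 2 ^ (k + 2) * R ≤ nv b ∧ Reach (↑F) a b := by
    intro k hk
    obtain ⟨hc, y, y', hy, hy', hl⟩ := hG k hk
    have hp := hpos k
    have e1 : 2 ^ (k + 1) * R = 2 * (2 ^ k * R) := by ring
    have e2 : 2 ^ (k + 2) * R = 4 * (2 ^ k * R) := by ring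
    obtain ⟨z, hz⟩ := circ0 (by omega) hc
    rw [e1, e2]
    obtain ⟨w, hw⟩ : ∃ w : ℕ, w = 2 ^ k * R := ⟨_, rfl⟩
    rw [← hw] at hl hy hy' hz ⊢
    refine ⟨z, hz, ((w:ℤ), y), (((4 * w : ℕ) : ℤ), y'), ?_, ?_, hl.mono Set.inter_subset_left⟩
    · unfold nv
      simp only
      omega
    · unfold nv
      simp only
      omega
  have key : ∀ k ∈ range (J + 1), ∃ b : Vtx, 2 ^ (k + 2) * R ≤ nv b ∧ Reach (↑F) (0, 0) b := by
    intro k
    induction k with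
    | zero =>
      intro hk
      obtain ⟨z, hz1, a, b, ha, hb, hab⟩ := hz 0 hk
      obtain ⟨v, hv1, hv2⟩ := h0
      have e0 : 2 ^ (0 + 1) * R = 2 * R := by ring
      rw [e0] at hz1
      have e1 : 2 ^ (0 + 2) * R = 4 * R := by ring
      have h1 : Reach (↑F) (0, 0) z := hz1 (0, 0) v (by unfold nv; simp) hv1 hv2
      have h2 : Reach (↑F) a z := hz1 a b ha (by rw [e1] at hb; omega) hab
      exact ⟨b, hb, h1.trans (h2.symm.trans hab)⟩
    | succ k ih =>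
      intro hk
      rw [Finset.mem_range] at hk
      obtain ⟨b0, hb0, hr0⟩ := ih (Finset.mem_range.2 (by omega))
      obtain ⟨z, hz1, a, b, ha, hb, hab⟩ := hz (k + 1) (Finset.mem_range.2 hk)
      have h1 : Reach (↑F) (0, 0) z := hz1 (0, 0) b0 (by unfold nv; simp) hb0 hr0
      have h2 : Reach (↑F) a z := hz1 a b ha (by
        refine le_trans ?_ hb
        exact Nat.mul_le_mul_right _ (Nat.pow_le_pow_right (by norm_num) (by omega))) hab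
      exact ⟨b, hb, h1.trans (h2.symm.trans hab)⟩
  obtain ⟨b, hb, hr⟩ := key J (Finset.self_mem_range_succ J)
  exact ⟨b, hb, hr⟩

/-- Failure of a step of the chain. -/
theorem pr_nGG : ∃ c C : ℝ, 0 < c ∧ 0 < C ∧ ∀ p : ℝ, 1/2 ≤ p → p ≤ 3/4 → ∀ R : ℕ, 1 ≤ R →
    ∀ S : Finset Edg, boxE (4 * R) ⊆ S →
      Pr (fun _ => p) S (fun F => ¬ GG R F) ≤ C * Real.exp (-(c * (R * (p - 1/2) ^ (4/3 : ℝ)))) := by
  obtain ⟨c, C, hc, hC, h⟩ := Pool.Agent.W424.NC.win_upper_dual 4 (by norm_num)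
  refine ⟨c, 5 * C, hc, by positivity, ?_⟩
  intro p hp hp1 R hR S hS
  have h0 : 0 ≤ p := by linarith
  have h1 : p ≤ 1 := by linarith
  have ok := okq h0 h1
  have hRz : (1:ℤ) ≤ R := by exact_mod_cast hR
  have hs0 : 0 ≤ (p - 1/2) ^ (4/3 : ℝ) := by
    have : 0 ≤ p - 1/2 := by linarith
    positivity
  have hw : ∀ w g : ℕ, R ≤ w → 1 ≤ g → w ≤ 4 * g → g ≤ 4 * w → 1 - hh p w g ≤
      C * Real.exp (-(c * (R * (p - 1/2) ^ (4/3 : ℝ)))) := by
    intro w g hRw hg h2 h3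
    have h4 := h (1 - p) (by linarith) (by linarith) w g (by omega) hg h2 h3
    rw [show 1 - (1 - p) = p by ring, show 1/2 - (1 - p) = p - 1/2 by ring] at h4
    refine h4.trans ?_
    apply mul_le_mul_of_nonneg_left _ hC.le
    apply Real.exp_le_exp.2
    have h5 : (R:ℝ) ≤ w := by exact_mod_cast hRw
    have h6 := mul_le_mul_of_nonneg_left (mul_le_mul_of_nonneg_right h5 hs0) hc.le
    linarith
  have s : ∀ T : Finset Edg, T ⊆ boxE (4 * R) → T ⊆ S := fun T hT => hT.trans hS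
  have t1 : Pr (fun _ => p) S (fun F => ¬ LRc (-((2 * R : ℕ) : ℤ)) ((2 * R : ℕ) : ℤ) R
      ((2 * R : ℕ) : ℤ) F) ≤ C * Real.exp (-(c * (R * (p - 1/2) ^ (4/3 : ℝ)))) := by
    rw [Pr_not, pr_LRc p (s _ ?_)]
    · have h5 := hw (4 * R) R (by omega) hR (by omega) (by omega)
      have e1 : ((2 * R : ℕ) : ℤ) - -((2 * R : ℕ) : ℤ) = ((4 * R : ℕ) : ℤ) := by push_cast; ring
      have e2 : ((2 * R : ℕ) : ℤ) - (R:ℤ) = ((R : ℕ) : ℤ) := by push_cast; ring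
      rw [e1, e2]
      exact h5
    · exact LRE_subset_RE.trans (RE_subset (by push_cast; omega) (by push_cast; omega)
        (by push_cast; omega) (by push_cast; omega))
  have t2 : Pr (fun _ => p) S (fun F => ¬ LRc (-((2 * R : ℕ) : ℤ)) ((2 * R : ℕ) : ℤ)
      (-((2 * R : ℕ) : ℤ)) (-(R:ℤ)) F) ≤ C * Real.exp (-(c * (R * (p - 1/2) ^ (4/3 : ℝ)))) := by
    rw [Pr_not, pr_LRc p (s _ ?_)]
    · have h5 := hw (4 * R) R (by omega) hR (by omega) (by omega)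
      have e1 : ((2 * R : ℕ) : ℤ) - -((2 * R : ℕ) : ℤ) = ((4 * R : ℕ) : ℤ) := by push_cast; ring
      have e2 : -(R:ℤ) - -((2 * R : ℕ) : ℤ) = ((R : ℕ) : ℤ) := by push_cast; ring
      rw [e1, e2]
      exact h5
    · exact LRE_subset_RE.trans (RE_subset (by push_cast; omega) (by push_cast; omega)
        (by push_cast; omega) (by push_cast; omega))
  have t3 : Pr (fun _ => p) S (fun F => ¬ TBc R ((2 * R : ℕ) : ℤ)
      (-((2 * R : ℕ) : ℤ)) ((2 * R : ℕ) : ℤ) F) ≤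
      C * Real.exp (-(c * (R * (p - 1/2) ^ (4/3 : ℝ)))) := by
    rw [Pr_not, pr_TBc p (s _ ?_)]
    · have h5 := hw (4 * R) R (by omega) hR (by omega) (by omega)
      have e1 : ((2 * R : ℕ) : ℤ) - -((2 * R : ℕ) : ℤ) = ((4 * R : ℕ) : ℤ) := by push_cast; ring
      have e2 : ((2 * R : ℕ) : ℤ) - (R:ℤ) = ((R : ℕ) : ℤ) := by push_cast; ring
      rw [e1, e2]
      exact h5
    · exact TBE_subset_RE.trans (RE_subset (by push_cast; omega) (by push_cast; omega)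
        (by push_cast; omega) (by push_cast; omega))
  have t4 : Pr (fun _ => p) S (fun F => ¬ TBc (-((2 * R : ℕ) : ℤ)) (-(R:ℤ))
      (-((2 * R : ℕ) : ℤ)) ((2 * R : ℕ) : ℤ) F) ≤
      C * Real.exp (-(c * (R * (p - 1/2) ^ (4/3 : ℝ)))) := by
    rw [Pr_not, pr_TBc p (s _ ?_)]
    · have h5 := hw (4 * R) R (by omega) hR (by omega) (by omega)
      have e1 : ((2 * R : ℕ) : ℤ) - -((2 * R : ℕ) : ℤ) = ((4 * R : ℕ) : ℤ) := by push_cast; ring
      have e2 : -(R:ℤ) - -((2 * R : ℕ) : ℤ) = ((R : ℕ) : ℤ) := by push_cast; ring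
      rw [e1, e2]
      exact h5
    · exact TBE_subset_RE.trans (RE_subset (by push_cast; omega) (by push_cast; omega)
        (by push_cast; omega) (by push_cast; omega))
  have t5 : Pr (fun _ => p) S (fun F => ¬ LRc R ((4 * R : ℕ) : ℤ) (-(R:ℤ)) R F) ≤
      C * Real.exp (-(c * (R * (p - 1/2) ^ (4/3 : ℝ)))) := by
    rw [Pr_not, pr_LRc p (s _ ?_)]
    · have h5 := hw (3 * R) (2 * R) (by omega) (by omega) (by omega) (by omega)
      have e1 : ((4 * R : ℕ) : ℤ) - (R:ℤ) = ((3 * R : ℕ) : ℤ) := by push_cast; ring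
      have e2 : (R:ℤ) - -(R:ℤ) = ((2 * R : ℕ) : ℤ) := by push_cast; ring
      rw [e1, e2]
      exact h5
    · exact LRE_subset_RE.trans (RE_subset (by push_cast; omega) (by push_cast; omega)
        (by push_cast; omega) (by push_cast; omega))
  have u1 : Pr (fun _ => p) S (fun F => ¬ GG R F) ≤ Pr (fun _ => p) S (fun F =>
      ((¬ LRc (-((2 * R : ℕ) : ℤ)) ((2 * R : ℕ) : ℤ) R ((2 * R : ℕ) : ℤ) F ∨
      ¬ LRc (-((2 * R : ℕ) : ℤ)) ((2 * R : ℕ) : ℤ) (-((2 * R : ℕ) : ℤ)) (-(R:ℤ)) F) ∨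
      (¬ TBc R ((2 * R : ℕ) : ℤ) (-((2 * R : ℕ) : ℤ)) ((2 * R : ℕ) : ℤ) F ∨
      ¬ TBc (-((2 * R : ℕ) : ℤ)) (-(R:ℤ)) (-((2 * R : ℕ) : ℤ)) ((2 * R : ℕ) : ℤ) F)) ∨
      ¬ LRc R ((4 * R : ℕ) : ℤ) (-(R:ℤ)) R F) := by
    apply Pr_mono ok
    intro F _ hF
    by_contra hcon
    push Not at hcon
    exact hF ⟨hcon.1, hcon.2⟩
  have u2 := Pr_or_le ok S (fun F => (¬ LRc (-((2 * R : ℕ) : ℤ)) ((2 * R : ℕ) : ℤ) R
      ((2 * R : ℕ) : ℤ) F ∨
      ¬ LRc (-((2 * R : ℕ) : ℤ)) ((2 * R : ℕ) : ℤ) (-((2 * R : ℕ) : ℤ)) (-(R:ℤ)) F) ∨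
      (¬ TBc R ((2 * R : ℕ) : ℤ) (-((2 * R : ℕ) : ℤ)) ((2 * R : ℕ) : ℤ) F ∨
      ¬ TBc (-((2 * R : ℕ) : ℤ)) (-(R:ℤ)) (-((2 * R : ℕ) : ℤ)) ((2 * R : ℕ) : ℤ) F))
      (fun F => ¬ LRc R ((4 * R : ℕ) : ℤ) (-(R:ℤ)) R F)
  have u3 := Pr_or_le ok S (fun F => ¬ LRc (-((2 * R : ℕ) : ℤ)) ((2 * R : ℕ) : ℤ) R
      ((2 * R : ℕ) : ℤ) F ∨
      ¬ LRc (-((2 * R : ℕ) : ℤ)) ((2 * R : ℕ) : ℤ) (-((2 * R : ℕ) : ℤ)) (-(R:ℤ)) F)
      (fun F => ¬ TBc R ((2 * R : ℕ) : ℤ) (-((2 * R : ℕ) : ℤ)) ((2 * R : ℕ) : ℤ) F ∨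
      ¬ TBc (-((2 * R : ℕ) : ℤ)) (-(R:ℤ)) (-((2 * R : ℕ) : ℤ)) ((2 * R : ℕ) : ℤ) F)
  have u4 := Pr_or_le ok S (fun F => ¬ LRc (-((2 * R : ℕ) : ℤ)) ((2 * R : ℕ) : ℤ) R
      ((2 * R : ℕ) : ℤ) F)
      (fun F => ¬ LRc (-((2 * R : ℕ) : ℤ)) ((2 * R : ℕ) : ℤ) (-((2 * R : ℕ) : ℤ)) (-(R:ℤ)) F)
  have u5 := Pr_or_le ok S (fun F => ¬ TBc R ((2 * R : ℕ) : ℤ) (-((2 * R : ℕ) : ℤ))
      ((2 * R : ℕ) : ℤ) F)
      (fun F => ¬ TBc (-((2 * R : ℕ) : ℤ)) (-(R:ℤ)) (-((2 * R : ℕ) : ℤ)) ((2 * R : ℕ) : ℤ) F)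
  linarith

/-- summation of the failure probabilities -/
theorem sum_fail {y : ℝ} (hy : 0 < y) (J : ℕ) :
    ∑ k ∈ range J, Real.exp (-(y * 2 ^ k)) ≤ Real.exp (-y) * (1 - Real.exp (-y))⁻¹ := by
  have he : Real.exp (-y) < 1 := by rw [Real.exp_lt_one_iff]; linarith
  have he0 : 0 < Real.exp (-y) := Real.exp_pos _
  have h1 : ∀ k ∈ range J, Real.exp (-(y * 2 ^ k)) ≤ Real.exp (-y) * Real.exp (-y) ^ k := by
    intro k _
    rw [← Real.exp_nat_mul, ← Real.exp_add]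
    apply Real.exp_le_exp.2
    have h2 : ((k:ℝ) + 1) ≤ 2 ^ k := by
      have : k + 1 ≤ 2 ^ k := Nat.lt_two_pow_self
      exact_mod_cast this
    nlinarith
  refine (Finset.sum_le_sum h1).trans ?_
  rw [← Finset.mul_sum]
  apply mul_le_mul_of_nonneg_left _ he0.le
  have h3 := geom_sum_lt_of_lt_one he0.le he J
  exact h3
where
  geom_sum_lt_of_lt_one {x : ℝ} (h0 : 0 ≤ x) (h1 : x < 1) (J : ℕ) :
      ∑ k ∈ range J, x ^ k ≤ (1 - x)⁻¹ := by
    rw [← tsum_geometric_of_lt_one h0 h1]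
    exact Summable.sum_le_tsum _ (fun k _ => by positivity) (summable_geometric_of_lt_one h0 h1)

/-- A cluster which reaches distance `2 R` is unlikely to be finite. -/
theorem far_fin : ∃ c C : ℝ, 0 < c ∧ 0 < C ∧ ∀ p : ℝ, 1/2 ≤ p → p ≤ 3/4 → ∀ R : ℕ, 1 ≤ R →
    1 ≤ R * (p - 1/2) ^ (4/3 : ℝ) → ∀ m : ℕ, m ≤ R - 1 → ∀ J : ℕ,
      Pr (fun _ => p) (boxE (2 ^ (J + 1) * R)) (fun F => LA (0, 0) m F ∧ (FO (2 * R) ↑F ∧
        ¬ FO (2 ^ (J + 1) * R) ↑F)) ≤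
        arm p m * (C * Real.exp (-(c * (R * (p - 1/2) ^ (4/3 : ℝ))))) := by
  classical
  obtain ⟨c, C, hc, hC, h⟩ := pr_nGG
  have hec : Real.exp (-c) < 1 := by rw [Real.exp_lt_one_iff]; linarith
  refine ⟨c, C * (1 - Real.exp (-c))⁻¹, hc, mul_pos hC (inv_pos.2 (by linarith)), ?_⟩
  intro p hp hp1 R hR hRs m hm J
  have h0 : 0 ≤ p := by linarith
  have h1 : p ≤ 1 := by linarith
  have ok := okq h0 h1
  obtain ⟨S, hS⟩ : ∃ S, S = boxE (2 ^ (J + 1) * R) := ⟨_, rfl⟩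
  rw [← hS]
  obtain ⟨x, hx⟩ : ∃ x : ℝ, x = R * (p - 1/2) ^ (4/3 : ℝ) := ⟨_, rfl⟩
  rw [← hx] at hRs ⊢
  -- the failure event
  have s1 : Pr (fun _ => p) S (fun F => LA (0, 0) m F ∧ (FO (2 * R) ↑F ∧
        ¬ FO (2 ^ (J + 1) * R) ↑F)) ≤
      Pr (fun _ => p) S (fun F => LA (0, 0) m F ∧ ∃ k ∈ range J, ¬ GG (2 ^ k * R) F) := by
    apply Pr_mono ok
    rintro F _ ⟨h2, h3, h4⟩
    refine ⟨h2, ?_⟩
    by_contra hcon
    push Not at hcon
    exact h4 (chain_out hR h3 hcon)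
  have hpk : ∀ k : ℕ, R ≤ 2 ^ k * R := fun k => Nat.le_mul_of_pos_left _ (by positivity)
  have hbig : ∀ k ∈ range J, boxE (4 * (2 ^ k * R)) ⊆ S := by
    intro k hk
    rw [Finset.mem_range] at hk
    rw [hS]
    apply boxE_mono
    calc 4 * (2 ^ k * R) = 2 ^ (k + 2) * R := by ring
      _ ≤ 2 ^ (J + 1) * R := Nat.mul_le_mul_right _ (Nat.pow_le_pow_right (by norm_num) (by omega))
  have s2 : Pr (fun _ => p) S (fun F => LA (0, 0) m F ∧ ∃ k ∈ range J, ¬ GG (2 ^ k * R) F) =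
      Pr (fun _ => p) S (LA (0, 0) m) * Pr (fun _ => p) S (fun F => ∃ k ∈ range J,
        ¬ GG (2 ^ k * R) F) := by
    apply Pr_indep (S := boxE (R - 1)) (T := S \ boxE (R - 1))
    · rw [hS]
      apply boxE_mono
      have := hpk (J + 1)
      omega
    · exact Finset.sdiff_subset
    · exact Finset.disjoint_sdiff
    · intro F _
      apply LA_loc
      unfold bo boxE
      apply RE_subset <;> simp only <;> omega
    · intro F _
      have key : ∀ k ∈ range J, (GG (2 ^ k * R) F ↔ GG (2 ^ k * R) (F ∩ (S \ boxE (R - 1)))) := by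
        intro k hk
        apply GG_loc (by have := hpk k; omega)
        apply Finset.sdiff_subset_sdiff (hbig k hk)
        apply boxE_mono
        have := hpk k
        omega
      constructor
      · rintro ⟨k, hk, h2⟩
        exact ⟨k, hk, fun h3 => h2 ((key k hk).2 h3)⟩
      · rintro ⟨k, hk, h2⟩
        exact ⟨k, hk, fun h3 => h2 ((key k hk).1 h3)⟩
  refine s1.trans ?_
  rw [s2]
  apply mul_le_mul (pr_LA_q h0 h1 _ _ _) _ (Pr_nonneg ok _ _) (arm_nonneg h0 h1 m)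
  refine (Pool.Agent.Y244.PC.Pr_exists_le ok S _ _).trans ?_
  have s3 : ∀ k ∈ range J, Pr (fun _ => p) S (fun F => ¬ GG (2 ^ k * R) F) ≤
      C * Real.exp (-((c * x) * 2 ^ k)) := by
    intro k hk
    have h2 := h p hp hp1 (2 ^ k * R) (by have := hpk k; omega) S (hbig k hk)
    refine h2.trans (le_of_eq ?_)
    rw [hx]
    congr 2
    push_cast
    ring
  refine (Finset.sum_le_sum s3).trans ?_
  rw [← Finset.mul_sum]
  have hcx : 0 < c * x := by positivity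
  have s4 := sum_fail hcx J
  have s5 : (1 - Real.exp (-(c * x)))⁻¹ ≤ (1 - Real.exp (-c))⁻¹ := by
    apply inv_anti₀ (by linarith)
    have : Real.exp (-(c * x)) ≤ Real.exp (-c) := by
      apply Real.exp_le_exp.2
      nlinarith
    linarith
  calc C * ∑ k ∈ range J, Real.exp (-((c * x) * 2 ^ k)) ≤
      C * (Real.exp (-(c * x)) * (1 - Real.exp (-(c * x)))⁻¹) :=
        mul_le_mul_of_nonneg_left s4 hC.le
    _ ≤ C * (Real.exp (-(c * x)) * (1 - Real.exp (-c))⁻¹) := by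
        apply mul_le_mul_of_nonneg_left _ hC.le
        exact mul_le_mul_of_nonneg_left s5 (Real.exp_pos _).le
    _ = _ := by ring

end Pool.Agent.NH39.CV
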