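import Pool.Agent.NH39.D1

/-! Above the critical point: the tail of the size of the finite clusters, in finite boxes. -/

set_option autoImplicit false

namespace Pool.Agent.NH39.CV

open Finset H974 Pool.Agent.H160R2.CV Pool.Agent.H160R2.CV.Quad H362P Pool.Agent.Y244.PC
open H12S (Win)
open MeasureTheory Filter

/-- Failure of the chain. -/
theorem pr_chain : ∃ c C : ℝ, 0 < c ∧ 0 < C ∧ ∀ p : ℝ, 1/2 ≤ p → p ≤ 3/4 → ∀ R : ℕ, 1 ≤ R →
    1 ≤ R * (p - 1/2) ^ (4/3 : ℝ) → ∀ J : ℕ, ∀ S : Finset Edg, boxE (2 ^ (J + 1) * R) ⊆ S →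
      Pr (fun _ => p) S (fun F => ∃ k ∈ range J, ¬ GG (2 ^ k * R) F) ≤
        C * Real.exp (-(c * (R * (p - 1/2) ^ (4/3 : ℝ)))) := by
  classical
  obtain ⟨c, C, hc, hC, h⟩ := pr_nGG
  have hec : Real.exp (-c) < 1 := by rw [Real.exp_lt_one_iff]; linarith
  refine ⟨c, C * (1 - Real.exp (-c))⁻¹, hc, mul_pos hC (inv_pos.2 (by linarith)), ?_⟩
  intro p hp hp1 R hR hRs J S hS
  have h0 : 0 ≤ p := by linarith
  have h1 : p ≤ 1 := by linarith
  have ok := okq h0 h1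
  obtain ⟨x, hx⟩ : ∃ x : ℝ, x = R * (p - 1/2) ^ (4/3 : ℝ) := ⟨_, rfl⟩
  rw [← hx] at hRs ⊢
  have hpk : ∀ k : ℕ, R ≤ 2 ^ k * R := fun k => Nat.le_mul_of_pos_left _ (by positivity)
  refine (Pool.Agent.Y244.PC.Pr_exists_le ok S _ _).trans ?_
  have s3 : ∀ k ∈ range J, Pr (fun _ => p) S (fun F => ¬ GG (2 ^ k * R) F) ≤
      C * Real.exp (-((c * x) * 2 ^ k)) := by
    intro k hk
    rw [Finset.mem_range] at hk
    have h2 := h p hp hp1 (2 ^ k * R) (by have := hpk k; omega) S (by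
      refine (boxE_mono ?_).trans hS
      calc 4 * (2 ^ k * R) = 2 ^ (k + 2) * R := by ring
        _ ≤ 2 ^ (J + 1) * R :=
          Nat.mul_le_mul_right _ (Nat.pow_le_pow_right (by norm_num) (by omega)))
    refine h2.trans (le_of_eq ?_)
    rw [hx]
    congr 2
    push_cast
    ring
  refine (Finset.sum_le_sum s3).trans ?_
  rw [← Finset.mul_sum]
  have hcx : 0 < c * x := by positivity
  have s4 := sum_fail hcx J
  have s5 : (1 - Real.exp (-(c * x)))⁻¹ ≤ (1 - Real.exp (-c))⁻¹ := by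
    apply inv_anti₀ (by linarith)
    have : Real.exp (-(c * x)) ≤ Real.exp (-c) := by
      apply Real.exp_le_exp.2
      nlinarith
    linarith
  calc C * ∑ k ∈ range J, Real.exp (-((c * x) * 2 ^ k)) ≤
      C * (Real.exp (-(c * x)) * (1 - Real.exp (-(c * x)))⁻¹) :=
        mul_le_mul_of_nonneg_left s4 hC.le
    _ ≤ C * (Real.exp (-(c * x)) * (1 - Real.exp (-c))⁻¹) := by
        apply mul_le_mul_of_nonneg_left _ hC.le
        exact mul_le_mul_of_nonneg_left s5 (Real.exp_pos _).le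
    _ = _ := by ring

/-- The event that the cluster of the origin has at least `N` vertices and stays inside the box. -/
def FV (N : ℝ) (M : ℕ) (F : Set Edg) : Prop := Vol N F ∧ ¬ FO M F

theorem cl0_small {R : ℕ} {F : Finset Edg} (h : ¬ FO R ↑F) {x : Vtx} (hx : x ∈ cl0 F) :
    nv x < R := by
  by_contra hc
  push Not at hc
  exact h ⟨x, hc, mem_cl0.1 hx⟩

/-- Far away from the critical point, deterministic radius. -/
theorem sup_far : ∃ c C : ℝ, 0 < c ∧ 0 < C ∧ ∀ p1 p : ℝ, 1/2 ≤ p1 → p1 ≤ 3/4 → p1 ≤ p → p ≤ 1 →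
    ∀ R : ℕ, 1 ≤ R → 1 ≤ R * (p1 - 1/2) ^ (4/3 : ℝ) → ∀ N : ℝ, (4 * (R:ℝ)) ^ 2 < N → ∀ J : ℕ,
      Pr (fun _ => p) (boxE (2 ^ (J + 1) * R)) (fun F => FV N (2 ^ (J + 1) * R) ↑F) ≤
        C * Real.exp (-(c * (R * (p1 - 1/2) ^ (4/3 : ℝ)))) := by
  obtain ⟨c, C, hc, hC, h⟩ := pr_chain
  refine ⟨c, C, hc, hC, ?_⟩
  intro p1 p hp1 hp2 hp hp3 R hR hRs N hN J
  have ok := okq (q := p) (by linarith) hp3
  have ok1 := okq (q := p1) (by linarith) (by linarith)
  obtain ⟨S, hS⟩ : ∃ S, S = boxE (2 ^ (J + 1) * R) := ⟨_, rfl⟩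
  rw [← hS]
  have s1 : Pr (fun _ => p) S (fun F => FV N (2 ^ (J + 1) * R) ↑F) ≤
      Pr (fun _ => p) S (fun F => ∃ k ∈ range J, ¬ GG (2 ^ k * R) F) := by
    apply Pr_mono ok
    rintro F _ ⟨hv, hno⟩
    by_contra hcon
    push Not at hcon
    have h2R : FO (2 * R) ↑F := by
      by_contra hc2
      rw [vol_iff] at hv
      have hsub : cl0 F ⊆ bx (2 * R - 1) := by
        intro x hx
        have := cl0_small hc2 hx
        rw [mem_bx_iff']
        unfold nv at this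
        omega
      have hcard : ((cl0 F).card : ℝ) ≤ (bx (2 * R - 1)).card := by
        exact_mod_cast Finset.card_le_card hsub
      rw [w_card_bx] at hcard
      have hRr : (1:ℝ) ≤ R := by exact_mod_cast hR
      have e1 : ((2 * R - 1 : ℕ) : ℝ) = 2 * R - 1 := by
        rw [Nat.cast_sub (by omega)]; push_cast; ring
      rw [e1] at hcard
      nlinarith
    exact hno (chain_out hR h2R hcon)
  have s2 : Pr (fun _ => p) S (fun F => ∃ k ∈ range J, ¬ GG (2 ^ k * R) F) ≤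
      Pr (fun _ => p1) S (fun F => ∃ k ∈ range J, ¬ GG (2 ^ k * R) F) := by
    have h1 : Pr (fun _ => p1) S (fun F => ∀ k ∈ range J, GG (2 ^ k * R) F) ≤
        Pr (fun _ => p) S (fun F => ∀ k ∈ range J, GG (2 ^ k * R) F) := by
      apply Pr_mono_param ok1 ok (fun _ => hp)
      exact fun F G hFG _ hF k hk => GG_inc _ F G hFG (hF k hk)
    have h2 : ∀ q : ℝ, Pr (fun _ => q) S (fun F => ∃ k ∈ range J, ¬ GG (2 ^ k * R) F) =
        1 - Pr (fun _ => q) S (fun F => ∀ k ∈ range J, GG (2 ^ k * R) F) := by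
      intro q
      rw [← Pr_not]
      apply Pr_congr
      intro F _
      push Not
      rfl
    rw [h2, h2]
    linarith
  exact s1.trans (s2.trans (h p1 hp1 hp2 R hR hRs J S (by rw [hS])))

/-- The volume in the near-critical window. -/
theorem win_vol {κ a A : ℝ} (hκ : 0 < κ) (hA : 0 < A) {K : ℝ} (hK : 0 < K) :
    ∃ C : ℝ, 0 < C ∧ ∀ (p : ℝ) (n : ℕ), NC p κ a A n → ∀ N : ℕ, 1 ≤ N →
      (N:ℝ) ≤ K * (n:ℝ) ^ (91/48 : ℝ) → ∀ M : ℕ,
        Pr (fun _ => p) (boxE M) (fun F => Vol N ↑F) ≤ C * (N:ℝ) ^ (-(5/91) : ℝ) := by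
  have hkc := kcn_pos hκ hA
  obtain ⟨δ, hδ⟩ : ∃ δ : ℝ, δ = min (K ^ (-(48/91) : ℝ)) ((8 * kcn κ A) ^ (-(48/91) : ℝ)) :=
    ⟨_, rfl⟩
  have hδ0 : 0 < δ := by rw [hδ]; exact lt_min (by positivity) (by positivity)
  have hδ1 : δ ≤ K ^ (-(48/91) : ℝ) := by rw [hδ]; exact min_le_left _ _
  have hδ2 : δ ≤ (8 * kcn κ A) ^ (-(48/91) : ℝ) := by rw [hδ]; exact min_le_right _ _
  refine ⟨δ ^ (-(5/48) : ℝ) + (2 + A) * (δ / 2) ^ (-(5/48) : ℝ), by positivity, ?_⟩
  intro p n hNC N hN hNK M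
  have ok := hNC.ok
  have hN' : (1:ℝ) ≤ N := by exact_mod_cast hN
  have hNp : (0:ℝ) < N := by linarith
  have hq0 : 0 < (N:ℝ) ^ (48/91 : ℝ) := by positivity
  have hpow : ((N:ℝ) ^ (48/91 : ℝ)) ^ (-(5/48) : ℝ) = (N:ℝ) ^ (-(5/91) : ℝ) := by
    rw [← Real.rpow_mul hNp.le]; norm_num
  have hNpow : 0 < (N:ℝ) ^ (-(5/91) : ℝ) := by positivity
  rcases lt_or_ge (δ * (N:ℝ) ^ (48/91 : ℝ)) 1 with hsm | hbig
  · refine (Pr_le_one ok _ _).trans ?_
    have h1 : (1:ℝ) ≤ (δ * (N:ℝ) ^ (48/91 : ℝ)) ^ (-(5/48) : ℝ) :=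
      Real.one_le_rpow_of_pos_of_le_one_of_nonpos (by positivity) hsm.le (by norm_num)
    rw [Real.mul_rpow hδ0.le hq0.le, hpow] at h1
    refine h1.trans ?_
    apply mul_le_mul_of_nonneg_right _ hNpow.le
    have : 0 < (2 + A) * (δ / 2) ^ (-(5/48) : ℝ) := by positivity
    linarith
  · obtain ⟨m, hm⟩ : ∃ m : ℕ, m = ⌊δ * (N:ℝ) ^ (48/91 : ℝ)⌋₊ := ⟨_, rfl⟩
    have hm1 : 1 ≤ m := by rw [hm]; exact Nat.le_floor (by exact_mod_cast hbig)
    have hm2 : (m:ℝ) ≤ δ * (N:ℝ) ^ (48/91 : ℝ) := by rw [hm]; exact Nat.floor_le (by positivity)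
    have hm3 : δ * (N:ℝ) ^ (48/91 : ℝ) ≤ 2 * m := by
      have h1 : δ * (N:ℝ) ^ (48/91 : ℝ) < m + 1 := by rw [hm]; exact Nat.lt_floor_add_one _
      have h2 : (1:ℝ) ≤ m := by exact_mod_cast hm1
      linarith
    have hm0 : (0:ℝ) < m := by exact_mod_cast hm1
    have hmn : m ≤ n := by
      have h1 : (N:ℝ) ^ (48/91 : ℝ) ≤ K ^ (48/91 : ℝ) * n := by
        have h2 := Real.rpow_le_rpow hNp.le hNK (show (0:ℝ) ≤ 48/91 by norm_num)
        rw [Real.mul_rpow hK.le (by positivity), ← Real.rpow_mul (by positivity)] at h2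
        have e : (91/48 * (48/91) : ℝ) = 1 := by norm_num
        rw [e, Real.rpow_one] at h2
        exact h2
      have h2 : (m:ℝ) ≤ n := by
        calc (m:ℝ) ≤ δ * (N:ℝ) ^ (48/91 : ℝ) := hm2
          _ ≤ K ^ (-(48/91) : ℝ) * (K ^ (48/91 : ℝ) * n) :=
              mul_le_mul hδ1 h1 hq0.le (by positivity)
          _ = (K ^ (-(48/91) : ℝ) * K ^ (48/91 : ℝ)) * n := by ring
          _ = n := by rw [← Real.rpow_add hK]; norm_num
      exact_mod_cast h2
    have hmarm : (m:ℝ) ^ (-(5/48) : ℝ) ≤ (δ / 2) ^ (-(5/48) : ℝ) * (N:ℝ) ^ (-(5/91) : ℝ) := by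
      rw [← hpow, ← Real.mul_rpow (by positivity) hq0.le]
      apply Real.rpow_le_rpow_of_nonpos (by positivity) _ (by norm_num)
      linarith
    -- large box
    suffices hb : ∀ M : ℕ, 4 * m ≤ M → Pr (fun _ => p) (boxE M) (fun F => Vol N ↑F) ≤
        (2 + A) * (m:ℝ) ^ (-(5/48) : ℝ) by
      have h1 : Pr (fun _ => p) (boxE M) (fun F => Vol N ↑F) ≤ (2 + A) * (m:ℝ) ^ (-(5/48) : ℝ) := by
        refine le_trans ?_ (hb (M + 4 * m) (by omega))
        exact Pr_mono_set ok (boxE_mono (by omega))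
          (fun F G hFG _ hF => InfAux.vol_mono (by exact_mod_cast hFG) hF)
      refine h1.trans ?_
      calc (2 + A) * (m:ℝ) ^ (-(5/48) : ℝ) ≤
          (2 + A) * ((δ / 2) ^ (-(5/48) : ℝ) * (N:ℝ) ^ (-(5/91) : ℝ)) :=
            mul_le_mul_of_nonneg_left hmarm (by positivity)
        _ ≤ _ := by
            have : 0 < δ ^ (-(5/48) : ℝ) * (N:ℝ) ^ (-(5/91) : ℝ) := by positivity
            linarith
    intro M hM
    obtain ⟨S, hS⟩ : ∃ S, S = boxE M := ⟨_, rfl⟩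
    rw [← hS]
    obtain ⟨l, hl⟩ : ∃ l : ℝ, l = 1 / (8 * kcn κ A * (m:ℝ) ^ (91/48 : ℝ)) := ⟨_, rfl⟩
    have hl0 : 0 < l := by rw [hl]; positivity
    have hvs : vs (2 * m) m = 4 * (m:ℝ) ^ (91/48 : ℝ) := by
      rw [← vs_self hm1]
      unfold vs
      push_cast
      ring
    have hlB : l * (kcn κ A * vs (2 * m) m) ≤ 1 / 2 := by
      rw [hvs, hl]
      apply le_of_eq
      field_simp
      norm_num
    have hlN : 1 ≤ l * N := by
      rw [hl, one_div, inv_mul_eq_div, le_div_iff₀ (by positivity), one_mul]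
      have h1 : (m:ℝ) ^ (91/48 : ℝ) ≤ (8 * kcn κ A) ^ (-(1:ℝ)) * N := by
        have h2 : (m:ℝ) ≤ (8 * kcn κ A) ^ (-(48/91) : ℝ) * (N:ℝ) ^ (48/91 : ℝ) :=
          hm2.trans (mul_le_mul_of_nonneg_right hδ2 hq0.le)
        have h3 := Real.rpow_le_rpow hm0.le h2 (show (0:ℝ) ≤ 91/48 by norm_num)
        rw [Real.mul_rpow (by positivity) hq0.le, ← Real.rpow_mul (by positivity),
          ← Real.rpow_mul hNp.le] at h3
        have e1 : (-(48/91) * (91/48) : ℝ) = -1 := by norm_num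
        have e2 : (48/91 * (91/48) : ℝ) = 1 := by norm_num
        rw [e1, e2, Real.rpow_one] at h3
        exact h3
      rw [Real.rpow_neg (by positivity), Real.rpow_one] at h1
      calc 8 * kcn κ A * (m:ℝ) ^ (91/48 : ℝ) ≤ 8 * kcn κ A * ((8 * kcn κ A)⁻¹ * N) :=
            mul_le_mul_of_nonneg_left h1 (by positivity)
        _ = N := by field_simp
    have c1 := case1 hNC hA hm1 hmn (S := S) (by rw [hS]; exact boxE_mono hM) hl0.le hlB hlN
    have key : Pr (fun _ => p) S (fun F => Vol N ↑F) ≤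
        Pr (fun _ => p) S (fun F => N ≤ YY (2 * m) F) + Pr (fun _ => p) S (LA (0, 0) m) := by
      refine le_trans ?_ (Pr_or_le ok S _ _)
      apply Pr_mono ok
      intro F _ hF
      rw [vol_iff] at hF
      by_cases hc : cl0 F ⊆ bx (2 * m)
      · left
        exact hF.trans (cl0_YY hc)
      · right
        exact farS_iff.1 (far_all hc _ (zero_cl0 F))
    have c2 : Pr (fun _ => p) S (LA (0, 0) m) ≤ A * (m:ℝ) ^ (-(5/48) : ℝ) :=
      (pr_LA_q hNC.q0 hNC.q1 _ _ _).trans (hNC.hi m hm1 hmn)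
    have c3 : 2 * (m:ℝ) ^ (-(5/48) : ℝ) * Real.exp (-(l * N)) ≤ 2 * (m:ℝ) ^ (-(5/48) : ℝ) := by
      apply mul_le_of_le_one_right (by positivity)
      rw [Real.exp_le_one_iff]
      linarith
    calc _ ≤ _ := key
      _ ≤ 2 * (m:ℝ) ^ (-(5/48) : ℝ) + A * (m:ℝ) ^ (-(5/48) : ℝ) := add_le_add (c1.trans c3) c2
      _ = _ := by ring

/-- The tail regime, near the critical point. -/
theorem sup_fin : ∃ c C : ℝ, 0 < c ∧ 0 < C ∧ ∀ (κ a A p : ℝ) (n : ℕ), 0 < A → NC p κ a A n →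
    1 ≤ n → 1/2 ≤ p → p ≤ 3/4 → ∀ r : ℕ, 1 ≤ r →
    1 ≤ ((r * (2 * n) : ℕ) : ℝ) * (p - 1/2) ^ (4/3 : ℝ) → ∀ l N : ℝ, 0 ≤ l →
    100 * l * (kcn κ A * vs (8 * n) n) ≤ 1 / 2 → 100 * (r:ℝ) ^ 2 ≤ l * N → ∀ J : ℕ, 2 ≤ J →
      Pr (fun _ => p) (boxE (2 ^ (J + 1) * (r * (2 * n))))
        (fun F => FV N (2 ^ (J + 1) * (r * (2 * n))) ↑F) ≤
        ((2 + 2 * A) * Real.exp (-(l * N / 2)) +
          A * (C * Real.exp (-(c * (((r * (2 * n) : ℕ) : ℝ) * (p - 1/2) ^ (4/3 : ℝ)))))) *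
            (n:ℝ) ^ (-(5/48) : ℝ) := by
  obtain ⟨c, C, hc, hC, hff⟩ := far_fin
  refine ⟨c, C, hc, hC, ?_⟩
  intro κ a A p n hA h hn hp hp1 r hr hRs l N hl hlB hlN J hJ
  have ok := h.ok
  have hκ := h.win.kpos
  have hkc := kcn_pos hκ hA
  have hkm := kmom_pos hκ hA
  obtain ⟨L, hL⟩ : ∃ L : ℕ, L = 2 * n := ⟨_, rfl⟩
  obtain ⟨R, hR⟩ : ∃ R : ℕ, R = r * (2 * n) := ⟨_, rfl⟩
  have hRL : R = r * L := by rw [hR, hL]
  have hL1 : 1 ≤ L := by omega
  have hnL : n ≤ L := by omega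
  have hLR : L ≤ R := by rw [hRL]; exact Nat.le_mul_of_pos_left _ hr
  have hR1 : 1 ≤ R := by omega
  rw [← hR] at hRs ⊢
  obtain ⟨M, hM⟩ : ∃ M : ℕ, M = 2 ^ (J + 1) * R := ⟨_, rfl⟩
  have hM8 : 8 * R ≤ M := by
    rw [hM]
    apply Nat.mul_le_mul_right
    calc 8 = 2 ^ (2 + 1) := by norm_num
      _ ≤ 2 ^ (J + 1) := Nat.pow_le_pow_right (by norm_num) (by omega)
  have hff' := hff p hp hp1 R hR1 hRs n (by omega) J
  rw [← hM] at hff' ⊢
  obtain ⟨S, hS⟩ : ∃ S, S = boxE M := ⟨_, rfl⟩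
  rw [← hS] at hff' ⊢
  have hr0 : (1:ℝ) ≤ r := by exact_mod_cast hr
  have hlN1 : 1 ≤ l * N := by nlinarith
  have hn0 : (0:ℝ) < n := by exact_mod_cast hn
  have hpi : 0 < (n:ℝ) ^ (-(5/48) : ℝ) := by positivity
  have hvs8 := vs_pos (R := 8 * n) (n := n) (by omega) hn
  have hvs2 : vs (2 * n) n ≤ vs (8 * n) n := by
    unfold vs
    apply mul_le_mul_of_nonneg_right _ hpi.le
    apply pow_le_pow_left₀ (by positivity)
    exact_mod_cast (show 2 * n ≤ 8 * n by omega)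
  have t0 : 0 ≤ l * (kcn κ A * vs (8 * n) n) := by positivity
  have t1 : l * (kcn κ A * vs (2 * n) n) ≤ l * (kcn κ A * vs (8 * n) n) :=
    mul_le_mul_of_nonneg_left (mul_le_mul_of_nonneg_left hvs2 hkc.le) hl
  have t2 : l * (kmom κ A * vs (4 * L) n) ≤ l * (kcn κ A * vs (8 * n) n) := by
    have e : 4 * L = 8 * n := by omega
    rw [e]
    apply mul_le_mul_of_nonneg_left _ hl
    apply mul_le_mul_of_nonneg_right _ hvs8.le
    unfold kcn
    have : 0 ≤ ((6 * A) ^ 2 + 9) * 41 := by positivity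
    linarith
  have c1 := case1 h hA hn le_rfl (S := S) (N := N) (by rw [hS]; exact boxE_mono (by omega)) hl
    (by linarith) hlN1
  -- the blocks
  obtain ⟨Γ, hΓ⟩ : ∃ Γ : Finset Vtx, Γ = bx (2 * r + 1) := ⟨_, rfl⟩
  have hLz : (0:ℤ) < L := by exact_mod_cast hL1
  have c2 := mk_ZBs h hA hn le_rfl hnL Γ (S := S) (by
    intro b hb
    rw [hΓ, mem_bx_iff'] at hb
    rw [hS]
    have g1 : (L:ℤ) * b.1 ≤ L * (2 * r + 1) := mul_le_mul_of_nonneg_left (by
      push_cast at hb; linarith) hLz.le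
    have g2 : (L:ℤ) * (-(2 * r + 1)) ≤ L * b.1 := mul_le_mul_of_nonneg_left (by
      push_cast at hb; linarith) hLz.le
    have g3 : (L:ℤ) * b.2 ≤ L * (2 * r + 1) := mul_le_mul_of_nonneg_left (by
      push_cast at hb; linarith) hLz.le
    have g4 : (L:ℤ) * (-(2 * r + 1)) ≤ L * b.2 := mul_le_mul_of_nonneg_left (by
      push_cast at hb; linarith) hLz.le
    have g5 : (8:ℤ) * (r * L) ≤ M := by
      have : ((8 * R : ℕ) : ℤ) ≤ M := by exact_mod_cast hM8
      rw [hRL] at this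
      push_cast at this
      linarith
    have g6 : (L:ℤ) ≤ r * L := by
      have : ((L : ℕ) : ℤ) ≤ ((r * L : ℕ) : ℤ) := by exact_mod_cast (hRL ▸ hLR)
      push_cast at this
      exact this
    unfold bo boxE ctr
    simp only
    apply RE_subset <;> push_cast <;> nlinarith) (by
      rw [hS]; exact boxE_mono (by omega)) (l := l) hl (by linarith)
  have c3 := markov_exp ok (N := N) hl c2
  have hcardΓ : (Γ.card : ℝ) ≤ 49 * (r:ℝ) ^ 2 := by
    rw [hΓ, w_card_bx]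
    push_cast
    nlinarith
  have harm : arm p n ≤ A * (n:ℝ) ^ (-(5/48) : ℝ) := h.hi n hn le_rfl
  have harm0 := arm_nonneg h.q0 h.q1 n
  have c4 : 2 * 2 ^ Γ.card * arm p n * Real.exp (-(l * N)) ≤
      (2 * A) * (n:ℝ) ^ (-(5/48) : ℝ) * Real.exp (-(l * N / 2)) := by
    have g1 : (2:ℝ) ^ Γ.card ≤ Real.exp (l * N / 2) := by
      have g2 : (2:ℝ) ≤ Real.exp 1 := by
        have := Real.exp_one_gt_d9
        linarith
      calc (2:ℝ) ^ Γ.card ≤ (Real.exp 1) ^ Γ.card := pow_le_pow_left₀ (by norm_num) g2 _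
        _ = Real.exp (Γ.card) := by rw [← Real.exp_nat_mul, mul_one]
        _ ≤ Real.exp (l * N / 2) := Real.exp_le_exp.2 (by linarith)
    have g3 : Real.exp (l * N / 2) * Real.exp (-(l * N)) = Real.exp (-(l * N / 2)) := by
      rw [← Real.exp_add]; congr 1; ring
    calc 2 * 2 ^ Γ.card * arm p n * Real.exp (-(l * N)) =
        (2 * arm p n) * (2 ^ Γ.card * Real.exp (-(l * N))) := by ring
      _ ≤ (2 * (A * (n:ℝ) ^ (-(5/48) : ℝ))) * (Real.exp (l * N / 2) * Real.exp (-(l * N))) := by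
          apply mul_le_mul _ _ (by positivity) (by positivity)
          · exact mul_le_mul_of_nonneg_left harm (by norm_num)
          · exact mul_le_mul_of_nonneg_right g1 (Real.exp_pos _).le
      _ = _ := by rw [g3]; ring
  have c5 : 2 * (n:ℝ) ^ (-(5/48) : ℝ) * Real.exp (-(l * N)) ≤
      2 * (n:ℝ) ^ (-(5/48) : ℝ) * Real.exp (-(l * N / 2)) := by
    apply mul_le_mul_of_nonneg_left _ (by positivity)
    apply Real.exp_le_exp.2
    linarith
  have c6 : arm p n * (C * Real.exp (-(c * (R * (p - 1/2) ^ (4/3 : ℝ))))) ≤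
      (A * (n:ℝ) ^ (-(5/48) : ℝ)) * (C * Real.exp (-(c * (R * (p - 1/2) ^ (4/3 : ℝ))))) :=
    mul_le_mul_of_nonneg_right harm (by positivity)
  have key : Pr (fun _ => p) S (fun F => FV N M ↑F) ≤
      Pr (fun _ => p) S (fun F => N ≤ YY (2 * n) F) +
      (Pr (fun _ => p) S (fun F => LA (0, 0) n F ∧ N ≤ ∑ b ∈ Γ, ZB L n b F) +
        Pr (fun _ => p) S (fun F => LA (0, 0) n F ∧ (FO (2 * R) ↑F ∧ ¬ FO M ↑F))) := by
    refine le_trans ?_ ((Pr_or_le ok S _ _).trans (add_le_add le_rfl (Pr_or_le ok S _ _)))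
    apply Pr_mono ok
    rintro F _ ⟨hF, hno⟩
    rw [vol_iff] at hF
    by_cases hc : cl0 F ⊆ bx (2 * n)
    · left
      exact hF.trans (cl0_YY hc)
    · right
      have hall := far_all hc
      have hLA : LA (0, 0) n F := farS_iff.1 (hall _ (zero_cl0 F))
      by_cases hfo : FO (2 * R) ↑F
      · right
        exact ⟨hLA, hfo, hno⟩
      · left
        refine ⟨hLA, hF.trans ((cl0_le hL1 hall).trans ?_)⟩
        apply Finset.sum_le_sum_of_subset_of_nonneg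
        · intro b hb
          unfold blk at hb
          rw [Finset.mem_image] at hb
          obtain ⟨x, hx, rfl⟩ := hb
          have hx2 := cl0_small hfo hx
          rw [hΓ, mem_bx_iff']
          unfold nv at hx2
          have hx3 : (x.1.natAbs : ℤ) < 2 * (r * L) := by
            have : x.1.natAbs < 2 * R := by omega
            rw [hRL] at this
            exact_mod_cast this
          have hx4 : (x.2.natAbs : ℤ) < 2 * (r * L) := by
            have : x.2.natAbs < 2 * R := by omega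
            rw [hRL] at this
            exact_mod_cast this
          have hd : ∀ y : ℤ, (y.natAbs : ℤ) < 2 * (r * L) →
              -((2 * r + 1 : ℕ) : ℤ) ≤ y / (L:ℤ) ∧ y / (L:ℤ) ≤ ((2 * r + 1 : ℕ) : ℤ) := by
            intro y hy
            constructor
            · rw [Int.le_ediv_iff_mul_le hLz]
              have : -((2 * r + 1 : ℕ) : ℤ) * (L:ℤ) = -(2 * (r * L)) - L := by push_cast; ring
              rw [this]
              omega
            · rw [← Int.lt_add_one_iff, Int.ediv_lt_iff_lt_mul hLz]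
              have : (((2 * r + 1 : ℕ) : ℤ) + 1) * (L:ℤ) = 2 * (r * L) + 2 * L := by push_cast; ring
              rw [this]
              omega
          unfold bi
          exact ⟨hd _ hx3, hd _ hx4⟩
        · intro b _ _
          exact ZB_nonneg _ _ _ _
  calc _ ≤ _ := key
    _ ≤ 2 * (n:ℝ) ^ (-(5/48) : ℝ) * Real.exp (-(l * N / 2)) +
        ((2 * A) * (n:ℝ) ^ (-(5/48) : ℝ) * Real.exp (-(l * N / 2)) +
          (A * (n:ℝ) ^ (-(5/48) : ℝ)) * (C * Real.exp (-(c * (R * (p - 1/2) ^ (4/3 : ℝ)))))) :=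
        add_le_add (c1.trans c5) (add_le_add (c3.trans c4) (hff'.trans c6))
    _ = _ := by ring

end Pool.Agent.NH39.CV
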