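import Pool.Agent.NH39.D2
import Pool.Agent.H160R2.CV.InfMax

/-! Above the critical point: upper bound for the size of the finite clusters on the infinite
lattice. -/

set_option autoImplicit false

namespace Pool.Agent.NH39.CV

open Finset H974 Pool.Agent.H160R2.CV Pool.Agent.H160R2.CV.Quad H362P Pool.Agent.Y244.PC
open H12S (Win)
open MeasureTheory Filter

/-! ### passage to the infinite lattice -/

theorem nv_lt_of {M : ℕ} {F : Set Edg} (h : ¬ FO M (F ∩ ↑(boxE M))) {v : Vtx}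
    (hv : Reach F (0, 0) v) : nv v < M := by
  by_contra hc
  push Not at hc
  obtain ⟨w, k1, k2, k3⟩ := first_exit (a := -(M:ℤ)) (b := M) (c := -(M:ℤ)) (d := M)
    (u := (0, 0)) (by unfold inR; simp) hv (by unfold nv at hc; omega)
  apply h
  refine ⟨w, ?_, k3⟩
  unfold nv
  omega

theorem reach_in {M : ℕ} {F : Set Edg} (h : ∀ v, Reach F (0, 0) v → nv v ≤ M) {v : Vtx}
    (hv : Reach F (0, 0) v) : Reach (F ∩ ↑(boxE M)) (0, 0) v := by
  induction hv with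
  | refl => exact Reach.refl _ _
  | tail h1 h2 ih =>
    rename_i b c
    obtain ⟨e, he, hcase⟩ := h2
    have hb := h b h1
    have hc := h c (h1.tail ⟨e, he, hcase⟩)
    refine ih.trans (Adj.reach ⟨e, ⟨he, ?_⟩, hcase⟩)
    rw [Finset.mem_coe, InfMaxAux_mem]
    rcases hcase with ⟨h3, h4⟩ | ⟨h3, h4⟩
    · rw [h3, h4]; exact ⟨hb, hc⟩
    · rw [h3, h4]; exact ⟨hc, hb⟩
where
  InfMaxAux_mem {n : ℕ} {e : Edg} : e ∈ boxE n ↔ nv (src e) ≤ n ∧ nv (tgt e) ≤ n := by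
    obtain ⟨x, y, _ | _⟩ := e
    · unfold nv
      simp only [boxE, mem_RE_false, src_mk, tgt_false]
      omega
    · unfold nv
      simp only [boxE, mem_RE_true, src_mk, tgt_true]
      omega

theorem FV_fin {N : ℝ} {M : ℕ} {F : Set Edg} (h : FV N M (F ∩ ↑(boxE M))) :
    Vol N F ∧ ∀ v, Reach F (0, 0) v → nv v < M :=
  ⟨InfAux.vol_mono Set.inter_subset_left h.1, fun _ hv => nv_lt_of h.2 hv⟩

theorem FV_of {N : ℝ} {M : ℕ} {F : Set Edg} (h1 : Vol N F)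
    (h2 : ∀ v, Reach F (0, 0) v → nv v < M) : FV N M (F ∩ ↑(boxE M)) := by
  constructor
  · obtain ⟨T, hT, hr⟩ := h1
    exact ⟨T, hT, fun u hu => reach_in (fun v hv => (h2 v hv).le) (hr u hu)⟩
  · rintro ⟨v, hv, hr⟩
    have := h2 v (hr.mono Set.inter_subset_left)
    omega

theorem fin_iff (ω : sqLattice.edgeSet → Bool) :
    (cluster0 ω).Finite ↔ ∃ K : ℕ, ∀ v, Reach (opn ω) (0, 0) v → nv v < K := by
  have hcl : cluster0 ω = {v | Reach (opn ω) (0, 0) v} := by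
    ext v
    exact open_reach ω _ _
  constructor
  · intro h
    obtain ⟨K, hK⟩ := (h.image nv).bddAbove
    refine ⟨K + 1, fun v hv => ?_⟩
    have : nv v ∈ nv '' (cluster0 ω) := ⟨v, by rw [hcl]; exact hv, rfl⟩
    have := hK this
    omega
  · rintro ⟨K, hK⟩
    apply Set.Finite.subset (bx K).finite_toSet
    intro v hv
    rw [hcl] at hv
    have := hK v hv
    rw [Finset.mem_coe, mem_bx_iff']
    unfold nv at this
    omega

theorem upper_fin (p : unitInterval) (N : ℕ) {R : ℕ} (hR : 1 ≤ R) (J0 : ℕ) (B : ℝ)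
    (h : ∀ J : ℕ, J0 ≤ J → Pr (fun _ => (p:ℝ)) (boxE (2 ^ (J + 1) * R))
      (fun F => FV N (2 ^ (J + 1) * R) ↑F) ≤ B) :
    (bondLaw p).real {ω | (N : ℕ∞) ≤ (cluster0 ω).encard ∧ (cluster0 ω).Finite} ≤ B := by
  obtain ⟨Mf, hMf⟩ : ∃ Mf : ℕ → ℕ, Mf = fun J => 2 ^ (J + 1) * R := ⟨_, rfl⟩
  have hmono : Monotone Mf := by
    intro i j hij
    rw [hMf]
    exact Nat.mul_le_mul_right _ (Nat.pow_le_pow_right (by norm_num) (by omega))
  have hgrow : ∀ J, J ≤ Mf J := by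
    intro J
    rw [hMf]
    have h1 : J + 1 ≤ 2 ^ (J + 1) := Nat.lt_two_pow_self.le
    have h2 : 2 ^ (J + 1) ≤ 2 ^ (J + 1) * R := Nat.le_mul_of_pos_right _ hR
    show J ≤ 2 ^ (J + 1) * R
    omega
  have e : {ω : sqLattice.edgeSet → Bool | (N : ℕ∞) ≤ (cluster0 ω).encard ∧
      (cluster0 ω).Finite} = ⋃ J : ℕ, {ω | FV N (Mf J) (opn ω ∩ ↑(boxE (Mf J)))} := by
    ext ω
    rw [Set.mem_iUnion]
    constructor
    · rintro ⟨h1, h2⟩
      obtain ⟨K, hK⟩ := (fin_iff ω).1 h2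
      refine ⟨K, FV_of ((InfAux.encard_iff ω N).1 h1) (fun v hv => ?_)⟩
      exact (hK v hv).trans_le (hgrow K)
    · rintro ⟨J, hJ⟩
      obtain ⟨h1, h2⟩ := FV_fin hJ
      exact ⟨(InfAux.encard_iff ω N).2 h1, (fin_iff ω).2 ⟨_, h2⟩⟩
  have hm : Monotone (fun J : ℕ => {ω : sqLattice.edgeSet → Bool |
      FV N (Mf J) (opn ω ∩ ↑(boxE (Mf J)))}) := by
    intro i j hij ω hω
    obtain ⟨h1, h2⟩ := FV_fin hω
    exact FV_of h1 (fun v hv => (h2 v hv).trans_le (hmono hij))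
  have h1 := tendsto_measure_iUnion_atTop (μ := bondLaw p) hm
  rw [← e] at h1
  have h2 : Tendsto (fun J : ℕ => (bondLaw p).real {ω | FV N (Mf J) (opn ω ∩ ↑(boxE (Mf J)))})
      atTop (nhds ((bondLaw p).real {ω | (N : ℕ∞) ≤ (cluster0 ω).encard ∧
        (cluster0 ω).Finite})) :=
    (ENNReal.tendsto_toReal (measure_ne_top _ _)).comp h1
  refine le_of_tendsto h2 ?_
  filter_upwards [eventually_ge_atTop J0] with J hJ
  rw [law_box_p p (Mf J) (fun F => FV N (Mf J) F)]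
  rw [hMf]
  exact h J hJ

theorem lower_fin (p : unitInterval) (N M : ℕ) :
    Pr (fun _ => (p:ℝ)) (boxE M) (fun F => FV N M ↑F) ≤
    (bondLaw p).real {ω | (N : ℕ∞) ≤ (cluster0 ω).encard ∧ (cluster0 ω).Finite} := by
  rw [← law_box_p p M (fun F => FV N M F)]
  refine measureReal_mono (fun ω hω => ?_)
  obtain ⟨h1, h2⟩ := FV_fin hω
  exact ⟨(InfAux.encard_iff ω N).2 h1, (fin_iff ω).2 ⟨_, h2⟩⟩

/-! ### the upper bound -/

theorem absorb {X δ : ℝ} (hX : 0 ≤ X) (hδ : 0 < δ) :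
    X ^ (5/91 : ℝ) ≤ (1 + 1 / δ) * Real.exp (δ * Real.sqrt X) := by
  have h0 : 0 ≤ Real.sqrt X := Real.sqrt_nonneg X
  have h1 : (1:ℝ) ≤ Real.exp (δ * Real.sqrt X) := Real.one_le_exp (by positivity)
  have h2 : 0 < 1 / δ := by positivity
  rcases le_or_gt X 1 with hx | hx
  · have h3 : X ^ (5/91 : ℝ) ≤ 1 := Real.rpow_le_one hX hx (by norm_num)
    nlinarith
  · have h3 : X ^ (5/91 : ℝ) ≤ Real.sqrt X := by
      rw [Real.sqrt_eq_rpow]
      exact Real.rpow_le_rpow_of_exponent_le hx.le (by norm_num)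
    have h4 : Real.sqrt X ≤ 1 / δ * Real.exp (δ * Real.sqrt X) := by
      have h5 := Real.add_one_le_exp (δ * Real.sqrt X)
      rw [div_mul_eq_mul_div, one_mul, le_div_iff₀ hδ]
      linarith
    nlinarith

/-- The upper bound near the critical point. -/
theorem sup_near : ∃ b c C : ℝ, 0 < b ∧ b ≤ 1/4 ∧ 0 < c ∧ 0 < C ∧ ∀ p : unitInterval,
    (1/2 : ℝ) < p → (p:ℝ) ≤ 1/2 + b → ∀ N : ℕ, 1 ≤ N →
      (bondLaw p).real {ω | (N : ℕ∞) ≤ (cluster0 ω).encard ∧ (cluster0 ω).Finite} ≤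
      C * (N:ℝ) ^ (-(5/91) : ℝ) *
        Real.exp (-(c * Real.sqrt (N * ((p:ℝ) - 1/2) ^ (91/36 : ℝ)))) := by
  obtain ⟨κ, b0, a, A, hκ, hb0, ha, hA, hnear⟩ := nearA
  obtain ⟨c1, C1, hc1, hC1, hfin⟩ := sup_fin
  obtain ⟨b, hb⟩ : ∃ b : ℝ, b = min b0 (1/4) := ⟨_, rfl⟩
  have hb1 : 0 < b := by rw [hb]; exact lt_min hb0 (by norm_num)
  have hb2 : b ≤ 1/4 := by rw [hb]; exact min_le_right _ _
  have hb3 : b ≤ b0 := by rw [hb]; exact min_le_left _ _
  have hkc := kcn_pos hκ hA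
  obtain ⟨B, hB⟩ : ∃ B : ℝ, B = b ^ (4/3 : ℝ) := ⟨_, rfl⟩
  have hB0 : 0 < B := by rw [hB]; positivity
  obtain ⟨K0, hK0⟩ : ∃ K0 : ℝ, K0 = (10 * (1 / B + 2)) ^ 2 := ⟨_, rfl⟩
  have hK00 : 0 < K0 := by rw [hK0]; positivity
  have hK01 : 1 ≤ K0 := by
    rw [hK0]
    have : 0 < 1 / B := by positivity
    nlinarith
  obtain ⟨C2, hC2, hwin⟩ := win_vol hκ (a := a) hA (K := K0 * (12800 * kcn κ A)) (by positivity)
  -- `l N` compared with `X`
  obtain ⟨g, hg⟩ : ∃ g : ℝ, g = (b ^ (91/36 : ℝ) * (12800 * kcn κ A))⁻¹ := ⟨_, rfl⟩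
  have hg0 : 0 < g := by rw [hg]; positivity
  obtain ⟨D, hD⟩ : ∃ D : ℝ, D = (B / 2) ^ (-(5/48) : ℝ) := ⟨_, rfl⟩
  have hD0 : 0 < D := by rw [hD]; positivity
  obtain ⟨c2, hc2⟩ : ∃ c2 : ℝ, c2 = min (1/2) (c1 * B / 20) := ⟨_, rfl⟩
  have hc20 : 0 < c2 := by rw [hc2]; exact lt_min (by norm_num) (by positivity)
  obtain ⟨c3, hc3⟩ : ∃ c3 : ℝ, c3 = c2 * Real.sqrt g / 2 := ⟨_, rfl⟩
  have hc30 : 0 < c3 := by rw [hc3]; positivity
  obtain ⟨C3, hC3⟩ : ∃ C3 : ℝ, C3 = (2 + 2 * A + A * C1) * D * (1 + 1 / c3) := ⟨_, rfl⟩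
  have hC30 : 0 < C3 := by rw [hC3]; positivity
  obtain ⟨C4, hC4⟩ : ∃ C4 : ℝ, C4 = C2 * Real.exp (c3 * Real.sqrt (K0 / g)) := ⟨_, rfl⟩
  have hC40 : 0 < C4 := by rw [hC4]; positivity
  refine ⟨b, c3, C3 + C4, hb1, hb2, hc30, by positivity, ?_⟩
  intro p hp hp1 N hN
  obtain ⟨s, hs⟩ : ∃ s : ℝ, s = (p:ℝ) - 1/2 := ⟨_, rfl⟩
  have hs0 : 0 < s := by rw [hs]; linarith
  have hsb : s ≤ b := by rw [hs]; linarith
  rw [← hs]
  have hN' : (1:ℝ) ≤ N := by exact_mod_cast hN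
  have hNp : (0:ℝ) < N := by linarith
  have hNpow : 0 < (N:ℝ) ^ (-(5/91) : ℝ) := by positivity
  obtain ⟨X, hX⟩ : ∃ X : ℝ, X = N * s ^ (91/36 : ℝ) := ⟨_, rfl⟩
  have hX0 : 0 < X := by rw [hX]; positivity
  rw [← hX]
  obtain ⟨n, hn, hn1, hn2, hn3⟩ := Pool.Agent.Y554.NC.scale_exists hb1 hs0 hsb
  have hn0 : (0:ℝ) < n := by exact_mod_cast hn
  have hNC : NC p κ a A n := by
    apply hnear n hn p
    rw [abs_of_pos (by linarith), ← hs]
    exact hn1.trans (mul_le_mul_of_nonneg_right hb3 (by positivity))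
  have hs43 : 0 < s ^ (4/3 : ℝ) := by positivity
  have hbs : (b / s) ^ (4/3 : ℝ) = B * s ^ (-(4/3) : ℝ) := by
    rw [Real.div_rpow hb1.le hs0.le, hB, Real.rpow_neg hs0.le, div_eq_mul_inv]
  rw [hbs] at hn2 hn3
  have hpi : (n:ℝ) ^ (-(5/48) : ℝ) ≤ D * s ^ (5/36 : ℝ) := by
    have h1 : (B / 2) * s ^ (-(4/3) : ℝ) ≤ n := by linarith
    have h2 : (n:ℝ) ^ (-(5/48) : ℝ) ≤ ((B / 2) * s ^ (-(4/3) : ℝ)) ^ (-(5/48) : ℝ) :=
      Real.rpow_le_rpow_of_nonpos (by positivity) h1 (by norm_num)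
    refine h2.trans (le_of_eq ?_)
    rw [Real.mul_rpow (by positivity) (by positivity), ← Real.rpow_mul hs0.le, hD]
    norm_num
  have hn91 : (n:ℝ) ^ (91/48 : ℝ) ≤ b ^ (91/36 : ℝ) * s ^ (-(91/36) : ℝ) := by
    have h1 := Real.rpow_le_rpow hn0.le hn2 (show (0:ℝ) ≤ 91/48 by norm_num)
    rw [Real.mul_rpow hB0.le (by positivity), ← Real.rpow_mul hs0.le, hB,
      ← Real.rpow_mul hb1.le] at h1
    have e1 : (4/3 * (91/48) : ℝ) = 91/36 := by norm_num
    have e2 : (-(4/3) * (91/48) : ℝ) = -(91/36) := by norm_num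
    rw [e1, e2] at h1
    exact h1
  obtain ⟨l, hl⟩ : ∃ l : ℝ, l = 1 / (12800 * kcn κ A * (n:ℝ) ^ (91/48 : ℝ)) := ⟨_, rfl⟩
  have hl0 : 0 < l := by rw [hl]; positivity
  have hvs : vs (8 * n) n = 64 * (n:ℝ) ^ (91/48 : ℝ) := by
    rw [← vs_self hn]
    unfold vs
    push_cast
    ring
  have hlB : 100 * l * (kcn κ A * vs (8 * n) n) ≤ 1 / 2 := by
    rw [hvs, hl]
    apply le_of_eq
    field_simp
    norm_num
  have hlX : g * X ≤ l * N := by
    have h1 : g * s ^ (91/36 : ℝ) ≤ l := by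
      rw [hl, one_div, hg]
      have h2 : 12800 * kcn κ A * (n:ℝ) ^ (91/48 : ℝ) ≤
          (b ^ (91/36 : ℝ) * (12800 * kcn κ A)) * s ^ (-(91/36) : ℝ) := by
        have := mul_le_mul_of_nonneg_left hn91 (show 0 ≤ 12800 * kcn κ A by positivity)
        linarith
      have h3 := inv_anti₀ (by positivity) h2
      refine le_trans (le_of_eq ?_) h3
      conv_rhs => rw [mul_inv, Real.rpow_neg hs0.le, inv_inv]
    rw [hX]
    calc g * (N * s ^ (91/36 : ℝ)) = (g * s ^ (91/36 : ℝ)) * N := by ring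
      _ ≤ l * N := mul_le_mul_of_nonneg_right h1 hNp.le
  rcases lt_or_ge (l * N) K0 with hsm | hbig
  · -- the window
    have hNK : (N:ℝ) ≤ K0 * (12800 * kcn κ A) * (n:ℝ) ^ (91/48 : ℝ) := by
      have h1 : l * (12800 * kcn κ A * (n:ℝ) ^ (91/48 : ℝ)) = 1 := by
        rw [hl]; field_simp
      have h2 : 0 < 12800 * kcn κ A * (n:ℝ) ^ (91/48 : ℝ) := by positivity
      calc (N:ℝ) = (l * N) * (12800 * kcn κ A * (n:ℝ) ^ (91/48 : ℝ)) := by
            have h3 : (l * N) * (12800 * kcn κ A * (n:ℝ) ^ (91/48 : ℝ)) =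
              (l * (12800 * kcn κ A * (n:ℝ) ^ (91/48 : ℝ))) * N := by ring
            rw [h3, h1, one_mul]
        _ ≤ K0 * (12800 * kcn κ A * (n:ℝ) ^ (91/48 : ℝ)) :=
            mul_le_mul_of_nonneg_right hsm.le h2.le
        _ = _ := by ring
    have h1 : (bondLaw p).real {ω | (N : ℕ∞) ≤ (cluster0 ω).encard ∧ (cluster0 ω).Finite} ≤
        C2 * (N:ℝ) ^ (-(5/91) : ℝ) := by
      apply upper_fin p N (R := 1) le_rfl 0
      intro J _
      refine le_trans ?_ (hwin p n hNC N hN hNK (2 ^ (J + 1) * 1))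
      exact Pr_mono hNC.ok (fun F _ hF => hF.1)
    refine h1.trans ?_
    have h2 : 1 ≤ Real.exp (c3 * Real.sqrt (K0 / g)) * Real.exp (-(c3 * Real.sqrt X)) := by
      rw [← Real.exp_add]
      apply Real.one_le_exp
      have h3 : Real.sqrt X ≤ Real.sqrt (K0 / g) := by
        apply Real.sqrt_le_sqrt
        rw [le_div_iff₀ hg0]
        linarith
      have := mul_le_mul_of_nonneg_left h3 hc30.le
      linarith
    calc C2 * (N:ℝ) ^ (-(5/91) : ℝ) = C2 * (N:ℝ) ^ (-(5/91) : ℝ) * 1 := by ring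
      _ ≤ C2 * (N:ℝ) ^ (-(5/91) : ℝ) * (Real.exp (c3 * Real.sqrt (K0 / g)) *
          Real.exp (-(c3 * Real.sqrt X))) := mul_le_mul_of_nonneg_left h2 (by positivity)
      _ = C4 * (N:ℝ) ^ (-(5/91) : ℝ) * Real.exp (-(c3 * Real.sqrt X)) := by rw [hC4]; ring
      _ ≤ _ := by
          apply mul_le_mul_of_nonneg_right _ (Real.exp_pos _).le
          apply mul_le_mul_of_nonneg_right _ hNpow.le
          linarith
  · -- the tail
    obtain ⟨y, hy⟩ : ∃ y : ℝ, y = Real.sqrt (l * N) := ⟨_, rfl⟩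
    have hy0 : 0 ≤ y := by rw [hy]; exact Real.sqrt_nonneg _
    have hy2 : y ^ 2 = l * N := by rw [hy]; exact Real.sq_sqrt (by positivity)
    have hyK : 10 * (1 / B + 2) ≤ y := by
      rw [hy]
      apply Real.le_sqrt_of_sq_le
      rw [← hK0]
      exact hbig
    obtain ⟨r, hr⟩ : ∃ r : ℕ, r = ⌊y / 10⌋₊ := ⟨_, rfl⟩
    have hr1 : (r:ℝ) ≤ y / 10 := by rw [hr]; exact Nat.floor_le (by positivity)
    have hr2 : y / 10 < r + 1 := by rw [hr]; exact Nat.lt_floor_add_one _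
    have hBinv : 0 < 1 / B := by positivity
    have hr3 : 1 / B + 1 ≤ r := by linarith
    have hr4 : (1:ℝ) ≤ r := by linarith
    have hr5 : 1 ≤ r := by exact_mod_cast hr4
    have hr6 : y / 20 ≤ r := by linarith
    have hRs : (r:ℝ) * B ≤ ((r * (2 * n) : ℕ) : ℝ) * s ^ (4/3 : ℝ) := by
      push_cast
      have h1 : B ≤ 2 * n * s ^ (4/3 : ℝ) := by
        have h2 := mul_le_mul_of_nonneg_right hn3 hs43.le
        rw [mul_assoc, ← Real.rpow_add hs0] at h2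
        norm_num at h2
        exact h2
      calc (r:ℝ) * B ≤ r * (2 * n * s ^ (4/3 : ℝ)) := mul_le_mul_of_nonneg_left h1 (by positivity)
        _ = _ := by ring
    have hRs1 : 1 ≤ ((r * (2 * n) : ℕ) : ℝ) * s ^ (4/3 : ℝ) := by
      refine le_trans ?_ hRs
      calc (1:ℝ) = 1 / B * B := by field_simp
        _ ≤ r * B := mul_le_mul_of_nonneg_right (by linarith) hB0.le
    have h1 : (bondLaw p).real {ω | (N : ℕ∞) ≤ (cluster0 ω).encard ∧ (cluster0 ω).Finite} ≤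
        ((2 + 2 * A) * Real.exp (-(l * N / 2)) +
          A * (C1 * Real.exp (-(c1 * (((r * (2 * n) : ℕ) : ℝ) * s ^ (4/3 : ℝ)))))) *
            (n:ℝ) ^ (-(5/48) : ℝ) := by
      apply upper_fin p N (R := r * (2 * n)) (by nlinarith) 2
      intro J hJ
      have h2 := hfin κ a A p n hA hNC hn hp.le (by linarith) r hr5 (by rw [← hs]; exact hRs1)
        l N hl0.le hlB (by rw [← hy2]; nlinarith) J hJ
      rw [← hs] at h2
      exact h2
    refine h1.trans ?_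
    have hy1 : 1 ≤ y := by linarith
    have k1 : Real.exp (-(l * N / 2)) ≤ Real.exp (-(c2 * y)) := by
      apply Real.exp_le_exp.2
      rw [← hy2]
      have : c2 ≤ 1/2 := by rw [hc2]; exact min_le_left _ _
      nlinarith
    have k2 : Real.exp (-(c1 * (((r * (2 * n) : ℕ) : ℝ) * s ^ (4/3 : ℝ)))) ≤
        Real.exp (-(c2 * y)) := by
      apply Real.exp_le_exp.2
      have h3 : c2 ≤ c1 * B / 20 := by rw [hc2]; exact min_le_right _ _
      have h4 : c1 * (y / 20 * B) ≤ c1 * (((r * (2 * n) : ℕ) : ℝ) * s ^ (4/3 : ℝ)) := by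
        apply mul_le_mul_of_nonneg_left _ hc1.le
        exact (mul_le_mul_of_nonneg_right hr6 hB0.le).trans hRs
      nlinarith
    have k3 : Real.sqrt g * Real.sqrt X ≤ y := by
      rw [← Real.sqrt_mul hg0.le, hy]
      exact Real.sqrt_le_sqrt hlX
    have k4 : Real.exp (-(c2 * y)) ≤ Real.exp (-(2 * c3 * Real.sqrt X)) := by
      apply Real.exp_le_exp.2
      rw [hc3]
      have := mul_le_mul_of_nonneg_left k3 hc20.le
      linarith
    have k5 : s ^ (5/36 : ℝ) = (N:ℝ) ^ (-(5/91) : ℝ) * X ^ (5/91 : ℝ) := by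
      rw [hX, Real.mul_rpow hNp.le (by positivity), ← Real.rpow_mul hs0.le, ← mul_assoc,
        ← Real.rpow_add hNp]
      norm_num
    have k6 := absorb hX0.le hc30
    have k7 : Real.exp (c3 * Real.sqrt X) * Real.exp (-(2 * c3 * Real.sqrt X)) =
        Real.exp (-(c3 * Real.sqrt X)) := by
      rw [← Real.exp_add]; congr 1; ring
    have k8 : 0 < X ^ (5/91 : ℝ) := by positivity
    calc ((2 + 2 * A) * Real.exp (-(l * N / 2)) +
          A * (C1 * Real.exp (-(c1 * (((r * (2 * n) : ℕ) : ℝ) * s ^ (4/3 : ℝ)))))) *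
            (n:ℝ) ^ (-(5/48) : ℝ) ≤
        ((2 + 2 * A) * Real.exp (-(2 * c3 * Real.sqrt X)) +
          A * (C1 * Real.exp (-(2 * c3 * Real.sqrt X)))) * (D * s ^ (5/36 : ℝ)) := by
          apply mul_le_mul _ hpi (by positivity) (by positivity)
          apply add_le_add
          · exact mul_le_mul_of_nonneg_left (k1.trans k4) (by positivity)
          · apply mul_le_mul_of_nonneg_left _ hA.le
            exact mul_le_mul_of_nonneg_left (k2.trans k4) hC1.le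
      _ = ((2 + 2 * A + A * C1) * D) * (N:ℝ) ^ (-(5/91) : ℝ) *
          (X ^ (5/91 : ℝ) * Real.exp (-(2 * c3 * Real.sqrt X))) := by rw [k5]; ring
      _ ≤ ((2 + 2 * A + A * C1) * D) * (N:ℝ) ^ (-(5/91) : ℝ) *
          (((1 + 1 / c3) * Real.exp (c3 * Real.sqrt X)) * Real.exp (-(2 * c3 * Real.sqrt X))) := by
          apply mul_le_mul_of_nonneg_left _ (by positivity)
          exact mul_le_mul_of_nonneg_right k6 (Real.exp_pos _).le
      _ = C3 * (N:ℝ) ^ (-(5/91) : ℝ) * Real.exp (-(c3 * Real.sqrt X)) := by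
          rw [mul_assoc (1 + 1 / c3), k7, hC3]; ring
      _ ≤ _ := by
          apply mul_le_mul_of_nonneg_right _ (Real.exp_pos _).le
          apply mul_le_mul_of_nonneg_right _ hNpow.le
          linarith

end Pool.Agent.NH39.CV
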