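import Pool.Agent.NH39.D3

/-! Above the critical point: the upper bound for the size of the finite clusters, for all
parameters. -/

set_option autoImplicit false

namespace Pool.Agent.NH39.CV

open Finset H974 Pool.Agent.H160R2.CV Pool.Agent.H160R2.CV.Quad H362P Pool.Agent.Y244.PC
open H12S (Win)
open MeasureTheory Filter

theorem weak_exp {c c' C C' P Y : ℝ} (hc : c ≤ c') (hC : C' ≤ C) (hC0 : 0 ≤ C) (hP : 0 ≤ P)
    (hY : 0 ≤ Y) : C' * P * Real.exp (-(c' * Y)) ≤ C * P * Real.exp (-(c * Y)) := by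
  apply mul_le_mul
  · exact mul_le_mul_of_nonneg_right hC hP
  · apply Real.exp_le_exp.2
    have := mul_le_mul_of_nonneg_right hc hY
    linarith
  · exact (Real.exp_pos _).le
  · positivity

/-- The upper bound, for all parameters. -/
theorem sup_upper : ∃ c C : ℝ, 0 < c ∧ 0 < C ∧ ∀ p : unitInterval, 1/2 ≤ (p:ℝ) → ∀ N : ℕ, 1 ≤ N →
    (bondLaw p).real {ω | (N : ℕ∞) ≤ (cluster0 ω).encard ∧ (cluster0 ω).Finite} ≤
      C * (N:ℝ) ^ (-(5/91) : ℝ) *
        Real.exp (-(c * Real.sqrt (N * ((p:ℝ) - 1/2) ^ (91/36 : ℝ)))) := by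
  obtain ⟨b, c1, C1, hb, hb4, hc1, hC1, hnear⟩ := sup_near
  obtain ⟨c2, C2, hc2, hC2, hfar⟩ := sup_far
  obtain ⟨cc, C0, hcc, hC0, hcrit⟩ := sharp_vol Pool.Agent.H160R2.SA.arSharp
  obtain ⟨B, hB⟩ : ∃ B : ℝ, B = b ^ (4/3 : ℝ) := ⟨_, rfl⟩
  have hB0 : 0 < B := by rw [hB]; positivity
  obtain ⟨δ, hδ⟩ : ∃ δ : ℝ, δ = c2 * B / 32 := ⟨_, rfl⟩
  have hδ0 : 0 < δ := by rw [hδ]; positivity
  obtain ⟨T, hT⟩ : ∃ T : ℝ, T = 16 * (1 / B + 1) := ⟨_, rfl⟩
  have hT0 : 0 < T := by rw [hT]; positivity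
  obtain ⟨D, hD⟩ : ∃ D : ℝ, D = (1 + 1 / δ) * (C2 + Real.exp (2 * δ * T)) := ⟨_, rfl⟩
  have hD0 : 0 < D := by rw [hD]; positivity
  refine ⟨min c1 δ, C0 + C1 + D, lt_min hc1 hδ0, by positivity, ?_⟩
  intro p hp N hN
  have hN' : (1:ℝ) ≤ N := by exact_mod_cast hN
  have hNp : (0:ℝ) < N := by linarith
  have hNpow : 0 < (N:ℝ) ^ (-(5/91) : ℝ) := by positivity
  have hY := Real.sqrt_nonneg ((N:ℝ) * ((p:ℝ) - 1/2) ^ (91/36 : ℝ))
  rcases hp.eq_or_lt with heq | hlt
  · -- the critical point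
    have e0 : (p:ℝ) - 1/2 = 0 := by linarith
    have e1 : p = (⟨1/2, by norm_num, by norm_num⟩ : unitInterval) := by
      apply Subtype.ext
      exact heq.symm
    rw [e0, Real.zero_rpow (by norm_num), mul_zero, Real.sqrt_zero, mul_zero, neg_zero,
      Real.exp_zero, mul_one]
    have h1 := (hcrit N hN).2
    have h2 : (bondLaw p).real {ω | (N : ℕ∞) ≤ (cluster0 ω).encard ∧ (cluster0 ω).Finite} ≤
        (bondLaw p).real {ω | (N : ℕ∞) ≤ (cluster0 ω).encard} :=
      measureReal_mono (fun ω hω => hω.1)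
    rw [e1] at h2 ⊢
    refine h2.trans (h1.trans ?_)
    apply mul_le_mul_of_nonneg_right _ hNpow.le
    linarith
  rcases le_or_gt (p:ℝ) (1/2 + b) with hpb | hpb
  · refine (hnear p hlt hpb N hN).trans ?_
    exact weak_exp (min_le_left _ _) (by linarith) (by positivity) hNpow.le hY
  · -- far from the critical point
    obtain ⟨y, hy⟩ : ∃ y : ℝ, y = Real.sqrt N := ⟨_, rfl⟩
    have hy0 : 0 ≤ y := by rw [hy]; exact Real.sqrt_nonneg _
    have hy2 : y ^ 2 = N := by rw [hy]; exact Real.sq_sqrt hNp.le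
    have hXy : Real.sqrt ((N:ℝ) * ((p:ℝ) - 1/2) ^ (91/36 : ℝ)) ≤ y := by
      rw [hy]
      apply Real.sqrt_le_sqrt
      have h1 : ((p:ℝ) - 1/2) ^ (91/36 : ℝ) ≤ 1 :=
        Real.rpow_le_one (by linarith) (by linarith [p.2.2]) (by norm_num)
      calc (N:ℝ) * ((p:ℝ) - 1/2) ^ (91/36 : ℝ) ≤ N * 1 := mul_le_mul_of_nonneg_left h1 hNp.le
        _ = N := mul_one _
    have hab := absorb hNp.le hδ0
    rw [← hy] at hab
    have hNN : (N:ℝ) ^ (-(5/91) : ℝ) * (N:ℝ) ^ (5/91 : ℝ) = 1 := by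
      rw [← Real.rpow_add hNp]
      norm_num
    have hδinv : 0 < 1 / δ := by positivity
    -- it is enough to bound by `D' exp (- 2 δ y)`
    have key : ∀ D' : ℝ, 0 ≤ D' → D' ≤ C2 + Real.exp (2 * δ * T) →
        D' * Real.exp (-(2 * δ * y)) ≤ (C0 + C1 + D) * (N:ℝ) ^ (-(5/91) : ℝ) *
          Real.exp (-(min c1 δ * Real.sqrt (N * ((p:ℝ) - 1/2) ^ (91/36 : ℝ)))) := by
      intro D' hD'0 hD'
      have k1 : D' * Real.exp (-(2 * δ * y)) ≤ D * (N:ℝ) ^ (-(5/91) : ℝ) *
          Real.exp (-(δ * y)) := by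
        have k2 : Real.exp (δ * y) * Real.exp (-(2 * δ * y)) = Real.exp (-(δ * y)) := by
          rw [← Real.exp_add]; congr 1; ring
        calc D' * Real.exp (-(2 * δ * y)) =
            D' * (N:ℝ) ^ (-(5/91) : ℝ) * ((N:ℝ) ^ (5/91 : ℝ) * Real.exp (-(2 * δ * y))) := by
              rw [show D' * (N:ℝ) ^ (-(5/91) : ℝ) * ((N:ℝ) ^ (5/91 : ℝ) *
                Real.exp (-(2 * δ * y))) = ((N:ℝ) ^ (-(5/91) : ℝ) * (N:ℝ) ^ (5/91 : ℝ)) *
                (D' * Real.exp (-(2 * δ * y))) by ring, hNN, one_mul]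
          _ ≤ D' * (N:ℝ) ^ (-(5/91) : ℝ) * (((1 + 1 / δ) * Real.exp (δ * y)) *
              Real.exp (-(2 * δ * y))) := by
              apply mul_le_mul_of_nonneg_left _ (by positivity)
              exact mul_le_mul_of_nonneg_right hab (Real.exp_pos _).le
          _ = (D' * (1 + 1 / δ)) * (N:ℝ) ^ (-(5/91) : ℝ) * Real.exp (-(δ * y)) := by
              rw [mul_assoc (1 + 1 / δ), k2]; ring
          _ ≤ _ := by
              apply mul_le_mul_of_nonneg_right _ (Real.exp_pos _).le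
              apply mul_le_mul_of_nonneg_right _ hNpow.le
              rw [hD]
              nlinarith
      refine k1.trans ?_
      have k3 : Real.exp (-(δ * y)) ≤
          Real.exp (-(δ * Real.sqrt (N * ((p:ℝ) - 1/2) ^ (91/36 : ℝ)))) := by
        apply Real.exp_le_exp.2
        have := mul_le_mul_of_nonneg_left hXy hδ0.le
        linarith
      refine (mul_le_mul_of_nonneg_left k3 (by positivity)).trans ?_
      exact weak_exp (min_le_right _ _) (by linarith) (by positivity) hNpow.le hY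
    rcases lt_or_ge y T with hsm | hbig
    · refine le_trans ?_ (key (Real.exp (2 * δ * T)) (Real.exp_pos _).le (by linarith))
      refine (measureReal_le_one).trans ?_
      rw [← Real.exp_add]
      apply Real.one_le_exp
      nlinarith
    · refine le_trans ?_ (key C2 hC2.le (by linarith [Real.exp_pos (2 * δ * T)]))
      obtain ⟨R, hR⟩ : ∃ R : ℕ, R = ⌊y / 8⌋₊ := ⟨_, rfl⟩
      have hR1 : (R:ℝ) ≤ y / 8 := by rw [hR]; exact Nat.floor_le (by positivity)
      have hR2 : y / 8 < R + 1 := by rw [hR]; exact Nat.lt_floor_add_one _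
      have hBinv : 0 < 1 / B := by positivity
      rw [hT] at hbig
      have hR3 : y / 16 ≤ R := by linarith
      have hR4 : 1 / B + 1 ≤ R := by linarith
      have hR5 : (1:ℝ) ≤ R := by linarith
      have hR6 : 1 ≤ R := by exact_mod_cast hR5
      have e1 : (1/2 + b : ℝ) - 1/2 = b := by ring
      have hRB : 1 ≤ (R:ℝ) * B := by
        calc (1:ℝ) = 1 / B * B := by field_simp
          _ ≤ R * B := mul_le_mul_of_nonneg_right (by linarith) hB0.le
      apply upper_fin p N (R := R) hR6 0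
      intro J _
      have h1 := hfar (1/2 + b) p (by linarith) (by linarith) hpb.le p.2.2 R hR6
        (by rw [e1, ← hB]; exact hRB) N (by rw [← hy2]; nlinarith) J
      rw [e1, ← hB] at h1
      refine h1.trans ?_
      apply mul_le_mul_of_nonneg_left _ hC2.le
      apply Real.exp_le_exp.2
      rw [hδ]
      have h2 := mul_le_mul_of_nonneg_left hR3 (show 0 ≤ c2 * B by positivity)
      linarith

end Pool.Agent.NH39.CV
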