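import Pool.Agent.NH39.D4

/-! Above the critical point: the lower bound for the size of the finite clusters, ingredients. -/

set_option autoImplicit false

namespace Pool.Agent.NH39.CV

open Finset H974 Pool.Agent.H160R2.CV Pool.Agent.H160R2.CV.Quad H362P Pool.Agent.Y244.PC
open H12S (Win)
open MeasureTheory Filter

theorem NC.weaken {q κ a A κ' a' A' : ℝ} {n : ℕ} (h : NC q κ a A n) (hκ' : 0 < κ')
    (hκ : κ' ≤ κ) (ha : a' ≤ a) (hA : A ≤ A') : NC q κ' a' A' n :=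
  ⟨⟨hκ', hκ.trans h.win.kle, h.win.lo, h.win.hi, fun k h1 h2 => hκ.trans (h.win.pri k h1 h2),
    fun k h1 h2 => hκ.trans (h.win.dua k h1 h2)⟩,
   fun k h1 h2 => (mul_le_mul_of_nonneg_right ha (by positivity)).trans (h.lo k h1 h2),
   fun k h1 h2 => (h.hi k h1 h2).trans (mul_le_mul_of_nonneg_right hA (by positivity))⟩

/-- The near-critical context for all parameters in `[1/2, 3/4]`. -/
theorem nearR : ∃ κ a A C : ℝ, 0 < κ ∧ 0 < a ∧ 0 < A ∧ 0 < C ∧ ∀ (p : ℝ) (n : ℕ), 1/2 ≤ p →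
    p ≤ 3/4 → 1 ≤ n → ∃ m : ℕ, 1 ≤ m ∧ m ≤ n ∧ NC p κ a A m ∧
      (m = n ∨ 1 ≤ C * (m * (p - 1/2) ^ (4/3 : ℝ))) ∧ (m:ℝ) * (p - 1/2) ^ (4/3 : ℝ) ≤ C := by
  obtain ⟨κ0, b, a0, A0, hκ0, hb, ha0, hA0, hnear⟩ := nearA
  obtain ⟨κ2, hκ2, hbase⟩ := Pool.Agent.W424.NC.win_base
  have hap : 0 < arm (1/2) 1 := Pool.Agent.W424.NC.arm_pos (by norm_num) (by norm_num) 1
  obtain ⟨B, hB⟩ : ∃ B : ℝ, B = b ^ (4/3 : ℝ) := ⟨_, rfl⟩
  have hB0 : 0 < B := by rw [hB]; positivity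
  have hBi : 0 < 2 / B := by positivity
  refine ⟨min κ0 κ2, min a0 (arm (1/2) 1), max A0 1, 2 / B + B + 1, lt_min hκ0 hκ2,
    lt_min ha0 hap, lt_max_of_lt_left hA0, by positivity, ?_⟩
  intro p n hp hp1 hn
  obtain ⟨s, hs⟩ : ∃ s : ℝ, s = p - 1/2 := ⟨_, rfl⟩
  have hs0 : 0 ≤ s := by rw [hs]; linarith
  have hs1 : s ≤ 1 := by rw [hs]; linarith
  rw [← hs]
  have hn0 : (0:ℝ) < n := by exact_mod_cast hn
  have hweak : ∀ m : ℕ, NC p κ0 a0 A0 m → NC p (min κ0 κ2) (min a0 (arm (1/2) 1)) (max A0 1) m :=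
    fun m h => h.weaken (lt_min hκ0 hκ2) (min_le_left _ _) (min_le_left _ _) (le_max_left _ _)
  rcases le_or_gt s (b * (n:ℝ) ^ (-(3/4) : ℝ)) with h1 | h1
  · -- the scale `n` itself
    have hsn : (n:ℝ) * s ^ (4/3 : ℝ) ≤ B := by
      have h2 := Real.rpow_le_rpow hs0 h1 (show (0:ℝ) ≤ 4/3 by norm_num)
      rw [Real.mul_rpow hb.le (by positivity), ← Real.rpow_mul hn0.le, ← hB] at h2
      have e : (-(3/4) * (4/3) : ℝ) = -1 := by norm_num
      rw [e, Real.rpow_neg hn0.le, Real.rpow_one] at h2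
      calc (n:ℝ) * s ^ (4/3 : ℝ) ≤ n * (B * (n:ℝ)⁻¹) := mul_le_mul_of_nonneg_left h2 hn0.le
        _ = B := by field_simp
    refine ⟨n, hn, le_rfl, hweak n (hnear n hn p ?_), Or.inl rfl, by linarith⟩
    rw [abs_of_nonneg (by linarith), ← hs]
    exact h1
  · have hsp : 0 < s := lt_of_le_of_lt (by positivity) h1
    have hs43 : 0 < s ^ (4/3 : ℝ) := by positivity
    rcases le_or_gt s b with h2 | h2
    · obtain ⟨m, hm, hm1, hm2, hm3⟩ := Pool.Agent.Y554.NC.scale_exists hb hsp h2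
      have hm0 : (0:ℝ) < m := by exact_mod_cast hm
      have hbs : (b / s) ^ (4/3 : ℝ) = B * s ^ (-(4/3) : ℝ) := by
        rw [Real.div_rpow hb.le hsp.le, hB, Real.rpow_neg hsp.le, div_eq_mul_inv]
      have hbn : (b / s) ^ (4/3 : ℝ) ≤ n := by
        have h3 : b / s ≤ (n:ℝ) ^ (3/4 : ℝ) := by
          rw [div_le_iff₀ hsp]
          rw [Real.rpow_neg hn0.le] at h1
          have h4 : 0 < (n:ℝ) ^ (3/4 : ℝ) := by positivity
          have h5 := mul_le_mul_of_nonneg_left h1.le h4.le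
          have e : (n:ℝ) ^ (3/4 : ℝ) * (b * ((n:ℝ) ^ (3/4 : ℝ))⁻¹) = b := by field_simp
          rw [e] at h5
          exact h5
        have h4 := Real.rpow_le_rpow (by positivity) h3 (show (0:ℝ) ≤ 4/3 by norm_num)
        rw [← Real.rpow_mul hn0.le] at h4
        have e : (3/4 * (4/3) : ℝ) = 1 := by norm_num
        rw [e, Real.rpow_one] at h4
        exact h4
      rw [hbs] at hbn hm2 hm3
      have e0 : s ^ (-(4/3) : ℝ) * s ^ (4/3 : ℝ) = 1 := by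
        rw [← Real.rpow_add hsp]; norm_num
      refine ⟨m, hm, ?_, hweak m (hnear m hm p ?_), Or.inr ?_, ?_⟩
      · have : (m:ℝ) ≤ n := hm2.trans hbn
        exact_mod_cast this
      · rw [abs_of_nonneg (by linarith), ← hs]
        exact hm1
      · have h3 : B ≤ 2 * m * s ^ (4/3 : ℝ) := by
          have h4 := mul_le_mul_of_nonneg_right hm3 hs43.le
          rw [mul_assoc B, e0, mul_one] at h4
          exact h4
        have h4 : 1 ≤ 2 / B * (m * s ^ (4/3 : ℝ)) := by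
          rw [div_mul_eq_mul_div, le_div_iff₀ hB0]
          linarith
        have h5 : 0 < m * s ^ (4/3 : ℝ) := by positivity
        nlinarith
      · have h4 := mul_le_mul_of_nonneg_right hm2 hs43.le
        rw [mul_assoc B, e0, mul_one] at h4
        linarith
    · -- bounded scales
      refine ⟨1, le_rfl, hn, ?_, Or.inr ?_, ?_⟩
      · have hw := hbase p (by linarith) hp1
        refine ⟨⟨lt_min hκ0 hκ2, (min_le_right _ _).trans hw.kle, hw.lo, hw.hi,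
          fun k h3 h4 => (min_le_right _ _).trans (hw.pri k h3 (by omega)),
          fun k h3 h4 => (min_le_right _ _).trans (hw.dua k h3 (by omega))⟩, ?_, ?_⟩
        · intro k h3 h4
          have e : k = 1 := by omega
          rw [e, Nat.cast_one, Real.one_rpow, mul_one]
          exact (min_le_right _ _).trans (arm_mono_param (by norm_num) hp (by linarith) 1)
        · intro k h3 h4
          have e : k = 1 := by omega
          rw [e, Nat.cast_one, Real.one_rpow, mul_one]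
          refine le_trans ?_ (le_max_right _ _)
          exact Pr_le_one (okq (by linarith) (by linarith)) _ _
      · rw [Nat.cast_one, one_mul]
        have h3 : B ≤ s ^ (4/3 : ℝ) := by
          rw [hB]; exact Real.rpow_le_rpow hb.le h2.le (by norm_num)
        have h4 : 2 ≤ 2 / B * s ^ (4/3 : ℝ) := by
          rw [div_mul_eq_mul_div, le_div_iff₀ hB0]
          linarith
        nlinarith
      · rw [Nat.cast_one, one_mul]
        have h3 : s ^ (4/3 : ℝ) ≤ 1 := Real.rpow_le_one hs0 hs1 (by norm_num)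
        linarith

theorem ZZ_mono {R m : ℕ} {F G : Finset Edg} (h : F ⊆ G) : ZZ R m F ≤ ZZ R m G := by
  unfold ZZ
  apply Finset.sum_le_sum
  intro x _
  apply ind_mono
  exact fun hF => hF.mono (by exact_mod_cast h)

/-- Many vertices with far connections, with positive probability. -/
theorem pr_vol {q κ a A : ℝ} {m : ℕ} (h : NC q κ a A m) (hA : 0 < A) (hm : 1 ≤ m) {R : ℕ}
    (hR : m ≤ R) {α : ℝ} (hα : 0 < α) (harm : α * (m:ℝ) ^ (-(5/48) : ℝ) ≤ arm q (4 * R))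
    {S : Finset Edg} (hS : boxE (5 * R) ⊆ S) :
    2 * α ^ 2 / (kmom κ A) ^ 2 ≤
      Pr (fun _ => q) S (fun F => 2 * α * vs R m ≤ ZZ R (4 * R) F) := by
  have ok := h.ok
  have hκ := h.win.kpos
  have hkm := kmom_pos hκ hA
  have hR1 : 1 ≤ R := hm.trans hR
  have hvs := vs_pos hR1 hm
  have hm0 : (0:ℝ) < m := by exact_mod_cast hm
  have hR0 : (0:ℝ) < R := by exact_mod_cast hR1
  have h1 : 4 * α * vs R m ≤ Ex (fun _ => q) S (ZZ R (4 * R)) := by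
    unfold ZZ
    rw [Ex_sum]
    have h2 : ∀ x ∈ bx R, α * (m:ℝ) ^ (-(5/48) : ℝ) ≤
        Ex (fun _ => q) S (fun F => ind (FarS x (4 * R) ↑F)) := by
      intro x hx
      have h3 : Pr (fun _ => q) S (fun F => FarS x (4 * R) ↑F) = arm q (4 * R) := by
        have h4 : Pr (fun _ => q) S (fun F => FarS x (4 * R) ↑F) =
            Pr (fun _ => q) S (LA x (4 * R)) := Pr_congr (fun F _ => farS_iff)
        rw [h4]
        apply pr_LA_eq
        refine Finset.Subset.trans ?_ hS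
        rw [mem_bx_iff'] at hx
        unfold bo boxE
        apply RE_subset <;> push_cast <;> omega
      show _ ≤ Pr (fun _ => q) S (fun F => FarS x (4 * R) ↑F)
      rw [h3]
      exact harm
    refine le_trans ?_ (Finset.sum_le_sum h2)
    rw [Finset.sum_const, nsmul_eq_mul, w_card_bx]
    unfold vs
    have h4 : 4 * (R:ℝ) ^ 2 ≤ (2 * (R:ℝ) + 1) ^ 2 := by nlinarith
    calc 4 * α * ((R:ℝ) ^ 2 * (m:ℝ) ^ (-(5/48) : ℝ)) =
        4 * (R:ℝ) ^ 2 * (α * (m:ℝ) ^ (-(5/48) : ℝ)) := by ring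
      _ ≤ _ := mul_le_mul_of_nonneg_right h4 (by positivity)
  have h2 : Ex (fun _ => q) S (fun F => ZZ R (4 * R) F ^ 2) ≤ 2 * (kmom κ A * vs R m) ^ 2 := by
    have h3 := mom_all h hA hm le_rfl hR (S := S)
      ((boxE_mono (by omega)).trans hS) 2
    have h4 : Ex (fun _ => q) S (fun F => ZZ R (4 * R) F ^ 2) ≤
        Ex (fun _ => q) S (fun F => ZZ R m F ^ 2 * 1) := by
      apply Ex_mono ok
      intro F _
      rw [mul_one]
      apply pow_le_pow_left₀ (ZZ_nonneg _ _ _)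
      unfold ZZ
      apply Finset.sum_le_sum
      intro x _
      apply ind_mono
      rintro ⟨u, hu, hr'⟩
      exact ⟨u, by omega, hr'⟩
    refine h4.trans (h3.trans (le_of_eq ?_))
    rw [show (Nat.factorial 2 : ℝ) = 2 by norm_num [Nat.factorial]]
    ring
  have h3 := paley ok (S := S) (f := ZZ R (4 * R)) (ZZ_nonneg R (4 * R)) (m1 := 4 * α * vs R m)
    (m2 := 2 * (kmom κ A * vs R m) ^ 2) (by positivity) (by positivity) h1 h2
  have e1 : 4 * α * vs R m / 2 = 2 * α * vs R m := by ring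
  rw [e1] at h3
  refine le_trans (le_of_eq ?_) h3
  field_simp
  ring

/-- The circuit joins the origin to all the vertices with far connections. -/
theorem geo_vol {R : ℕ} (hR : 1 ≤ R) {F : Finset Edg} {t : ℝ} (h1 : LA (0, 0) (4 * R) F)
    (h2 : Circ R ((3 * R : ℕ) : ℤ) F) (h3 : t ≤ ZZ R (4 * R) F) : Vol t ↑F := by
  classical
  obtain ⟨z, hz⟩ := circ0 (by omega) h2
  rw [vol_iff]
  refine h3.trans ?_
  obtain ⟨u, hu, hr⟩ := farS_iff.2 h1
  have hu' : 3 * R ≤ nv u := by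
    unfold nv at hu ⊢
    simp only [Prod.fst_sub, Prod.snd_sub] at hu
    omega
  have h0 : Reach (↑F) (0, 0) z := hz (0, 0) u (by unfold nv; simp) hu' hr
  unfold ZZ
  have hle : ∀ x ∈ bx R, ind (FarS x (4 * R) ↑F) ≤ if x ∈ cl0 F then (1:ℝ) else 0 := by
    intro x hx
    by_cases hf : FarS x (4 * R) ↑F
    · have hmem : x ∈ cl0 F := by
        obtain ⟨w, hw, hwr⟩ := hf
        rw [mem_bx_iff'] at hx
        have hx' : nv x ≤ R := by unfold nv; omega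
        have hw' : 3 * R ≤ nv w := by
          unfold nv at hw ⊢
          simp only [Prod.fst_sub, Prod.snd_sub] at hw
          omega
        exact mem_cl0.2 (h0.trans (hz x w hx' hw' hwr).symm)
      rw [ind_of hf, if_pos hmem]
    · rw [ind_not_of hf]
      split_ifs <;> norm_num
  refine (Finset.sum_le_sum hle).trans ?_
  rw [← Finset.sum_filter, Finset.sum_const, nsmul_eq_mul, mul_one]
  exact_mod_cast Finset.card_le_card (fun x hx => (Finset.mem_filter.1 hx).2)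

/-- A closed dual circuit. -/
theorem pr_Blk_low : ∃ c C : ℝ, 0 < c ∧ 0 < C ∧ ∀ p : ℝ, 1/2 ≤ p → p ≤ 3/4 → ∀ R : ℕ, 1 ≤ R →
    ∀ S : Finset Edg, annE (5 * R) (10 * R) ⊆ S →
      c * Real.exp (-(C * (R * (p - 1/2) ^ (4/3 : ℝ)))) ≤
        Pr (fun _ => p) S (Blk ((5 * R : ℕ) : ℤ) ((10 * R : ℕ) : ℤ)) := by
  obtain ⟨c, C, hc, hC, h⟩ := Pool.Agent.W424.NC.win_lower_dual 4 (by norm_num)
  refine ⟨c ^ 4, 20 * C, by positivity, by positivity, ?_⟩
  intro p hp hp1 R hR S hS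
  have h0 : 0 ≤ p := by linarith
  have h1 : p ≤ 1 := by linarith
  have ok := okq h0 h1
  have h4 := h (1 - p) (by linarith) (by linarith) (5 * R) (20 * R) (by omega) (by omega)
    (by omega) (by omega)
  rw [show 1 - (1 - p) = p by ring, show 1/2 - (1 - p) = p - 1/2 by ring] at h4
  obtain ⟨v, hv⟩ : ∃ v : ℝ, v = c * Real.exp (-(C * (((5 * R : ℕ) : ℝ) *
    (p - 1/2) ^ (4/3 : ℝ)))) := ⟨_, rfl⟩
  rw [← hv] at h4
  have hv0 : 0 ≤ v := by rw [hv]; positivity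
  obtain ⟨s1, s2, s3, s4⟩ := ann_sub (n := 5 * R) (m := 10 * R) (by omega)
  have e1 : Pr (fun _ => p) S (LRc ((5 * R : ℕ) : ℤ) ((10 * R : ℕ) : ℤ) (-((10 * R : ℕ) : ℤ))
      ((10 * R : ℕ) : ℤ)) = hh p ((5 * R : ℕ) : ℤ) ((20 * R : ℕ) : ℤ) := by
    rw [pr_LRc p (s1.trans hS)]
    congr 1 <;> push_cast <;> ring
  have e2 : Pr (fun _ => p) S (LRc (-((10 * R : ℕ) : ℤ)) (-((5 * R : ℕ) : ℤ))
      (-((10 * R : ℕ) : ℤ)) ((10 * R : ℕ) : ℤ)) =
      hh p ((5 * R : ℕ) : ℤ) ((20 * R : ℕ) : ℤ) := by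
    rw [pr_LRc p (s2.trans hS)]
    congr 1 <;> push_cast <;> ring
  have e3 : Pr (fun _ => p) S (TBc (-((10 * R : ℕ) : ℤ)) ((10 * R : ℕ) : ℤ)
      ((5 * R : ℕ) : ℤ) ((10 * R : ℕ) : ℤ)) = hh p ((5 * R : ℕ) : ℤ) ((20 * R : ℕ) : ℤ) := by
    rw [pr_TBc p (s3.trans hS)]
    congr 1 <;> push_cast <;> ring
  have e4 : Pr (fun _ => p) S (TBc (-((10 * R : ℕ) : ℤ)) ((10 * R : ℕ) : ℤ)
      (-((10 * R : ℕ) : ℤ)) (-((5 * R : ℕ) : ℤ))) =
      hh p ((5 * R : ℕ) : ℤ) ((20 * R : ℕ) : ℤ) := by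
    rw [pr_TBc p (s4.trans hS)]
    congr 1 <;> push_cast <;> ring
  have i1 : v * v ≤ Pr (fun _ => p) S (fun F =>
      ¬ LRc ((5 * R : ℕ) : ℤ) ((10 * R : ℕ) : ℤ) (-((10 * R : ℕ) : ℤ)) ((10 * R : ℕ) : ℤ) F ∧
      ¬ LRc (-((10 * R : ℕ) : ℤ)) (-((5 * R : ℕ) : ℤ)) (-((10 * R : ℕ) : ℤ))
        ((10 * R : ℕ) : ℤ) F) := by
    have k := Pr_harris_dd ok
      (LRc_incr S ((5 * R : ℕ) : ℤ) ((10 * R : ℕ) : ℤ) (-((10 * R : ℕ) : ℤ)) ((10 * R : ℕ) : ℤ))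
      (LRc_incr S (-((10 * R : ℕ) : ℤ)) (-((5 * R : ℕ) : ℤ)) (-((10 * R : ℕ) : ℤ))
        ((10 * R : ℕ) : ℤ))
    rw [e1, e2] at k
    exact (mul_le_mul h4 h4 hv0 (hv0.trans h4)).trans k
  have i2 : v * v ≤ Pr (fun _ => p) S (fun F =>
      ¬ TBc (-((10 * R : ℕ) : ℤ)) ((10 * R : ℕ) : ℤ) ((5 * R : ℕ) : ℤ) ((10 * R : ℕ) : ℤ) F ∧
      ¬ TBc (-((10 * R : ℕ) : ℤ)) ((10 * R : ℕ) : ℤ) (-((10 * R : ℕ) : ℤ))
        (-((5 * R : ℕ) : ℤ)) F) := by
    have k := Pr_harris_dd ok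
      (TBc_incr S (-((10 * R : ℕ) : ℤ)) ((10 * R : ℕ) : ℤ) ((5 * R : ℕ) : ℤ) ((10 * R : ℕ) : ℤ))
      (TBc_incr S (-((10 * R : ℕ) : ℤ)) ((10 * R : ℕ) : ℤ) (-((10 * R : ℕ) : ℤ))
        (-((5 * R : ℕ) : ℤ)))
    rw [e3, e4] at k
    exact (mul_le_mul h4 h4 hv0 (hv0.trans h4)).trans k
  have d1 : DecrE S (fun F =>
      ¬ LRc ((5 * R : ℕ) : ℤ) ((10 * R : ℕ) : ℤ) (-((10 * R : ℕ) : ℤ)) ((10 * R : ℕ) : ℤ) F ∧
      ¬ LRc (-((10 * R : ℕ) : ℤ)) (-((5 * R : ℕ) : ℤ)) (-((10 * R : ℕ) : ℤ))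
        ((10 * R : ℕ) : ℤ) F) := by
    intro F G hFG _ hF hG
    exact hF ⟨fun k => hG.1 (k.mono hFG), fun k => hG.2 (k.mono hFG)⟩
  have d2 : DecrE S (fun F =>
      ¬ TBc (-((10 * R : ℕ) : ℤ)) ((10 * R : ℕ) : ℤ) ((5 * R : ℕ) : ℤ) ((10 * R : ℕ) : ℤ) F ∧
      ¬ TBc (-((10 * R : ℕ) : ℤ)) ((10 * R : ℕ) : ℤ) (-((10 * R : ℕ) : ℤ))
        (-((5 * R : ℕ) : ℤ)) F) := by
    intro F G hFG _ hF hG
    exact hF ⟨fun k => hG.1 (k.mono hFG), fun k => hG.2 (k.mono hFG)⟩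
  have i3 := harris_dec2 ok d1 d2
  have i4 : (v * v) * (v * v) ≤ Pr (fun _ => p) S
      (Blk ((5 * R : ℕ) : ℤ) ((10 * R : ℕ) : ℤ)) := by
    refine (mul_le_mul i1 i2 (by positivity) (Pr_nonneg ok _ _)).trans (i3.trans ?_)
    apply Pr_mono ok
    rintro F _ ⟨⟨k1, k2⟩, k3, k4⟩
    exact ⟨fun k => k.elim k1 k2, fun k => k.elim k3 k4⟩
  refine le_trans (le_of_eq ?_) i4
  rw [hv]
  have e5 : (c * Real.exp (-(C * (((5 * R : ℕ) : ℝ) * (p - 1/2) ^ (4/3 : ℝ))))) *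
      (c * Real.exp (-(C * (((5 * R : ℕ) : ℝ) * (p - 1/2) ^ (4/3 : ℝ))))) *
      ((c * Real.exp (-(C * (((5 * R : ℕ) : ℝ) * (p - 1/2) ^ (4/3 : ℝ))))) *
      (c * Real.exp (-(C * (((5 * R : ℕ) : ℝ) * (p - 1/2) ^ (4/3 : ℝ)))))) =
      c ^ 4 * Real.exp (-(C * (((5 * R : ℕ) : ℝ) * (p - 1/2) ^ (4/3 : ℝ)))) ^ 4 := by ring
  rw [e5, ← Real.exp_nat_mul]
  congr 2
  push_cast
  ring

/-- The finite-volume lower bound at a given radius. -/
theorem low_at {q κ a A : ℝ} {m : ℕ} (h : NC q κ a A m) (hA : 0 < A) (hm : 1 ≤ m)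
    (hq : 1/2 ≤ q) {R : ℕ} (hR : m ≤ R) {α : ℝ} (hα : 0 < α)
    (harm : α * (m:ℝ) ^ (-(5/48) : ℝ) ≤ arm q (4 * R)) {N : ℝ} (hN : N ≤ 2 * α * vs R m)
    {b : ℝ} (hb : 0 ≤ b) (hblk : ∀ S : Finset Edg, annE (5 * R) (10 * R) ⊆ S →
      b ≤ Pr (fun _ => q) S (Blk ((5 * R : ℕ) : ℤ) ((10 * R : ℕ) : ℤ))) :
    (α * (m:ℝ) ^ (-(5/48) : ℝ)) * (kap * (2 * α ^ 2 / (kmom κ A) ^ 2)) * b ≤
      Pr (fun _ => q) (boxE (10 * R)) (fun F => FV N (10 * R) ↑F) := by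
  have ok := h.ok
  have hκ := h.win.kpos
  have hkm := kmom_pos hκ hA
  have hR1 : 1 ≤ R := hm.trans hR
  have hm0 : (0:ℝ) < m := by exact_mod_cast hm
  obtain ⟨S, hS⟩ : ∃ S, S = boxE (10 * R) := ⟨_, rfl⟩
  rw [← hS]
  have hS5 : boxE (5 * R) ⊆ S := by rw [hS]; exact boxE_mono (by omega)
  have hpv := pr_vol h hA hm hR hα harm (S := boxE (5 * R)) (Finset.Subset.refl _)
  have hci : kap ≤ Pr (fun _ => q) (boxE (5 * R)) (Circ R ((3 * R : ℕ) : ℤ)) :=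
    pr_CircP ok (fun _ => hq) (by omega) (boxE_mono (by omega))
  have hla : α * (m:ℝ) ^ (-(5/48) : ℝ) ≤ Pr (fun _ => q) (boxE (5 * R)) (LA (0, 0) (4 * R)) := by
    rw [pr_LA_eq q (x := (0, 0)) (m := 4 * R) (S := boxE (5 * R)) (by
      unfold bo boxE
      apply RE_subset <;> push_cast <;> omega)]
    exact harm
  -- the inner event
  obtain ⟨E, hE⟩ : ∃ E : Finset Edg → Prop, E = fun F => LA (0, 0) (4 * R) F ∧
      (Circ R ((3 * R : ℕ) : ℤ) F ∧ 2 * α * vs R m ≤ ZZ R (4 * R) F) := ⟨_, rfl⟩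
  have j1 := Pr_harris ok (S := boxE (5 * R)) (A := Circ R ((3 * R : ℕ) : ℤ))
    (B := fun F => 2 * α * vs R m ≤ ZZ R (4 * R) F) (fun F G hFG _ hF => hF.mono hFG)
    (fun F G hFG _ hF => le_trans hF (ZZ_mono hFG))
  have j2 := Pr_harris ok (S := boxE (5 * R)) (A := LA (0, 0) (4 * R))
    (B := fun F => Circ R ((3 * R : ℕ) : ℤ) F ∧ 2 * α * vs R m ≤ ZZ R (4 * R) F)
    (fun F G hFG _ hF => LA_inc (0, 0) (4 * R) F G hFG hF)
    (fun F G hFG _ hF => ⟨hF.1.mono hFG, le_trans hF.2 (ZZ_mono hFG)⟩)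
  have hk0 : 0 < kap := kap_pos
  have j3 : (α * (m:ℝ) ^ (-(5/48) : ℝ)) * (kap * (2 * α ^ 2 / (kmom κ A) ^ 2)) ≤
      Pr (fun _ => q) (boxE (5 * R)) E := by
    rw [hE]
    refine le_trans ?_ j2
    apply mul_le_mul hla _ (by positivity) (Pr_nonneg ok _ _)
    refine le_trans ?_ j1
    exact mul_le_mul hci hpv (by positivity) (Pr_nonneg ok _ _)
  have hEloc : ∀ F : Finset Edg, E F ↔ E (F ∩ boxE (5 * R)) := by
    intro F
    rw [hE]
    show (LA (0, 0) (4 * R) F ∧ _) ↔ (LA (0, 0) (4 * R) (F ∩ boxE (5 * R)) ∧ _)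
    rw [LA_loc (v := (0, 0)) (m := 4 * R) (T := boxE (5 * R)) (by
      unfold bo boxE
      apply RE_subset <;> push_cast <;> omega) F,
      ZZ_loc (R := R) (m := 4 * R) (M := 5 * R) (by omega) F]
    have hcl : Circ R ((3 * R : ℕ) : ℤ) F ↔ Circ R ((3 * R : ℕ) : ℤ) (F ∩ boxE (5 * R)) := by
      have key : ∀ T : Finset Edg, T ⊆ RE (-((3 * R : ℕ) : ℤ)) ((3 * R : ℕ) : ℤ)
          (-((3 * R : ℕ) : ℤ)) ((3 * R : ℕ) : ℤ) → T ⊆ boxE (5 * R) := by
        intro T hT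
        refine hT.trans ?_
        unfold boxE
        apply RE_subset <;> push_cast <;> omega
      unfold Circ
      rw [LRc_local (F := F) (S := boxE (5 * R)) (a := -((3 * R : ℕ) : ℤ)) (c := (R:ℤ))
          (key _ (LRE_subset_RE.trans (RE_subset le_rfl le_rfl (by push_cast; omega) le_rfl))),
        LRc_local (F := F) (S := boxE (5 * R)) (a := -((3 * R : ℕ) : ℤ))
          (c := -((3 * R : ℕ) : ℤ))
          (key _ (LRE_subset_RE.trans (RE_subset le_rfl le_rfl le_rfl (by push_cast; omega)))),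
        TBc_local (F := F) (S := boxE (5 * R)) (a := (R:ℤ))
          (key _ (TBE_subset_RE.trans (RE_subset (by push_cast; omega) le_rfl le_rfl le_rfl))),
        TBc_local (F := F) (S := boxE (5 * R)) (a := -((3 * R : ℕ) : ℤ))
          (key _ (TBE_subset_RE.trans (RE_subset le_rfl (by push_cast; omega) le_rfl le_rfl)))]
    rw [hcl]
  have hbl := hblk S (by rw [hS]; exact Pool.Agent.W424.NC.annE_sub _ _)
  have j4 : Pr (fun _ => q) S (fun F => E F ∧ Blk ((5 * R : ℕ) : ℤ) ((10 * R : ℕ) : ℤ) F) =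
      Pr (fun _ => q) S E * Pr (fun _ => q) S (Blk ((5 * R : ℕ) : ℤ) ((10 * R : ℕ) : ℤ)) := by
    apply Pr_indep (S := boxE (5 * R)) (T := annE (5 * R) (10 * R)) hS5
    · rw [hS]; exact Pool.Agent.W424.NC.annE_sub _ _
    · unfold annE
      exact Finset.disjoint_sdiff
    · exact fun F _ => hEloc F
    · exact fun F _ => Blk_local (by omega) (Finset.Subset.refl _) F
  have j5 : Pr (fun _ => q) S E = Pr (fun _ => q) (boxE (5 * R)) E :=
    Pr_local hS5 (fun F _ => hEloc F)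
  have j6 : Pr (fun _ => q) S (fun F => E F ∧ Blk ((5 * R : ℕ) : ℤ) ((10 * R : ℕ) : ℤ) F) ≤
      Pr (fun _ => q) S (fun F => FV N (10 * R) ↑F) := by
    apply Pr_mono ok
    rintro F _ ⟨hF, hB⟩
    rw [hE] at hF
    obtain ⟨k1, k2, k3⟩ := hF
    constructor
    · exact geo_vol hR1 k1 k2 (hN.trans k3)
    · rintro ⟨v, hv, hr⟩
      refine not_blk (R1 := ((5 * R : ℕ) : ℤ)) (R2 := ((10 * R : ℕ) : ℤ)) (by push_cast; omega)
        (u := (0, 0)) ?_ hr ?_ hB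
      · unfold inR
        simp only
        omega
      · unfold nv at hv
        omega
  refine le_trans ?_ j6
  rw [j4, j5]
  exact mul_le_mul j3 hbl hb (Pr_nonneg ok _ _)

end Pool.Agent.NH39.CV
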