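import Pool.Agent.NH39.D5

/-! Above the critical point: the lower bound for the size of the finite clusters, and both bounds
together. -/

set_option autoImplicit false

namespace Pool.Agent.NH39.CV

open Finset H974 Pool.Agent.H160R2.CV Pool.Agent.H160R2.CV.Quad H362P Pool.Agent.Y244.PC
open H12S (Win)
open MeasureTheory Filter

/-- The lower bound. -/
theorem sup_lower : ∃ c C : ℝ, 0 < c ∧ 0 < C ∧ ∀ p : unitInterval, 1/2 ≤ (p:ℝ) → (p:ℝ) ≤ 3/4 →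
    ∀ N : ℕ, 1 ≤ N → c * (N:ℝ) ^ (-(5/91) : ℝ) *
      Real.exp (-(C * Real.sqrt (N * ((p:ℝ) - 1/2) ^ (91/36 : ℝ)))) ≤
        (bondLaw p).real {ω | (N : ℕ∞) ≤ (cluster0 ω).encard ∧ (cluster0 ω).Finite} := by
  obtain ⟨κ, a, A, C1, hκ, ha, hA, hC1, hG⟩ := nearR
  obtain ⟨cb, Cb, hcb, hCb, hblk⟩ := pr_Blk_low
  obtain ⟨cc, Cc, hcc, hCc, harm⟩ := Pool.Agent.W424.NC.arm_crit
  obtain ⟨ct, hct, hth⟩ := Pool.Agent.Y554.NC.theta_lower'
  have hkm := kmom_pos hκ hA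
  have hk0 : 0 < kap := kap_pos
  obtain ⟨α0, hα0⟩ : ∃ α0 : ℝ, α0 = min (cc * 8 ^ (-(5/48) : ℝ)) (ct * C1 ^ (-(5/48) : ℝ)) :=
    ⟨_, rfl⟩
  have hα00 : 0 < α0 := by rw [hα0]; exact lt_min (by positivity) (by positivity)
  obtain ⟨K, hK⟩ : ∃ K : ℝ, K = max 1 (1 / (2 * α0)) := ⟨_, rfl⟩
  have hK1 : 1 ≤ K := by rw [hK]; exact le_max_left _ _
  have hK2 : 1 / (2 * α0) ≤ K := by rw [hK]; exact le_max_right _ _
  have hK0 : 0 < K := by linarith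
  obtain ⟨α, hα⟩ : ∃ α : ℝ, α = α0 * K ^ (-(5/48) : ℝ) := ⟨_, rfl⟩
  have hαp : 0 < α := by rw [hα]; positivity
  have hKneg : K ^ (-(5/48) : ℝ) ≤ 1 :=
    Real.rpow_le_one_of_one_le_of_nonpos hK1 (by norm_num)
  have hαα0 : α ≤ α0 := by
    rw [hα]
    exact mul_le_of_le_one_right hα00.le hKneg
  have hαK : 1 ≤ 2 * α * K ^ 2 := by
    rw [hα]
    have h1 : K ^ (-(5/48) : ℝ) * K ^ 2 = K ^ (91/48 : ℝ) := by
      rw [← Real.rpow_natCast K 2, ← Real.rpow_add hK0]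
      norm_num
    have h2 : K ≤ K ^ (91/48 : ℝ) := by
      calc K = K ^ (1:ℝ) := (Real.rpow_one K).symm
        _ ≤ K ^ (91/48 : ℝ) := Real.rpow_le_rpow_of_exponent_le hK1 (by norm_num)
    have h3 : 1 ≤ 2 * α0 * K := by
      rw [div_le_iff₀ (by positivity)] at hK2
      linarith
    calc (1:ℝ) ≤ 2 * α0 * K := h3
      _ ≤ 2 * α0 * K ^ (91/48 : ℝ) := mul_le_mul_of_nonneg_left h2 (by positivity)
      _ = 2 * (α0 * K ^ (-(5/48) : ℝ)) * K ^ 2 := by rw [← h1]; ring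
  obtain ⟨E1, hE1⟩ : ∃ E1 : ℝ, E1 = Real.sqrt (C1 ^ (5/48 : ℝ)) := ⟨_, rfl⟩
  have hE10 : 0 < E1 := by rw [hE1]; positivity
  obtain ⟨c0, hc0⟩ : ∃ c0 : ℝ, c0 = (α * 2 ^ (-(5/48) : ℝ)) *
    (kap * (2 * α ^ 2 / (kmom κ A) ^ 2)) * cb := ⟨_, rfl⟩
  have hc00 : 0 < c0 := by rw [hc0]; positivity
  refine ⟨c0 * Real.exp (-(Cb * (2 * K * C1))), Cb * (2 * K * E1), by positivity,
    by positivity, ?_⟩
  intro p hp hp1 N hN
  obtain ⟨s, hs⟩ : ∃ s : ℝ, s = (p:ℝ) - 1/2 := ⟨_, rfl⟩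
  have hs0 : 0 ≤ s := by rw [hs]; linarith
  have hN' : (1:ℝ) ≤ N := by exact_mod_cast hN
  have hNp : (0:ℝ) < N := by linarith
  have hq1 : 1 ≤ (N:ℝ) ^ (48/91 : ℝ) := Real.one_le_rpow hN' (by norm_num)
  obtain ⟨n, hn⟩ : ∃ n : ℕ, n = ⌈(N:ℝ) ^ (48/91 : ℝ)⌉₊ := ⟨_, rfl⟩
  have hn1 : (N:ℝ) ^ (48/91 : ℝ) ≤ n := by rw [hn]; exact Nat.le_ceil _
  have hn2 : (n:ℝ) ≤ 2 * (N:ℝ) ^ (48/91 : ℝ) := by
    rw [hn]
    have := Nat.ceil_lt_add_one (a := (N:ℝ) ^ (48/91 : ℝ)) (by linarith)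
    linarith
  have hn3 : 1 ≤ n := by
    have : (1:ℝ) ≤ n := hq1.trans hn1
    exact_mod_cast this
  obtain ⟨m, hm, hmn, hNC, hcase, hmC⟩ := hG p n hp hp1 hn3
  rw [← hs] at hcase hmC ⊢
  have hm0 : (0:ℝ) < m := by exact_mod_cast hm
  have hm1 : (1:ℝ) ≤ m := by exact_mod_cast hm
  have hs43 : 0 ≤ s ^ (4/3 : ℝ) := by positivity
  -- the radius
  obtain ⟨x, hx⟩ : ∃ x : ℝ, x = Real.sqrt (N * (m:ℝ) ^ (5/48 : ℝ)) := ⟨_, rfl⟩
  have hx0 : 0 ≤ x := by rw [hx]; exact Real.sqrt_nonneg _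
  have hx2 : x ^ 2 = N * (m:ℝ) ^ (5/48 : ℝ) := by rw [hx]; exact Real.sq_sqrt (by positivity)
  obtain ⟨R, hR⟩ : ∃ R : ℕ, R = ⌈K * max (m:ℝ) x⌉₊ := ⟨_, rfl⟩
  have hR1 : K * max (m:ℝ) x ≤ R := by rw [hR]; exact Nat.le_ceil _
  have hRm : (m:ℝ) ≤ R := by
    refine le_trans ?_ hR1
    calc (m:ℝ) ≤ 1 * max (m:ℝ) x := by rw [one_mul]; exact le_max_left _ _
      _ ≤ K * max (m:ℝ) x := mul_le_mul_of_nonneg_right hK1 (le_max_of_le_left hm0.le)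
  have hmR : m ≤ R := by exact_mod_cast hRm
  have hR0 : (0:ℝ) < R := by linarith
  have hRx : K * x ≤ R := (mul_le_mul_of_nonneg_left (le_max_right _ _) hK0.le).trans hR1
  have hRup : (R:ℝ) ≤ 2 * K * max (m:ℝ) x := by
    have h1 : (R:ℝ) < K * max (m:ℝ) x + 1 := by
      rw [hR]
      exact Nat.ceil_lt_add_one (mul_nonneg hK0.le (le_max_of_le_left hm0.le))
    have h2 : (1:ℝ) ≤ K * max (m:ℝ) x := by
      calc (1:ℝ) ≤ 1 * (m:ℝ) := by linarith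
        _ ≤ K * max (m:ℝ) x := mul_le_mul hK1 (le_max_left _ _) hm0.le hK0.le
    linarith
  have hR1' : 1 ≤ R := hm.trans hmR
  -- the volume
  have hvol : (N:ℝ) ≤ 2 * α * vs R m := by
    unfold vs
    have h1 : (K * x) ^ 2 ≤ (R:ℝ) ^ 2 := pow_le_pow_left₀ (by positivity) hRx 2
    have h2 : (m:ℝ) ^ (5/48 : ℝ) * (m:ℝ) ^ (-(5/48) : ℝ) = 1 := by
      rw [← Real.rpow_add hm0]; norm_num
    calc (N:ℝ) = 1 * N * 1 := by ring
      _ ≤ (2 * α * K ^ 2) * N * 1 := by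
          apply mul_le_mul_of_nonneg_right _ (by norm_num)
          exact mul_le_mul_of_nonneg_right hαK hNp.le
      _ = 2 * α * ((K * x) ^ 2 * (m:ℝ) ^ (-(5/48) : ℝ)) := by
          rw [mul_pow, hx2, ← h2]; ring
      _ ≤ 2 * α * ((R:ℝ) ^ 2 * (m:ℝ) ^ (-(5/48) : ℝ)) := by
          apply mul_le_mul_of_nonneg_left _ (by positivity)
          exact mul_le_mul_of_nonneg_right h1 (by positivity)
  -- the arm
  have harm' : α * (m:ℝ) ^ (-(5/48) : ℝ) ≤ arm p (4 * R) := by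
    rcases hcase with hc | hc
    · -- the window
      have h1 : x ≤ m := by
        rw [hx]
        apply Real.sqrt_le_iff.2
        refine ⟨hm0.le, ?_⟩
        have h3 : (N:ℝ) ≤ (m:ℝ) ^ (91/48 : ℝ) := by
          rw [hc]
          calc (N:ℝ) = ((N:ℝ) ^ (48/91 : ℝ)) ^ (91/48 : ℝ) := by
                rw [← Real.rpow_mul hNp.le]; norm_num
            _ ≤ _ := Real.rpow_le_rpow (by positivity) hn1 (by norm_num)
        calc (N:ℝ) * (m:ℝ) ^ (5/48 : ℝ) ≤ (m:ℝ) ^ (91/48 : ℝ) * (m:ℝ) ^ (5/48 : ℝ) :=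
              mul_le_mul_of_nonneg_right h3 (by positivity)
          _ = (m:ℝ) ^ 2 := by
              rw [← Real.rpow_add hm0, ← Real.rpow_natCast]; norm_num
      have h2 : ((4 * R : ℕ) : ℝ) ≤ 8 * (K * m) := by
        rw [max_eq_left h1] at hRup
        push_cast
        linarith
      have h3 := (harm (4 * R) (by omega)).1
      have h4 : arm (1/2) (4 * R) ≤ arm p (4 * R) :=
        arm_mono_param (by norm_num) hp p.2.2 _
      refine le_trans ?_ (h3.trans h4)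
      have hR4 : (0:ℝ) < ((4 * R : ℕ) : ℝ) := by push_cast; linarith
      have h5 : (8 * (K * m)) ^ (-(5/48) : ℝ) ≤ ((4 * R : ℕ) : ℝ) ^ (-(5/48) : ℝ) :=
        Real.rpow_le_rpow_of_nonpos hR4 h2 (by norm_num)
      rw [Real.mul_rpow (by norm_num) (by positivity), Real.mul_rpow hK0.le hm0.le] at h5
      have h6 : α0 ≤ cc * 8 ^ (-(5/48) : ℝ) := by rw [hα0]; exact min_le_left _ _
      calc α * (m:ℝ) ^ (-(5/48) : ℝ) = α0 * (K ^ (-(5/48) : ℝ) * (m:ℝ) ^ (-(5/48) : ℝ)) := by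
            rw [hα]; ring
        _ ≤ (cc * 8 ^ (-(5/48) : ℝ)) * (K ^ (-(5/48) : ℝ) * (m:ℝ) ^ (-(5/48) : ℝ)) :=
            mul_le_mul_of_nonneg_right h6 (by positivity)
        _ = cc * (8 ^ (-(5/48) : ℝ) * (K ^ (-(5/48) : ℝ) * (m:ℝ) ^ (-(5/48) : ℝ))) := by ring
        _ ≤ _ := mul_le_mul_of_nonneg_left h5 hcc.le
    · -- beyond the window
      have hsp : 0 < s := by
        rcases hs0.lt_or_eq with h | h
        · exact h
        · exfalso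
          rw [← h, Real.zero_rpow (by norm_num), mul_zero, mul_zero] at hc
          linarith
      have h1 := theta_le_arm p (4 * R)
      have h2 := hth p (by linarith)
      rw [← hs] at h2
      refine le_trans ?_ (h2.trans h1)
      have h3 : (C1 * m) ^ (-(5/48) : ℝ) ≤ s ^ (5/36 : ℝ) := by
        have h4 : s ^ (5/36 : ℝ) = (s ^ (4/3 : ℝ)) ^ (5/48 : ℝ) := by
          rw [← Real.rpow_mul hs0]; norm_num
        rw [h4, Real.rpow_neg (by positivity), ← Real.inv_rpow (by positivity)]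
        apply Real.rpow_le_rpow (by positivity) _ (by norm_num)
        rw [inv_le_iff_one_le_mul₀ (by positivity)]
        linarith
      rw [Real.mul_rpow hC1.le hm0.le] at h3
      have h6 : α ≤ ct * C1 ^ (-(5/48) : ℝ) := by
        refine hαα0.trans ?_
        rw [hα0]; exact min_le_right _ _
      calc α * (m:ℝ) ^ (-(5/48) : ℝ) ≤ (ct * C1 ^ (-(5/48) : ℝ)) * (m:ℝ) ^ (-(5/48) : ℝ) :=
            mul_le_mul_of_nonneg_right h6 (by positivity)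
        _ = ct * (C1 ^ (-(5/48) : ℝ) * (m:ℝ) ^ (-(5/48) : ℝ)) := by ring
        _ ≤ _ := mul_le_mul_of_nonneg_left h3 hct.le
  -- the closed circuit
  have hblk' := hblk p hp hp1 R hR1'
  rw [← hs] at hblk'
  have hlow := low_at hNC hA hm hp hmR hαp harm' hvol (by positivity) hblk'
  have hfin := lower_fin p N (10 * R)
  refine le_trans ?_ (hlow.trans hfin)
  -- comparison of the bounds
  have k1 : 2 ^ (-(5/48) : ℝ) * (N:ℝ) ^ (-(5/91) : ℝ) ≤ (m:ℝ) ^ (-(5/48) : ℝ) := by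
    have h4 : (m:ℝ) ≤ 2 * (N:ℝ) ^ (48/91 : ℝ) := by
      have : (m:ℝ) ≤ n := by exact_mod_cast hmn
      linarith
    have h5 : (2 * (N:ℝ) ^ (48/91 : ℝ)) ^ (-(5/48) : ℝ) ≤ (m:ℝ) ^ (-(5/48) : ℝ) :=
      Real.rpow_le_rpow_of_nonpos hm0 h4 (by norm_num)
    refine le_trans (le_of_eq ?_) h5
    rw [Real.mul_rpow (by norm_num) (by positivity), ← Real.rpow_mul hNp.le]
    norm_num
  obtain ⟨Y, hY⟩ : ∃ Y : ℝ, Y = Real.sqrt (N * s ^ (91/36 : ℝ)) := ⟨_, rfl⟩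
  have hY0 : 0 ≤ Y := by rw [hY]; exact Real.sqrt_nonneg _
  rw [← hY]
  have k2 : x * s ^ (4/3 : ℝ) ≤ E1 * Y := by
    have h1 : s ^ (4/3 : ℝ) = Real.sqrt (s ^ (8/3 : ℝ)) := by
      rw [Real.sqrt_eq_rpow, ← Real.rpow_mul hs0]; norm_num
    rw [hx, h1, hE1, hY, ← Real.sqrt_mul (by positivity), ← Real.sqrt_mul (by positivity)]
    apply Real.sqrt_le_sqrt
    have h2 : (m:ℝ) ^ (5/48 : ℝ) * s ^ (8/3 : ℝ) =
        (m * s ^ (4/3 : ℝ)) ^ (5/48 : ℝ) * s ^ (91/36 : ℝ) := by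
      rcases hs0.lt_or_eq with h | h
      · rw [Real.mul_rpow hm0.le hs43, ← Real.rpow_mul hs0, mul_assoc, ← Real.rpow_add h]
        norm_num
      · rw [← h, Real.zero_rpow (show (8/3 : ℝ) ≠ 0 by norm_num),
          Real.zero_rpow (show (91/36 : ℝ) ≠ 0 by norm_num), mul_zero, mul_zero]
    have h3 : (m * s ^ (4/3 : ℝ)) ^ (5/48 : ℝ) ≤ C1 ^ (5/48 : ℝ) :=
      Real.rpow_le_rpow (by positivity) hmC (by norm_num)
    calc (N:ℝ) * (m:ℝ) ^ (5/48 : ℝ) * s ^ (8/3 : ℝ) =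
        N * ((m:ℝ) ^ (5/48 : ℝ) * s ^ (8/3 : ℝ)) := by ring
      _ = N * ((m * s ^ (4/3 : ℝ)) ^ (5/48 : ℝ) * s ^ (91/36 : ℝ)) := by rw [h2]
      _ ≤ N * (C1 ^ (5/48 : ℝ) * s ^ (91/36 : ℝ)) := by
          apply mul_le_mul_of_nonneg_left _ hNp.le
          exact mul_le_mul_of_nonneg_right h3 (by positivity)
      _ = C1 ^ (5/48 : ℝ) * (N * s ^ (91/36 : ℝ)) := by ring
  have k3 : (R:ℝ) * s ^ (4/3 : ℝ) ≤ 2 * K * C1 + 2 * K * E1 * Y := by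
    have h1 := mul_le_mul_of_nonneg_right hRup hs43
    have h2 : max (m:ℝ) x * s ^ (4/3 : ℝ) ≤ C1 + E1 * Y := by
      have h3 : max (m:ℝ) x ≤ m + x := max_le (by linarith) (by linarith)
      have h4 := mul_le_mul_of_nonneg_right h3 hs43
      linarith
    have h5 := mul_le_mul_of_nonneg_left h2 (show 0 ≤ 2 * K by linarith)
    calc (R:ℝ) * s ^ (4/3 : ℝ) ≤ 2 * K * max (m:ℝ) x * s ^ (4/3 : ℝ) := h1
      _ = 2 * K * (max (m:ℝ) x * s ^ (4/3 : ℝ)) := by ring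
      _ ≤ 2 * K * (C1 + E1 * Y) := h5
      _ = _ := by ring
  have k4 : Real.exp (-(Cb * (2 * K * C1))) * Real.exp (-(Cb * (2 * K * E1) * Y)) ≤
      Real.exp (-(Cb * (R * s ^ (4/3 : ℝ)))) := by
    rw [← Real.exp_add]
    apply Real.exp_le_exp.2
    have := mul_le_mul_of_nonneg_left k3 hCb.le
    linarith
  have hcst : 0 < kap * (2 * α ^ 2 / (kmom κ A) ^ 2) := by positivity
  calc c0 * Real.exp (-(Cb * (2 * K * C1))) * (N:ℝ) ^ (-(5/91) : ℝ) *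
        Real.exp (-(Cb * (2 * K * E1) * Y)) =
      (α * (2 ^ (-(5/48) : ℝ) * (N:ℝ) ^ (-(5/91) : ℝ))) *
        (kap * (2 * α ^ 2 / (kmom κ A) ^ 2)) *
        (cb * (Real.exp (-(Cb * (2 * K * C1))) * Real.exp (-(Cb * (2 * K * E1) * Y)))) := by
        rw [hc0]; ring
    _ ≤ (α * (m:ℝ) ^ (-(5/48) : ℝ)) * (kap * (2 * α ^ 2 / (kmom κ A) ^ 2)) *
        (cb * Real.exp (-(Cb * (R * s ^ (4/3 : ℝ))))) := by
        apply mul_le_mul
        · apply mul_le_mul_of_nonneg_right _ hcst.le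
          exact mul_le_mul_of_nonneg_left k1 hαp.le
        · exact mul_le_mul_of_nonneg_left k4 hcb.le
        · positivity
        · positivity

/-- Both bounds. -/
theorem sup_both : ∃ c C : ℝ, 0 < c ∧ 0 < C ∧
    (∀ p : unitInterval, 1/2 ≤ (p:ℝ) → ∀ N : ℕ, 1 ≤ N →
      (bondLaw p).real {ω | (N : ℕ∞) ≤ (cluster0 ω).encard ∧ (cluster0 ω).Finite} ≤
        C * (N:ℝ) ^ (-(5/91) : ℝ) *
          Real.exp (-(c * Real.sqrt (N * ((p:ℝ) - 1/2) ^ (91/36 : ℝ))))) ∧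
    (∀ p : unitInterval, 1/2 ≤ (p:ℝ) → (p:ℝ) ≤ 3/4 → ∀ N : ℕ, 1 ≤ N →
      c * (N:ℝ) ^ (-(5/91) : ℝ) *
          Real.exp (-(C * Real.sqrt (N * ((p:ℝ) - 1/2) ^ (91/36 : ℝ)))) ≤
        (bondLaw p).real {ω | (N : ℕ∞) ≤ (cluster0 ω).encard ∧ (cluster0 ω).Finite}) := by
  obtain ⟨c, C, hc, hC, hup⟩ := sup_upper
  obtain ⟨c', C', hc', hC', hlo⟩ := sup_lower
  refine ⟨min c c', max C C', lt_min hc hc', lt_max_of_lt_left hC, ?_, ?_⟩
  · intro p hp N hN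
    refine (hup p hp N hN).trans ?_
    have hs0 : 0 ≤ (p:ℝ) - 1/2 := by linarith
    exact weak_exp (min_le_left _ _) (le_max_left _ _) (le_max_of_le_left hC.le) (by positivity)
      (Real.sqrt_nonneg _)
  · intro p hp hp1 N hN
    refine le_trans ?_ (hlo p hp hp1 N hN)
    exact weak_exp (le_max_right _ _) (min_le_right _ _) hc'.le (by positivity)
      (Real.sqrt_nonneg _)

end Pool.Agent.NH39.CV
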