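import Pool.Agent.H389R2.NS.S4
import Pool.Agent.W424.NC.NearC

/-! Near-critical versions: landing cells in the window. -/

set_option autoImplicit false

namespace Pool.Agent.NH39.NC

open H974 H12S H389NS Finset

/-- The near-critical window at scale `n`, with the sharp four-arm bounds. -/
structure NCw (q κ c C : ℝ) (n : ℕ) : Prop where
  win : Win q κ n
  lo : ∀ k : ℕ, 1 ≤ k → k ≤ n → c * (k:ℝ) ^ (-(5/4) : ℝ) ≤ a4 q k
  hi : ∀ k : ℕ, 1 ≤ k → k ≤ n → a4 q k ≤ C * (k:ℝ) ^ (-(5/4) : ℝ)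

theorem NCw.anti {q κ c C : ℝ} {n m : ℕ} (h : NCw q κ c C n) (hm : m ≤ n) : NCw q κ c C m :=
  ⟨h.win.anti hm, fun k h1 h2 => h.lo k h1 (h2.trans hm), fun k h1 h2 => h.hi k h1 (h2.trans hm)⟩

theorem nearNC : ∃ κ b c C : ℝ, 0 < κ ∧ 0 < b ∧ 0 < c ∧ 0 < C ∧ ∀ n : ℕ, 1 ≤ n → ∀ q : ℝ,
      |q - 1/2| ≤ b * (n:ℝ) ^ (-(3/4 : ℝ)) → NCw q κ c C n := by
  obtain ⟨κ, b, c, C, h1, h2, h3, h4, h⟩ := Pool.Agent.W424.NC.nearS
  exact ⟨κ, b, c, C, h1, h2, h3, h4, fun n hn q hq => ⟨(h n hn q hq).1,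
    fun k a1 a2 => ((h n hn q hq).2 k a1 a2).1, fun k a1 a2 => ((h n hn q hq).2 k a1 a2).2⟩⟩

theorem TS_h8 {q c4 C4 : ℝ} {n : ℕ} (hc4 : 0 < c4) (hC4 : 0 < C4)
    (ha4 : ∀ k : ℕ, 1 ≤ k → k ≤ n →
    c4 * (k:ℝ) ^ (-(5/4) : ℝ) ≤ a4 q k ∧ a4 q k ≤ C4 * (k:ℝ) ^ (-(5/4) : ℝ))
    {L m : ℕ} (hL : 2 ≤ L) (hm : 64 ≤ m) (hn : 4 * L * m ≤ n) :
    a4 q (m / 8) ≤ (C4 / c4 * (64 * (3 * L : ℕ) : ℝ) ^ (5/4 : ℝ)) * a4 q (4 * L * m) := by
  have hL0 : (0:ℝ) < L := by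
    have : 0 < L := by omega
    exact_mod_cast this
  have hm0 : (0:ℝ) < m := by
    have : 0 < m := by omega
    exact_mod_cast this
  have hm8n : m / 8 ≤ n := by
    refine le_trans (Nat.div_le_self _ _) (le_trans ?_ hn)
    exact Nat.le_mul_of_pos_left _ (by omega)
  have h1 := (ha4 (m / 8) (by omega) hm8n).2
  have h2 := (ha4 (4 * L * m) (Nat.one_le_iff_ne_zero.mpr (by
    have : L ≠ 0 := by omega
    have : m ≠ 0 := by omega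
    positivity)) hn).1
  have e64 : (64 * (3 * L : ℕ) : ℝ) = 192 * L := by push_cast; ring
  rw [e64]
  have h3 : ((m / 8 : ℕ) : ℝ) ^ (-(5/4) : ℝ) ≤
      (192 * L : ℝ) ^ (5/4 : ℝ) * ((4 * L * m : ℕ) : ℝ) ^ (-(5/4) : ℝ) := by
    have e1 : ((4 * L * m : ℕ) : ℝ) / (192 * L) ≤ ((m / 8 : ℕ) : ℝ) := by
      have e2 : m ≤ 48 * (m / 8) := by omega
      have e3 : (m:ℝ) ≤ 48 * ((m / 8 : ℕ) : ℝ) := by exact_mod_cast e2
      rw [div_le_iff₀ (by positivity)]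
      push_cast at e3 ⊢
      nlinarith
    calc ((m / 8 : ℕ) : ℝ) ^ (-(5/4) : ℝ) ≤ (((4 * L * m : ℕ) : ℝ) / (192 * L)) ^ (-(5/4) : ℝ) :=
          Real.rpow_le_rpow_of_nonpos (by positivity) e1 (by norm_num)
      _ = (192 * L : ℝ) ^ (5/4 : ℝ) * ((4 * L * m : ℕ) : ℝ) ^ (-(5/4) : ℝ) := by
          rw [Real.div_rpow (by positivity) (by positivity),
            Real.rpow_neg (show (0:ℝ) ≤ 192 * L by positivity)]
          field_simp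
  calc a4 q (m / 8) ≤ C4 * ((m / 8 : ℕ) : ℝ) ^ (-(5/4) : ℝ) := h1
    _ ≤ C4 * ((192 * L : ℝ) ^ (5/4 : ℝ) * ((4 * L * m : ℕ) : ℝ) ^ (-(5/4) : ℝ)) :=
        mul_le_mul_of_nonneg_left h3 hC4.le
    _ = (C4 / c4 * (192 * L : ℝ) ^ (5/4 : ℝ)) * (c4 * ((4 * L * m : ℕ) : ℝ) ^ (-(5/4) : ℝ)) := by
        field_simp
    _ ≤ (C4 / c4 * (192 * L : ℝ) ^ (5/4 : ℝ)) * a4 q (4 * L * m) :=
        mul_le_mul_of_nonneg_left h2 (by positivity)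

/-- TS_all in the window: some pair of cells carries the four-arm probability. -/
theorem TS_all_q {κ c4 C4 : ℝ} (hκ : 0 < κ) (hc4 : 0 < c4) (hC4 : 0 < C4) :
    ∃ (L M1 M20 : ℕ), 2 ≤ L ∧ 64 ≤ M1 ∧ 8 * M1 ≤ M20 ∧ ∀ M2 : ℕ, M20 ≤ M2 →
    ∃ (C1 : ℝ) (r0 : ℕ), 0 < C1 ∧ ∀ (q : ℝ) (n : ℕ), NCw q κ c4 C4 n →
      ∀ r : ℕ, r0 ≤ r → 4 * L * (M2 * r) ≤ n →
      a4 q ((M2 * r) / 8) ≤ C1 * a4 q (4 * L * (M2 * r)) ∧
      ∃ (σ1 σ2 : Bool) (k1 k2 : ℤ), |2 * k1| ≤ L * M2 + 1 ∧ |2 * k2| ≤ L * M2 + 1 ∧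
      ((M2 * r : ℕ):ℝ) ^ 2 * a4 q (4 * L * (M2 * r)) ≤
        C1 * TS q L (M2 * r) r ((M2 * r) / M1) σ1 k1 σ2 k2 := by
  obtain ⟨C, c, hC, hc, hex⟩ := exit_prob3 κ hκ
  obtain ⟨L, hL, hLK⟩ := KY_choose_L (C * (C4 / c4)) c (5/4) hc
  have hL0 : (0:ℝ) < (3 * L : ℕ) := by
    have : 0 < 3 * L := by omega
    exact_mod_cast this
  obtain ⟨K, hK⟩ : ∃ K : ℝ, K = C4 / c4 * (64 * (3 * L : ℕ) : ℝ) ^ (5/4 : ℝ) := ⟨_, rfl⟩
  have hK0 : 0 < K := by rw [hK]; positivity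
  have hCK : C * Real.exp (-c * L) * K ≤ 1 / 32 := by
    rw [hK]
    calc C * Real.exp (-c * L) * (C4 / c4 * (64 * (3 * L : ℕ) : ℝ) ^ (5/4 : ℝ))
        = C * (C4 / c4) * Real.exp (-c * L) * (64 * (3 * L : ℕ) : ℝ) ^ (5/4 : ℝ) := by ring
      _ ≤ 1 / 32 := hLK
  obtain ⟨M1, M20, hM1, hM2, hex2⟩ := hex L (1 / (32 * K)) hL (by positivity)
  refine ⟨L, M1, M20, hL, hM1, hM2, ?_⟩
  intro M2 hM2'
  obtain ⟨N, hexN⟩ := hex2 M2 hM2'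
  obtain ⟨cd, hcd⟩ : ∃ cd : ℕ, cd = (2 * (2 * N + 1)) * (2 * (2 * N + 1)) := ⟨_, rfl⟩
  refine ⟨K + 16 * cd, 1, by positivity, ?_⟩
  intro q n hq r hr hrn
  have hwin := hq.win
  have ha4 : ∀ k : ℕ, 1 ≤ k → k ≤ n →
    c4 * (k:ℝ) ^ (-(5/4) : ℝ) ≤ a4 q k ∧ a4 q k ≤ C4 * (k:ℝ) ^ (-(5/4) : ℝ) :=
    fun k h1 h2 => ⟨hq.lo k h1 h2, hq.hi k h1 h2⟩
  have h0 : (0:ℝ) ≤ q := by linarith [hwin.lo]
  have h1 : q ≤ 1 := by linarith [hwin.hi]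
  have ha0 : ∀ j, 0 ≤ a4 q j := fun j =>
    add_nonneg (Pr_nonneg (okq h0 h1) _ _) (Pr_nonneg (okq h0 h1) _ _)
  obtain ⟨m, hm⟩ : ∃ m : ℕ, m = M2 * r := ⟨_, rfl⟩
  rw [← hm] at hrn ⊢
  have hM2p : 0 < M2 := by omega
  have hmM : M2 ≤ m := by rw [hm]; exact Nat.le_mul_of_pos_right _ hr
  have hm64 : 64 ≤ m := by omega
  have hmr : m / M2 = r := by rw [hm]; exact Nat.mul_div_cancel_left _ hM2p
  have h8 : a4 q (m / 8) ≤ K * a4 q (4 * L * m) := by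
    rw [hK]
    exact TS_h8 hc4 hC4 ha4 hL hm64 hrn
  refine ⟨h8.trans (mul_le_mul_of_nonneg_right ?_ (ha0 _)), ?_⟩
  · have : (0:ℝ) ≤ 16 * cd := by positivity
    linarith
  -- the sum
  set T : (Bool × ℤ) × (Bool × ℤ) → ℝ := fun p =>
    ∑ e ∈ boxE (m / 4), PQ q (SR L m) (fun F =>
      Sev L m r (m / M1) p.1.1 (2 * r * p.1.2) p.2.1 (2 * r * p.2.2) e ↑F) with hT
  have hs := a4_sum_ge (q := q) h0 h1 hL hm64
  have hm0 : (0:ℝ) < m := by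
    have : 0 < m := by omega
    exact_mod_cast this
  have hη : (1 / (32 * K) + C * Real.exp (-c * L)) * K ≤ 1 / 16 := by
    have e1 : 1 / (32 * K) * K = 1 / 32 := by field_simp
    calc (1 / (32 * K) + C * Real.exp (-c * L)) * K
        = 1 / (32 * K) * K + C * Real.exp (-c * L) * K := by ring
      _ ≤ 1 / 32 + 1 / 32 := by rw [e1]; linarith
      _ = 1 / 16 := by norm_num
  have hη0 : 0 ≤ 1 / (32 * K) + C * Real.exp (-c * L) := by positivity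
  have hs2 : ∑ e ∈ boxE (m / 4), PQ q (SR L m)
        (fun F => A4 (-(2 * L * m : ℕ)) (2 * L * m : ℕ) (-m) m e ↑F) ≤
      ∑ p ∈ prs L m r N, T p + (m:ℝ) ^ 2 / 16 * a4 q (4 * L * m) := by
    have hx := fun e he => hexN q (4 * L * m) (hwin.anti hrn) m hmM le_rfl e he
    rw [hmr] at hx
    refine (Finset.sum_le_sum fun e he => hx e he).trans ?_
    rw [Finset.sum_add_distrib, Finset.sum_comm, Finset.sum_const, nsmul_eq_mul]
    refine add_le_add le_rfl ?_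
    calc ((boxE (m / 4)).card : ℝ) * ((1 / (32 * K) + C * Real.exp (-c * L)) * a4 q (m / 8))
        ≤ (m:ℝ) ^ 2 * ((1 / (32 * K) + C * Real.exp (-c * L)) * (K * a4 q (4 * L * m))) := by
          apply mul_le_mul (KY_card hm64) _ (mul_nonneg hη0 (ha0 _)) (by positivity)
          exact mul_le_mul_of_nonneg_left h8 hη0
      _ = (m:ℝ) ^ 2 * ((1 / (32 * K) + C * Real.exp (-c * L)) * K) * a4 q (4 * L * m) := by ring
      _ ≤ (m:ℝ) ^ 2 * (1 / 16) * a4 q (4 * L * m) := by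
          apply mul_le_mul_of_nonneg_right _ (ha0 _)
          exact mul_le_mul_of_nonneg_left hη (by positivity)
      _ = _ := by ring
  have hs3 : (m:ℝ) ^ 2 / 16 * a4 q (4 * L * m) ≤ ∑ p ∈ prs L m r N, T p := by
    have e1 : (m:ℝ) ^ 2 / 8 * a4 q (4 * L * m) = (m:ℝ) ^ 2 / 16 * a4 q (4 * L * m) +
        (m:ℝ) ^ 2 / 16 * a4 q (4 * L * m) := by ring
    linarith
  have hne : (prs L m r N).Nonempty := by
    refine ⟨((true, 0), (true, 0)), ?_⟩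
    unfold prs
    simp only [Finset.mem_filter, Finset.mem_product, Finset.mem_Icc, Finset.mem_univ, true_and,
      mul_zero, abs_zero]
    refine ⟨⟨⟨by omega, by omega⟩, ⟨by omega, by omega⟩⟩, ?_, ?_⟩ <;> positivity
  have hcard : (prs L m r N).card ≤ cd := by
    rw [hcd]
    unfold prs
    refine (Finset.card_filter_le _ _).trans ?_
    rw [Finset.card_product, Finset.card_product, Int.card_Icc, Finset.card_univ,
      Fintype.card_bool]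
    have : ((N:ℤ) + 1 - -(N:ℤ)).toNat = 2 * N + 1 := by omega
    rw [this]
  obtain ⟨p, hp, hmax⟩ := Finset.exists_max_image (prs L m r N) T hne
  have hs4 : ∑ p ∈ prs L m r N, T p ≤ ((prs L m r N).card : ℝ) * T p := by
    rw [← nsmul_eq_mul]
    exact Finset.sum_le_card_nsmul _ _ _ hmax
  have hcpos : (0:ℝ) < ((prs L m r N).card : ℝ) := by
    exact_mod_cast Finset.card_pos.mpr hne
  have hL0' : 0 ≤ (m:ℝ) ^ 2 / 16 * a4 q (4 * L * m) := mul_nonneg (by positivity) (ha0 _)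
  have hTp : 0 ≤ T p := by
    by_contra hneg
    push Not at hneg
    have := mul_neg_of_pos_of_neg hcpos hneg
    linarith
  have hcd' : ((prs L m r N).card : ℝ) ≤ cd := by exact_mod_cast hcard
  have hcell : |2 * p.1.2| ≤ (L:ℤ) * M2 + 1 ∧ |2 * p.2.2| ≤ (L:ℤ) * M2 + 1 := by
    unfold prs at hp
    rw [Finset.mem_filter] at hp
    obtain ⟨-, g1, g2⟩ := hp
    have hrz : (0:ℤ) < r := by
      have : 0 < r := hr
      exact_mod_cast this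
    have key : ∀ x : ℤ, |2 * (r:ℤ) * x| ≤ ((L * m : ℕ) : ℤ) + (r:ℤ) →
        |2 * x| ≤ (L:ℤ) * M2 + 1 := by
      intro x hx
      have e1 : |2 * (r:ℤ) * x| = (r:ℤ) * |2 * x| := by
        rw [show 2 * (r:ℤ) * x = (r:ℤ) * (2 * x) by ring, abs_mul, abs_of_pos hrz]
      have e2 : ((L * m : ℕ) : ℤ) + (r:ℤ) = (r:ℤ) * ((L:ℤ) * M2 + 1) := by
        rw [hm]; push_cast; ring
      rw [e1, e2] at hx
      exact le_of_mul_le_mul_left hx hrz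
    exact ⟨key _ g1, key _ g2⟩
  refine ⟨p.1.1, p.2.1, p.1.2, p.2.2, hcell.1, hcell.2, ?_⟩
  have hTeq : TS q L m r (m / M1) p.1.1 p.1.2 p.2.1 p.2.2 = T p := rfl
  rw [hTeq]
  calc (m:ℝ) ^ 2 * a4 q (4 * L * m) = 16 * ((m:ℝ) ^ 2 / 16 * a4 q (4 * L * m)) := by ring
    _ ≤ 16 * (((prs L m r N).card : ℝ) * T p) := by linarith
    _ ≤ 16 * (cd * T p) := by
        have := mul_le_mul_of_nonneg_right hcd' hTp
        linarith
    _ ≤ (K + 16 * cd) * T p := by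
        have := mul_nonneg hK0.le hTp
        nlinarith


end Pool.Agent.NH39.NC
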