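import Pool.Agent.NH39.Q0

/-! Near-critical versions: the inward inequality in the window. -/

set_option autoImplicit false

namespace Pool.Agent.NH39.NC

open H974 H12S H389NS Finset

/-- A domain with planar duality around a block of centre `c`, parameter `q` inside. -/
structure DomQ (q : ℝ) (p : Edg → ℝ) (S : Finset Edg) (I J I' J' : Set Vtx) (c : ℤ × ℤ) (t : ℕ) :
    Prop where
  ok : Ok p
  sub : blk c t ⊆ S
  fair : ∀ e ∈ blk c t, p e = q
  dom : DomD S I J I' J'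
  far : FarS (I ∪ J) c t
  far' : FarS (I' ∪ J') c (t + 1)

/-- the inward inequality in the window, all scales `s = A r`. -/
theorem inward_q {κ c4 C4 : ℝ} (hκ : 0 < κ) (hc4 : 0 < c4) (hC4 : 0 < C4) (δ : ℝ) (hδ : 0 < δ) :
    ∃ (A r0 : ℕ) (C : ℝ), 1 ≤ A ∧ 1 ≤ r0 ∧ 0 < C ∧ ∀ (q : ℝ) (n : ℕ), NCw q κ c4 C4 n →
    ∀ r : ℕ, r0 ≤ r → A * r ≤ n →
    ∀ (p : Edg → ℝ) (S : Finset Edg) (I J I' J' : Set Vtx) (c : ℤ × ℤ),
      DomQ q p S I J I' J' c (4 * (A * r)) →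
      (Pr p S (fun F => BPv I J (blk c (A * r - 1)) ↑F) -
        δ * Pr p S (fun F => BPv I J (blk c (3 * (A * r))) ↑F)) * ((A * r : ℕ) : ℝ) ^ (3/4 : ℝ) ≤
        C * ∑ e ∈ blk c (A * r), Pr p S (fun F => Pv I J e ↑F) := by
  obtain ⟨t, M20, ht, hin⟩ := inward_p κ hκ δ hδ
  obtain ⟨L, M1, M20', hL, hM1, hM20', hTS⟩ := TS_all_q (κ := κ) hκ hc4 hC4
  obtain ⟨C1, r0, hC1, hTS2⟩ := hTS (max M20 M20') (le_max_right _ _)
  set M2 := max M20 M20' with hM2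
  have hM2' : 8 * M1 ≤ M2 := hM20'.trans (le_max_right _ _)
  obtain ⟨Mr, C, hMr, hC, hin2⟩ := hin L M1 M2 hL hM1 hM2' (le_max_left _ _) C1 hC1
  have hM2p : 1 ≤ M2 := by omega
  set K : ℝ := (((256 * t * L : ℕ) : ℝ) ^ (3/4 : ℝ) * ((4 * L : ℕ) : ℝ) ^ (5/4 : ℝ) / c4) with hK
  have hKpos : 0 < K := by
    have h1 : (0:ℝ) < ((256 * t * L : ℕ) : ℝ) := by
      have : 0 < 256 * t * L := by positivity
      exact_mod_cast this
    have h2 : (0:ℝ) < ((4 * L : ℕ) : ℝ) := by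
      have : 0 < 4 * L := by omega
      exact_mod_cast this
    rw [hK]
    have h3 := Real.rpow_pos_of_pos h1 (3/4)
    have h4 := Real.rpow_pos_of_pos h2 (5/4)
    positivity
  refine ⟨256 * t * L * M2, max (max r0 Mr) 1, K * C, ?_, le_max_right _ _, by positivity, ?_⟩
  · have : 0 < 256 * t * L * M2 := by positivity
    omega
  intro q n hq r hr hrn p S I J I' J' c hdom
  have hr0 : r0 ≤ r := (le_max_left _ _).trans ((le_max_left _ _).trans hr)
  have hrM : Mr ≤ r := (le_max_right _ _).trans ((le_max_left _ _).trans hr)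
  have hr1 : 1 ≤ r := (le_max_right _ _).trans hr
  have h4n : 4 * L * (M2 * r) ≤ n := by
    refine le_trans ?_ hrn
    calc 4 * L * (M2 * r) = 4 * (L * M2 * r) := by ring
      _ ≤ (256 * t) * (L * M2 * r) := Nat.mul_le_mul_right _ (by omega)
      _ = _ := by ring
  obtain ⟨ha4, σ1, σ2, k1, k2, hk1, hk2, hts⟩ := hTS2 q n hq r hr0 h4n
  have hs : 256 * t * L * M2 * r = 256 * t * L * (M2 * r) := by ring
  have key := hin2 q (256 * t * L * M2 * r) (hq.win.anti hrn) r (M2 * r) (256 * t * L * M2 * r) hrM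
    rfl hs le_rfl ha4 σ1 σ2 k1 k2 hk1 hk2 hts p c S I J I' J' hdom.ok hdom.sub hdom.fair hdom.dom
    hdom.far hdom.far'
  have hsum : 0 ≤ ∑ e ∈ blk c (256 * t * L * M2 * r), Pr p S (fun F => Pv I J e ↑F) :=
    Finset.sum_nonneg (fun e _ => Pr_nonneg hdom.ok _ _)
  have hm1 : 1 ≤ M2 * r := Nat.mul_pos hM2p hr1
  have hpow := QHalf_pow (c0 := c4) hc4 (t := t) (L := L) (by omega) (m := M2 * r) hm1
    (hq.lo (4 * L * (M2 * r)) (by
      have : 0 < 4 * L * (M2 * r) := by positivity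
      omega) h4n)
  rw [← hs] at hpow
  set X := (Pr p S (fun F => BPv I J (blk c (256 * t * L * M2 * r - 1)) ↑F) -
        δ * Pr p S (fun F => BPv I J (blk c (3 * (256 * t * L * M2 * r))) ↑F)) with hX
  have hs0 : (0:ℝ) ≤ ((256 * t * L * M2 * r : ℕ) : ℝ) ^ (3/4 : ℝ) :=
    Real.rpow_nonneg (Nat.cast_nonneg _) _
  rcases le_or_gt X 0 with hX0 | hX0
  · have h1 : X * ((256 * t * L * M2 * r : ℕ) : ℝ) ^ (3/4 : ℝ) ≤ 0 :=
      mul_nonpos_of_nonpos_of_nonneg hX0 hs0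
    have h2 : 0 ≤ K * C * ∑ e ∈ blk c (256 * t * L * M2 * r), Pr p S (fun F => Pv I J e ↑F) := by
      positivity
    linarith
  · calc X * ((256 * t * L * M2 * r : ℕ) : ℝ) ^ (3/4 : ℝ)
        ≤ X * (K * (((M2 * r : ℕ) : ℝ) ^ 2 * a4 q (4 * L * (M2 * r)))) :=
          mul_le_mul_of_nonneg_left hpow hX0.le
      _ = K * (X * (((M2 * r : ℕ) : ℝ) ^ 2 * a4 q (4 * L * (M2 * r)))) := by ring
      _ ≤ K * (C * ∑ e ∈ blk c (256 * t * L * M2 * r), Pr p S (fun F => Pv I J e ↑F)) :=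
          mul_le_mul_of_nonneg_left key hKpos.le
      _ = _ := by ring

end Pool.Agent.NH39.NC
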