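import Pool.Agent.NH39.Q3
import Pool.Agent.Y381.SN.AF4

/-! Near-critical versions: four arms in an annulus, exponent `5/4`, in the window. -/

set_option autoImplicit false

namespace Pool.Agent.NH39.NC

open H974 H12S H389NS Finset

/-- Deterministic edges can be removed. -/
theorem Pr_env_q {E : Type*} [DecidableEq E] {q : ℝ} {p : E → ℝ} {S R O : Finset E} (hRO : Disjoint R O) (hS : R ∪ O ⊆ S)
    (hR : ∀ e ∈ R, p e = q) (hO : ∀ e ∈ O, p e = 1) (hC : ∀ e ∈ S \ (R ∪ O), p e = 0)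
    (A : Finset E → Prop) :
    Pr p S A = Pr (fun _ => q) R (fun F => A (F ∪ O)) := by
  unfold Pr
  have hd : Disjoint (R ∪ O) (S \ (R ∪ O)) := Finset.disjoint_sdiff
  conv_lhs => rw [← Finset.union_sdiff_of_subset hS]
  rw [Ex_union hd, Ex_union hRO, S4C_Ex_congr_p (p' := fun _ => q) hR]
  apply Ex_congr
  intro F _
  rw [S4C_Ex_one hO, S4C_Ex_zero hC, Finset.union_empty]

/-- The probability around the origin. -/
noncomputable def hQ (q : ℝ) (d k : ℕ) : ℝ := PQ q (boxE k) (fun F => A4a (0, 0) d k ↑F)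

theorem hQ_nonneg {q : ℝ} (hok : Ok (fun _ : Edg => q)) (d k : ℕ) : 0 ≤ hQ q d k := Pr_nonneg hok _ _

theorem hQ_le_one {q : ℝ} (hok : Ok (fun _ : Edg => q)) (d k : ℕ) : hQ q d k ≤ 1 := Pr_le_one hok _ _

theorem le_hQ {q : ℝ} (hok : Ok (fun _ : Edg => q)) {c : ℤ × ℤ} {d k : ℕ} {S : Finset Edg} (hS : blk c k ⊆ S) :
    PQ q S (fun F => A4a c d k ↑F) ≤ hQ q d k := by
  have e1 : PQ q S (fun F => A4a c d k ↑F) = PQ q (blk c k) (fun F => A4a c d k ↑F) :=
    Pr_local hS (fun F _ => S4C_inter (Finset.Subset.refl _))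
  rw [e1]
  have hblk : (trl c.1 c.2).mp (boxE k) = blk c k := by
    unfold blk boxE
    rw [trl_RE]
    congr 1 <;> ring
  rw [← hblk]
  unfold PQ
  rw [LSym.pr]
  exact Pr_mono hok (fun F _ hF => S4C_trl hF)

theorem hQ_anti {q : ℝ} (hok : Ok (fun _ : Edg => q)) {d k k' : ℕ} (h1 : d ≤ k) (h2 : k ≤ k') : hQ q d k' ≤ hQ q d k := by
  refine le_trans (Pr_mono hok (B := fun F => A4a (0, 0) d k ↑F)
    (fun F _ hF => S4C_anti h1 h2 hF)) ?_
  apply le_hQ hok
  rw [S4C_blk0]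
  unfold boxE
  exact RE_subset (by omega) (by omega) (by omega) (by omega)

theorem hQ_thin {q : ℝ} (hok : Ok (fun _ : Edg => q)) {L m d : ℕ} (hL : 2 ≤ L) (hd : d ≤ m) :
    hQ q d (4 * L * m) ≤ PQ q (SR L m) (fun F => S4C_Ev L m d ↑F) := by
  have hsub : SR L m ⊆ boxE (4 * L * m) := by
    obtain ⟨N, hN⟩ : ∃ N : ℕ, N = L * m := ⟨_, rfl⟩
    have hN2 : 2 * L * m = 2 * N := by rw [hN]; ring
    have hN4 : 4 * L * m = 4 * N := by rw [hN]; ring
    have hNm : 2 * m ≤ N := by rw [hN]; exact Nat.mul_le_mul_right _ hL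
    unfold SR boxE
    rw [hN2, hN4]
    exact RE_subset (by omega) (by omega) (by omega) (by omega)
  have e1 : PQ q (boxE (4 * L * m)) (fun F => S4C_Ev L m d ↑(F ∩ SR L m)) =
      PQ q (SR L m) (fun F => S4C_Ev L m d ↑(F ∩ SR L m)) :=
    Pr_local hsub (fun F _ => by rw [Finset.inter_assoc, Finset.inter_self])
  have e2 : PQ q (SR L m) (fun F => S4C_Ev L m d ↑(F ∩ SR L m)) =
      PQ q (SR L m) (fun F => S4C_Ev L m d ↑F) :=
    Pr_congr (fun F hF => by rw [Finset.inter_eq_left.mpr hF])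
  rw [← e2, ← e1]
  apply Pr_mono hok
  intro F _ hF
  rw [Finset.coe_inter]
  exact S4C_thin hL hd hF

/-- One pair of cells. -/
theorem pair_q {C q : ℝ} {n : ℕ} (h0 : 0 ≤ q) (h1q : q ≤ 1)
    (hdom : ∀ (p : Edg → ℝ) (S : Finset Edg) (I J I' J' : Set Vtx)
      (c : ℤ × ℤ) (d k : ℕ), 1 ≤ d → d ≤ k → k ≤ n → DomQ q p S I J I' J' c k →
        Pr p S (fun F => BPv I J (blk c d) ↑F) ≤ C * ((d:ℝ) / k) ^ (5/4 : ℝ))
    {L m r d : ℕ} (hL : 2 ≤ L) (hr : 1 ≤ r) (hm : 512 * r ≤ m) (hd1 : 1 ≤ d) (hd : d ≤ m) (hmn : m ≤ n)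
    (σ σ' : Bool) (k k' : ℤ) (hk : |2 * (r:ℤ) * k| ≤ (L * m : ℕ) + (r:ℤ))
    (hk' : |2 * (r:ℤ) * k'| ≤ (L * m : ℕ) + (r:ℤ))
    (hfar : σ = σ' → 4 * (r:ℤ) < |2 * (r:ℤ) * k - 2 * (r:ℤ) * k'|) :
    PQ q (SR L m) (fun F =>
      BPv (cell σ m (2 * r * k) r) (cell σ' m (2 * r * k') r) (boxE d) ↑F) ≤
      C * ((d:ℝ) / m) ^ (5/4 : ℝ) := by
  obtain ⟨p, S, O, I, J, I', J', hD, h1, h2, h3, h4, h5, h6⟩ :=
    env_blk hL hr (le_refl (8 * r)) (by omega) σ σ' k k' hk hk' hfar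
  classical
  obtain ⟨pq, hpq⟩ : ∃ pq : Edg → ℝ, pq = fun e => if e ∈ SR L m then q else p e := ⟨_, rfl⟩
  have hboxSR : boxE m ⊆ SR L m := by
    obtain ⟨N, hN⟩ : ∃ N : ℕ, N = L * m := ⟨_, rfl⟩
    have hN2 : 2 * L * m = 2 * N := by rw [hN]; ring
    have hNm : 2 * m ≤ N := by rw [hN]; exact Nat.mul_le_mul_right _ hL
    unfold SR boxE
    rw [hN2]
    exact RE_subset (by omega) (by omega) (by omega) (by omega)
  have h3' : ∀ e ∈ SR L m, pq e = q := by
    intro e he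
    rw [hpq]
    exact if_pos he
  have h4' : ∀ e ∈ O, pq e = 1 := by
    intro e he
    rw [hpq]
    simp only
    rw [if_neg (fun h => (Finset.disjoint_left.1 h2) h he)]
    exact h4 e he
  have h5' : ∀ e ∈ S \ (SR L m ∪ O), pq e = 0 := by
    intro e he
    have he' := he
    rw [Finset.mem_sdiff, Finset.mem_union, not_or] at he'
    rw [hpq]
    simp only
    rw [if_neg he'.2.1]
    exact h5 e he
  have hB : DomQ q pq S I J I' J' (0, 0) m := by
    refine ⟨?_, ?_, ?_, hD.dom, hD.far, hD.far'⟩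
    · intro e
      rw [hpq]
      simp only
      split_ifs
      · exact ⟨h0, h1q⟩
      · exact hD.ok e
    · rw [S4C_blk0]; exact hD.sub
    · rw [S4C_blk0]; exact fun e he => h3' e (hboxSR he)
  have h7 := hdom pq S I J I' J' (0, 0) d m hd1 hd hmn hB
  rw [S4C_blk0, Pr_env_q h2 h1 h3' h4' h5'] at h7
  refine le_trans (le_of_eq ?_) h7
  apply Pr_congr
  intro F hF
  have hdSR : boxE d ⊆ SR L m := by
    obtain ⟨N, hN⟩ : ∃ N : ℕ, N = L * m := ⟨_, rfl⟩
    have hN2 : 2 * L * m = 2 * N := by rw [hN]; ring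
    have hNm : 2 * m ≤ N := by rw [hN]; exact Nat.mul_le_mul_right _ hL
    unfold SR boxE
    rw [hN2]
    exact RE_subset (by omega) (by omega) (by omega) (by omega)
  have g1 := h6 ((↑F : Set Edg) ∪ ↑(boxE d))
    (Set.union_subset (Finset.coe_subset.mpr hF) (Finset.coe_subset.mpr hdSR))
  have g2 := h6 ((↑F : Set Edg) \ ↑(boxE d))
    (Set.sdiff_subset.trans (Finset.coe_subset.mpr hF))
  have e1 : ((↑(F ∪ O) : Set Edg)) ∪ ↑(boxE d) = ((↑F : Set Edg) ∪ ↑(boxE d)) ∪ ↑O := by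
    rw [Finset.coe_union, Set.union_assoc, Set.union_assoc, Set.union_comm (↑O : Set Edg)]
  have e2 : ((↑(F ∪ O) : Set Edg)) \ ↑(boxE d) = ((↑F : Set Edg) \ ↑(boxE d)) ∪ ↑O :=
    S4C_sdiff_aux hdSR h2
  unfold BPv
  rw [e1, e2, g1, g2]

/-- **Four arms in an annulus**, in the window. -/
theorem A4a_q {κ c4 C4 : ℝ} (hκ : 0 < κ) (hc4 : 0 < c4) (hC4 : 0 < C4) :
    ∃ C : ℝ, 0 < C ∧ ∀ (q : ℝ) (n : ℕ), NCw q κ c4 C4 n →
      ∀ (c0 : ℤ × ℤ) (d k : ℕ), 1 ≤ d → d ≤ k → k ≤ n →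
      ∀ S : Finset Edg, blk c0 k ⊆ S →
        PQ q S (fun F => A4a c0 d k ↑F) ≤ C * ((d:ℝ) / k) ^ (5 / 4 : ℝ) := by
  obtain ⟨Cb, hCb, hdom⟩ := blk_dom_q hκ hc4 hC4
  obtain ⟨C, c, hC, hc, hex⟩ := exit_blk_q κ hκ
  obtain ⟨L, hL, hLK⟩ := KY_choose_L C c (5/4) hc
  have hL0 : (0:ℝ) < L := by
    have : 0 < L := by omega
    exact_mod_cast this
  obtain ⟨K, hK⟩ : ∃ K : ℝ, K = (192 * L : ℝ) ^ (5/4 : ℝ) := ⟨_, rfl⟩
  have hK0 : 0 < K := by rw [hK]; positivity
  rw [show (64 * (3 * L : ℕ) : ℝ) = 192 * L by push_cast; ring, ← hK] at hLK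
  obtain ⟨M1, M2, hM1, hM2, hex2⟩ := hex L (1 / (32 * K)) hL (by positivity)
  obtain ⟨N, hex3⟩ := hex2 M2 le_rfl
  clear hex2 hex
  obtain ⟨cd, hcd⟩ : ∃ cd : ℕ, cd = (2 * (2 * N + 1)) * (2 * (2 * N + 1)) := ⟨_, rfl⟩
  have hcd0 : (0:ℝ) < cd := by
    have : 0 < cd := by rw [hcd]; positivity
    exact_mod_cast this
  have hM2p : 512 ≤ M2 := by omega
  obtain ⟨k0, hk0⟩ : ∃ k0 : ℕ, k0 = 256 * L * M2 := ⟨_, rfl⟩
  have hk0p : 0 < k0 := by rw [hk0]; positivity
  have hk0r : (0:ℝ) < k0 := by exact_mod_cast hk0p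
  -- one step
  have step : ∀ (q : ℝ) (n : ℕ), NCw q κ c4 C4 n → ∀ m d : ℕ, 64 * M2 ≤ m → 4 * L * m ≤ n →
      1 ≤ d → 64 * d ≤ m →
      hQ q d (4 * L * m) ≤ cd * (Cb * ((d:ℝ) / m) ^ (5/4 : ℝ)) +
        2 / (32 * K) * hQ q d (m / 8) := by
    intro q n hnc m d hm hmn hd1 hd
    have hq0 : 0 ≤ q := by linarith [hnc.win.lo]
    have hq1 : q ≤ 1 := by linarith [hnc.win.hi]
    have hok : Ok (fun _ : Edg => q) := okq hq0 hq1
    have hmn' : m ≤ n := le_trans (Nat.le_mul_of_pos_left _ (by omega)) hmn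
    have s1 := hQ_thin hok (L := L) (m := m) (d := d) hL (by omega)
    have s2 := hex3 q n hnc.win m d hm hmn hd1 hd
    have s3 : ∀ p ∈ prs L m (m / M2) N, PQ q (SR L m) (fun F =>
            (p.1.1 = p.2.1 → 4 * ((m / M2 : ℕ):ℤ) <
              |2 * ((m / M2 : ℕ):ℤ) * p.1.2 - 2 * ((m / M2 : ℕ):ℤ) * p.2.2|) ∧
            BPv (cell p.1.1 m (2 * (m / M2 : ℕ) * p.1.2) (m / M2))
              (cell p.2.1 m (2 * (m / M2 : ℕ) * p.2.2) (m / M2)) (boxE d) ↑F) ≤
          Cb * ((d:ℝ) / m) ^ (5/4 : ℝ) := by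
      intro p hp
      unfold prs at hp
      rw [Finset.mem_filter] at hp
      obtain ⟨-, g1, g2⟩ := hp
      by_cases hfar : (p.1.1 = p.2.1 → 4 * ((m / M2 : ℕ):ℤ) <
              |2 * ((m / M2 : ℕ):ℤ) * p.1.2 - 2 * ((m / M2 : ℕ):ℤ) * p.2.2|)
      · refine le_trans (Pr_mono hok (fun F _ hF => hF.2)) ?_
        have hr1 : 1 ≤ m / M2 := by
          rw [Nat.le_div_iff_mul_le (by omega)]; omega
        have hr2 : 512 * (m / M2) ≤ m :=
          (Nat.mul_le_mul_right _ hM2p).trans (Nat.mul_div_le m M2)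
        exact pair_q hq0 hq1 (hdom q n hnc) hL hr1 hr2 hd1 (by omega) hmn' p.1.1 p.2.1 p.1.2 p.2.2 g1 g2 hfar
      · refine le_trans (Pr_mono hok (B := fun _ => False) (fun F _ hF => hfar hF.1)) ?_
        have e0 : Pr (fun _ => q) (SR L m) (fun _ => False) = 0 := by
          unfold Pr
          rw [Ex_congr (g := fun _ => (0:ℝ)) (fun F _ => ind_not_of (fun h => h)), Ex_const]
        rw [e0]
        positivity
    have s4 := Finset.sum_le_card_nsmul _ _ _ s3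
    rw [nsmul_eq_mul] at s4
    have hcard : ((prs L m (m / M2) N).card : ℝ) ≤ cd := by
      rw [hcd]
      exact_mod_cast kc_prs_card L m (m / M2) N
    have s5 : ((prs L m (m / M2) N).card : ℝ) * (Cb * ((d:ℝ) / m) ^ (5/4 : ℝ)) ≤
        cd * (Cb * ((d:ℝ) / m) ^ (5/4 : ℝ)) :=
      mul_le_mul_of_nonneg_right hcard (by positivity)
    have e2 : C * Real.exp (-c * L) ≤ 1 / (32 * K) := by
      rw [div_mul_eq_div_div, le_div_iff₀ hK0]
      exact hLK
    have e3 : (1 / (32 * K) + C * Real.exp (-c * L)) * hQ q d (m / 8) ≤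
        2 / (32 * K) * hQ q d (m / 8) := by
      apply mul_le_mul_of_nonneg_right _ (hQ_nonneg hok _ _)
      have : 2 / (32 * K) = 1 / (32 * K) + 1 / (32 * K) := by ring
      rw [this]
      linarith
    have s6 := s1.trans s2
    exact s6.trans (add_le_add (s4.trans s5) e3)
  -- iteration
  set C0 : ℝ := 2 * (cd * Cb) * (8 * L : ℝ) ^ (5/4 : ℝ) + (k0:ℝ) ^ (5/4 : ℝ) with hC0
  have hC0p : 0 < C0 := by positivity
  have main : ∀ (q : ℝ) (n : ℕ), NCw q κ c4 C4 n → ∀ d : ℕ, 1 ≤ d → ∀ k : ℕ, d ≤ k → k ≤ n →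
      hQ q d k ≤ C0 * ((d:ℝ) / k) ^ (5/4 : ℝ) := by
    intro q n hnc d hd k
    have hok : Ok (fun _ : Edg => q) := okq (by linarith [hnc.win.lo]) (by linarith [hnc.win.hi])
    have hd0 : (0:ℝ) < d := by exact_mod_cast hd
    induction k using Nat.strong_induction_on with
    | _ k ih =>
      intro hk hkn
      have hkr : (0:ℝ) < k := hd0.trans_le (by exact_mod_cast hk)
      rcases lt_or_ge k (k0 * d) with hlt | hge
      · have h1 := hQ_le_one hok d k
        have h2 : (1:ℝ) ≤ (k0:ℝ) ^ (5/4 : ℝ) * ((d:ℝ) / k) ^ (5/4 : ℝ) := by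
          rw [← Real.mul_rpow hk0r.le (by positivity)]
          apply Real.one_le_rpow _ (by norm_num)
          rw [← mul_div_assoc, le_div_iff₀ hkr, one_mul]
          exact_mod_cast hlt.le
        have h3 : 0 ≤ 2 * (cd * Cb) * (8 * L : ℝ) ^ (5/4 : ℝ) * ((d:ℝ) / k) ^ (5/4 : ℝ) := by
          positivity
        rw [hC0, add_mul]
        linarith
      · obtain ⟨m, hm⟩ : ∃ m : ℕ, m = k / (4 * L) := ⟨_, rfl⟩
        have hq : 0 < 4 * L := by omega
        have h1 : 4 * L * m ≤ k := by rw [hm]; exact Nat.mul_div_le _ _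
        have h2 : k < 4 * L * m + 4 * L := by
          rw [hm]
          have := Nat.lt_mul_div_succ k hq
          rw [Nat.mul_add, Nat.mul_one] at this
          exact this
        have hmb : 64 * M2 * d ≤ m := by
          rw [hm, Nat.le_div_iff_mul_le hq]
          calc 64 * M2 * d * (4 * L) = k0 * d := by rw [hk0]; ring
            _ ≤ k := hge
        have hmM : 64 * M2 ≤ m := by
          calc 64 * M2 = 64 * M2 * 1 := by ring
            _ ≤ 64 * M2 * d := Nat.mul_le_mul_left _ hd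
            _ ≤ m := hmb
        have hmd : 64 * d ≤ m := by
          calc 64 * d = 64 * 1 * d := by ring
            _ ≤ 64 * M2 * d := Nat.mul_le_mul_right _ (Nat.mul_le_mul_left _ (by omega))
            _ ≤ m := hmb
        have hm1 : 1 ≤ m := by omega
        have hkm : k ≤ 8 * L * m := by
          have h6 : 8 * L * m = 2 * (4 * L * m) := by ring
          rw [h6]
          have h7 : 4 * L * 1 ≤ 4 * L * m := Nat.mul_le_mul_left _ hm1
          omega
        have hm0 : (0:ℝ) < m := by exact_mod_cast (show 0 < m by omega)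
        have h4 := step q n hnc m d hmM (h1.trans hkn) hd hmd
        have h5 : hQ q d k ≤ hQ q d (4 * L * m) := by
          apply hQ_anti hok _ h1
          have : 1 * m ≤ 4 * L * m := Nat.mul_le_mul_right _ (by omega)
          omega
        have hmk : m < k := by
          have : 1 * m < 4 * L * m := Nat.mul_lt_mul_of_pos_right (by omega) (by omega)
          omega
        have h6 := ih (m / 8) (by omega) (by omega) (by omega)
        have hmk2 : (k:ℝ) / (8 * L) ≤ m := by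
          rw [div_le_iff₀ (by positivity)]
          have : (k:ℝ) ≤ ((8 * L * m : ℕ) : ℝ) := by exact_mod_cast hkm
          push_cast at this
          linarith
        have h7 : ((d:ℝ) / m) ^ (5/4 : ℝ) ≤ (8 * L : ℝ) ^ (5/4 : ℝ) * ((d:ℝ) / k) ^ (5/4 : ℝ) := by
          rw [← Real.mul_rpow (by positivity) (by positivity)]
          apply Real.rpow_le_rpow (by positivity) _ (by norm_num)
          rw [div_le_iff₀ hm0]
          rw [div_le_iff₀ (by positivity)] at hmk2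
          have e : 8 * (L:ℝ) * ((d:ℝ) / k) * m = d * ((m * (8 * L)) / k) := by ring
          rw [e]
          have : (1:ℝ) ≤ (m * (8 * L)) / k := by rw [le_div_iff₀ hkr]; linarith
          nlinarith
        have hm8 : (0:ℝ) < ((m / 8 : ℕ) : ℝ) := by
          have : 0 < m / 8 := by omega
          exact_mod_cast this
        have h8 : ((d:ℝ) / ((m / 8 : ℕ) : ℝ)) ^ (5/4 : ℝ) ≤
            (192 * L : ℝ) ^ (5/4 : ℝ) * ((d:ℝ) / k) ^ (5/4 : ℝ) := by
          have e1 : (k:ℝ) ≤ ((m / 8 : ℕ) : ℝ) * (192 * L) := by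
            have e2 : m ≤ 9 * (m / 8) + 0 := by omega
            have e3 : (m:ℝ) ≤ 9 * ((m / 8 : ℕ) : ℝ) := by exact_mod_cast e2
            rw [div_le_iff₀ (by positivity)] at hmk2
            nlinarith
          rw [← Real.mul_rpow (by positivity) (by positivity)]
          apply Real.rpow_le_rpow (by positivity) _ (by norm_num)
          rw [div_le_iff₀ hm8]
          have e : 192 * (L:ℝ) * ((d:ℝ) / k) * ((m / 8 : ℕ) : ℝ) =
            d * ((((m / 8 : ℕ) : ℝ) * (192 * L)) / k) := by ring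
          rw [e]
          have : (1:ℝ) ≤ (((m / 8 : ℕ) : ℝ) * (192 * L)) / k := by
            rw [le_div_iff₀ hkr]; linarith
          nlinarith
        have hkp : 0 < ((d:ℝ) / k) ^ (5/4 : ℝ) := by positivity
        have h9 : 2 / (32 * K) * hQ q d (m / 8) ≤ C0 / 4 * ((d:ℝ) / k) ^ (5/4 : ℝ) := by
          calc 2 / (32 * K) * hQ q d (m / 8)
              ≤ 2 / (32 * K) * (C0 * ((d:ℝ) / ((m / 8 : ℕ) : ℝ)) ^ (5/4 : ℝ)) :=
                mul_le_mul_of_nonneg_left h6 (by positivity)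
            _ ≤ 2 / (32 * K) * (C0 * (K * ((d:ℝ) / k) ^ (5/4 : ℝ))) := by
                rw [hK]; gcongr
            _ = 1 / 16 * (C0 * ((d:ℝ) / k) ^ (5/4 : ℝ)) := by
                field_simp; norm_num
            _ ≤ C0 / 4 * ((d:ℝ) / k) ^ (5/4 : ℝ) := by
                have := mul_pos hC0p hkp
                linarith
        have h10 : cd * (Cb * ((d:ℝ) / m) ^ (5/4 : ℝ)) ≤ C0 / 2 * ((d:ℝ) / k) ^ (5/4 : ℝ) := by
          calc cd * (Cb * ((d:ℝ) / m) ^ (5/4 : ℝ)) ≤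
                cd * (Cb * ((8 * L : ℝ) ^ (5/4 : ℝ) * ((d:ℝ) / k) ^ (5/4 : ℝ))) := by gcongr
            _ = (cd * Cb * (8 * L : ℝ) ^ (5/4 : ℝ)) * ((d:ℝ) / k) ^ (5/4 : ℝ) := by ring
            _ ≤ C0 / 2 * ((d:ℝ) / k) ^ (5/4 : ℝ) := by
                apply mul_le_mul_of_nonneg_right _ hkp.le
                have : 0 ≤ (k0:ℝ) ^ (5/4 : ℝ) := by positivity
                rw [hC0]
                linarith
        calc hQ q d k ≤ hQ q d (4 * L * m) := h5
          _ ≤ cd * (Cb * ((d:ℝ) / m) ^ (5/4 : ℝ)) + 2 / (32 * K) * hQ q d (m / 8) := h4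
          _ ≤ C0 / 2 * ((d:ℝ) / k) ^ (5/4 : ℝ) + C0 / 4 * ((d:ℝ) / k) ^ (5/4 : ℝ) :=
              add_le_add h10 h9
          _ ≤ C0 * ((d:ℝ) / k) ^ (5/4 : ℝ) := by
              have := mul_pos hC0p hkp
              linarith
  refine ⟨C0, hC0p, ?_⟩
  intro q n hnc c0 d k hd hk hkn S hS
  have hok : Ok (fun _ : Edg => q) := okq (by linarith [hnc.win.lo]) (by linarith [hnc.win.hi])
  exact (le_hQ hok hS).trans (main q n hnc d hd k hk hkn)


end Pool.Agent.NH39.NC
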