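import Pool.Agent.NH39.Q4

/-! Pivotal edges for the connection of the endpoints of an edge: local consequences. -/

set_option autoImplicit false

namespace Pool.Agent.NH39

open H974 H12S H389NS Finset

/-- Position in the closed square of radius `d` around `c`. -/
def InB (c : ℤ × ℤ) (d : ℕ) (v : Vtx) : Prop := |v.1 - c.1| ≤ d ∧ |v.2 - c.2| ≤ d

/-- Position outside the open square of radius `k` around `c`. -/
def OutB (c : ℤ × ℤ) (k : ℕ) (v : Vtx) : Prop := (k:ℤ) ≤ |v.1 - c.1| ∨ (k:ℤ) ≤ |v.2 - c.2|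

theorem blk_ends {c : ℤ × ℤ} {d : ℕ} {e : Edg} (he : e ∈ blk c d) :
    InB c d (src e) ∧ InB c d (tgt e) := by
  unfold blk at he
  obtain ⟨x, y, _ | _⟩ := e
  · rw [mem_RE_false] at he
    simp only [InB, src_mk, tgt_false, abs_le]
    omega
  · rw [mem_RE_true] at he
    simp only [InB, src_mk, tgt_true, abs_le]
    omega

theorem notblk_ends {c : ℤ × ℤ} {k : ℕ} {e : Edg} (he : e ∉ blk c k) :
    OutB c k (src e) ∧ OutB c k (tgt e) := by
  unfold blk at he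
  obtain ⟨x, y, _ | _⟩ := e
  · rw [mem_RE_false] at he
    simp only [OutB, src_mk, tgt_false, le_abs]
    omega
  · rw [mem_RE_true] at he
    simp only [OutB, src_mk, tgt_true, le_abs]
    omega

theorem InB_inR {c : ℤ × ℤ} {d : ℕ} {v : Vtx} (h : InB c d v) :
    inR (c.1 - d) (c.1 + d) (c.2 - d) (c.2 + d) v := by
  unfold InB at h
  unfold inR
  rw [abs_le, abs_le] at h
  omega

theorem inner_exit {G : Set Edg} {c : ℤ × ℤ} {d k : ℕ} (hdk : d ≤ k)
    (hG : G ⊆ ↑(blk c k)) {w z : Vtx} (hw : w ∈ bdB c k) (h : Reach G w z) (hz : InB c d z) :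
    ∃ u ∈ bdB c d, Reach (G \ ↑(blk c d)) w u := by
  have key : ∀ v, Reach G w v → (∃ u ∈ bdB c d, Reach (G \ ↑(blk c d)) w u) ∨
      (¬ InB c d v ∧ Reach (G \ ↑(blk c d)) w v) := by
    intro v hv
    induction hv with
    | refl =>
      by_cases h1 : InB c d w
      · left
        refine ⟨w, ⟨h1.1, h1.2, ?_⟩, Reach.refl _ _⟩
        obtain ⟨-, -, h3⟩ := hw
        obtain ⟨h4, h5⟩ := h1
        have hdk' : (d:ℤ) ≤ k := by exact_mod_cast hdk
        rcases h3 with h3 | h3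
        · left; omega
        · right; omega
      · exact Or.inr ⟨h1, Reach.refl _ _⟩
    | @tail v v' _ hs ih =>
      rcases ih with ih | ⟨h1, h2⟩
      · exact Or.inl ih
      · obtain ⟨e, he, hc⟩ := hs
        have heb : e ∉ blk c d := by
          intro heb
          apply h1
          have := blk_ends heb
          rcases hc with ⟨h3, -⟩ | ⟨-, h3⟩
          · rw [← h3]; exact this.1
          · rw [← h3]; exact this.2
        have hr : Reach (G \ ↑(blk c d)) w v' :=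
          h2.trans (Adj.reach ⟨e, ⟨he, fun h => heb (Finset.mem_coe.1 h)⟩, hc⟩)
        by_cases h4 : InB c d v'
        · left
          refine ⟨v', ⟨h4.1, h4.2, ?_⟩, hr⟩
          have ho := notblk_ends heb
          have : OutB c d v' := by
            rcases hc with ⟨-, h3⟩ | ⟨h3, -⟩
            · rw [← h3]; exact ho.2
            · rw [← h3]; exact ho.1
          rcases this with h5 | h5
          · exact Or.inl (le_antisymm h4.1 h5)
          · exact Or.inr (le_antisymm h4.2 h5)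
        · exact Or.inr ⟨h4, hr⟩
  rcases key z h with h1 | ⟨h1, -⟩
  · exact h1
  · exact absurd hz h1

/-- A path from the closed inner square to the outside of the outer square crosses the annulus. -/
theorem ann_cross {H : Set Edg} {c : ℤ × ℤ} {d k : ℕ} (hdk : d ≤ k) {x z : Vtx}
    (hx : InB c d x) (hz : OutB c k z) (h : Reach H x z) :
    ∃ u ∈ bdB c d, ∃ w ∈ bdB c k, Reach (H ∩ ↑(blk c k \ blk c d)) u w ∧
      Reach H x w := by
  have hdk' : (d:ℤ) ≤ k := by exact_mod_cast hdk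
  have hx' : inR (c.1 - k) (c.1 + k) (c.2 - k) (c.2 + k) x := by
    have := InB_inR hx
    unfold inR at this ⊢
    omega
  have hz' : z.1 ≤ c.1 - k ∨ c.1 + k ≤ z.1 ∨ z.2 ≤ c.2 - k ∨ c.2 + k ≤ z.2 := by
    rcases hz with h1 | h1
    · rcases le_abs.1 h1 with h2 | h2 <;> omega
    · rcases le_abs.1 h1 with h2 | h2 <;> omega
  obtain ⟨w, h1, h2, h3⟩ := first_exit hx' h hz'
  have hw : w ∈ bdB c k := S4C_bdB_of h1 h2
  obtain ⟨u, hu, hr⟩ := inner_exit (G := H ∩ ↑(blk c k)) hdk Set.inter_subset_right hw h3.symm hx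
  refine ⟨u, hu, w, hw, hr.symm.mono ?_, h3.mono Set.inter_subset_left⟩
  rintro e ⟨⟨h4, h5⟩, h6⟩
  refine ⟨h4, ?_⟩
  rw [Finset.mem_coe, Finset.mem_sdiff]
  exact ⟨Finset.mem_coe.1 h5, fun h => h6 (Finset.mem_coe.2 h)⟩

/-- Pivotality for two points. -/
theorem pv_two {x y : Vtx} {f : Edg} {G : Set Edg} (h : Pv {x} {y} f G) :
    ∃ a b : Vtx, (a = src f ∨ a = tgt f) ∧ (b = src f ∨ b = tgt f) ∧
      Reach (G \ {f}) x a ∧ Reach (G \ {f}) y b ∧ ¬ Reach (G \ {f}) x y := by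
  obtain ⟨⟨u, hu, v, hv, huv⟩, hn⟩ := h
  rw [Set.mem_singleton_iff] at hu hv
  subst hu; subst hv
  have hno : ¬ Reach (G \ {f}) u v := fun h => hn ⟨u, rfl, v, rfl, h⟩
  rcases reach_insert huv with h1 | ⟨h1, h2⟩ | ⟨h1, h2⟩
  · exact absurd h1 hno
  · exact ⟨src f, tgt f, Or.inl rfl, Or.inr rfl, h1, h2.symm, hno⟩
  · exact ⟨tgt f, src f, Or.inr rfl, Or.inl rfl, h1, h2.symm, hno⟩

theorem sdiff_ann {f : Edg} {G : Set Edg} {c : ℤ × ℤ} {d k : ℕ}
    (hf : f ∉ blk c k \ blk c d) : (G \ {f}) ∩ ↑(blk c k \ blk c d) = G ∩ ↑(blk c k \ blk c d) := by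
  ext e
  constructor
  · rintro ⟨⟨h1, -⟩, h2⟩; exact ⟨h1, h2⟩
  · rintro ⟨h1, h2⟩
    refine ⟨⟨h1, ?_⟩, h2⟩
    rintro h3
    rw [Set.mem_singleton_iff] at h3
    subst h3
    exact hf (Finset.mem_coe.1 h2)

/-- An annulus which separates the two points from the pivotal edge. -/
theorem piv_ann_in {x y : Vtx} {f : Edg} {G : Set Edg} {c : ℤ × ℤ} {d k : ℕ} (hdk : d ≤ k)
    (hx : InB c d x) (hy : InB c d y) (hf : f ∉ blk c k) (h : Pv {x} {y} f G) :
    A4a c d k G := by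
  obtain ⟨a, b, ha, hb, h1, h2, h3⟩ := pv_two h
  have ho := notblk_ends hf
  have ha' : OutB c k a := by rcases ha with rfl | rfl; exacts [ho.1, ho.2]
  have hb' : OutB c k b := by rcases hb with rfl | rfl; exacts [ho.1, ho.2]
  obtain ⟨u, hu, w, hw, r1, r2⟩ := ann_cross hdk hx ha' h1
  obtain ⟨u', hu', w', hw', r1', r2'⟩ := ann_cross hdk hy hb' h2
  have hfa : f ∉ blk c k \ blk c d := fun h => hf (Finset.mem_sdiff.1 h).1
  have r3 := r1
  have r3' := r1'
  rw [sdiff_ann hfa] at r1 r1'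
  refine ⟨u, hu, u', hu', ⟨w, hw, r1⟩, ⟨w', hw', r1'⟩, fun hc => h3 ?_⟩
  rw [← sdiff_ann hfa] at hc
  exact r2.trans (((r3.symm.trans (hc.trans r3')).mono Set.inter_subset_left).trans r2'.symm)

/-- An annulus which separates the pivotal edge from the two points. -/
theorem piv_ann_out {x y : Vtx} {f : Edg} {G : Set Edg} {c : ℤ × ℤ} {d k : ℕ} (hdk : d ≤ k)
    (hx : OutB c k x) (hy : OutB c k y) (hf : f ∈ blk c d) (h : Pv {x} {y} f G) :
    A4a c d k G := by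
  obtain ⟨a, b, ha, hb, h1, h2, h3⟩ := pv_two h
  have ho := blk_ends hf
  have ha' : InB c d a := by rcases ha with rfl | rfl; exacts [ho.1, ho.2]
  have hb' : InB c d b := by rcases hb with rfl | rfl; exacts [ho.1, ho.2]
  obtain ⟨u, hu, w, hw, r1, r2⟩ := ann_cross hdk ha' hx h1.symm
  obtain ⟨u', hu', w', hw', r1', r2'⟩ := ann_cross hdk hb' hy h2.symm
  have hfa : f ∉ blk c k \ blk c d := fun h => (Finset.mem_sdiff.1 h).2 hf
  have r3 := r1
  have r3' := r1'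
  rw [sdiff_ann hfa] at r1 r1'
  refine ⟨u, hu, u', hu', ⟨w, hw, r1⟩, ⟨w', hw', r1'⟩, fun hc => h3 ?_⟩
  rw [← sdiff_ann hfa] at hc
  exact h1.trans (r2.trans (((r3.symm.trans (hc.trans r3')).mono Set.inter_subset_left).trans
    (r2'.symm.trans h2.symm)))

/-- Four arms of the centre. -/
theorem piv_center {e f : Edg} {G : Set Edg} {k : ℕ} (hk : 1 ≤ k) (hf : f ∉ ebx e k)
    (he : e ∉ G) (h : Pv {src e} {tgt e} f G) : A4e k e G := by
  obtain ⟨a, b, ha, hb, h1, h2, h3⟩ := pv_two h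
  have ho := notblk_ends (c := (e.1, e.2.1)) (k := k) (e := f) hf
  have hc : ∀ v, OutB (e.1, e.2.1) k v → v.1 ≤ e.1 - k ∨ e.1 + k ≤ v.1 ∨ v.2 ≤ e.2.1 - k ∨
      e.2.1 + k ≤ v.2 := by
    intro v hv
    rcases hv with h1 | h1
    · rcases le_abs.1 h1 with h2 | h2 <;> simp only at h2 <;> omega
    · rcases le_abs.1 h1 with h2 | h2 <;> simp only at h2 <;> omega
  have ha' : OutB (e.1, e.2.1) k a := by rcases ha with rfl | rfl; exacts [ho.1, ho.2]
  have hb' : OutB (e.1, e.2.1) k b := by rcases hb with rfl | rfl; exacts [ho.1, ho.2]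
  obtain ⟨hs, ht⟩ := ends_RE (mem_ebx (e := e) hk)
  obtain ⟨z, k1, k2, k3⟩ := first_exit hs h1 (hc a ha')
  obtain ⟨z', k1', k2', k3'⟩ := first_exit ht h2 (hc b hb')
  have hsub : (G \ {f}) ∩ ↑(ebx e k) ⊆ (G ∩ ↑(ebx e k)) \ {e} := by
    rintro g ⟨⟨g1, -⟩, g2⟩
    refine ⟨⟨g1, g2⟩, ?_⟩
    rintro rfl
    exact he g1
  have hsub2 : (G ∩ ↑(ebx e k)) \ {e} ⊆ G \ {f} := by
    rintro g ⟨⟨g1, g2⟩, -⟩
    refine ⟨g1, ?_⟩
    rintro rfl
    exact hf (Finset.mem_coe.1 g2)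
  exact ⟨⟨z, ⟨k1, k2⟩, k3.mono hsub⟩, ⟨z', ⟨k1', k2'⟩, k3'.mono hsub⟩,
    fun hc => h3 (hc.mono hsub2)⟩

/-- Four arms of the pivotal edge. -/
theorem piv_self {x y : Vtx} {f : Edg} {G : Set Edg} {k : ℕ} (hk : 1 ≤ k)
    (hx : OutB (f.1, f.2.1) k x) (hy : OutB (f.1, f.2.1) k y) (h : Pv {x} {y} f G) :
    A4e k f G := by
  refine loc_a4 (mem_ebx hk) ?_ h
  have hc : ∀ v, OutB (f.1, f.2.1) k v → ¬ (f.1 - (k:ℤ) < v.1 ∧ v.1 < f.1 + k ∧
      f.2.1 - k < v.2 ∧ v.2 < f.2.1 + k) := by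
    intro v hv
    rcases hv with h1 | h1
    · rcases le_abs.1 h1 with h2 | h2 <;> simp only at h2 <;> omega
    · rcases le_abs.1 h1 with h2 | h2 <;> simp only at h2 <;> omega
  rintro v (hv | hv)
  · rw [Set.mem_singleton_iff] at hv; subst hv; exact hc _ hx
  · rw [Set.mem_singleton_iff] at hv; subst hv; exact hc _ hy

theorem A4a_congr {c : ℤ × ℤ} {d k : ℕ} {F G : Set Edg}
    (h : F ∩ ↑(blk c k \ blk c d) = G ∩ ↑(blk c k \ blk c d)) : A4a c d k F ↔ A4a c d k G := by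
  unfold A4a
  rw [h]

end Pool.Agent.NH39
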