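import Pool.Agent.NH39.T9

/-! The probability that the ends of an edge are joined off the edge, in the whole lattice. -/

set_option autoImplicit false

namespace Pool.Agent.NH39

open H974 H12S H389NS Finset Filter Topology
open Pool.Agent.NH39.NC (NCw nearNC A4a_q)

theorem XE_incr (S : Finset Edg) (e : Edg) : IncrE S (XE e) := by
  intro A B h _ hA
  exact Reach.mono (by exact_mod_cast h) hA

theorem boxErase_mono {N M : ℕ} (h : N ≤ M) (e : Edg) : (boxE N).erase e ⊆ (boxE M).erase e :=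
  Finset.erase_subset_erase _ (boxE_mono h)

theorem GN_mono {p : ℝ} (h0 : 0 ≤ p) (h1 : p ≤ 1) (e : Edg) {N M : ℕ} (h : N ≤ M) :
    GN e N p ≤ GN e M p :=
  Pr_mono_set (okq h0 h1) (boxErase_mono h e) (XE_incr _ _)

theorem GN_nonneg {p : ℝ} (h0 : 0 ≤ p) (h1 : p ≤ 1) (e : Edg) (N : ℕ) : 0 ≤ GN e N p :=
  Pr_nonneg (okq h0 h1) _ _

theorem GN_le_one {p : ℝ} (h0 : 0 ≤ p) (h1 : p ≤ 1) (e : Edg) (N : ℕ) : GN e N p ≤ 1 :=
  Pr_le_one (okq h0 h1) _ _

theorem GN_mono_p {p q : ℝ} (h0 : 0 ≤ p) (hpq : p ≤ q) (h1 : q ≤ 1) (e : Edg) (N : ℕ) :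
    GN e N p ≤ GN e N q :=
  Pr_mono_param (okq h0 (hpq.trans h1)) (okq (h0.trans hpq) h1) (fun _ => hpq) (XE_incr _ _)

/-- Clipping to the unit interval. -/
noncomputable def cl (p : ℝ) : ℝ := max 0 (min 1 p)

theorem cl_nonneg (p : ℝ) : 0 ≤ cl p := le_max_left _ _
theorem cl_le_one (p : ℝ) : cl p ≤ 1 := max_le zero_le_one (min_le_left _ _)
theorem cl_mono : Monotone cl := fun _ _ h => max_le_max le_rfl (min_le_min le_rfl h)
theorem cl_eq {p : ℝ} (h0 : 0 ≤ p) (h1 : p ≤ 1) : cl p = p := by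
  unfold cl; rw [min_eq_right h1, max_eq_right h0]

/-- The probability that the ends of an edge at the origin are joined off the edge. -/
noncomputable def gam (o : Bool) (p : ℝ) : ℝ := ⨆ N : ℕ, GN (0, 0, o) N (cl p)

theorem gam_bdd (o : Bool) (p : ℝ) : BddAbove (Set.range (fun N : ℕ => GN (0, 0, o) N (cl p))) :=
  ⟨1, by rintro _ ⟨N, rfl⟩; exact GN_le_one (cl_nonneg p) (cl_le_one p) _ _⟩

theorem gam_tendsto (o : Bool) (p : ℝ) :
    Tendsto (fun N : ℕ => GN (0, 0, o) N (cl p)) atTop (𝓝 (gam o p)) :=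
  tendsto_atTop_ciSup (fun _ _ h => GN_mono (cl_nonneg p) (cl_le_one p) _ h) (gam_bdd o p)

theorem GN_le_gam' (o : Bool) (p : ℝ) (N : ℕ) : GN (0, 0, o) N (cl p) ≤ gam o p :=
  le_ciSup (gam_bdd o p) N

theorem GN_le_gam {p : ℝ} (h0 : 0 ≤ p) (h1 : p ≤ 1) (o : Bool) (N : ℕ) :
    GN (0, 0, o) N p ≤ gam o p := by
  have := GN_le_gam' o p N
  rwa [cl_eq h0 h1] at this

theorem gam_le {o : Bool} {p c : ℝ} (h : ∀ N : ℕ, GN (0, 0, o) N (cl p) ≤ c) : gam o p ≤ c :=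
  ciSup_le h

theorem gam_le_one (o : Bool) (p : ℝ) : gam o p ≤ 1 :=
  gam_le (fun _ => GN_le_one (cl_nonneg p) (cl_le_one p) _ _)

theorem gam_nonneg (o : Bool) (p : ℝ) : 0 ≤ gam o p :=
  (GN_nonneg (cl_nonneg p) (cl_le_one p) _ 0).trans (GN_le_gam' o p 0)

theorem gam_mono (o : Bool) : Monotone (gam o) := by
  intro p q h
  apply gam_le
  intro N
  exact (GN_mono_p (cl_nonneg p) (cl_mono h) (cl_le_one q) _ N).trans (GN_le_gam' o q N)

/-- If the cluster in a box does not touch the boundary, it is the whole cluster. -/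
theorem stay {F : Set Edg} {a b c d : ℤ} {x v : Vtx} (hx : inR a b c d x)
    (hin : ∀ w, Reach (F ∩ ↑(RE a b c d)) x w → w ∉ bdR a b c d) (h : Reach F x v) :
    Reach (F ∩ ↑(RE a b c d)) x v := by
  have key : ∀ w, Reach F x w → inR a b c d w ∧ Reach (F ∩ ↑(RE a b c d)) x w := by
    intro w hw
    induction hw with
    | refl => exact ⟨hx, Reach.refl _ _⟩
    | @tail w w' _ hs ih =>
      obtain ⟨ih1, ih2⟩ := ih
      have hnb := hin w ih2
      have hnb' : ¬ (w.1 = a ∨ w.1 = b ∨ w.2 = c ∨ w.2 = d) := fun h => hnb ⟨ih1, h⟩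
      obtain ⟨g, hg, hc⟩ := hs
      have hgR : g ∈ RE a b c d := by
        unfold inR at ih1
        obtain ⟨x0, y0, _ | _⟩ := g
        · rw [mem_RE_false]
          simp only [src_mk, tgt_false] at hc
          rcases hc with ⟨h3, -⟩ | ⟨-, h3⟩ <;> rw [← h3] at ih1 hnb' <;>
            simp only at ih1 hnb' <;> omega
        · rw [mem_RE_true]
          simp only [src_mk, tgt_true] at hc
          rcases hc with ⟨h3, -⟩ | ⟨-, h3⟩ <;> rw [← h3] at ih1 hnb' <;>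
            simp only at ih1 hnb' <;> omega
      have hends := ends_RE hgR
      refine ⟨?_, ih2.trans (Adj.reach ⟨g, ⟨hg, hgR⟩, hc⟩)⟩
      rcases hc with ⟨-, h4⟩ | ⟨h4, -⟩
      · rw [← h4]; exact hends.2
      · rw [← h4]; exact hends.1
  exact (key v h).2

theorem ebx_zero (o : Bool) (N : ℕ) : ebx (0, 0, o) N = boxE N := by
  unfold ebx boxE
  simp

theorem mem_box0 (o : Bool) {N : ℕ} (hN : 1 ≤ N) : ((0, 0, o) : Edg) ∈ boxE N := by
  rw [← ebx_zero o N]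
  exact mem_ebx hN

/-- Joined, but not in the box: four arms. -/
theorem far_arms {o : Bool} {F : Set Edg} {N : ℕ} (hN : 1 ≤ N) (he : ((0, 0, o) : Edg) ∉ F)
    (h1 : Reach F (src (0, 0, o)) (tgt (0, 0, o)))
    (h2 : ¬ Reach (F ∩ ↑(boxE N)) (src (0, 0, o)) (tgt (0, 0, o))) : A4e N (0, 0, o) F := by
  obtain ⟨e, hee⟩ : ∃ e : Edg, e = (0, 0, o) := ⟨_, rfl⟩
  rw [← hee] at he h1 h2 ⊢
  have hmem : e ∈ RE (-(N:ℤ)) N (-N) N := by rw [hee]; exact mem_box0 o hN
  obtain ⟨hs, ht⟩ := ends_RE hmem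
  unfold boxE at h2
  have e1 : (F ∩ ↑(RE (-(N:ℤ)) N (-N) N)) \ {e} = F ∩ ↑(RE (-(N:ℤ)) N (-N) N) := by
    ext g
    constructor
    · rintro ⟨h, -⟩; exact h
    · intro h
      refine ⟨h, ?_⟩
      rintro rfl
      exact he h.1
  have e2 : A4e N e F ↔ A4 (-(N:ℤ)) N (-N) N e F := by
    unfold A4e
    rw [hee]
    simp
  rw [e2]
  unfold A4
  rw [e1]
  refine ⟨?_, ?_, h2⟩
  · by_contra hc
    push Not at hc
    exact h2 (stay hs (fun w hw hb => hc w hb hw) h1)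
  · by_contra hc
    push Not at hc
    exact h2 (stay ht (fun w hw hb => hc w hb hw) h1.symm).symm

theorem pr_Ax1 {q : ℝ} (q0 : 0 ≤ q) (q1 : q ≤ 1) {k : ℕ} (hk : 1 ≤ k) {e : Edg} {U : Finset Edg}
    (hU : (ebx e k).erase e ⊆ U) : PQ q U (fun F => A4e k e ↑F) ≤ a4 q k := by
  have ok := okq q0 q1
  have e0 : PQ q U (fun F => A4e k e ↑F) = PQ q U (Ax k e) := by
    apply Pr_congr
    intro F _
    unfold Ax
    tauto
  have e1 : PQ q U (Ax k e) = PQ q (ebx e k) (Ax k e) := by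
    show Pr _ _ _ = Pr _ _ _
    rw [(Ax_dep k e).pr hU, (Ax_dep k e).pr (Finset.erase_subset _ _)]
  rw [e0, e1]
  refine le_trans ?_ (pr_A4e q0 q1 (Finset.Subset.refl (ebx e k)))
  exact Pr_mono ok (fun F _ h => h hk)

theorem GN_tail {q : ℝ} (q0 : 0 ≤ q) (q1 : q ≤ 1) (o : Bool) {N M : ℕ} (hN : 1 ≤ N) (hNM : N ≤ M) :
    GN (0, 0, o) M q ≤ GN (0, 0, o) N q + a4 q N := by
  have ok := okq q0 q1
  obtain ⟨e, hee⟩ : ∃ e : Edg, e = (0, 0, o) := ⟨_, rfl⟩
  have hsub : (boxE N).erase e ⊆ (boxE M).erase e := boxErase_mono hNM e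
  have h1 : GN e M q ≤ PQ q ((boxE M).erase e)
      (fun F => XE e (F ∩ (boxE N).erase e) ∨ A4e N e ↑F) := by
    unfold GN
    apply Pr_mono ok
    intro F hF h
    by_cases h2 : XE e (F ∩ (boxE N).erase e)
    · exact Or.inl h2
    · right
      have heF : e ∉ (↑F : Set Edg) := by
        intro h3
        have := hF (Finset.mem_coe.1 h3)
        simp at this
      rw [hee]
      apply far_arms hN (by rw [← hee]; exact heF) (by rw [← hee]; exact h)
      rw [← hee]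
      intro h3
      apply h2
      unfold XE
      refine h3.mono ?_
      rintro g ⟨g1, g2⟩
      rw [Finset.mem_coe, Finset.mem_inter, Finset.mem_erase]
      refine ⟨g1, ?_, g2⟩
      rintro rfl
      exact heF g1
  have h2 := Pr_or_le ok ((boxE M).erase e) (fun F => XE e (F ∩ (boxE N).erase e))
    (fun F => A4e N e ↑F)
  have h3 : PQ q ((boxE M).erase e) (fun F => XE e (F ∩ (boxE N).erase e)) = GN e N q := by
    have : PQ q ((boxE M).erase e) (fun F => XE e (F ∩ (boxE N).erase e)) =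
        PQ q ((boxE N).erase e) (fun F => XE e (F ∩ (boxE N).erase e)) := by
      apply Pr_local hsub
      intro F _
      rw [Finset.inter_assoc, Finset.inter_self]
    rw [this]
    apply Pr_congr
    intro F hF
    rw [Finset.inter_eq_left.2 hF]
  have h4 : PQ q ((boxE M).erase e) (fun F => A4e N e ↑F) ≤ a4 q N := by
    apply pr_Ax1 q0 q1 hN
    rw [hee, ebx_zero, ← hee]
    exact hsub
  rw [← hee]
  have h5 : PQ q ((boxE M).erase e) (fun F => XE e (F ∩ (boxE N).erase e)) =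
    Pr (fun _ => q) ((boxE M).erase e) (fun F => XE e (F ∩ (boxE N).erase e)) := rfl
  have h6 : PQ q ((boxE M).erase e) (fun F => A4e N e ↑F) =
    Pr (fun _ => q) ((boxE M).erase e) (fun F => A4e N e ↑F) := rfl
  rw [← h5, ← h6, h3] at h2
  have h7 : PQ q ((boxE M).erase e) (fun F => XE e (F ∩ (boxE N).erase e) ∨ A4e N e ↑F) =
    Pr (fun _ => q) ((boxE M).erase e) (fun F => XE e (F ∩ (boxE N).erase e) ∨ A4e N e ↑F) := rfl
  rw [h7] at h1
  linarith

theorem gam_tail {q : ℝ} (q0 : 0 ≤ q) (q1 : q ≤ 1) (o : Bool) {N : ℕ} (hN : 1 ≤ N) :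
    gam o q ≤ GN (0, 0, o) N q + a4 q N := by
  apply gam_le
  intro M
  rw [cl_eq q0 q1]
  rcases le_total N M with h | h
  · exact GN_tail q0 q1 o hN h
  · have h1 := GN_mono q0 q1 (0, 0, o) h
    have h2 := LP_a4_nonneg q0 q1 N
    linarith

/-- Four arms around an edge cross the annuli around it. -/
theorem A4e_ann {e : Edg} {d k : ℕ} (hd : 1 ≤ d) (hdk : d ≤ k) {F : Set Edg} (h : A4e k e F) :
    A4a (ps e) d k F := by
  obtain ⟨⟨w, hw, h1⟩, ⟨w', hw', h2⟩, h3⟩ := h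
  have hi := src_in (e := e) hd
  have hout : ∀ w, w ∈ bdR (e.1 - (k:ℤ)) (e.1 + k) (e.2.1 - k) (e.2.1 + k) →
      OutB (ps e) k w := by
    rintro w ⟨h4, h5⟩
    unfold OutB ps
    simp only [le_abs]
    omega
  obtain ⟨u, hu, z, hz, r1, r2⟩ := ann_cross hdk hi.1 (hout w hw) h1
  obtain ⟨u', hu', z', hz', r1', r2'⟩ := ann_cross hdk hi.2 (hout w' hw') h2
  have hsub : ((F ∩ ↑(RE (e.1 - (k:ℤ)) (e.1 + k) (e.2.1 - k) (e.2.1 + k))) \ {e}) ∩
      ↑(blk (ps e) k \ blk (ps e) d) ⊆ F ∩ ↑(blk (ps e) k \ blk (ps e) d) := by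
    rintro g ⟨⟨⟨g1, -⟩, -⟩, g2⟩
    exact ⟨g1, g2⟩
  have hsub2 : F ∩ ↑(blk (ps e) k \ blk (ps e) d) ⊆
      (F ∩ ↑(RE (e.1 - (k:ℤ)) (e.1 + k) (e.2.1 - k) (e.2.1 + k))) \ {e} := by
    rintro g ⟨g1, g2⟩
    rw [Finset.mem_coe, Finset.mem_sdiff] at g2
    refine ⟨⟨g1, Finset.mem_coe.2 g2.1⟩, ?_⟩
    rintro rfl
    exact g2.2 (inblk (by unfold dd; omega))
  refine ⟨u, hu, u', hu', ⟨z, hz, r1.mono hsub⟩, ⟨z', hz', r1'.mono hsub⟩, fun hc => h3 ?_⟩
  exact r2.trans (((r1.symm.mono Set.inter_subset_left).trans ((hc.mono hsub2).trans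
    (r1'.mono Set.inter_subset_left))).trans r2'.symm)

/-- The four-arm probability of an edge tends to zero along `N = 3 m`. -/
theorem A4e_lim {q : ℝ} (hq0 : 1/4 ≤ q) (hq1 : q ≤ 3/4) {ε : ℝ} (hε : 0 < ε) (M : ℕ) :
    ∃ N : ℕ, M ≤ N ∧ 1 ≤ N ∧ ∀ (e : Edg) (U : Finset Edg), (ebx e N).erase e ⊆ U →
      PQ q U (fun F => A4e N e ↑F) ≤ ε := by
  have q0 : 0 ≤ q := by linarith
  have q1 : q ≤ 1 := by linarith
  have ok := okq q0 q1
  by_cases hq : q = 1/2
  · obtain ⟨κ, b0, c, C, hκ, hb0, hc, hC, hnear⟩ := nearNC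
    have hlim : Tendsto (fun n : ℕ => C * (n:ℝ) ^ (-(5/4) : ℝ)) atTop (𝓝 (C * 0)) := by
      apply Tendsto.const_mul
      exact (tendsto_rpow_neg_atTop (by norm_num)).comp tendsto_natCast_atTop_atTop
    rw [mul_zero] at hlim
    obtain ⟨N, hN⟩ := ((hlim.eventually (gt_mem_nhds hε)).and
      (eventually_ge_atTop (max M 1))).exists
    have hN1 : 1 ≤ N := le_trans (le_max_right _ _) hN.2
    refine ⟨N, le_trans (le_max_left _ _) hN.2, hN1, ?_⟩
    intro e U hU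
    refine (pr_Ax1 q0 q1 hN1 hU).trans ?_
    have h1 := (hnear N hN1 q (by rw [hq]; simp; positivity)).hi N hN1 le_rfl
    exact h1.trans hN.1.le
  · obtain ⟨c, C, hc, hC, hdec⟩ := dec_A4a
    have hs : 0 < |q - 1/2| ^ (4/3 : ℝ) :=
      Real.rpow_pos_of_pos (abs_pos.2 (sub_ne_zero.2 hq)) _
    have hlim : Tendsto (fun m : ℕ => C * Real.exp (-(c * (m * |q - 1/2| ^ (4/3 : ℝ))))) atTop
        (𝓝 (C * 0)) := by
      apply Tendsto.const_mul
      apply Real.tendsto_exp_neg_atTop_nhds_zero.comp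
      apply Tendsto.const_mul_atTop hc
      exact Tendsto.atTop_mul_const hs tendsto_natCast_atTop_atTop
    rw [mul_zero] at hlim
    obtain ⟨m, hm⟩ := ((hlim.eventually (gt_mem_nhds hε)).and
      (eventually_ge_atTop (max M 2))).exists
    have hmM : M ≤ m := le_trans (le_max_left _ _) hm.2
    have hm2 : 2 ≤ m := le_trans (le_max_right _ _) hm.2
    refine ⟨3 * m, by omega, by omega, ?_⟩
    intro e U hU
    have e0 : PQ q U (fun F => A4e (3 * m) e ↑F) = PQ q U (Ax (3 * m) e) := by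
      apply Pr_congr
      intro F _
      unfold Ax
      constructor
      · intro h _; exact h
      · intro h; exact h (by omega)
    have e1 : PQ q U (Ax (3 * m) e) = PQ q (ebx e (3 * m)) (Ax (3 * m) e) := by
      show Pr _ _ _ = Pr _ _ _
      rw [(Ax_dep _ e).pr hU, (Ax_dep _ e).pr (Finset.erase_subset _ _)]
    rw [e0, e1]
    have e2 : PQ q (ebx e (3 * m)) (Ax (3 * m) e) ≤
        PQ q (ebx e (3 * m)) (fun F => A4a (ps e) (m - 1) (3 * m) ↑F) :=
      Pr_mono ok (fun F _ h => A4e_ann (by omega) (by omega) (h (by omega)))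
    refine e2.trans ((hdec q hq0 hq1 (ps e) (m - 1) m (by omega) _ ?_).trans hm.1.le)
    exact Finset.Subset.refl _

end Pool.Agent.NH39
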