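import Pool.Agent.NH39.T10

/-! Duality of the connection probability of an edge, and its continuity at the critical point. -/

set_option autoImplicit false

namespace Pool.Agent.NH39

open H974 H12S H389NS Finset Filter Topology
open Pool.Agent.NH39.NC (NCw nearNC A4a_q)

/-- The shift which takes the dual of the edge at the origin to an edge at the origin. -/
def shf (o : Bool) : LSym := if o then trl 0 1 else trl 1 0

theorem shf_dl (o : Bool) : (shf o).φ (dl (0, 0, o)) = (0, 0, !o) := by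
  cases o
  · simp [shf]
  · simp [shf]

theorem XE_shf (o : Bool) (e : Edg) (F : Finset Edg) :
    XE ((shf o).φ e) ((shf o).mp F) ↔ XE e F := by
  unfold XE
  rw [LSym.coe_mp]
  cases o
  · show Reach ((trl 1 0).φ '' ↑F) (src ((trl 1 0).φ e)) (tgt ((trl 1 0).φ e)) ↔ _
    rw [LP_src_trl, LP_tgt_trl, LSym.reach_iff]
  · show Reach ((trl 0 1).φ '' ↑F) (src ((trl 0 1).φ e)) (tgt ((trl 0 1).φ e)) ↔ _
    rw [LP_src_trl, LP_tgt_trl, LSym.reach_iff]

/-- The dual box. -/
noncomputable def dbx (o : Bool) (N : ℕ) : Finset Edg := (shf o).mp (dmp ((boxE N).erase (0, 0, o)))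

theorem mem_dbx {o : Bool} {N : ℕ} {g : Edg} :
    g ∈ dbx o N ↔ g ≠ (0, 0, !o) ∧ dl.symm ((shf o).φ.symm g) ∈ boxE N := by
  unfold dbx
  rw [LSym.mem_mp, mem_dmp, Finset.mem_erase]
  have : dl.symm ((shf o).φ.symm g) ≠ (0, 0, o) ↔ g ≠ (0, 0, !o) := by
    rw [not_iff_not]
    constructor
    · intro h
      rw [← shf_dl, ← h]; simp
    · intro h
      rw [h, ← shf_dl]; simp
  rw [this]

theorem dbx_lower (o : Bool) (N : ℕ) :
    (boxE N).erase (0, 0, !o) ⊆ dbx o (N + 2) := by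
  intro g hg
  rw [Finset.mem_erase] at hg
  rw [mem_dbx]
  refine ⟨hg.1, ?_⟩
  have h := hg.2
  unfold boxE at h ⊢
  obtain ⟨x, y, _ | _⟩ := g
  · rw [mem_RE_false] at h
    cases o
    · show dl.symm ((trl 1 0).φ.symm (x, y, false)) ∈ _
      rw [trl_φs, dls_f, mem_RE_true]; push_cast; omega
    · show dl.symm ((trl 0 1).φ.symm (x, y, false)) ∈ _
      rw [trl_φs, dls_f, mem_RE_true]; push_cast; omega
  · rw [mem_RE_true] at h
    cases o
    · show dl.symm ((trl 1 0).φ.symm (x, y, true)) ∈ _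
      rw [trl_φs, dls_t, mem_RE_false]; push_cast; omega
    · show dl.symm ((trl 0 1).φ.symm (x, y, true)) ∈ _
      rw [trl_φs, dls_t, mem_RE_false]; push_cast; omega

theorem dbx_upper (o : Bool) (N : ℕ) :
    dbx o N ⊆ (boxE (N + 2)).erase (0, 0, !o) := by
  intro g hg
  rw [mem_dbx] at hg
  rw [Finset.mem_erase]
  refine ⟨hg.1, ?_⟩
  have h := hg.2
  unfold boxE at h ⊢
  obtain ⟨x, y, _ | _⟩ := g
  · rw [mem_RE_false]
    cases o
    · change dl.symm ((trl 1 0).φ.symm (x, y, false)) ∈ _ at h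
      rw [trl_φs, dls_f, mem_RE_true] at h; push_cast; omega
    · change dl.symm ((trl 0 1).φ.symm (x, y, false)) ∈ _ at h
      rw [trl_φs, dls_f, mem_RE_true] at h; push_cast; omega
  · rw [mem_RE_true]
    cases o
    · change dl.symm ((trl 1 0).φ.symm (x, y, true)) ∈ _ at h
      rw [trl_φs, dls_t, mem_RE_false] at h; push_cast; omega
    · change dl.symm ((trl 0 1).φ.symm (x, y, true)) ∈ _ at h
      rw [trl_φs, dls_t, mem_RE_false] at h; push_cast; omega

/-- The dual probability. -/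
theorem dual_pr (q : ℝ) (o : Bool) (N : ℕ) :
    PQ q ((boxE N).erase (0, 0, o)) (fun F =>
      DReach ((↑(boxE N) \ (↑F : Set Edg)) \ {((0, 0, o) : Edg)}) (dsrc (0, 0, o)) (dtgt (0, 0, o))) =
    PQ (1 - q) (dbx o N) (XE (0, 0, !o)) := by
  obtain ⟨e, hee⟩ : ∃ e : Edg, e = (0, 0, o) := ⟨_, rfl⟩
  obtain ⟨S, hS⟩ : ∃ S : Finset Edg, S = (boxE N).erase e := ⟨_, rfl⟩
  rw [← hee, ← hS]
  have e1 : PQ q S (fun F => DReach ((↑(boxE N) \ (↑F : Set Edg)) \ {e}) (dsrc e) (dtgt e)) =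
      Pr (fun _ => q) S (fun F => DReach (↑(S \ F) : Set Edg) (dsrc e) (dtgt e)) := by
    apply Pr_congr
    intro F _
    have : ((↑(boxE N) \ (↑F : Set Edg)) \ {e}) = (↑(S \ F) : Set Edg) := by
      ext g
      rw [hS]
      simp only [Set.mem_sdiff, Finset.mem_coe, Set.mem_singleton_iff, Finset.mem_sdiff,
        Finset.mem_erase]
      tauto
    rw [this]
  rw [e1]
  have e2 : Pr (fun _ => q) S (fun F => DReach (↑(S \ F) : Set Edg) (dsrc e) (dtgt e)) =
      Pr (fun _ => 1 - q) S (fun F => DReach (↑F : Set Edg) (dsrc e) (dtgt e)) :=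
    (Pr_compl (fun _ : Edg => q) S (fun F => DReach (↑F : Set Edg) (dsrc e) (dtgt e))).symm
  rw [e2]
  have e3 : PQ (1 - q) (dbx o N) (XE (0, 0, !o)) =
      Pr (fun _ => 1 - q) S (fun F => XE (0, 0, !o) ((shf o).mp (dmp F))) := by
    unfold dbx
    rw [← hee, ← hS]
    show Pr (fun _ => 1 - q) ((shf o).mp (dmp S)) (XE (0, 0, !o)) = _
    rw [LSym.pr, pr_dmp]
  rw [e3]
  apply Pr_congr
  intro F _
  rw [← shf_dl, XE_shf, ← hee]
  unfold XE
  rw [coe_dmp, src_dl, tgt_dl, reach_dl]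

/-- Duality. -/
theorem gam_dual {q : ℝ} (hq0 : 1/4 ≤ q) (hq1 : q ≤ 3/4) (o : Bool) :
    gam o q + gam (!o) (1 - q) = 1 := by
  have q0 : 0 ≤ q := by linarith
  have q1 : q ≤ 1 := by linarith
  have q0' : 0 ≤ 1 - q := by linarith
  have q1' : 1 - q ≤ 1 := by linarith
  have ok := okq q0 q1
  have ok' := okq q0' q1'
  obtain ⟨P2, hP2⟩ : ∃ P2 : ℕ → ℝ, P2 = fun N => PQ (1 - q) (dbx o N) (XE (0, 0, !o)) := ⟨_, rfl⟩
  have hexcl : ∀ N, 1 ≤ N → GN (0, 0, o) N q + P2 N ≤ 1 := by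
    intro N hN
    rw [hP2]
    simp only
    rw [← dual_pr q o N]
    unfold GN
    have h1 : PQ q ((boxE N).erase (0, 0, o)) (fun F =>
        DReach ((↑(boxE N) \ (↑F : Set Edg)) \ {((0, 0, o) : Edg)}) (dsrc (0, 0, o))
          (dtgt (0, 0, o))) ≤ PQ q ((boxE N).erase (0, 0, o)) (fun F => ¬ XE (0, 0, o) F) := by
      apply Pr_mono ok
      intro F hF h1 h2
      refine dual_excl (a := -(N:ℤ)) (b := N) (c := -N) (d := N) (F := ↑F) ?_ (mem_box0 o hN) ?_ h2 h1
      · intro g hg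
        exact Finset.mem_coe.2 (Finset.mem_of_mem_erase (hF (Finset.mem_coe.1 hg)))
      · intro h
        have := hF (Finset.mem_coe.1 h)
        simp at this
    have h2 : PQ q ((boxE N).erase (0, 0, o)) (fun F => ¬ XE (0, 0, o) F) =
      1 - PQ q ((boxE N).erase (0, 0, o)) (XE (0, 0, o)) := Pr_not _ _
    linarith
  have hcase : ∀ N, 1 ≤ N → 1 ≤ GN (0, 0, o) N q + P2 N +
      PQ q ((boxE N).erase (0, 0, o)) (fun F => A4e N (0, 0, o) ↑F) := by
    intro N hN
    rw [hP2]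
    simp only
    rw [← dual_pr q o N]
    unfold GN
    have h1 : PQ q ((boxE N).erase (0, 0, o)) (fun F => ¬ XE (0, 0, o) F) ≤
        PQ q ((boxE N).erase (0, 0, o)) (fun F =>
        DReach ((↑(boxE N) \ (↑F : Set Edg)) \ {((0, 0, o) : Edg)}) (dsrc (0, 0, o))
          (dtgt (0, 0, o)) ∨ A4e N (0, 0, o) ↑F) := by
      apply Pr_mono ok
      intro F hF h1
      have hFR : (↑F : Set Edg) ⊆ ↑(RE (-(N:ℤ)) N (-N) N) := by
        intro g hg
        exact Finset.mem_coe.2 (Finset.mem_of_mem_erase (hF (Finset.mem_coe.1 hg)))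
      have heF : ((0, 0, o) : Edg) ∉ (↑F : Set Edg) := by
        intro h
        have := hF (Finset.mem_coe.1 h)
        simp at this
      rcases dual_cases hFR (mem_box0 o hN) heF with h2 | h2 | h2
      · exact absurd h2 h1
      · exact Or.inl h2
      · right
        unfold A4e
        simpa using h2
    have h2 : PQ q ((boxE N).erase (0, 0, o)) (fun F => ¬ XE (0, 0, o) F) =
      1 - PQ q ((boxE N).erase (0, 0, o)) (XE (0, 0, o)) := Pr_not _ _
    have h3 : PQ q ((boxE N).erase (0, 0, o)) (fun F =>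
        DReach ((↑(boxE N) \ (↑F : Set Edg)) \ {((0, 0, o) : Edg)}) (dsrc (0, 0, o))
          (dtgt (0, 0, o)) ∨ A4e N (0, 0, o) ↑F) ≤ PQ q ((boxE N).erase (0, 0, o)) (fun F =>
        DReach ((↑(boxE N) \ (↑F : Set Edg)) \ {((0, 0, o) : Edg)}) (dsrc (0, 0, o))
          (dtgt (0, 0, o))) + PQ q ((boxE N).erase (0, 0, o)) (fun F => A4e N (0, 0, o) ↑F) :=
      Pr_or_le ok _ _ _
    linarith
  have hup : ∀ N, P2 N ≤ gam (!o) (1 - q) := by
    intro N
    refine le_trans ?_ (GN_le_gam q0' q1' (!o) (N + 2))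
    rw [hP2]
    exact Pr_mono_set ok' (dbx_upper o N) (XE_incr _ _)
  have hlo : ∀ N, GN (0, 0, !o) N (1 - q) ≤ P2 (N + 2) := by
    intro N
    rw [hP2]
    exact Pr_mono_set ok' (dbx_lower o N) (XE_incr _ _)
  apply le_antisymm
  · -- upper bound
    have h1 : ∀ N : ℕ, gam o q ≤ 1 - GN (0, 0, !o) N (1 - q) := by
      intro N
      apply gam_le
      intro M
      rw [cl_eq q0 q1]
      have h2 := hexcl (max M (N + 2)) (by omega)
      have h3 : GN (0, 0, o) M q ≤ GN (0, 0, o) (max M (N + 2)) q :=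
        GN_mono q0 q1 _ (le_max_left _ _)
      have h4 : GN (0, 0, !o) N (1 - q) ≤ P2 (max M (N + 2)) := by
        have h5 := hlo (max M (N + 2) - 2)
        rw [show max M (N + 2) - 2 + 2 = max M (N + 2) by omega] at h5
        exact (GN_mono q0' q1' _ (by omega)).trans h5
      linarith
    have h2 : gam (!o) (1 - q) ≤ 1 - gam o q := by
      apply gam_le
      intro N
      rw [cl_eq q0' q1']
      linarith [h1 N]
    linarith
  · -- lower bound
    apply le_of_forall_pos_le_add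
    intro ε hε
    obtain ⟨N, -, hN1, hN⟩ := A4e_lim hq0 hq1 hε 1
    have h1 := hcase N hN1
    have h2 := hN (0, 0, o) ((boxE N).erase (0, 0, o)) (by rw [ebx_zero])
    have h3 := hup N
    have h4 := GN_le_gam q0 q1 o N
    linarith

theorem GN_cont (e : Edg) (N : ℕ) : Continuous (GN e N) := by
  have : ∀ p, HasDerivAt (GN e N) (D1 p ((boxE N).erase e) (fun F => ind (XE e F))) p :=
    fun p => D1_deriv ((boxE N).erase e) (fun F => ind (XE e F)) p
  rw [continuous_iff_continuousAt]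
  intro p
  exact (this p).continuousAt

/-- Continuity at the critical point. -/
theorem gam_cont (o : Bool) : ContinuousAt (gam o) (1/2) := by
  rw [Metric.continuousAt_iff]
  intro ε hε
  obtain ⟨κ, b0, c, C, hκ, hb0, hc, hC, hnear⟩ := nearNC
  have hlim : Tendsto (fun n : ℕ => C * (n:ℝ) ^ (-(5/4) : ℝ)) atTop (𝓝 (C * 0)) := by
    apply Tendsto.const_mul
    exact (tendsto_rpow_neg_atTop (by norm_num)).comp tendsto_natCast_atTop_atTop
  rw [mul_zero] at hlim
  obtain ⟨N, hN⟩ := ((hlim.eventually (gt_mem_nhds (by positivity : 0 < ε / 4))).and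
    (eventually_ge_atTop 1)).exists
  have hN1 := hN.2
  have hcont := Metric.continuousAt_iff.1 ((GN_cont (0, 0, o) N).continuousAt (x := 1/2)) (ε / 4)
    (by positivity)
  obtain ⟨δ, hδ, hδ'⟩ := hcont
  have hNp : (0:ℝ) < N := by exact_mod_cast hN1
  refine ⟨min δ (min (b0 * (N:ℝ) ^ (-(3/4) : ℝ)) (1/4)), by positivity, ?_⟩
  intro p hp
  rw [Real.dist_eq] at hp
  have h1 : |p - 1/2| < δ := lt_of_lt_of_le hp (min_le_left _ _)
  have h2 : |p - 1/2| ≤ b0 * (N:ℝ) ^ (-(3/4) : ℝ) :=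
    (lt_of_lt_of_le hp ((min_le_right _ _).trans (min_le_left _ _))).le
  have h3 : |p - 1/2| ≤ 1/4 := (lt_of_lt_of_le hp ((min_le_right _ _).trans (min_le_right _ _))).le
  have p0 : 0 ≤ p := by rw [abs_le] at h3; linarith
  have p1 : p ≤ 1 := by rw [abs_le] at h3; linarith
  have t1 := gam_tail p0 p1 o hN1
  have t2 := gam_tail (q := 1/2) (by norm_num) (by norm_num) o hN1
  have a1 := (hnear N hN1 p h2).hi N hN1 le_rfl
  have a2 := (hnear N hN1 (1/2) (by simp; positivity)).hi N hN1 le_rfl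
  have g1 := GN_le_gam p0 p1 o N
  have g2 := GN_le_gam (p := 1/2) (by norm_num) (by norm_num) o N
  have k1 := hδ' (x := p) (by rw [Real.dist_eq]; exact h1)
  rw [Real.dist_eq, abs_lt] at k1
  rw [Real.dist_eq, abs_lt]
  have := hN.1
  constructor <;> linarith

end Pool.Agent.NH39
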