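import Mathlib

/-! Calculus: limits of functions with controlled second derivative. -/

set_option autoImplicit false

namespace Pool.Agent.NH39

open Filter Topology Set

/-- A pointwise limit of functions whose derivatives have a common modulus is differentiable. -/
theorem lim_deriv {s0 : ℝ} {g g' : ℕ → ℝ → ℝ} {H W : ℝ → ℝ} {N0 : ℕ}
    (hd : ∀ N, ∀ x ∈ Ioo 0 s0, HasDerivAt (g N) (g' N x) x)
    (hlim : ∀ x ∈ Ioo 0 s0, Tendsto (fun N => g N x) atTop (𝓝 (H x)))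
    (hWm : MonotoneOn W (Ioo 0 s0)) (hWc : ContinuousOn W (Ioo 0 s0))
    (hW : ∀ x ∈ Ioo 0 s0, ∃ ε : ℕ → ℝ, Tendsto ε atTop (𝓝 0) ∧ ∀ N, N0 ≤ N → ∀ y ∈ Ioo x s0,
      |g' N y - g' N x| ≤ W y - W x + ε N) :
    ∃ h : ℝ → ℝ, (∀ x ∈ Ioo 0 s0, HasDerivAt H (h x) x) ∧
      ∀ x ∈ Ioo 0 s0, ∀ y ∈ Ioo x s0, |h y - h x| ≤ W y - W x := by
  -- slopes
  have slope : ∀ x ∈ Ioo 0 s0, ∃ ε : ℕ → ℝ, Tendsto ε atTop (𝓝 0) ∧ ∀ N, N0 ≤ N →
      ∀ y ∈ Ioo x s0, |(g N y - g N x) / (y - x) - g' N x| ≤ W y - W x + ε N := by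
    intro x hx
    obtain ⟨ε, hε, h⟩ := hW x hx
    refine ⟨ε, hε, ?_⟩
    intro N hN y hy
    obtain ⟨ξ, hξ, hs⟩ := exists_hasDerivAt_eq_slope (g N) (g' N) hy.1
      (fun t ht => ((hd N t ⟨hx.1.trans_le ht.1, ht.2.trans_lt hy.2⟩).continuousAt).continuousWithinAt)
      (fun t ht => hd N t ⟨hx.1.trans ht.1, ht.2.trans hy.2⟩)
    rw [← hs]
    have h1 := h N hN ξ ⟨hξ.1, hξ.2.trans hy.2⟩
    have h2 : W ξ ≤ W y := hWm ⟨hx.1.trans hξ.1, hξ.2.trans hy.2⟩ ⟨hx.1.trans hy.1, hy.2⟩ hξ.2.le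
    linarith
  -- small modulus
  have small : ∀ x ∈ Ioo 0 s0, ∀ δ : ℝ, 0 < δ → ∃ y ∈ Ioo x s0, W y - W x < δ := by
    intro x hx δ hδ
    have hc : ContinuousAt W x := hWc.continuousAt (isOpen_Ioo.mem_nhds hx)
    have h1 : ∀ᶠ y in 𝓝 x, W y < W x + δ := hc.eventually (gt_mem_nhds (by linarith))
    have h2 : ∀ᶠ y in 𝓝[>] x, W y < W x + δ := h1.filter_mono nhdsWithin_le_nhds
    have h3 : ∀ᶠ y in 𝓝[>] x, y ∈ Ioo x s0 := Ioo_mem_nhdsGT hx.2
    obtain ⟨y, hy1, hy2⟩ := (h2.and h3).exists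
    exact ⟨y, hy2, by linarith⟩
  have cauchy : ∀ x ∈ Ioo 0 s0, ∃ l, Tendsto (fun N => g' N x) atTop (𝓝 l) := by
    intro x hx
    apply cauchySeq_tendsto_of_complete
    rw [Metric.cauchySeq_iff']
    intro δ hδ
    obtain ⟨y, hy, hWy⟩ := small x hx (δ / 8) (by positivity)
    obtain ⟨ε, hε, h⟩ := slope x hx
    have hyx : 0 < y - x := sub_pos.2 hy.1
    have hsl : Tendsto (fun N => (g N y - g N x) / (y - x)) atTop
        (𝓝 ((H y - H x) / (y - x))) :=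
      ((hlim y ⟨hx.1.trans hy.1, hy.2⟩).sub (hlim x hx)).div_const _
    have e1 : ∀ᶠ N in atTop, |ε N| < δ / 8 := by
      have := (Metric.tendsto_nhds.1 hε) (δ / 8) (by positivity)
      simpa [Real.dist_eq] using this
    have e2 : ∀ᶠ N in atTop, |(g N y - g N x) / (y - x) - (H y - H x) / (y - x)| < δ / 8 := by
      have := (Metric.tendsto_nhds.1 hsl) (δ / 8) (by positivity)
      simpa [Real.dist_eq] using this
    obtain ⟨M, hM⟩ := eventually_atTop.1 ((e1.and e2).and (eventually_ge_atTop N0))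
    refine ⟨M, ?_⟩
    intro N hN
    rw [Real.dist_eq]
    obtain ⟨⟨a1, a2⟩, a3⟩ := hM N hN
    obtain ⟨⟨b1, b2⟩, b3⟩ := hM M le_rfl
    have c1 := h N a3 y hy
    have c2 := h M b3 y hy
    rw [abs_le] at c1 c2
    rw [abs_lt] at a1 a2 b1 b2 ⊢
    constructor <;> linarith
  choose! h hh using cauchy
  -- passing to the limit
  have hslope : ∀ x ∈ Ioo 0 s0, ∀ y ∈ Ioo x s0,
      |(H y - H x) / (y - x) - h x| ≤ W y - W x := by
    intro x hx y hy
    obtain ⟨ε, hε, hs⟩ := slope x hx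
    have t1 : Tendsto (fun N => |(g N y - g N x) / (y - x) - g' N x|) atTop
        (𝓝 |(H y - H x) / (y - x) - h x|) :=
      ((((hlim y ⟨hx.1.trans hy.1, hy.2⟩).sub (hlim x hx)).div_const _).sub (hh x hx)).abs
    have t2 : Tendsto (fun N => W y - W x + ε N) atTop (𝓝 (W y - W x + 0)) :=
      tendsto_const_nhds.add hε
    rw [add_zero] at t2
    exact le_of_tendsto_of_tendsto t1 t2 (eventually_atTop.2 ⟨N0, fun N hN => hs N hN y hy⟩)
  have hmod : ∀ x ∈ Ioo 0 s0, ∀ y ∈ Ioo x s0, |h y - h x| ≤ W y - W x := by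
    intro x hx y hy
    obtain ⟨ε, hε, hs⟩ := hW x hx
    have t1 : Tendsto (fun N => |g' N y - g' N x|) atTop (𝓝 |h y - h x|) :=
      ((hh y ⟨hx.1.trans hy.1, hy.2⟩).sub (hh x hx)).abs
    have t2 : Tendsto (fun N => W y - W x + ε N) atTop (𝓝 (W y - W x + 0)) :=
      tendsto_const_nhds.add hε
    rw [add_zero] at t2
    exact le_of_tendsto_of_tendsto t1 t2 (eventually_atTop.2 ⟨N0, fun N hN => hs N hN y hy⟩)
  refine ⟨h, ?_, hmod⟩
  intro x hx
  rw [hasDerivAt_iff_tendsto_slope]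
  rw [Metric.tendsto_nhds]
  intro δ hδ
  have hc : ContinuousAt W x := hWc.continuousAt (isOpen_Ioo.mem_nhds hx)
  have h1 : ∀ᶠ y in 𝓝 x, |W y - W x| < δ / 2 := by
    have := (Metric.continuousAt_iff'.1 hc) (δ / 2) (by positivity)
    simpa [Real.dist_eq] using this
  have h2 : ∀ᶠ y in 𝓝 x, y ∈ Ioo 0 s0 := isOpen_Ioo.mem_nhds hx
  have h3 := (h1.and h2).filter_mono (nhdsWithin_le_nhds (s := {x}ᶜ))
  filter_upwards [h3, self_mem_nhdsWithin] with y hy hyx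
  rw [Real.dist_eq]
  rcases lt_or_gt_of_ne (show y ≠ x from hyx) with hlt | hgt
  · -- y < x
    have k1 := hslope y hy.2 x ⟨hlt, hx.2⟩
    have k2 := hmod y hy.2 x ⟨hlt, hx.2⟩
    have e1 : slope_def_field H x y = slope_def_field H x y := rfl
    have e2 : (_root_.slope H x y) = (H x - H y) / (x - y) := by
      rw [slope_def_field, ← neg_sub (H x) (H y), ← neg_sub x y, neg_div_neg_eq]
    rw [e2]
    have k3 := hy.1
    rw [abs_lt] at k3
    rw [abs_le] at k1 k2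
    rw [abs_lt]
    constructor <;> linarith
  · have k1 := hslope x hx y ⟨hgt, hy.2.2⟩
    rw [slope_def_field]
    have k3 := hy.1
    rw [abs_lt] at k3
    rw [abs_le] at k1
    rw [abs_lt]
    constructor <;> linarith

/-- The derivative has a limit at zero. -/
theorem lim_zero {s0 : ℝ} {h W : ℝ → ℝ} (hs0 : 0 < s0) (hW0 : ∀ x ∈ Ioo 0 s0, 0 ≤ W x)
    (hmod : ∀ x ∈ Ioo 0 s0, ∀ y ∈ Ioo x s0, |h y - h x| ≤ W y - W x) :
    ∃ S : ℝ, ∀ x ∈ Ioo 0 s0, |h x - S| ≤ W x := by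
  have key : ∀ x ∈ Ioo 0 s0, ∀ y ∈ Ioo 0 s0, h x - W x ≤ h y + W y := by
    intro x hx y hy
    have wx := hW0 x hx
    have wy := hW0 y hy
    rcases lt_trichotomy x y with hlt | heq | hgt
    · have := hmod x hx y ⟨hlt, hy.2⟩
      rw [abs_le] at this
      linarith
    · subst heq; linarith
    · have := hmod y hy x ⟨hgt, hx.2⟩
      rw [abs_le] at this
      linarith
  have hne : (s0 / 2) ∈ Ioo 0 s0 := ⟨by linarith, by linarith⟩
  have hbdd : BddAbove ((fun x => h x - W x) '' Ioo 0 s0) := by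
    refine ⟨h (s0 / 2) + W (s0 / 2), ?_⟩
    rintro _ ⟨x, hx, rfl⟩
    exact key x hx _ hne
  refine ⟨sSup ((fun x => h x - W x) '' Ioo 0 s0), ?_⟩
  intro x hx
  have h1 : h x - W x ≤ sSup ((fun x => h x - W x) '' Ioo 0 s0) :=
    le_csSup hbdd ⟨x, hx, rfl⟩
  have h2 : sSup ((fun x => h x - W x) '' Ioo 0 s0) ≤ h x + W x := by
    refine csSup_le (Set.Nonempty.image _ ⟨s0 / 2, hne⟩) ?_
    rintro _ ⟨y, hy, rfl⟩
    exact key y hy x hx
  rw [abs_le]
  constructor <;> linarith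

/-- Taylor expansion at zero. -/
theorem taylor_zero {s0 S : ℝ} {H h Φ W : ℝ → ℝ} (hH : ∀ x ∈ Ioo 0 s0, HasDerivAt H (h x) x)
    (hH0 : ContinuousWithinAt H (Ici 0) 0) (hΦ : ∀ x ∈ Ioo 0 s0, HasDerivAt Φ (W x) x)
    (hΦ0 : ContinuousWithinAt Φ (Ici 0) 0) (hΦz : Φ 0 = 0)
    (hS : ∀ x ∈ Ioo 0 s0, |h x - S| ≤ W x) :
    ∀ y ∈ Ioo 0 s0, |H y - H 0 - S * y| ≤ Φ y := by
  intro y hy
  have hcont : ∀ {f f' : ℝ → ℝ}, (∀ x ∈ Ioo 0 s0, HasDerivAt f (f' x) x) →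
      ContinuousWithinAt f (Ici 0) 0 → ContinuousOn f (Icc 0 y) := by
    intro f f' h1 h2 t ht
    rcases eq_or_lt_of_le ht.1 with h3 | h3
    · rw [← h3]
      exact h2.mono Icc_subset_Ici_self
    · exact (h1 t ⟨h3, ht.2.trans_lt hy.2⟩).continuousAt.continuousWithinAt
  have cH := hcont hH hH0
  have cΦ := hcont hΦ hΦ0
  have cid : ContinuousOn (fun t : ℝ => S * t) (Icc 0 y) := by fun_prop
  have mono1 : MonotoneOn (fun t => Φ t - (H t - S * t)) (Icc 0 y) := by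
    apply monotoneOn_of_hasDerivWithinAt_nonneg (convex_Icc 0 y) (cΦ.sub (cH.sub cid))
      (f' := fun t => W t - (h t - S * 1))
    · intro t ht
      rw [interior_Icc] at ht
      have ht' : t ∈ Ioo 0 s0 := ⟨ht.1, ht.2.trans hy.2⟩
      exact ((hΦ t ht').sub ((hH t ht').sub ((hasDerivAt_id t).const_mul S))).hasDerivWithinAt
    · intro t ht
      rw [interior_Icc] at ht
      have ht' : t ∈ Ioo 0 s0 := ⟨ht.1, ht.2.trans hy.2⟩
      have := hS t ht'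
      rw [abs_le] at this
      simp only [mul_one]
      linarith
  have mono2 : MonotoneOn (fun t => Φ t + (H t - S * t)) (Icc 0 y) := by
    apply monotoneOn_of_hasDerivWithinAt_nonneg (convex_Icc 0 y) (cΦ.add (cH.sub cid))
      (f' := fun t => W t + (h t - S * 1))
    · intro t ht
      rw [interior_Icc] at ht
      have ht' : t ∈ Ioo 0 s0 := ⟨ht.1, ht.2.trans hy.2⟩
      exact ((hΦ t ht').add ((hH t ht').sub ((hasDerivAt_id t).const_mul S))).hasDerivWithinAt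
    · intro t ht
      rw [interior_Icc] at ht
      have ht' : t ∈ Ioo 0 s0 := ⟨ht.1, ht.2.trans hy.2⟩
      have := hS t ht'
      rw [abs_le] at this
      simp only [mul_one]
      linarith
  have m1 := mono1 (left_mem_Icc.2 hy.1.le) (right_mem_Icc.2 hy.1.le) hy.1.le
  have m2 := mono2 (left_mem_Icc.2 hy.1.le) (right_mem_Icc.2 hy.1.le) hy.1.le
  simp only [hΦz, mul_zero] at m1 m2
  rw [abs_le]
  constructor <;> linarith

end Pool.Agent.NH39
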