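import Pool.Agent.NH39.T11
import Pool.Agent.NH39.T12

/-! Expansion of the connection probability at the critical point. -/

set_option autoImplicit false

namespace Pool.Agent.NH39

open H974 H12S H389NS Finset Filter Topology
open Pool.Agent.NH39.NC (NCw nearNC A4a_q)

theorem tendsto_pow_exp {K x : ℝ} (hK : 0 < K) (hx : 0 < x) :
    Tendsto (fun N : ℕ => K * (N:ℝ) ^ 4 * Real.exp (-(K⁻¹ * (N * x)))) atTop (𝓝 0) := by
  have hc : 0 < K⁻¹ * x := by positivity
  have h1 := Real.tendsto_pow_mul_exp_neg_atTop_nhds_zero 4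
  have h2 : Tendsto (fun N : ℕ => (K⁻¹ * x) * (N:ℝ)) atTop atTop :=
    Tendsto.const_mul_atTop hc tendsto_natCast_atTop_atTop
  have h3 := (h1.comp h2).const_mul (K / (K⁻¹ * x) ^ 4)
  rw [mul_zero] at h3
  refine h3.congr ?_
  intro N
  simp only [Function.comp]
  have e1 : K⁻¹ * x * (N:ℝ) = K⁻¹ * (N * x) := by ring
  rw [e1]
  have e2 : (K⁻¹ * (N * x)) ^ 4 = (K⁻¹ * x) ^ 4 * (N:ℝ) ^ 4 := by ring
  rw [e2]
  field_simp

theorem gam_half : ∃ K s0 : ℝ, 0 < K ∧ 0 < s0 ∧ s0 ≤ 1/4 ∧ ∀ o : Bool, ∃ (S : ℝ) (h : ℝ → ℝ),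
    (∀ x ∈ Set.Ioo 0 s0, HasDerivAt (fun s => gam o (1/2 + s)) (h x) x) ∧
    (∀ x ∈ Set.Ioo 0 s0, |h x - S| ≤ K * x ^ (2/3 : ℝ)) ∧
    (∀ x ∈ Set.Ioo 0 s0, |gam o (1/2 + x) - gam o (1/2) - S * x| ≤ K * x ^ (5/3 : ℝ)) := by
  obtain ⟨K, s0, hK, hs0, hs4, hD2⟩ := D2_bound
  refine ⟨3/2 * K, s0, by positivity, hs0, hs4, ?_⟩
  intro o
  obtain ⟨e, hee⟩ : ∃ e : Edg, e = (0, 0, o) := ⟨_, rfl⟩
  obtain ⟨φ, hφ⟩ : ∃ φ : Finset Edg → ℝ, φ = fun F => ind (XE e F) := ⟨_, rfl⟩
  obtain ⟨W, hWdef⟩ : ∃ W : ℝ → ℝ, W = fun t => 3/2 * K * t ^ (2/3 : ℝ) := ⟨_, rfl⟩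
  obtain ⟨Φ, hΦdef⟩ : ∃ Φ : ℝ → ℝ, Φ = fun t => 9/10 * K * t ^ (5/3 : ℝ) := ⟨_, rfl⟩
  have hWd : ∀ t : ℝ, 0 < t → HasDerivAt W (K * t ^ (-(1/3) : ℝ)) t := by
    intro t ht
    rw [hWdef]
    have h1 := (Real.hasDerivAt_rpow_const (p := (2/3 : ℝ)) (Or.inl ht.ne')).const_mul (3/2 * K)
    have e1 : K * t ^ (-(1/3) : ℝ) = 3/2 * K * (2/3 * t ^ ((2/3 : ℝ) - 1)) := by
      rw [show (2/3 : ℝ) - 1 = -(1/3) by norm_num]
      ring
    rw [e1]
    exact h1
  have hΦd : ∀ t : ℝ, 0 < t → HasDerivAt Φ (W t) t := by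
    intro t ht
    have h1 := (Real.hasDerivAt_rpow_const (p := (5/3 : ℝ)) (Or.inl ht.ne')).const_mul (9/10 * K)
    have e1 : W t = 9/10 * K * (5/3 * t ^ ((5/3 : ℝ) - 1)) := by
      rw [hWdef, show (5/3 : ℝ) - 1 = 2/3 by norm_num]
      ring
    rw [e1, hΦdef]
    exact h1
  -- derivatives of the approximations
  obtain ⟨g, hg⟩ : ∃ g : ℕ → ℝ → ℝ, g = fun N s => GN e (2 * N) (1/2 + s) := ⟨_, rfl⟩
  obtain ⟨g', hg'⟩ : ∃ g' : ℕ → ℝ → ℝ, g' = fun N s => D1 (1/2 + s) ((boxE (2 * N)).erase e) φ :=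
    ⟨_, rfl⟩
  have d1 : ∀ N x, HasDerivAt (g N) (g' N x) x := by
    intro N x
    rw [hg, hg', hφ]
    exact (D1_deriv ((boxE (2 * N)).erase e) (fun F => ind (XE e F)) (1/2 + x)).comp_const_add
      (1/2) x
  have d2 : ∀ N x, HasDerivAt (g' N) (D2 (1/2 + x) ((boxE (2 * N)).erase e) φ) x := by
    intro N x
    rw [hg']
    exact (D2_deriv ((boxE (2 * N)).erase e) φ (1/2 + x)).comp_const_add (1/2) x
  have hlim : ∀ x ∈ Set.Ioo 0 s0, Tendsto (fun N => g N x) atTop (𝓝 (gam o (1/2 + x))) := by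
    intro x hx
    have hx' : 0 ≤ 1/2 + x ∧ 1/2 + x ≤ 1 := ⟨by linarith [hx.1], by linarith [hx.2]⟩
    have h1 := gam_tendsto o (1/2 + x)
    rw [cl_eq hx'.1 hx'.2] at h1
    have h2 : Tendsto (fun N : ℕ => 2 * N) atTop atTop :=
      tendsto_atTop_mono (fun N => by simp only [id]; omega) tendsto_id
    have h3 := h1.comp h2
    rw [hg, hee]
    exact h3
  have hWm : MonotoneOn W (Set.Ioo 0 s0) := by
    intro x hx y hy hxy
    rw [hWdef]
    simp only
    exact mul_le_mul_of_nonneg_left (Real.rpow_le_rpow hx.1.le hxy (by norm_num)) (by positivity)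
  have hWc : ContinuousOn W (Set.Ioo 0 s0) := fun t ht =>
    (hWd t ht.1).continuousAt.continuousWithinAt
  have hW : ∀ x ∈ Set.Ioo 0 s0, ∃ ε : ℕ → ℝ, Tendsto ε atTop (𝓝 0) ∧ ∀ N, 32 ≤ N →
      ∀ y ∈ Set.Ioo x s0, |g' N y - g' N x| ≤ W y - W x + ε N := by
    intro x hx
    refine ⟨fun N => K * (N:ℝ) ^ 4 * Real.exp (-(K⁻¹ * (N * x ^ (4/3 : ℝ)))), ?_, ?_⟩
    · exact tendsto_pow_exp hK (Real.rpow_pos_of_pos hx.1 _)
    intro N hN y hy
    simp only
    obtain ⟨E, hE⟩ : ∃ E : ℝ, E = K * (N:ℝ) ^ 4 * Real.exp (-(K⁻¹ * (N * x ^ (4/3 : ℝ)))) :=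
      ⟨_, rfl⟩
    rw [← hE]
    have hE0 : 0 ≤ E := by rw [hE]; positivity
    have hbd : ∀ t, x ≤ t → t ≤ y → |D2 (1/2 + t) ((boxE (2 * N)).erase e) φ| ≤
        K * t ^ (-(1/3) : ℝ) + E := by
      intro t h1 h2
      have ht0 : 0 < t := hx.1.trans_le h1
      have hts : t ≤ s0 := h2.trans hy.2.le
      have e1 : |1/2 + t - 1/2| = t := by
        rw [add_sub_cancel_left, abs_of_pos ht0]
      have h3 := hD2 o (1/2 + t) (by linarith) (by rw [e1]; exact hts) N hN
      rw [e1, ← hee, ← hφ] at h3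
      refine h3.trans (add_le_add le_rfl ?_)
      rw [hE]
      apply mul_le_mul_of_nonneg_left _ (by positivity)
      apply Real.exp_le_exp.2
      have h4 : x ^ (4/3 : ℝ) ≤ t ^ (4/3 : ℝ) := Real.rpow_le_rpow hx.1.le h1 (by norm_num)
      have h5 : (N:ℝ) * x ^ (4/3 : ℝ) ≤ N * t ^ (4/3 : ℝ) :=
        mul_le_mul_of_nonneg_left h4 (by positivity)
      have h6 := mul_le_mul_of_nonneg_left h5 (inv_pos.2 hK).le
      linarith
    have cid : ContinuousOn (fun t : ℝ => E * t) (Set.Icc x y) := by fun_prop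
    have cW : ContinuousOn W (Set.Icc x y) := fun t ht =>
      (hWd t (hx.1.trans_le ht.1)).continuousAt.continuousWithinAt
    have cg : ContinuousOn (g' N) (Set.Icc x y) := fun t _ =>
      (d2 N t).continuousAt.continuousWithinAt
    have mono1 : MonotoneOn (fun t => (W t + E * t) - g' N t) (Set.Icc x y) := by
      apply monotoneOn_of_hasDerivWithinAt_nonneg (convex_Icc x y) ((cW.add cid).sub cg)
        (f' := fun t => (K * t ^ (-(1/3) : ℝ) + E * 1) - D2 (1/2 + t) ((boxE (2 * N)).erase e) φ)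
      · intro t ht
        rw [interior_Icc] at ht
        exact (((hWd t (hx.1.trans ht.1)).add ((hasDerivAt_id t).const_mul E)).sub
          (d2 N t)).hasDerivWithinAt
      · intro t ht
        rw [interior_Icc] at ht
        have := hbd t ht.1.le ht.2.le
        rw [abs_le] at this
        simp only [mul_one]
        linarith
    have mono2 : MonotoneOn (fun t => (W t + E * t) + g' N t) (Set.Icc x y) := by
      apply monotoneOn_of_hasDerivWithinAt_nonneg (convex_Icc x y) ((cW.add cid).add cg)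
        (f' := fun t => (K * t ^ (-(1/3) : ℝ) + E * 1) + D2 (1/2 + t) ((boxE (2 * N)).erase e) φ)
      · intro t ht
        rw [interior_Icc] at ht
        exact (((hWd t (hx.1.trans ht.1)).add ((hasDerivAt_id t).const_mul E)).add
          (d2 N t)).hasDerivWithinAt
      · intro t ht
        rw [interior_Icc] at ht
        have := hbd t ht.1.le ht.2.le
        rw [abs_le] at this
        simp only [mul_one]
        linarith
    have m1 := mono1 (Set.left_mem_Icc.2 hy.1.le) (Set.right_mem_Icc.2 hy.1.le) hy.1.le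
    have m2 := mono2 (Set.left_mem_Icc.2 hy.1.le) (Set.right_mem_Icc.2 hy.1.le) hy.1.le
    simp only at m1 m2
    have hyx : E * (y - x) ≤ E := by
      have h1 : y - x ≤ 1 := by linarith [hy.2, hx.1]
      nlinarith
    rw [abs_le]
    constructor <;> nlinarith
  obtain ⟨h, hh1, hh2⟩ := lim_deriv (fun N x _ => d1 N x) hlim hWm hWc hW
  obtain ⟨S, hS⟩ := lim_zero hs0 (fun x hx => by
    rw [hWdef]; simp only
    have := Real.rpow_nonneg hx.1.le (2/3 : ℝ)
    positivity) hh2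
  refine ⟨S, h, hh1, ?_, ?_⟩
  · intro x hx
    have := hS x hx
    rwa [hWdef] at this
  · have hH0 : ContinuousWithinAt (fun s => gam o (1/2 + s)) (Set.Ici 0) 0 := by
      have h1 : ContinuousAt (fun s => gam o (1/2 + s)) 0 := by
        have h2 : ContinuousAt (fun s : ℝ => 1/2 + s) 0 := by fun_prop
        have h3 : ContinuousAt (gam o) (1/2 + 0) := by rw [add_zero]; exact gam_cont o
        exact ContinuousAt.comp (f := fun s : ℝ => 1/2 + s) h3 h2
      exact h1.continuousWithinAt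
    have hΦ0 : ContinuousWithinAt Φ (Set.Ici 0) 0 := by
      rw [hΦdef]
      apply ContinuousAt.continuousWithinAt
      apply ContinuousAt.const_mul
      exact Real.continuousAt_rpow_const 0 _ (Or.inr (by norm_num))
    have ht := taylor_zero hh1 hH0 (fun x hx => hΦd x hx.1) hΦ0 (by
      rw [hΦdef]; simp only
      rw [Real.zero_rpow (by norm_num), mul_zero]) hS
    intro x hx
    have h1 := ht x hx
    rw [add_zero] at h1
    refine h1.trans ?_
    rw [hΦdef]
    simp only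
    apply mul_le_mul_of_nonneg_right _ (Real.rpow_nonneg hx.1.le _)
    linarith

/-- The sum over the two edges at the origin. -/
noncomputable def Gam (p : ℝ) : ℝ := gam true p + gam false p

theorem Gam_dual {q : ℝ} (hq0 : 1/4 ≤ q) (hq1 : q ≤ 3/4) : Gam q + Gam (1 - q) = 2 := by
  have h1 := gam_dual hq0 hq1 true
  have h2 := gam_dual hq0 hq1 false
  simp only [Bool.not_true, Bool.not_false] at h1 h2
  unfold Gam
  linarith

theorem Gam_half : Gam (1/2) = 1 := by
  have := Gam_dual (q := 1/2) (by norm_num) (by norm_num)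
  rw [show (1:ℝ) - 1/2 = 1/2 by norm_num] at this
  linarith

theorem Gam_mono : Monotone Gam := fun _ _ h => add_le_add (gam_mono true h) (gam_mono false h)

theorem Gam_nonneg (p : ℝ) : 0 ≤ Gam p := add_nonneg (gam_nonneg _ _) (gam_nonneg _ _)

theorem Gam_le_two (p : ℝ) : Gam p ≤ 2 := by
  have h1 := gam_le_one true p
  have h2 := gam_le_one false p
  unfold Gam
  linarith

/-- Expansion of `Gam` at the critical point. -/
theorem Gam_main : ∃ (K s0 S : ℝ) (g : ℝ → ℝ), 0 < K ∧ 0 < s0 ∧ s0 ≤ 1/4 ∧ g (1/2) = S ∧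
    (∀ p, |p - 1/2| < s0 → HasDerivAt Gam (g p) p) ∧
    (∀ p, |p - 1/2| < s0 → |g p - S| ≤ K * |p - 1/2| ^ (2/3 : ℝ)) ∧
    (∀ p, |p - 1/2| < s0 → |Gam p - 1 - S * (p - 1/2)| ≤ K * |p - 1/2| ^ (5/3 : ℝ)) := by
  obtain ⟨K, s0, hK, hs0, hs4, hm⟩ := gam_half
  obtain ⟨St, ht, t1, t2, t3⟩ := hm true
  obtain ⟨Sf, hf, f1, f2, f3⟩ := hm false
  obtain ⟨S, hS⟩ : ∃ S : ℝ, S = St + Sf := ⟨_, rfl⟩
  obtain ⟨h, hh⟩ : ∃ h : ℝ → ℝ, h = fun x => ht x + hf x := ⟨_, rfl⟩
  have a1 : ∀ x ∈ Set.Ioo 0 s0, HasDerivAt (fun s => Gam (1/2 + s)) (h x) x := by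
    intro x hx
    rw [hh]
    exact (t1 x hx).add (f1 x hx)
  have a2 : ∀ x ∈ Set.Ioo 0 s0, |h x - S| ≤ 2 * K * x ^ (2/3 : ℝ) := by
    intro x hx
    have h1 := t2 x hx
    have h2 := f2 x hx
    rw [hh, hS]
    simp only
    rw [abs_le] at h1 h2 ⊢
    constructor <;> linarith
  have a3 : ∀ x ∈ Set.Ioo 0 s0, |Gam (1/2 + x) - 1 - S * x| ≤ 2 * K * x ^ (5/3 : ℝ) := by
    intro x hx
    have h1 := t3 x hx
    have h2 := f3 x hx
    have h3 := Gam_half
    unfold Gam at h3 ⊢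
    rw [hS]
    rw [abs_le] at h1 h2 ⊢
    constructor <;> nlinarith
  -- derivative on the right
  have b1 : ∀ p, 1/2 < p → p < 1/2 + s0 → HasDerivAt Gam (h (p - 1/2)) p := by
    intro p hp1 hp2
    have h1 := a1 (p - 1/2) ⟨by linarith, by linarith⟩
    have h2 : HasDerivAt (fun s => Gam (1/2 + (s - 1/2))) (h (p - 1/2)) p :=
      HasDerivAt.comp_sub_const (f := fun s => Gam (1/2 + s)) p (1/2) h1
    have e1 : (fun s => Gam (1/2 + (s - 1/2))) = Gam := by
      funext s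
      congr 1
      ring
    rwa [e1] at h2
  have hloc : ∀ p, |p - 1/2| < s0 → Gam p = 2 - Gam (1 - p) := by
    intro p hp
    rw [abs_lt] at hp
    have := Gam_dual (q := p) (by linarith) (by linarith)
    linarith
  have b2 : ∀ p, 1/2 - s0 < p → p < 1/2 → HasDerivAt Gam (h (1/2 - p)) p := by
    intro p hp1 hp2
    have h1 := b1 (1 - p) (by linarith) (by linarith)
    have e1 : 1 - p - 1/2 = 1/2 - p := by ring
    rw [e1] at h1
    have h2 : HasDerivAt (fun q => Gam (1 - q)) (-(h (1/2 - p))) p := by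
      have := HasDerivAt.comp_const_sub (f := Gam) 1 p h1
      exact this
    have h3 : HasDerivAt (fun q => 2 - Gam (1 - q)) (-(-(h (1/2 - p)))) p := h2.const_sub 2
    rw [neg_neg] at h3
    refine h3.congr_of_eventuallyEq ?_
    have hnhds : ∀ᶠ q in 𝓝 p, |q - 1/2| < s0 := by
      have hc : ContinuousAt (fun q : ℝ => |q - 1/2|) p := by fun_prop
      exact hc.eventually (gt_mem_nhds (by rw [abs_lt]; constructor <;> linarith))
    filter_upwards [hnhds] with q hq
    exact hloc q hq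
  have b3 : ∀ p, |p - 1/2| < s0 → |Gam p - 1 - S * (p - 1/2)| ≤
      2 * K * |p - 1/2| ^ (5/3 : ℝ) := by
    intro p hp
    rcases lt_trichotomy p (1/2) with hlt | heq | hgt
    · have e1 : |p - 1/2| = 1/2 - p := by rw [abs_of_neg (by linarith)]; ring
      have h1 := a3 (1/2 - p) ⟨by linarith, by rw [e1] at hp; exact hp⟩
      have e2 : 1/2 + (1/2 - p) = 1 - p := by ring
      rw [e2] at h1
      rw [hloc p hp, e1]
      have e3 : 2 - Gam (1 - p) - 1 - S * (p - 1/2) = -(Gam (1 - p) - 1 - S * (1/2 - p)) := by ring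
      rw [e3, abs_neg]
      exact h1
    · subst heq
      rw [Gam_half]
      simp
    · have e1 : |p - 1/2| = p - 1/2 := abs_of_pos (by linarith)
      rw [e1] at hp ⊢
      have h1 := a3 (p - 1/2) ⟨by linarith, hp⟩
      rwa [show 1/2 + (p - 1/2) = p by ring] at h1
  have b4 : HasDerivAt Gam S (1/2) := by
    rw [hasDerivAt_iff_isLittleO]
    rw [Gam_half]
    have h1 : (fun p => Gam p - 1 - (p - 1/2) • S) =O[𝓝 (1/2)]
        (fun p : ℝ => |p - 1/2| ^ (5/3 : ℝ)) := by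
      rw [Asymptotics.isBigO_iff]
      refine ⟨2 * K, ?_⟩
      have hnhds : ∀ᶠ q in 𝓝 (1/2 : ℝ), |q - 1/2| < s0 := by
        have hc : ContinuousAt (fun q : ℝ => |q - 1/2|) (1/2) := by fun_prop
        exact hc.eventually (gt_mem_nhds (by simp [hs0]))
      filter_upwards [hnhds] with q hq
      have h2 := b3 q hq
      rw [Real.norm_eq_abs, Real.norm_eq_abs, abs_of_nonneg (Real.rpow_nonneg (abs_nonneg _) _),
        smul_eq_mul, mul_comm (q - 1/2) S]
      exact h2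
    refine h1.trans_isLittleO ?_
    have h2 : (fun p : ℝ => |p - 1/2| ^ (5/3 : ℝ)) =
        fun p : ℝ => |p - 1/2| ^ (2/3 : ℝ) * |p - 1/2| := by
      funext p
      rcases eq_or_ne p (1/2) with h | h
      · rw [h]; simp
      · have : 0 < |p - 1/2| := abs_pos.2 (sub_ne_zero.2 h)
        nth_rewrite 3 [← Real.rpow_one (|p - 1/2|)]
        rw [← Real.rpow_add this]
        norm_num
    rw [h2]
    have h3 : Tendsto (fun p : ℝ => |p - 1/2| ^ (2/3 : ℝ)) (𝓝 (1/2)) (𝓝 0) := by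
      have hc : ContinuousAt (fun p : ℝ => |p - 1/2| ^ (2/3 : ℝ)) (1/2) := by
        apply ContinuousAt.rpow_const
        · fun_prop
        · right; norm_num
      have := hc.tendsto
      simpa using this
    have h4 : (fun p : ℝ => |p - 1/2| ^ (2/3 : ℝ) * |p - 1/2|) =o[𝓝 (1/2)]
        (fun p : ℝ => (1:ℝ) * |p - 1/2|) := by
      apply Asymptotics.IsLittleO.mul_isBigO
      · rw [Asymptotics.isLittleO_one_iff]
        exact h3
      · exact Asymptotics.isBigO_refl _ _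
    simp only [one_mul] at h4
    exact h4.trans_isBigO (Asymptotics.IsBigO.of_bound 1 (by
      filter_upwards with q
      rw [Real.norm_eq_abs, Real.norm_eq_abs, abs_abs, one_mul]))
  refine ⟨2 * K, s0, S, fun p => if p = 1/2 then S else h |p - 1/2|, by positivity, hs0, hs4,
    if_pos rfl, ?_, ?_, b3⟩
  · intro p hp
    simp only
    by_cases h0 : p = 1/2
    · rw [if_pos h0, h0]; exact b4
    · rw [if_neg h0]
      rcases lt_or_gt_of_ne h0 with hlt | hgt
      · have e1 : |p - 1/2| = 1/2 - p := by rw [abs_of_neg (by linarith)]; ring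
        rw [e1] at hp ⊢
        exact b2 p (by linarith) hlt
      · have e1 : |p - 1/2| = p - 1/2 := abs_of_pos (by linarith)
        rw [e1] at hp ⊢
        exact b1 p hgt (by linarith)
  · intro p hp
    simp only
    by_cases h0 : p = 1/2
    · rw [if_pos h0, sub_self, abs_zero]
      positivity
    · rw [if_neg h0]
      exact a2 |p - 1/2| ⟨abs_pos.2 (sub_ne_zero.2 h0), hp⟩

end Pool.Agent.NH39
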