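import Pool.Agent.NH39.T2

/-! Second derivative of the probability that the endpoints of an edge are joined in a box. -/

set_option autoImplicit false

namespace Pool.Agent.NH39

open H974 H12S H389NS Finset

/-- First derivative of an expectation. -/
noncomputable def D1 (p : ℝ) (S : Finset Edg) (φ : Finset Edg → ℝ) : ℝ :=
  ∑ f ∈ S, Ex (fun _ => p) (S.erase f) (fun F => φ (insert f F) - φ F)

/-- Second derivative of an expectation. -/
noncomputable def D2 (p : ℝ) (S : Finset Edg) (φ : Finset Edg → ℝ) : ℝ :=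
  ∑ f ∈ S, ∑ g ∈ S.erase f, Ex (fun _ => p) ((S.erase f).erase g)
    (fun F => (φ (insert f (insert g F)) - φ (insert g F)) - (φ (insert f F) - φ F))

theorem D1_deriv (S : Finset Edg) (φ : Finset Edg → ℝ) (p : ℝ) :
    HasDerivAt (fun p => Ex (fun _ => p) S φ) (D1 p S φ) p := by
  have h := Ex_hasDerivAt (E := Edg) (fun q _ => q) (fun _ => 1) p (fun _ => hasDerivAt_id p) S φ
  convert h using 1
  unfold D1
  apply Finset.sum_congr rfl
  intro f _
  rw [one_mul]

theorem D2_deriv (S : Finset Edg) (φ : Finset Edg → ℝ) (p : ℝ) :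
    HasDerivAt (fun p => D1 p S φ) (D2 p S φ) p := by
  unfold D1 D2
  apply HasDerivAt.fun_sum
  intro f _
  exact D1_deriv (S.erase f) (fun F => φ (insert f F) - φ F) p

/-- The endpoints of `e` are joined. -/
def XE (e : Edg) (F : Finset Edg) : Prop := Reach (↑F : Set Edg) (src e) (tgt e)

/-- The probability that the endpoints of `e` are joined in the box by a path which does not use
`e`. -/
noncomputable def GN (e : Edg) (N : ℕ) (p : ℝ) : ℝ := PQ p ((boxE N).erase e) (XE e)

/-- Both `f` and `g` are pivotal for some state of the other one. -/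
def WE (e f g : Edg) (F : Finset Edg) : Prop :=
  (Pv {src e} {tgt e} f (insert g (↑F : Set Edg)) ∨ Pv {src e} {tgt e} f (↑F : Set Edg)) ∧
    (Pv {src e} {tgt e} g (insert f (↑F : Set Edg)) ∨ Pv {src e} {tgt e} g (↑F : Set Edg))

theorem WE_symm {e f g : Edg} {F : Finset Edg} (h : WE e f g F) : WE e g f F := ⟨h.2, h.1⟩

theorem ind_cases (P : Prop) : ind P = 0 ∨ ind P = 1 := by
  by_cases h : P
  · right; exact ind_of h
  · left; exact ind_not_of h

theorem pv_or {e f : Edg} {G : Finset Edg} (hf : f ∉ G) :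
    ind (XE e (insert f G)) = ind (XE e G) ∨ Pv {src e} {tgt e} f (↑G : Set Edg) := by
  by_cases h1 : XE e G
  · left
    have h2 : XE e (insert f G) := h1.mono (by
      rw [Finset.coe_insert]; exact Set.subset_insert _ _)
    rw [ind_of h1, ind_of h2]
  · by_cases h2 : XE e (insert f G)
    · right
      refine ⟨⟨src e, rfl, tgt e, rfl, ?_⟩, ?_⟩
      · unfold XE at h2
        rwa [Finset.coe_insert] at h2
      · rintro ⟨u, hu, v, hv, h⟩
        rw [Set.mem_singleton_iff] at hu hv
        subst hu; subst hv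
        exact h1 (h.mono Set.sdiff_subset)
    · left
      rw [ind_not_of h1, ind_not_of h2]

/-- The integrand of the second derivative vanishes outside of `WE`. -/
theorem integrand {e f g : Edg} (hfg : f ≠ g) {F : Finset Edg} (hf : f ∉ F) (hg : g ∉ F) :
    |(ind (XE e (insert f (insert g F))) - ind (XE e (insert g F))) -
      (ind (XE e (insert f F)) - ind (XE e F))| ≤ 2 * ind (WE e f g F) := by
  by_cases h : WE e f g F
  · rw [ind_of h]
    rcases ind_cases (XE e (insert f (insert g F))) with h1 | h1 <;>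
      rcases ind_cases (XE e (insert g F)) with h2 | h2 <;>
      rcases ind_cases (XE e (insert f F)) with h3 | h3 <;>
      rcases ind_cases (XE e F) with h4 | h4 <;> rw [h1, h2, h3, h4] <;> norm_num
  · rw [ind_not_of h]
    have hfgF : f ∉ insert g F := by simp [hfg, hf]
    have hgfF : g ∉ insert f F := by simp [hfg.symm, hg]
    have h1 := pv_or (e := e) hfgF
    have h2 := pv_or (e := e) hf
    have h3 := pv_or (e := e) hgfF
    have h4 := pv_or (e := e) hg
    rw [Finset.coe_insert] at h1 h3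
    rw [Finset.insert_comm g f F] at h3
    have key : (ind (XE e (insert f (insert g F))) - ind (XE e (insert g F))) -
      (ind (XE e (insert f F)) - ind (XE e F)) = 0 := by
      unfold WE at h
      rw [not_and_or, not_or, not_or] at h
      rcases h with ⟨k1, k2⟩ | ⟨k1, k2⟩
      · rw [h1.resolve_right k1, h2.resolve_right k2]; ring
      · rw [h3.resolve_right k1, h4.resolve_right k2]; ring
    rw [key, abs_zero]
    norm_num

theorem abs_Ex_le {p : Edg → ℝ} (hp : Ok p) {S : Finset Edg} {f g : Finset Edg → ℝ}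
    (h : ∀ F, F ⊆ S → |f F| ≤ g F) : |Ex p S f| ≤ Ex p S g := by
  rw [abs_le]
  constructor
  · have := Ex_mono hp (S := S) (f := fun F => -1 * g F) (g := f) (fun F hF => by
      have := (abs_le.1 (h F hF)).1; linarith)
    rw [Ex_mul_left] at this
    linarith
  · exact Ex_mono hp (fun F hF => (abs_le.1 (h F hF)).2)

/-- Bound for the second derivative. -/
theorem D2_le {p : ℝ} (h0 : 0 ≤ p) (h1 : p ≤ 1) (e : Edg) (S : Finset Edg) :
    |D2 p S (fun F => ind (XE e F))| ≤
      2 * ∑ f ∈ S, ∑ g ∈ S.erase f, PQ p ((S.erase f).erase g) (WE e f g) := by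
  unfold D2
  refine (Finset.abs_sum_le_sum_abs _ _).trans ?_
  rw [Finset.mul_sum]
  apply Finset.sum_le_sum
  intro f _
  refine (Finset.abs_sum_le_sum_abs _ _).trans ?_
  rw [Finset.mul_sum]
  apply Finset.sum_le_sum
  intro g hg
  have hfg : f ≠ g := (Finset.ne_of_mem_erase hg).symm
  refine (abs_Ex_le (okq h0 h1) (g := fun F => 2 * ind (WE e f g F)) ?_).trans ?_
  · intro F hF
    apply integrand hfg
    · intro h
      have := hF h
      simp at this
    · intro h
      have := hF h
      simp at this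
  · rw [Ex_mul_left]
    exact le_rfl

/-- `A` depends on the edges of `T` only. -/
def Dep (T : Finset Edg) (A : Finset Edg → Prop) : Prop :=
  ∀ F F' : Finset Edg, F ∩ T = F' ∩ T → (A F ↔ A F')

theorem Dep.mono {T T' : Finset Edg} {A : Finset Edg → Prop} (h : Dep T A) (hT : T ⊆ T') :
    Dep T' A := by
  intro F F' hF
  apply h
  have e1 : ∀ G : Finset Edg, G ∩ T = (G ∩ T') ∩ T := by
    intro G
    rw [Finset.inter_assoc, Finset.inter_eq_right.2 hT]
  rw [e1 F, e1 F', hF]

theorem Dep.and {T T' : Finset Edg} {A B : Finset Edg → Prop} (hA : Dep T A) (hB : Dep T' B) :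
    Dep (T ∪ T') (fun F => A F ∧ B F) := by
  intro F F' hF
  have h1 := (hA.mono (Finset.subset_union_left (s₂ := T'))) F F' hF
  have h2 := (hB.mono (Finset.subset_union_right (s₁ := T))) F F' hF
  show (A F ∧ B F) ↔ (A F' ∧ B F')
  rw [h1, h2]

theorem Dep.or {T T' : Finset Edg} {A B : Finset Edg → Prop} (hA : Dep T A) (hB : Dep T' B) :
    Dep (T ∪ T') (fun F => A F ∨ B F) := by
  intro F F' hF
  have h1 := (hA.mono (Finset.subset_union_left (s₂ := T'))) F F' hF
  have h2 := (hB.mono (Finset.subset_union_right (s₁ := T))) F F' hF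
  show (A F ∨ B F) ↔ (A F' ∨ B F')
  rw [h1, h2]

theorem Dep.loc {T : Finset Edg} {A : Finset Edg → Prop} (hA : Dep T A) (F : Finset Edg) :
    A F ↔ A (F ∩ T) := hA _ _ (by rw [Finset.inter_assoc, Finset.inter_self])

theorem Dep.pr {T U : Finset Edg} {A : Finset Edg → Prop} (hA : Dep T A) (hT : T ⊆ U)
    (p : Edg → ℝ) : Pr p U A = Pr p T A := Pr_local hT (fun F _ => hA.loc F)

theorem Dep.mul {T T' U : Finset Edg} {A B : Finset Edg → Prop} (hA : Dep T A) (hB : Dep T' B)
    (hT : T ⊆ U) (hT' : T' ⊆ U) (hd : Disjoint T T') (p : Edg → ℝ) :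
    Pr p U (fun F => A F ∧ B F) = Pr p U A * Pr p U B :=
  Pr_indep hT hT' hd (fun F _ => hA.loc F) (fun F _ => hB.loc F)

/-- Product bound for five independent events. -/
theorem Dep.five {U T1 T2 T3 T4 T5 : Finset Edg} {A1 A2 A3 A4 A5 : Finset Edg → Prop}
    (h1 : Dep T1 A1) (h2 : Dep T2 A2) (h3 : Dep T3 A3) (h4 : Dep T4 A4) (h5 : Dep T5 A5)
    (s1 : T1 ⊆ U) (s2 : T2 ⊆ U) (s3 : T3 ⊆ U) (s4 : T4 ⊆ U) (s5 : T5 ⊆ U)
    (d12 : Disjoint T1 T2) (d13 : Disjoint T1 T3) (d14 : Disjoint T1 T4) (d15 : Disjoint T1 T5)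
    (d23 : Disjoint T2 T3) (d24 : Disjoint T2 T4) (d25 : Disjoint T2 T5)
    (d34 : Disjoint T3 T4) (d35 : Disjoint T3 T5) (d45 : Disjoint T4 T5) (p : Edg → ℝ) :
    Pr p U (fun F => A1 F ∧ (A2 F ∧ (A3 F ∧ (A4 F ∧ A5 F)))) =
      Pr p U A1 * (Pr p U A2 * (Pr p U A3 * (Pr p U A4 * Pr p U A5))) := by
  have k45 := h4.and h5
  have k345 := h3.and k45
  have k2345 := h2.and k345
  have u45 : T4 ∪ T5 ⊆ U := Finset.union_subset s4 s5
  have u345 : T3 ∪ (T4 ∪ T5) ⊆ U := Finset.union_subset s3 u45
  have u2345 : T2 ∪ (T3 ∪ (T4 ∪ T5)) ⊆ U := Finset.union_subset s2 u345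
  rw [h1.mul k2345 s1 u2345 (by
      rw [Finset.disjoint_union_right, Finset.disjoint_union_right, Finset.disjoint_union_right]
      exact ⟨d12, d13, d14, d15⟩) p,
    h2.mul k345 s2 u345 (by
      rw [Finset.disjoint_union_right, Finset.disjoint_union_right]
      exact ⟨d23, d24, d25⟩) p,
    h3.mul k45 s3 u45 (by
      rw [Finset.disjoint_union_right]
      exact ⟨d34, d35⟩) p, h4.mul h5 s4 s5 d45 p]

end Pool.Agent.NH39
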