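import Pool.Agent.NH39.T3

/-! The local events around three edges. -/

set_option autoImplicit false

namespace Pool.Agent.NH39

open H974 H12S H389NS Finset

/-- Position of an edge. -/
def ps (e : Edg) : ℤ × ℤ := (e.1, e.2.1)

/-- Distance of two edges. -/
def dd (e f : Edg) : ℕ := max (e.1 - f.1).natAbs (e.2.1 - f.2.1).natAbs

theorem dd_comm (e f : Edg) : dd e f = dd f e := by
  unfold dd
  omega

/-- Four arms to distance `k` (no condition if `k = 0`). -/
def Ax (k : ℕ) (e : Edg) (F : Finset Edg) : Prop := 1 ≤ k → A4e k e (↑F : Set Edg)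

/-- Four arms in an annulus. -/
def Ay (c : ℤ × ℤ) (d k : ℕ) (F : Finset Edg) : Prop := d ≤ k → A4a c d k (↑F : Set Edg)

/-- Four arms in the annulus of radii `m - 1`, `3 m`. -/
def Az (c : ℤ × ℤ) (m : ℕ) (F : Finset Edg) : Prop :=
  2 ≤ m → A4a c (m - 1) (3 * m) (↑F : Set Edg)

theorem Ax_dep (k : ℕ) (e : Edg) : Dep ((ebx e k).erase e) (Ax k e) := by
  intro F F' hF
  unfold Ax A4e A4
  have h : (↑F ∩ ↑(RE (e.1 - k) (e.1 + k) (e.2.1 - k) (e.2.1 + k))) \ {e} =
      ((↑F' : Set Edg) ∩ ↑(RE (e.1 - k) (e.1 + k) (e.2.1 - k) (e.2.1 + k))) \ {e} := by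
    ext g
    have := Finset.ext_iff.1 hF g
    simp only [Finset.mem_inter, Finset.mem_erase, ebx] at this
    simp only [Set.mem_sdiff, Set.mem_inter_iff, Finset.mem_coe, Set.mem_singleton_iff]
    tauto
  rw [h]

theorem Ay_dep (c : ℤ × ℤ) (d k : ℕ) : Dep (blk c k \ blk c d) (Ay c d k) := by
  intro F F' hF
  unfold Ay
  have h : (↑F : Set Edg) ∩ ↑(blk c k \ blk c d) = (↑F' : Set Edg) ∩ ↑(blk c k \ blk c d) := by
    rw [← Finset.coe_inter, ← Finset.coe_inter, hF]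
  rw [A4a_congr h]

theorem Az_dep (c : ℤ × ℤ) (m : ℕ) : Dep (blk c (3 * m) \ blk c (m - 1)) (Az c m) := by
  intro F F' hF
  unfold Az
  have h : (↑F : Set Edg) ∩ ↑(blk c (3 * m) \ blk c (m - 1)) =
      (↑F' : Set Edg) ∩ ↑(blk c (3 * m) \ blk c (m - 1)) := by
    rw [← Finset.coe_inter, ← Finset.coe_inter, hF]
  rw [A4a_congr h]

/-- Radii. -/
def r1 (n a : ℕ) : ℕ := min a n / 4
def r2 (n b : ℕ) : ℕ := min b n / 16
def r3 (n b : ℕ) : ℕ := min b n / 4
def r4 (b : ℕ) : ℕ := if 16 ≤ b then b / 8 else 0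

theorem r4_spec (b : ℕ) : (16 ≤ b ∧ r4 b = b / 8) ∨ (b < 16 ∧ r4 b = 0) := by
  unfold r4
  split_ifs with h
  · exact Or.inl ⟨h, rfl⟩
  · exact Or.inr ⟨by omega, rfl⟩

/-- The five events around the close pair `u, v` and the third edge `h`. -/
def Ev5 (n a b : ℕ) (u v h : Edg) (F : Finset Edg) : Prop :=
  Ax (r1 n a) u F ∧ (Ax (r1 n a) v F ∧ (Ax (r2 n b) h F ∧
    (Ay (ps u) (2 * a + 2) (r3 n b) F ∧ Az (ps h) (r4 b) F)))

/-- Geometry of the three edges. -/
structure Tri (a b : ℕ) (u v h : Edg) : Prop where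
  uv : dd u v = a
  uh : b ≤ dd u h
  vh : b ≤ dd v h
  ab : a ≤ b

theorem mem_ebx_iff {e z : Edg} {k : ℕ} : z ∈ ebx e k →
    e.1 - k ≤ z.1 ∧ z.1 ≤ e.1 + k ∧ e.2.1 - k ≤ z.2.1 ∧ z.2.1 ≤ e.2.1 + k ∧ 1 ≤ k := by
  unfold ebx
  obtain ⟨x, y, _ | _⟩ := z
  · rw [mem_RE_false]; simp only; omega
  · rw [mem_RE_true]; simp only; omega

theorem mem_blk_iff {c : ℤ × ℤ} {z : Edg} {k : ℕ} : z ∈ blk c k →
    c.1 - k ≤ z.1 ∧ z.1 ≤ c.1 + k ∧ c.2 - k ≤ z.2.1 ∧ z.2.1 ≤ c.2 + k ∧ 1 ≤ k := by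
  unfold blk
  obtain ⟨x, y, _ | _⟩ := z
  · rw [mem_RE_false]; simp only; omega
  · rw [mem_RE_true]; simp only; omega

theorem mem_blk_of {c : ℤ × ℤ} {z : Edg} {k : ℕ} (h : c.1 - k ≤ z.1 ∧ z.1 + 1 ≤ c.1 + k ∧
    c.2 - k ≤ z.2.1 ∧ z.2.1 + 1 ≤ c.2 + k) : z ∈ blk c k := by
  unfold blk
  obtain ⟨x, y, _ | _⟩ := z
  · rw [mem_RE_false]; simp only at h; omega
  · rw [mem_RE_true]; simp only at h; omega

theorem Tri.d12 {n a b : ℕ} {u v h : Edg} (T : Tri a b u v h) :
    Disjoint ((ebx u (r1 n a)).erase u) ((ebx v (r1 n a)).erase v) := by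
  rw [Finset.disjoint_left]
  intro z hz hz'
  have h1 := mem_ebx_iff (Finset.mem_of_mem_erase hz)
  have h2 := mem_ebx_iff (Finset.mem_of_mem_erase hz')
  have := T.uv
  unfold dd at this
  unfold r1 at h1 h2
  omega

theorem Tri.d13 {n a b : ℕ} {u v h : Edg} (T : Tri a b u v h) :
    Disjoint ((ebx u (r1 n a)).erase u) ((ebx h (r2 n b)).erase h) := by
  rw [Finset.disjoint_left]
  intro z hz hz'
  have h1 := mem_ebx_iff (Finset.mem_of_mem_erase hz)
  have h2 := mem_ebx_iff (Finset.mem_of_mem_erase hz')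
  have := T.uh
  have := T.ab
  unfold dd at *
  unfold r1 at h1
  unfold r2 at h2
  omega

theorem Tri.d23 {n a b : ℕ} {u v h : Edg} (T : Tri a b u v h) :
    Disjoint ((ebx v (r1 n a)).erase v) ((ebx h (r2 n b)).erase h) := by
  rw [Finset.disjoint_left]
  intro z hz hz'
  have h1 := mem_ebx_iff (Finset.mem_of_mem_erase hz)
  have h2 := mem_ebx_iff (Finset.mem_of_mem_erase hz')
  have := T.vh
  have := T.ab
  unfold dd at *
  unfold r1 at h1
  unfold r2 at h2
  omega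

theorem Tri.d14 {n a b : ℕ} {u v h : Edg} (_ : Tri a b u v h) :
    Disjoint ((ebx u (r1 n a)).erase u) (blk (ps u) (r3 n b) \ blk (ps u) (2 * a + 2)) := by
  rw [Finset.disjoint_left]
  intro z hz hz'
  have h1 := mem_ebx_iff (Finset.mem_of_mem_erase hz)
  rw [Finset.mem_sdiff] at hz'
  apply hz'.2
  apply mem_blk_of
  unfold ps
  unfold r1 at h1
  simp only
  omega

theorem Tri.d24 {n a b : ℕ} {u v h : Edg} (T : Tri a b u v h) :
    Disjoint ((ebx v (r1 n a)).erase v) (blk (ps u) (r3 n b) \ blk (ps u) (2 * a + 2)) := by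
  rw [Finset.disjoint_left]
  intro z hz hz'
  have h1 := mem_ebx_iff (Finset.mem_of_mem_erase hz)
  rw [Finset.mem_sdiff] at hz'
  apply hz'.2
  apply mem_blk_of
  have := T.uv
  unfold dd at this
  unfold ps
  unfold r1 at h1
  simp only
  omega

theorem Tri.d34 {n a b : ℕ} {u v h : Edg} (T : Tri a b u v h) :
    Disjoint ((ebx h (r2 n b)).erase h) (blk (ps u) (r3 n b) \ blk (ps u) (2 * a + 2)) := by
  rw [Finset.disjoint_left]
  intro z hz hz'
  have h1 := mem_ebx_iff (Finset.mem_of_mem_erase hz)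
  rw [Finset.mem_sdiff] at hz'
  have h2 := mem_blk_iff hz'.1
  have := T.uh
  unfold dd at this
  unfold ps at h2
  unfold r2 at h1
  unfold r3 at h2
  simp only at h2
  omega

theorem Tri.d15 {n a b : ℕ} {u v h : Edg} (T : Tri a b u v h) :
    Disjoint ((ebx u (r1 n a)).erase u) (blk (ps h) (3 * (r4 b)) \ blk (ps h) (r4 b - 1)) := by
  have hr4 := r4_spec b
  rw [Finset.disjoint_left]
  intro z hz hz'
  have h1 := mem_ebx_iff (Finset.mem_of_mem_erase hz)
  rw [Finset.mem_sdiff] at hz'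
  have h2 := mem_blk_iff hz'.1
  have := T.uh
  have := T.ab
  unfold dd at *
  unfold ps at h2
  unfold r1 at h1
  simp only at h2
  omega

theorem Tri.d25 {n a b : ℕ} {u v h : Edg} (T : Tri a b u v h) :
    Disjoint ((ebx v (r1 n a)).erase v) (blk (ps h) (3 * (r4 b)) \ blk (ps h) (r4 b - 1)) := by
  have hr4 := r4_spec b
  rw [Finset.disjoint_left]
  intro z hz hz'
  have h1 := mem_ebx_iff (Finset.mem_of_mem_erase hz)
  rw [Finset.mem_sdiff] at hz'
  have h2 := mem_blk_iff hz'.1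
  have := T.vh
  have := T.ab
  unfold dd at *
  unfold ps at h2
  unfold r1 at h1
  simp only at h2
  omega

theorem Tri.d35 {n a b : ℕ} {u v h : Edg} (_ : Tri a b u v h) :
    Disjoint ((ebx h (r2 n b)).erase h) (blk (ps h) (3 * (r4 b)) \ blk (ps h) (r4 b - 1)) := by
  have hr4 := r4_spec b
  rw [Finset.disjoint_left]
  intro z hz hz'
  have hz1 := Finset.mem_of_mem_erase hz
  rw [Finset.mem_sdiff] at hz'
  apply hz'.2
  have h1 := mem_ebx_iff hz1
  unfold ebx at hz1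
  unfold blk
  unfold r2 at h1 hz1
  unfold ps
  simp only
  refine RE_subset ?_ ?_ ?_ ?_ hz1 <;> omega

theorem Tri.d45 {n a b : ℕ} {u v h : Edg} (T : Tri a b u v h) :
    Disjoint (blk (ps u) (r3 n b) \ blk (ps u) (2 * a + 2))
      (blk (ps h) (3 * (r4 b)) \ blk (ps h) (r4 b - 1)) := by
  have hr4 := r4_spec b
  rw [Finset.disjoint_left]
  intro z hz hz'
  rw [Finset.mem_sdiff] at hz hz'
  have h1 := mem_blk_iff hz.1
  have h2 := mem_blk_iff hz'.1
  have := T.uh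
  unfold dd at *
  unfold ps at h1 h2
  unfold r3 at h1
  simp only at h1 h2
  omega

/-- The union of the supports. -/
noncomputable def supp5 (n a b : ℕ) (u v h : Edg) : Finset Edg :=
  (ebx u (r1 n a)).erase u ∪ ((ebx v (r1 n a)).erase v ∪ ((ebx h (r2 n b)).erase h ∪
    ((blk (ps u) (r3 n b) \ blk (ps u) (2 * a + 2)) ∪
      (blk (ps h) (3 * (r4 b)) \ blk (ps h) (r4 b - 1)))))

theorem Ev5_dep (n a b : ℕ) (u v h : Edg) : Dep (supp5 n a b u v h) (Ev5 n a b u v h) :=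
  (Ax_dep _ _).and ((Ax_dep _ _).and ((Ax_dep _ _).and ((Ay_dep _ _ _).and (Az_dep _ _))))

theorem mem_RE_pos {a b c d : ℤ} {z : Edg} (h : z ∈ RE a b c d) :
    a ≤ z.1 ∧ z.1 ≤ b ∧ c ≤ z.2.1 ∧ z.2.1 ≤ d := by
  obtain ⟨x, y, _ | _⟩ := z
  · rw [mem_RE_false] at h; simp only; omega
  · rw [mem_RE_true] at h; simp only; omega

theorem supp5_sub {n a b N : ℕ} {u v h : Edg} (T : Tri a b u v h)
    (hu : |u.1| ≤ N ∧ |u.2.1| ≤ N) (hv : |v.1| ≤ N ∧ |v.2.1| ≤ N) (hh : |h.1| ≤ N ∧ |h.2.1| ≤ N)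
    (hb : b ≤ 2 * N) : supp5 n a b u v h ⊆ boxE (2 * N) \ {u, v, h} := by
  have key : ∀ (e : Edg) (k : ℕ), |e.1| ≤ N ∧ |e.2.1| ≤ N → k ≤ N → ∀ z ∈ ebx e k,
      z ∈ boxE (2 * N) := by
    intro e k he hk z hz
    unfold ebx at hz
    unfold boxE
    rw [abs_le, abs_le] at he
    refine RE_subset ?_ ?_ ?_ ?_ hz <;> push_cast <;> omega
  have hr4 := r4_spec b
  have h5 := T.uh
  have h6 := T.vh
  have h7 := T.ab
  have h8 := T.uv
  rw [abs_le, abs_le] at hu hv hh
  intro z hz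
  unfold supp5 at hz
  rw [Finset.mem_union, Finset.mem_union, Finset.mem_union, Finset.mem_union] at hz
  rw [Finset.mem_sdiff, Finset.mem_insert, Finset.mem_insert, Finset.mem_singleton]
  rcases hz with hz | hz | hz | hz | hz
  · rw [Finset.mem_erase] at hz
    have g := mem_ebx_iff hz.2
    refine ⟨key u _ (by rw [abs_le, abs_le]; exact hu) (by unfold r1; omega) z hz.2, ?_⟩
    rintro (rfl | rfl | rfl)
    · exact hz.1 rfl
    · unfold dd at *; unfold r1 at g; omega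
    · unfold dd at *; unfold r1 at g; omega
  · rw [Finset.mem_erase] at hz
    have g := mem_ebx_iff hz.2
    refine ⟨key v _ (by rw [abs_le, abs_le]; exact hv) (by unfold r1; omega) z hz.2, ?_⟩
    rintro (rfl | rfl | rfl)
    · unfold dd at *; unfold r1 at g; omega
    · exact hz.1 rfl
    · unfold dd at *; unfold r1 at g; omega
  · rw [Finset.mem_erase] at hz
    have g := mem_ebx_iff hz.2
    refine ⟨key h _ (by rw [abs_le, abs_le]; exact hh) (by unfold r2; omega) z hz.2, ?_⟩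
    rintro (rfl | rfl | rfl)
    · unfold dd at *; unfold r2 at g; omega
    · unfold dd at *; unfold r2 at g; omega
    · exact hz.1 rfl
  · rw [Finset.mem_sdiff] at hz
    have g := mem_blk_iff hz.1
    refine ⟨key u _ (by rw [abs_le, abs_le]; exact hu) (by unfold r3; omega) z hz.1, ?_⟩
    rintro (rfl | rfl | rfl)
    · apply hz.2; apply mem_blk_of; unfold ps; simp only; omega
    · apply hz.2; apply mem_blk_of; unfold ps; unfold dd at *; simp only; omega
    · unfold dd at *; unfold r3 at g; unfold ps at g; simp only at g; omega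
  · rw [Finset.mem_sdiff] at hz
    have g := mem_blk_iff hz.1
    refine ⟨key h _ (by rw [abs_le, abs_le]; exact hh) (by omega) z hz.1, ?_⟩
    rintro (rfl | rfl | rfl)
    · unfold dd at *; unfold ps at g; simp only at g; omega
    · unfold dd at *; unfold ps at g; simp only at g; omega
    · apply hz.2; apply mem_blk_of; unfold ps; simp only; omega

end Pool.Agent.NH39
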