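import Pool.Agent.NH39.T4

/-! Pivotality of two edges implies the five local events. -/

set_option autoImplicit false

namespace Pool.Agent.NH39

open H974 H12S H389NS Finset

theorem ins_inter {g : Edg} {F : Set Edg} {T : Finset Edg} (hg : g ∉ T) :
    (insert g F) ∩ ↑T = F ∩ ↑T := by
  ext z
  constructor
  · rintro ⟨h1 | h1, h2⟩
    · subst h1; exact absurd (Finset.mem_coe.1 h2) hg
    · exact ⟨h1, h2⟩
  · rintro ⟨h1, h2⟩; exact ⟨Or.inr h1, h2⟩

theorem src_out {e : Edg} {c : ℤ × ℤ} {k : ℕ} (h : k + 1 ≤ max (e.1 - c.1).natAbs (e.2.1 - c.2).natAbs) :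
    OutB c k (src e) ∧ OutB c k (tgt e) := by
  obtain ⟨x, y, _ | _⟩ := e
  · simp only [OutB, src_mk, tgt_false, le_abs] at h ⊢
    omega
  · simp only [OutB, src_mk, tgt_true, le_abs] at h ⊢
    omega

theorem src_in {e : Edg} {d : ℕ} (hd : 1 ≤ d) : InB (ps e) d (src e) ∧ InB (ps e) d (tgt e) := by
  obtain ⟨x, y, _ | _⟩ := e
  · simp only [InB, ps, src_mk, tgt_false, abs_le]
    omega
  · simp only [InB, ps, src_mk, tgt_true, abs_le]
    omega

theorem notebx {e z : Edg} {k : ℕ} (h : k < dd e z) : z ∉ ebx e k := by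
  intro hz
  have := mem_ebx_iff hz
  unfold dd at h
  omega

theorem notblk {e z : Edg} {k : ℕ} (h : k < dd e z) : z ∉ blk (ps e) k := by
  intro hz
  have := mem_blk_iff hz
  unfold dd at h
  unfold ps at this
  simp only at this
  omega

theorem inblk {e z : Edg} {k : ℕ} (h : dd e z < k) : z ∈ blk (ps e) k := by
  apply mem_blk_of
  unfold dd at h
  unfold ps
  simp only
  omega

/-- Four arms of `f`. -/
theorem arm_self {e f g : Edg} {F : Finset Edg} {k : ℕ} (hk : 1 ≤ k) (hef : k + 1 ≤ dd e f)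
    (hg : k < dd f g)
    (h : Pv {src e} {tgt e} f (insert g (↑F : Set Edg)) ∨ Pv {src e} {tgt e} f (↑F : Set Edg)) :
    A4e k f (↑F : Set Edg) := by
  have ho := src_out (e := e) (c := (f.1, f.2.1)) (k := k) hef
  rcases h with h | h
  · have h1 := piv_self hk ho.1 ho.2 h
    exact (A4e_local (ins_inter (notebx hg))).1 h1
  · exact piv_self hk ho.1 ho.2 h

/-- Four arms of `e`. -/
theorem arm_center {e f g : Edg} {F : Finset Edg} {k : ℕ} (hk : 1 ≤ k) (hef : k < dd e f)
    (hg : k < dd e g) (heF : e ∉ F) (heg : e ≠ g)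
    (h : Pv {src e} {tgt e} f (insert g (↑F : Set Edg)) ∨ Pv {src e} {tgt e} f (↑F : Set Edg)) :
    A4e k e (↑F : Set Edg) := by
  rcases h with h | h
  · have h1 := piv_center hk (notebx hef) (by
      rintro (h1 | h1)
      · exact heg h1
      · exact heF (Finset.mem_coe.1 h1)) h
    exact (A4e_local (ins_inter (notebx hg))).1 h1
  · exact piv_center hk (notebx hef) (fun h1 => heF (Finset.mem_coe.1 h1)) h

/-- The annulus around `e`, the other edge `g` not in the annulus. -/
theorem arm_in {e f g : Edg} {F : Finset Edg} {d k : ℕ} (hdk : d ≤ k) (hd : 1 ≤ d)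
    (hf : k < dd e f) (hg : dd e g < d ∨ k < dd e g)
    (h : Pv {src e} {tgt e} f (insert g (↑F : Set Edg)) ∨ Pv {src e} {tgt e} f (↑F : Set Edg)) :
    A4a (ps e) d k (↑F : Set Edg) := by
  have hi := src_in (e := e) hd
  have hga : g ∉ blk (ps e) k \ blk (ps e) d := by
    intro h1
    rw [Finset.mem_sdiff] at h1
    rcases hg with hg | hg
    · exact h1.2 (inblk hg)
    · exact notblk hg h1.1
  rcases h with h | h
  · have h1 := piv_ann_in hdk hi.1 hi.2 (notblk hf) h
    exact (A4a_congr (ins_inter hga)).1 h1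
  · exact piv_ann_in hdk hi.1 hi.2 (notblk hf) h

/-- The annulus around `f`, the other edge `g` not in the annulus. -/
theorem arm_out {e f g : Edg} {F : Finset Edg} {d k : ℕ} (hdk : d ≤ k) (hd : 1 ≤ d)
    (hf : k + 1 ≤ dd e f) (hg : dd f g < d ∨ k < dd f g)
    (h : Pv {src e} {tgt e} f (insert g (↑F : Set Edg)) ∨ Pv {src e} {tgt e} f (↑F : Set Edg)) :
    A4a (ps f) d k (↑F : Set Edg) := by
  have ho := src_out (e := e) (c := ps f) (k := k) hf
  have hfb : f ∈ blk (ps f) d := inblk (by unfold dd; omega)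
  have hga : g ∉ blk (ps f) k \ blk (ps f) d := by
    intro h1
    rw [Finset.mem_sdiff] at h1
    rcases hg with hg | hg
    · exact h1.2 (inblk hg)
    · exact notblk hg h1.1
  rcases h with h | h
  · have h1 := piv_ann_out hdk ho.1 ho.2 hfb h
    exact (A4a_congr (ins_inter hga)).1 h1
  · exact piv_ann_out hdk ho.1 ho.2 hfb h

/-- The close pair is `f, g`. -/
theorem WE_case1 {n a b : ℕ} {e f g : Edg} (T : Tri a b f g e) {F : Finset Edg}
    (heF : e ∉ F) (hef : e ≠ f) (heg : e ≠ g) (h : WE e f g F) : Ev5 n a b f g e F := by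
  have h1 := T.uv
  have h2 := T.uh
  have h3 := T.vh
  have h4 := T.ab
  have hr4 := r4_spec b
  have c1 := dd_comm e f
  have c2 := dd_comm e g
  have c3 := dd_comm g f
  refine ⟨fun hk => ?_, fun hk => ?_, fun hk => ?_, fun hk => ?_, fun hk => ?_⟩
  · unfold r1 at hk ⊢
    exact arm_self hk (by omega) (by omega) h.1
  · unfold r1 at hk ⊢
    exact arm_self hk (by omega) (by omega) h.2
  · unfold r2 at hk ⊢
    exact arm_center hk (by omega) (by omega) heF heg h.1
  · unfold r3 at hk ⊢
    exact arm_out hk (by omega) (by omega) (by omega) h.1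
  · exact arm_in (by omega) (by omega) (by omega) (by omega) h.1

/-- The close pair is `e, f`. -/
theorem WE_case2 {n a b : ℕ} {e f g : Edg} (T : Tri a b e f g) {F : Finset Edg}
    (heF : e ∉ F) (heg : e ≠ g) (h : WE e f g F) : Ev5 n a b e f g F := by
  have h1 := T.uv
  have h2 := T.uh
  have h3 := T.vh
  have h4 := T.ab
  have hr4 := r4_spec b
  have c1 := dd_comm e f
  have c2 := dd_comm e g
  have c3 := dd_comm g f
  refine ⟨fun hk => ?_, fun hk => ?_, fun hk => ?_, fun hk => ?_, fun hk => ?_⟩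
  · unfold r1 at hk ⊢
    exact arm_center hk (by omega) (by omega) heF heg h.1
  · unfold r1 at hk ⊢
    exact arm_self hk (by omega) (by omega) h.1
  · unfold r2 at hk ⊢
    exact arm_self hk (by omega) (by omega) h.2
  · unfold r3 at hk ⊢
    exact arm_in hk (by omega) (by omega) (by omega) h.2
  · exact arm_out (by omega) (by omega) (by omega) (by omega) h.2

end Pool.Agent.NH39
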