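import Pool.Agent.NH39.T5

/-! Probability of the five local events. -/

set_option autoImplicit false

namespace Pool.Agent.NH39

open H974 H12S H389NS Finset
open Pool.Agent.NH39.NC (NCw nearNC A4a_q)

/-- The weight of a pair of scales. -/
noncomputable def wt (n a b : ℕ) : ℝ :=
  ((a:ℝ) + 1) ^ (-(5/4) : ℝ) * ((b:ℝ) + 1) ^ (-(5/2) : ℝ) *
    ((((min b n : ℕ):ℝ) + 1) / ((b:ℝ) + 1)) ^ (5/4 : ℝ)

theorem wt_nonneg (n a b : ℕ) : 0 ≤ wt n a b := by unfold wt; positivity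

theorem pr_Ax {q κ c C : ℝ} {n : ℕ} (hC : 0 < C) (hq : NCw q κ c C n) {k N : ℕ} {e : Edg}
    (hk : k ≤ n) (hkN : N ≤ 16 * (k + 1)) {U : Finset Edg} (hU : (ebx e k).erase e ⊆ U) :
    PQ q U (Ax k e) ≤ (1 + C * 32 ^ (5/4 : ℝ)) * 32 ^ (5/4 : ℝ) * ((N:ℝ) + 1) ^ (-(5/4) : ℝ) := by
  have q0 : 0 ≤ q := by linarith [hq.win.lo]
  have q1 : q ≤ 1 := by linarith [hq.win.hi]
  have ok := okq q0 q1
  have hX : 0 ≤ C * (32:ℝ) ^ (5/4 : ℝ) := by positivity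
  have hpow : (32 * ((k:ℝ) + 1)) ^ (-(5/4) : ℝ) ≤ ((N:ℝ) + 1) ^ (-(5/4) : ℝ) := by
    apply Real.rpow_le_rpow_of_nonpos (by positivity) _ (by norm_num)
    have : (N:ℝ) ≤ 16 * ((k:ℝ) + 1) := by exact_mod_cast hkN
    nlinarith
  have hpow2 : ((k:ℝ) + 1) ^ (-(5/4) : ℝ) ≤ 32 ^ (5/4 : ℝ) * ((N:ℝ) + 1) ^ (-(5/4) : ℝ) := by
    rw [Real.mul_rpow (by norm_num) (by positivity)] at hpow
    have h32 : (32:ℝ) ^ (5/4 : ℝ) * (32:ℝ) ^ (-(5/4) : ℝ) = 1 := by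
      rw [← Real.rpow_add (by norm_num)]; norm_num
    calc ((k:ℝ) + 1) ^ (-(5/4) : ℝ) = ((32:ℝ) ^ (5/4 : ℝ) * (32:ℝ) ^ (-(5/4) : ℝ)) *
          ((k:ℝ) + 1) ^ (-(5/4) : ℝ) := by rw [h32, one_mul]
      _ = (32:ℝ) ^ (5/4 : ℝ) * ((32:ℝ) ^ (-(5/4) : ℝ) * ((k:ℝ) + 1) ^ (-(5/4) : ℝ)) := by ring
      _ ≤ _ := mul_le_mul_of_nonneg_left hpow (by positivity)
  rcases Nat.eq_zero_or_pos k with h0 | h1
  · subst h0
    refine (Pr_le_one ok _ _).trans ?_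
    have e1 : ((0:ℕ):ℝ) + 1 = 1 := by norm_num
    rw [e1, Real.one_rpow] at hpow2
    calc (1:ℝ) ≤ 32 ^ (5/4 : ℝ) * ((N:ℝ) + 1) ^ (-(5/4) : ℝ) := hpow2
      _ = 1 * (32 ^ (5/4 : ℝ) * ((N:ℝ) + 1) ^ (-(5/4) : ℝ)) := by ring
      _ ≤ (1 + C * 32 ^ (5/4 : ℝ)) * (32 ^ (5/4 : ℝ) * ((N:ℝ) + 1) ^ (-(5/4) : ℝ)) := by
          apply mul_le_mul_of_nonneg_right _ (by positivity)
          linarith
      _ = _ := by ring
  · have e1 : PQ q U (Ax k e) = PQ q (ebx e k) (Ax k e) := by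
      show Pr _ _ _ = Pr _ _ _
      rw [(Ax_dep k e).pr hU, (Ax_dep k e).pr (Finset.erase_subset _ _)]
    rw [e1]
    have e2 : PQ q (ebx e k) (Ax k e) ≤ PQ q (ebx e k) (fun F => A4e k e ↑F) :=
      Pr_mono ok (fun F _ h => h h1)
    refine e2.trans ((pr_A4e q0 q1 (Finset.Subset.refl _)).trans ((hq.hi k h1 hk).trans ?_))
    have e3 : (k:ℝ) ^ (-(5/4) : ℝ) ≤ 32 ^ (5/4 : ℝ) * ((k:ℝ) + 1) ^ (-(5/4) : ℝ) := by
      have hk1 : (1:ℝ) ≤ k := by exact_mod_cast h1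
      have h2 : (32 * (k:ℝ)) ^ (-(5/4) : ℝ) ≤ ((k:ℝ) + 1) ^ (-(5/4) : ℝ) := by
        apply Real.rpow_le_rpow_of_nonpos (by positivity) _ (by norm_num)
        linarith
      rw [Real.mul_rpow (by norm_num) (by positivity)] at h2
      have h32 : (32:ℝ) ^ (5/4 : ℝ) * (32:ℝ) ^ (-(5/4) : ℝ) = 1 := by
        rw [← Real.rpow_add (by norm_num)]; norm_num
      calc (k:ℝ) ^ (-(5/4) : ℝ) = ((32:ℝ) ^ (5/4 : ℝ) * (32:ℝ) ^ (-(5/4) : ℝ)) *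
            (k:ℝ) ^ (-(5/4) : ℝ) := by rw [h32, one_mul]
        _ = (32:ℝ) ^ (5/4 : ℝ) * ((32:ℝ) ^ (-(5/4) : ℝ) * (k:ℝ) ^ (-(5/4) : ℝ)) := by ring
        _ ≤ _ := mul_le_mul_of_nonneg_left h2 (by positivity)
    calc C * (k:ℝ) ^ (-(5/4) : ℝ) ≤ C * (32 ^ (5/4 : ℝ) * ((k:ℝ) + 1) ^ (-(5/4) : ℝ)) :=
          mul_le_mul_of_nonneg_left e3 hC.le
      _ = (C * 32 ^ (5/4 : ℝ)) * ((k:ℝ) + 1) ^ (-(5/4) : ℝ) := by ring
      _ ≤ (C * 32 ^ (5/4 : ℝ)) * (32 ^ (5/4 : ℝ) * ((N:ℝ) + 1) ^ (-(5/4) : ℝ)) :=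
          mul_le_mul_of_nonneg_left hpow2 hX
      _ ≤ (1 + C * 32 ^ (5/4 : ℝ)) * (32 ^ (5/4 : ℝ) * ((N:ℝ) + 1) ^ (-(5/4) : ℝ)) := by
          apply mul_le_mul_of_nonneg_right _ (by positivity)
          linarith
      _ = _ := by ring

theorem pr_Ay {q κ c C K : ℝ} {n : ℕ} (hq : NCw q κ c C n) (hK : 0 < K)
    (h : ∀ (c0 : ℤ × ℤ) (d k : ℕ), 1 ≤ d → d ≤ k → k ≤ n →
      ∀ S : Finset Edg, blk c0 k ⊆ S →
        PQ q S (fun F => A4a c0 d k ↑F) ≤ K * ((d:ℝ) / k) ^ (5 / 4 : ℝ))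
    {a b : ℕ} (hab : a ≤ b) (c0 : ℤ × ℤ) {U : Finset Edg}
    (hU : blk c0 (r3 n b) \ blk c0 (2 * a + 2) ⊆ U) :
    PQ q U (Ay c0 (2 * a + 2) (r3 n b)) ≤
      (1 + K) * 16 ^ (5/4 : ℝ) * ((((min a n : ℕ):ℝ) + 1) / (((min b n : ℕ):ℝ) + 1)) ^ (5/4 : ℝ) := by
  have q0 : 0 ≤ q := by linarith [hq.win.lo]
  have q1 : q ≤ 1 := by linarith [hq.win.hi]
  have ok := okq q0 q1
  have hA : (0:ℝ) < ((min a n : ℕ):ℝ) + 1 := by positivity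
  have hB : (0:ℝ) < ((min b n : ℕ):ℝ) + 1 := by positivity
  rw [mul_assoc, ← Real.mul_rpow (by norm_num) (by positivity)]
  have triv : 1 / 16 ≤ (((min a n : ℕ):ℝ) + 1) / (((min b n : ℕ):ℝ) + 1) →
      PQ q U (Ay c0 (2 * a + 2) (r3 n b)) ≤
        (1 + K) * (16 * ((((min a n : ℕ):ℝ) + 1) / (((min b n : ℕ):ℝ) + 1))) ^ (5/4 : ℝ) := by
    intro h1
    refine (Pr_le_one ok _ _).trans ?_
    have h2 : (1:ℝ) ≤ (16 * ((((min a n : ℕ):ℝ) + 1) / (((min b n : ℕ):ℝ) + 1))) ^ (5/4 : ℝ) :=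
      Real.one_le_rpow (by linarith) (by norm_num)
    nlinarith
  by_cases hd : 2 * a + 2 ≤ r3 n b
  · have hk0 : 1 ≤ r3 n b := by omega
    have han : a ≤ n := by
      unfold r3 at hd; omega
    have e1 : PQ q U (Ay c0 (2 * a + 2) (r3 n b)) = PQ q (blk c0 (r3 n b))
        (Ay c0 (2 * a + 2) (r3 n b)) := by
      show Pr _ _ _ = Pr _ _ _
      rw [(Ay_dep _ _ _).pr hU, (Ay_dep _ _ _).pr Finset.sdiff_subset]
    have e2 : PQ q (blk c0 (r3 n b)) (Ay c0 (2 * a + 2) (r3 n b)) ≤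
        PQ q (blk c0 (r3 n b)) (fun F => A4a c0 (2 * a + 2) (r3 n b) ↑F) :=
      Pr_mono ok (fun F _ h => h hd)
    rw [e1]
    refine e2.trans ((h c0 (2 * a + 2) (r3 n b) (by omega) hd (by unfold r3; omega) _
      (Finset.Subset.refl _)).trans ?_)
    have e3 : ((2 * a + 2 : ℕ):ℝ) / (r3 n b : ℕ) ≤
        16 * ((((min a n : ℕ):ℝ) + 1) / (((min b n : ℕ):ℝ) + 1)) := by
      have hk : (0:ℝ) < (r3 n b : ℕ) := by exact_mod_cast hk0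
      rw [← mul_div_assoc, div_le_div_iff₀ hk hB]
      have g1 : min b n + 1 ≤ 8 * r3 n b := by unfold r3 at hk0 ⊢; omega
      have g2 : ((min b n : ℕ):ℝ) + 1 ≤ 8 * (r3 n b : ℕ) := by exact_mod_cast g1
      have g3 : min a n = a := min_eq_left han
      rw [g3]
      push_cast at g2 ⊢
      have : (0:ℝ) ≤ a := by positivity
      nlinarith
    have e4 : (((2 * a + 2 : ℕ):ℝ) / (r3 n b : ℕ)) ^ (5/4 : ℝ) ≤
        (16 * ((((min a n : ℕ):ℝ) + 1) / (((min b n : ℕ):ℝ) + 1))) ^ (5/4 : ℝ) :=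
      Real.rpow_le_rpow (by positivity) e3 (by norm_num)
    have e5 : (0:ℝ) ≤ (16 * ((((min a n : ℕ):ℝ) + 1) / (((min b n : ℕ):ℝ) + 1))) ^ (5/4 : ℝ) := by
      positivity
    nlinarith
  · apply triv
    rw [div_le_div_iff₀ (by norm_num) hB]
    have g1 : min b n + 1 ≤ 16 * (min a n + 1) := by
      unfold r3 at hd
      omega
    have g2 : ((min b n : ℕ):ℝ) + 1 ≤ 16 * (((min a n : ℕ):ℝ) + 1) := by exact_mod_cast g1
    linarith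

theorem exp_le_pow5 {x : ℝ} (hx : 0 < x) : Real.exp (-x) ≤ 120 / x ^ 5 := by
  have h := Real.pow_div_factorial_le_exp x hx.le 5
  rw [Real.exp_neg, inv_eq_one_div, div_le_div_iff₀ (Real.exp_pos _) (by positivity)]
  rw [div_le_iff₀ (by positivity)] at h
  have : ((Nat.factorial 5 : ℕ) : ℝ) = 120 := by norm_num [Nat.factorial]
  rw [this] at h
  linarith

theorem exp_ratio {c : ℝ} (hc : 0 < c) {n b : ℕ} (hn : 1 ≤ n) :
    Real.exp (-(c * ((b:ℝ) / n))) ≤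
      (1 + 120 / c ^ 5) * ((((min b n : ℕ):ℝ) + 1) / ((b:ℝ) + 1)) ^ 5 := by
  have hn0 : (0:ℝ) < n := by exact_mod_cast hn
  have hK : 0 ≤ 120 / c ^ 5 := by positivity
  rcases le_or_gt b n with h | h
  · rw [min_eq_left h, div_self (by positivity), one_pow, mul_one]
    have : Real.exp (-(c * ((b:ℝ) / n))) ≤ 1 := Real.exp_le_one_iff.2 (by
      have : 0 ≤ c * ((b:ℝ) / n) := by positivity
      linarith)
    linarith
  · rw [min_eq_right h.le]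
    have hb0 : (0:ℝ) < b := by exact_mod_cast (by omega : 0 < b)
    have hbn : (n:ℝ) ≤ b := by exact_mod_cast h.le
    refine (exp_le_pow5 (by positivity)).trans ?_
    have e1 : 120 / (c * ((b:ℝ) / n)) ^ 5 = 120 / c ^ 5 * ((n:ℝ) / b) ^ 5 := by
      field_simp
    rw [e1]
    have e2 : (n:ℝ) / b ≤ ((n:ℝ) + 1) / ((b:ℝ) + 1) := by
      rw [div_le_div_iff₀ hb0 (by positivity)]
      nlinarith
    have e3 : ((n:ℝ) / b) ^ 5 ≤ (((n:ℝ) + 1) / ((b:ℝ) + 1)) ^ 5 :=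
      pow_le_pow_left₀ (by positivity) e2 5
    have e4 : (0:ℝ) ≤ (((n:ℝ) + 1) / ((b:ℝ) + 1)) ^ 5 := by positivity
    nlinarith [mul_le_mul_of_nonneg_left e3 hK]

theorem pr_Az {q c C : ℝ} (q0 : 0 ≤ q) (q1 : q ≤ 1) (hc : 0 < c) (hC : 0 < C) {n : ℕ} (hn : 1 ≤ n)
    (h : ∀ (c0 : ℤ × ℤ) (d m : ℕ), d < m → ∀ S : Finset Edg, blk c0 (3 * m) ⊆ S →
      PQ q S (fun F => A4a c0 d (3 * m) ↑F) ≤ C * Real.exp (-(c * ((m:ℝ) / n))))
    (b : ℕ) (c0 : ℤ × ℤ) {U : Finset Edg}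
    (hU : blk c0 (3 * r4 b) \ blk c0 (r4 b - 1) ⊆ U) :
    PQ q U (Az c0 (r4 b)) ≤ (Real.exp c + C) * (1 + 120 / (c / 16) ^ 5) *
      ((((min b n : ℕ):ℝ) + 1) / ((b:ℝ) + 1)) ^ 5 := by
  have ok := okq q0 q1
  have hn0 : (1:ℝ) ≤ n := by exact_mod_cast hn
  rw [mul_assoc]
  refine le_trans ?_ (mul_le_mul_of_nonneg_left (exp_ratio (b := b) (by positivity : 0 < c / 16) hn)
    (by positivity))
  have hE := Real.exp_pos (-(c / 16 * ((b:ℝ) / n)))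
  rcases r4_spec b with ⟨hb, hr⟩ | ⟨hb, -⟩
  · have hr2 : 2 ≤ r4 b := by omega
    have e1 : PQ q U (Az c0 (r4 b)) = PQ q (blk c0 (3 * r4 b)) (Az c0 (r4 b)) := by
      show Pr _ _ _ = Pr _ _ _
      rw [(Az_dep _ _).pr hU, (Az_dep _ _).pr Finset.sdiff_subset]
    have e2 : PQ q (blk c0 (3 * r4 b)) (Az c0 (r4 b)) ≤
        PQ q (blk c0 (3 * r4 b)) (fun F => A4a c0 (r4 b - 1) (3 * r4 b) ↑F) :=
      Pr_mono ok (fun F _ h => h hr2)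
    rw [e1]
    refine e2.trans ((h c0 (r4 b - 1) (r4 b) (by omega) _ (Finset.Subset.refl _)).trans ?_)
    have e3 : Real.exp (-(c * ((r4 b : ℕ) / n : ℝ))) ≤ Real.exp (-(c / 16 * ((b:ℝ) / n))) := by
      apply Real.exp_le_exp.2
      have g1 : b ≤ 16 * r4 b := by omega
      have g2 : (b:ℝ) ≤ 16 * (r4 b : ℕ) := by exact_mod_cast g1
      have g3 : (b:ℝ) / n ≤ 16 * ((r4 b : ℕ) / n : ℝ) := by
        rw [← mul_div_assoc]
        exact div_le_div_of_nonneg_right g2 (by positivity)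
      nlinarith
    have := Real.exp_pos c
    nlinarith
  · refine (Pr_le_one ok _ _).trans ?_
    have e3 : Real.exp (-c) ≤ Real.exp (-(c / 16 * ((b:ℝ) / n))) := by
      apply Real.exp_le_exp.2
      have g2 : (b:ℝ) ≤ 16 := by exact_mod_cast hb.le
      have g3 : (b:ℝ) / n ≤ 16 := by
        rw [div_le_iff₀ (by positivity)]; nlinarith
      nlinarith
    have e4 : Real.exp c * Real.exp (-c) = 1 := by rw [← Real.exp_add]; simp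
    have := Real.exp_pos c
    nlinarith

/-- Rearrangement of the weights. -/
theorem wt_alg {n a b : ℕ} (hab : a ≤ b) :
    (((min a n : ℕ):ℝ) + 1) ^ (-(5/4) : ℝ) * ((((min a n : ℕ):ℝ) + 1) ^ (-(5/4) : ℝ) *
      ((((min b n : ℕ):ℝ) + 1) ^ (-(5/4) : ℝ) *
        (((((min a n : ℕ):ℝ) + 1) / (((min b n : ℕ):ℝ) + 1)) ^ (5/4 : ℝ) *
          ((((min b n : ℕ):ℝ) + 1) / ((b:ℝ) + 1)) ^ 5))) ≤ wt n a b := by
  unfold wt
  obtain ⟨A, hA⟩ : ∃ A : ℝ, A = (a:ℝ) + 1 := ⟨_, rfl⟩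
  obtain ⟨B, hB⟩ : ∃ B : ℝ, B = (b:ℝ) + 1 := ⟨_, rfl⟩
  obtain ⟨A', hA'⟩ : ∃ A' : ℝ, A' = ((min a n : ℕ):ℝ) + 1 := ⟨_, rfl⟩
  obtain ⟨B', hB'⟩ : ∃ B' : ℝ, B' = ((min b n : ℕ):ℝ) + 1 := ⟨_, rfl⟩
  rw [← hA, ← hB, ← hA', ← hB']
  have pA : 0 < A := by rw [hA]; positivity
  have pB : 0 < B := by rw [hB]; positivity
  have pA' : 0 < A' := by rw [hA']; positivity
  have pB' : 0 < B' := by rw [hB']; positivity
  have hrat : A / A' ≤ B / B' := by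
    rw [div_le_div_iff₀ pA' pB', hA, hB, hA', hB']
    have : (a + 1) * (min b n + 1) ≤ (b + 1) * (min a n + 1) := by
      rcases le_total b n with h | h
      · rw [min_eq_left h, min_eq_left (hab.trans h)]; nlinarith
      · rw [min_eq_right h]
        rcases le_total a n with h1 | h1
        · rw [min_eq_left h1]; nlinarith
        · rw [min_eq_right h1]; nlinarith
    exact_mod_cast this
  have h1 : A' ^ (-(5/4) : ℝ) ≤ A ^ (-(5/4) : ℝ) * (B / B') ^ (5/4 : ℝ) := by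
    have e1 : A' ^ (-(5/4) : ℝ) = A ^ (-(5/4) : ℝ) * (A / A') ^ (5/4 : ℝ) := by
      rw [Real.div_rpow pA.le pA'.le, Real.rpow_neg pA.le, Real.rpow_neg pA'.le]
      field_simp
    rw [e1]
    exact mul_le_mul_of_nonneg_left (Real.rpow_le_rpow (by positivity) hrat (by norm_num))
      (by positivity)
  have e5 : (B' / B) ^ 5 = (B' / B) ^ (5:ℝ) := by
    rw [← Real.rpow_natCast]; norm_num
  have e6 : (A' / B') ^ (5/4 : ℝ) = A' ^ (5/4 : ℝ) * B' ^ (-(5/4) : ℝ) := by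
    rw [Real.div_rpow pA'.le pB'.le, Real.rpow_neg pB'.le]; field_simp
  have e7 : A' ^ (-(5/4) : ℝ) * A' ^ (5/4 : ℝ) = 1 := by
    rw [← Real.rpow_add pA']; norm_num
  have e8 : B' ^ (-(5/4) : ℝ) * B' ^ (-(5/4) : ℝ) = B ^ (-(5/2) : ℝ) * (B / B') ^ (5/2 : ℝ) := by
    rw [← Real.rpow_add pB', Real.div_rpow pB.le pB'.le, Real.rpow_neg pB.le]
    have : B' ^ (-(5/4) + -(5/4) : ℝ) = (B' ^ (5/2 : ℝ))⁻¹ := by
      rw [← Real.rpow_neg pB'.le]; norm_num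
    rw [this]
    field_simp
  have e9 : (B / B') ^ (5/4 : ℝ) * ((B / B') ^ (5/2 : ℝ) * (B' / B) ^ (5:ℝ)) =
      (B' / B) ^ (5/4 : ℝ) := by
    have hr : (B' / B) = (B / B')⁻¹ := by rw [inv_div]
    have p : 0 < B / B' := by positivity
    rw [hr, Real.inv_rpow p.le, Real.inv_rpow p.le, ← Real.rpow_neg p.le, ← Real.rpow_neg p.le,
      ← Real.rpow_add p, ← Real.rpow_add p]
    norm_num
  calc A' ^ (-(5/4) : ℝ) * (A' ^ (-(5/4) : ℝ) * (B' ^ (-(5/4) : ℝ) *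
        ((A' / B') ^ (5/4 : ℝ) * (B' / B) ^ 5)))
      = A' ^ (-(5/4) : ℝ) * (A' ^ (-(5/4) : ℝ) * A' ^ (5/4 : ℝ)) *
        (B' ^ (-(5/4) : ℝ) * B' ^ (-(5/4) : ℝ)) * (B' / B) ^ (5:ℝ) := by rw [e5, e6]; ring
    _ = A' ^ (-(5/4) : ℝ) * (B ^ (-(5/2) : ℝ) * (B / B') ^ (5/2 : ℝ)) * (B' / B) ^ (5:ℝ) := by
        rw [e7, e8, mul_one]
    _ ≤ (A ^ (-(5/4) : ℝ) * (B / B') ^ (5/4 : ℝ)) * (B ^ (-(5/2) : ℝ) * (B / B') ^ (5/2 : ℝ)) *
        (B' / B) ^ (5:ℝ) := by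
        apply mul_le_mul_of_nonneg_right _ (by positivity)
        exact mul_le_mul_of_nonneg_right h1 (by positivity)
    _ = A ^ (-(5/4) : ℝ) * B ^ (-(5/2) : ℝ) *
        ((B / B') ^ (5/4 : ℝ) * ((B / B') ^ (5/2 : ℝ) * (B' / B) ^ (5:ℝ))) := by ring
    _ = _ := by rw [e9]

/-- Probability of the five events. -/
theorem Ev5_le : ∃ K s0 : ℝ, 1 ≤ K ∧ 0 < s0 ∧ s0 ≤ 1/4 ∧ ∀ q : ℝ, q ≠ 1/2 → |q - 1/2| ≤ s0 →
    ∃ n : ℕ, 1 ≤ n ∧ (n:ℝ) ≤ K * |q - 1/2| ^ (-(4/3) : ℝ) ∧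
      (∀ (c0 : ℤ × ℤ) (d m : ℕ), d < m → ∀ S : Finset Edg, blk c0 (3 * m) ⊆ S →
        PQ q S (fun F => A4a c0 d (3 * m) ↑F) ≤
          K * Real.exp (-(K⁻¹ * (m * |q - 1/2| ^ (4/3 : ℝ))))) ∧
      ∀ (a b : ℕ) (u v h : Edg), Tri a b u v h → ∀ U : Finset Edg, supp5 n a b u v h ⊆ U →
        PQ q U (Ev5 n a b u v h) ≤ K * wt n a b := by
  obtain ⟨κ, b0, c, C, hκ, hb0, hc, hC, hnear⟩ := nearNC
  obtain ⟨K1, hK1, hA4a⟩ := A4a_q hκ hc hC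
  obtain ⟨c2, C2, hc2, hC2, hdec⟩ := dec_A4a
  obtain ⟨c3, hc3⟩ : ∃ c3 : ℝ, c3 = c2 * (b0 ^ (4/3 : ℝ) / 2) := ⟨_, rfl⟩
  have hc3p : 0 < c3 := by rw [hc3]; positivity
  obtain ⟨Q1, hQ1⟩ : ∃ x : ℝ, x = (1 + C * 32 ^ (5/4 : ℝ)) * 32 ^ (5/4 : ℝ) := ⟨_, rfl⟩
  obtain ⟨Q2, hQ2⟩ : ∃ x : ℝ, x = (1 + K1) * 16 ^ (5/4 : ℝ) := ⟨_, rfl⟩
  obtain ⟨Q3, hQ3⟩ : ∃ x : ℝ, x = (Real.exp c3 + C2) * (1 + 120 / (c3 / 16) ^ 5) := ⟨_, rfl⟩
  have pQ1 : 0 < Q1 := by rw [hQ1]; positivity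
  have pQ2 : 0 < Q2 := by rw [hQ2]; positivity
  have pQ3 : 0 < Q3 := by rw [hQ3]; positivity
  obtain ⟨K, hK⟩ : ∃ K : ℝ, K = 1 + b0 ^ (4/3 : ℝ) + C2 + c2⁻¹ + Q1 * (Q1 * (Q1 * (Q2 * Q3))) :=
    ⟨_, rfl⟩
  have pb : 0 < b0 ^ (4/3 : ℝ) := by positivity
  have pc2 : 0 < c2⁻¹ := by positivity
  have pQ : 0 < Q1 * (Q1 * (Q1 * (Q2 * Q3))) := by positivity
  refine ⟨K, min b0 (1/4), by rw [hK]; linarith, by positivity, min_le_right _ _, ?_⟩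
  intro q hq hqs
  obtain ⟨s, hs⟩ : ∃ s : ℝ, s = |q - 1/2| := ⟨_, rfl⟩
  rw [← hs] at hqs ⊢
  have hs0 : 0 < s := by rw [hs]; exact abs_pos.2 (sub_ne_zero.2 hq)
  have hsb : s ≤ b0 := hqs.trans (min_le_left _ _)
  have hs4 : s ≤ 1/4 := hqs.trans (min_le_right _ _)
  have hqlo : 1/4 ≤ q := by rw [hs] at hs4; rw [abs_le] at hs4; linarith
  have hqhi : q ≤ 3/4 := by rw [hs] at hs4; rw [abs_le] at hs4; linarith
  have q0 : 0 ≤ q := by linarith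
  have q1 : q ≤ 1 := by linarith
  obtain ⟨X, hX⟩ : ∃ X : ℝ, X = (b0 / s) ^ (4/3 : ℝ) := ⟨_, rfl⟩
  have hbs : 1 ≤ b0 / s := by rw [le_div_iff₀ hs0]; linarith
  have hX1 : 1 ≤ X := by rw [hX]; exact Real.one_le_rpow hbs (by norm_num)
  obtain ⟨n, hn⟩ : ∃ n : ℕ, n = ⌊X⌋₊ := ⟨_, rfl⟩
  have hn1 : 1 ≤ n := by rw [hn]; exact Nat.le_floor (by simpa using hX1)
  have hnX : (n:ℝ) ≤ X := by rw [hn]; exact Nat.floor_le (by linarith)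
  have hXn : X ≤ 2 * n := by
    have h1 : X < n + 1 := by rw [hn]; exact Nat.lt_floor_add_one X
    have h2 : (1:ℝ) ≤ n := by exact_mod_cast hn1
    linarith
  have hn0 : (0:ℝ) < n := by exact_mod_cast hn1
  have hw : s ≤ b0 * (n:ℝ) ^ (-(3/4) : ℝ) := by
    have h1 : (n:ℝ) ^ (3/4 : ℝ) ≤ b0 / s := by
      calc (n:ℝ) ^ (3/4 : ℝ) ≤ X ^ (3/4 : ℝ) := Real.rpow_le_rpow hn0.le hnX (by norm_num)
        _ = b0 / s := by
          rw [hX, ← Real.rpow_mul (by positivity)]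
          norm_num
    rw [Real.rpow_neg hn0.le]
    rw [← div_eq_mul_inv, le_div_iff₀ (by positivity)]
    rw [le_div_iff₀ hs0] at h1
    linarith
  have hX2 : X = b0 ^ (4/3 : ℝ) * s ^ (-(4/3) : ℝ) := by
    rw [hX, Real.div_rpow hb0.le hs0.le, Real.rpow_neg hs0.le]; rfl
  have hNC := hnear n hn1 q (by rw [← hs]; exact hw)
  have hsn : b0 ^ (4/3 : ℝ) / 2 / n ≤ s ^ (4/3 : ℝ) := by
    rw [div_div, div_le_iff₀ (by positivity)]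
    have h1 : s ^ (4/3 : ℝ) * X = b0 ^ (4/3 : ℝ) := by
      rw [hX2]
      have : s ^ (4/3 : ℝ) * s ^ (-(4/3) : ℝ) = 1 := by
        rw [← Real.rpow_add hs0]; norm_num
      calc s ^ (4/3 : ℝ) * (b0 ^ (4/3 : ℝ) * s ^ (-(4/3) : ℝ)) =
          b0 ^ (4/3 : ℝ) * (s ^ (4/3 : ℝ) * s ^ (-(4/3) : ℝ)) := by ring
        _ = _ := by rw [this, mul_one]
    rw [← h1]
    exact mul_le_mul_of_nonneg_left hXn (by positivity)
  refine ⟨n, hn1, ?_, ?_, ?_⟩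
  · calc (n:ℝ) ≤ X := hnX
      _ = b0 ^ (4/3 : ℝ) * s ^ (-(4/3) : ℝ) := hX2
      _ ≤ K * s ^ (-(4/3) : ℝ) := by
        apply mul_le_mul_of_nonneg_right _ (by positivity)
        rw [hK]; linarith
  · intro c0 d m hdm S hS
    have h1 := hdec q hqlo hqhi c0 d m hdm S hS
    rw [← hs] at h1
    refine h1.trans ?_
    have hKc : K⁻¹ ≤ c2 := by
      rw [inv_le_comm₀ (by rw [hK]; linarith) hc2, hK]; linarith
    have h2 : Real.exp (-(c2 * (m * s ^ (4/3 : ℝ)))) ≤ Real.exp (-(K⁻¹ * (m * s ^ (4/3 : ℝ)))) := by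
      apply Real.exp_le_exp.2
      have : 0 ≤ (m:ℝ) * s ^ (4/3 : ℝ) := by positivity
      nlinarith
    have h3 : C2 ≤ K := by rw [hK]; linarith
    exact mul_le_mul h3 h2 (Real.exp_pos _).le (by linarith)
  · intro a b u v h T U hU
    have ok := okq q0 q1
    have s1 : (ebx u (r1 n a)).erase u ⊆ U :=
      fun z hz => hU (by unfold supp5; exact Finset.mem_union_left _ hz)
    have s2 : (ebx v (r1 n a)).erase v ⊆ U :=
      fun z hz => hU (by unfold supp5; exact Finset.mem_union_right _ (Finset.mem_union_left _ hz))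
    have s3 : (ebx h (r2 n b)).erase h ⊆ U :=
      fun z hz => hU (by unfold supp5; exact Finset.mem_union_right _ (Finset.mem_union_right _
        (Finset.mem_union_left _ hz)))
    have s4 : blk (ps u) (r3 n b) \ blk (ps u) (2 * a + 2) ⊆ U :=
      fun z hz => hU (by unfold supp5; exact Finset.mem_union_right _ (Finset.mem_union_right _
        (Finset.mem_union_right _ (Finset.mem_union_left _ hz))))
    have s5 : blk (ps h) (3 * (r4 b)) \ blk (ps h) (r4 b - 1) ⊆ U :=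
      fun z hz => hU (by unfold supp5; exact Finset.mem_union_right _ (Finset.mem_union_right _
        (Finset.mem_union_right _ (Finset.mem_union_right _ hz))))
    have hfive := Dep.five (Ax_dep (r1 n a) u) (Ax_dep (r1 n a) v) (Ax_dep (r2 n b) h)
      (Ay_dep (ps u) (2 * a + 2) (r3 n b)) (Az_dep (ps h) (r4 b)) s1 s2 s3 s4 s5
      T.d12 T.d13 T.d14 T.d15 T.d23 T.d24 T.d25 T.d34 T.d35 T.d45 (fun _ => q)
    have e0 : PQ q U (Ev5 n a b u v h) = PQ q U (Ax (r1 n a) u) * (PQ q U (Ax (r1 n a) v) *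
        (PQ q U (Ax (r2 n b) h) * (PQ q U (Ay (ps u) (2 * a + 2) (r3 n b)) *
          PQ q U (Az (ps h) (r4 b))))) := hfive
    rw [e0]
    have g1 : PQ q U (Ax (r1 n a) u) ≤ Q1 * (((min a n : ℕ):ℝ) + 1) ^ (-(5/4) : ℝ) := by
      rw [hQ1]; exact pr_Ax hC hNC (by unfold r1; omega) (by unfold r1; omega) s1
    have g2 : PQ q U (Ax (r1 n a) v) ≤ Q1 * (((min a n : ℕ):ℝ) + 1) ^ (-(5/4) : ℝ) := by
      rw [hQ1]; exact pr_Ax hC hNC (by unfold r1; omega) (by unfold r1; omega) s2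
    have g3 : PQ q U (Ax (r2 n b) h) ≤ Q1 * (((min b n : ℕ):ℝ) + 1) ^ (-(5/4) : ℝ) := by
      rw [hQ1]; exact pr_Ax hC hNC (by unfold r2; omega) (by unfold r2; omega) s3
    have g4 : PQ q U (Ay (ps u) (2 * a + 2) (r3 n b)) ≤
        Q2 * ((((min a n : ℕ):ℝ) + 1) / (((min b n : ℕ):ℝ) + 1)) ^ (5/4 : ℝ) := by
      rw [hQ2]; exact pr_Ay hNC hK1 (hA4a q n hNC) T.ab (ps u) s4
    have g5 : PQ q U (Az (ps h) (r4 b)) ≤
        Q3 * ((((min b n : ℕ):ℝ) + 1) / ((b:ℝ) + 1)) ^ 5 := by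
      rw [hQ3]
      refine pr_Az q0 q1 hc3p hC2 hn1 ?_ b (ps h) s5
      intro c0 d m hdm S hS
      have h1 := hdec q hqlo hqhi c0 d m hdm S hS
      rw [← hs] at h1
      refine h1.trans (mul_le_mul_of_nonneg_left (Real.exp_le_exp.2 ?_) hC2.le)
      have h2 : (m:ℝ) * (b0 ^ (4/3 : ℝ) / 2 / n) ≤ m * s ^ (4/3 : ℝ) :=
        mul_le_mul_of_nonneg_left hsn (by positivity)
      have h3 : c3 * ((m:ℝ) / n) = c2 * (m * (b0 ^ (4/3 : ℝ) / 2 / n)) := by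
        rw [hc3]; ring
      rw [h3]
      have := mul_le_mul_of_nonneg_left h2 hc2.le
      linarith
    have n1 : 0 ≤ PQ q U (Ax (r1 n a) v) := Pr_nonneg ok _ _
    have n2 : 0 ≤ PQ q U (Ax (r2 n b) h) := Pr_nonneg ok _ _
    have n3 : 0 ≤ PQ q U (Ay (ps u) (2 * a + 2) (r3 n b)) := Pr_nonneg ok _ _
    have n4 : 0 ≤ PQ q U (Az (ps h) (r4 b)) := Pr_nonneg ok _ _
    have m1 := mul_le_mul g4 g5 n4 (by positivity)
    have m2 := mul_le_mul g3 m1 (mul_nonneg n3 n4) (by positivity)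
    have m3 := mul_le_mul g2 m2 (mul_nonneg n2 (mul_nonneg n3 n4)) (by positivity)
    have m4 := mul_le_mul g1 m3 (mul_nonneg n1 (mul_nonneg n2 (mul_nonneg n3 n4))) (by positivity)
    refine m4.trans ?_
    have hwt := wt_alg (n := n) T.ab
    have e1 : ∀ x1 x2 x3 x4 x5 : ℝ, Q1 * x1 * (Q1 * x2 * (Q1 * x3 * (Q2 * x4 * (Q3 * x5)))) =
        (Q1 * (Q1 * (Q1 * (Q2 * Q3)))) * (x1 * (x2 * (x3 * (x4 * x5)))) := by
      intro x1 x2 x3 x4 x5; ring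
    rw [e1]
    refine (mul_le_mul_of_nonneg_left hwt pQ.le).trans ?_
    apply mul_le_mul_of_nonneg_right _ (wt_nonneg n a b)
    rw [hK]; linarith

end Pool.Agent.NH39
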