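import Pool.Agent.NH39.T6

/-! Sums over pairs of edges. -/

set_option autoImplicit false

namespace Pool.Agent.NH39

open H974 H12S H389NS Finset

theorem sum_rpow_le {t : ℝ} (ht : 0 < t) (ht1 : t ≤ 1) (m : ℕ) :
    ∑ k ∈ range m, ((k:ℝ) + 1) ^ (t - 1) ≤ (m:ℝ) ^ t / t := by
  induction m with
  | zero => simp; positivity
  | succ m ih =>
    rw [Finset.sum_range_succ]
    have hm : (0:ℝ) < (m:ℝ) + 1 := by positivity
    have h1 : (1 + -(1 / ((m:ℝ) + 1))) ^ t ≤ 1 + t * -(1 / ((m:ℝ) + 1)) :=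
      rpow_one_add_le_one_add_mul_self (by
        rw [neg_le_neg_iff, div_le_one hm]; linarith [(Nat.cast_nonneg m : (0:ℝ) ≤ m)]) ht.le ht1
    have e1 : 1 + -(1 / ((m:ℝ) + 1)) = (m:ℝ) / ((m:ℝ) + 1) := by field_simp; ring
    rw [e1, Real.div_rpow (by positivity) hm.le, div_le_iff₀ (by positivity)] at h1
    have e2 : ((m:ℝ) + 1) ^ (t - 1) = ((m:ℝ) + 1) ^ t / ((m:ℝ) + 1) := by
      rw [Real.rpow_sub hm, Real.rpow_one]
    rw [e2]
    push_cast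
    have h2 : (m:ℝ) ^ t / t ≤ ((m:ℝ) + 1) ^ t / t - ((m:ℝ) + 1) ^ t / ((m:ℝ) + 1) := by
      rw [div_le_iff₀ ht]
      refine h1.trans (le_of_eq ?_)
      field_simp
      ring
    linarith

theorem sum_tail_sq (n m : ℕ) (hn : 1 ≤ n) :
    ∑ k ∈ range m, (if n ≤ k then (((k:ℝ) + 1) ^ 2)⁻¹ else (0:ℝ)) ≤ 1 / (n:ℝ) := by
  have key : ∀ m : ℕ, ∑ k ∈ range m, (if n ≤ k then (((k:ℝ) + 1) ^ 2)⁻¹ else (0:ℝ)) ≤
      if n ≤ m then 1 / (n:ℝ) - 1 / m else 0 := by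
    intro m
    induction m with
    | zero =>
      rw [if_neg (by omega)]; simp
    | succ m ih =>
      rw [Finset.sum_range_succ]
      have hn0 : (0:ℝ) < n := by exact_mod_cast hn
      by_cases h : n ≤ m
      · have hm0 : (0:ℝ) < m := by exact_mod_cast (by omega : 0 < m)
        rw [if_pos h] at ih ⊢
        rw [if_pos (by omega)]
        have : (((m:ℝ) + 1) ^ 2)⁻¹ ≤ 1 / (m:ℝ) - 1 / ((m + 1 : ℕ):ℝ) := by
          push_cast
          rw [div_sub_div _ _ (by positivity) (by positivity), inv_eq_one_div,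
            div_le_div_iff₀ (by positivity) (by positivity)]
          nlinarith
        linarith
      · rw [if_neg h] at ih ⊢
        rw [add_zero]
        refine ih.trans ?_
        split_ifs with h2
        · have : n = m + 1 := by omega
          rw [this]; simp
        · exact le_rfl
  refine (key m).trans ?_
  split_ifs
  · have : (0:ℝ) ≤ 1 / (m:ℝ) := by positivity
    linarith
  · positivity

/-- The total weight. -/
theorem wt_sum {n : ℕ} (hn : 1 ≤ n) (M : ℕ) :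
    ∑ b ∈ range (M + 1), ∑ a ∈ range (M + 1),
      (((a:ℝ) + 1) * ((b:ℝ) + 1)) * (if a ≤ b then wt n a b else 0) ≤
        16 * (n:ℝ) ^ (1/4 : ℝ) := by
  have hn0 : (1:ℝ) ≤ n := by exact_mod_cast hn
  have step1 : ∀ b ∈ range (M + 1), ∑ a ∈ range (M + 1),
      (((a:ℝ) + 1) * ((b:ℝ) + 1)) * (if a ≤ b then wt n a b else 0) ≤
      4/3 * (((b:ℝ) + 1) ^ (-(3/4) : ℝ) *
        ((((min b n : ℕ):ℝ) + 1) / ((b:ℝ) + 1)) ^ (5/4 : ℝ)) := by
    intro b hb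
    rw [Finset.mem_range] at hb
    have e1 : ∀ a ∈ range (M + 1), (((a:ℝ) + 1) * ((b:ℝ) + 1)) * (if a ≤ b then wt n a b else 0) =
        (if a < b + 1 then ((a:ℝ) + 1) ^ ((3/4:ℝ) - 1) else 0) * (((b:ℝ) + 1) ^ (-(3/2) : ℝ) *
          ((((min b n : ℕ):ℝ) + 1) / ((b:ℝ) + 1)) ^ (5/4 : ℝ)) := by
      intro a _
      by_cases h : a ≤ b
      · rw [if_pos h, if_pos (by omega)]
        unfold wt
        have ha0 : (0:ℝ) < (a:ℝ) + 1 := by positivity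
        have hb0 : (0:ℝ) < (b:ℝ) + 1 := by positivity
        have g1 : ((a:ℝ) + 1) * ((a:ℝ) + 1) ^ (-(5/4) : ℝ) = ((a:ℝ) + 1) ^ ((3/4:ℝ) - 1) := by
          nth_rewrite 1 [← Real.rpow_one ((a:ℝ) + 1)]
          rw [← Real.rpow_add ha0]; norm_num
        have g2 : ((b:ℝ) + 1) * ((b:ℝ) + 1) ^ (-(5/2) : ℝ) = ((b:ℝ) + 1) ^ (-(3/2) : ℝ) := by
          nth_rewrite 1 [← Real.rpow_one ((b:ℝ) + 1)]
          rw [← Real.rpow_add hb0]; norm_num
        rw [← g1, ← g2]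
        ring
      · rw [if_neg h, if_neg (by omega), mul_zero, zero_mul]
    rw [Finset.sum_congr rfl e1, ← Finset.sum_mul]
    have e2 : ∑ a ∈ range (M + 1), (if a < b + 1 then ((a:ℝ) + 1) ^ ((3/4:ℝ) - 1) else 0) =
        ∑ a ∈ range (b + 1), ((a:ℝ) + 1) ^ ((3/4:ℝ) - 1) := by
      rw [← Finset.sum_filter]
      apply Finset.sum_congr _ (fun _ _ => rfl)
      ext a
      simp only [Finset.mem_filter, Finset.mem_range]
      omega
    rw [e2]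
    have h3 := sum_rpow_le (t := 3/4) (by norm_num) (by norm_num) (b + 1)
    have hb0 : (0:ℝ) < (b:ℝ) + 1 := by positivity
    have e4 : (((b + 1 : ℕ):ℝ)) ^ (3/4 : ℝ) / (3/4) * (((b:ℝ) + 1) ^ (-(3/2) : ℝ)) =
        4/3 * ((b:ℝ) + 1) ^ (-(3/4) : ℝ) := by
      push_cast
      have : ((b:ℝ) + 1) ^ (-(3/4) : ℝ) = ((b:ℝ) + 1) ^ (3/4 : ℝ) * ((b:ℝ) + 1) ^ (-(3/2) : ℝ) := by
        rw [← Real.rpow_add hb0]; norm_num
      rw [this]; ring
    calc (∑ a ∈ range (b + 1), ((a:ℝ) + 1) ^ ((3/4:ℝ) - 1)) * (((b:ℝ) + 1) ^ (-(3/2) : ℝ) *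
          ((((min b n : ℕ):ℝ) + 1) / ((b:ℝ) + 1)) ^ (5/4 : ℝ))
        ≤ ((((b + 1 : ℕ):ℝ)) ^ (3/4 : ℝ) / (3/4)) * (((b:ℝ) + 1) ^ (-(3/2) : ℝ) *
          ((((min b n : ℕ):ℝ) + 1) / ((b:ℝ) + 1)) ^ (5/4 : ℝ)) :=
          mul_le_mul_of_nonneg_right h3 (by positivity)
      _ = ((((b + 1 : ℕ):ℝ)) ^ (3/4 : ℝ) / (3/4) * (((b:ℝ) + 1) ^ (-(3/2) : ℝ))) *
          ((((min b n : ℕ):ℝ) + 1) / ((b:ℝ) + 1)) ^ (5/4 : ℝ) := by ring
      _ = _ := by rw [e4]; ring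
  refine (Finset.sum_le_sum step1).trans ?_
  rw [← Finset.mul_sum]
  have step2 : ∀ b ∈ range (M + 1), ((b:ℝ) + 1) ^ (-(3/4) : ℝ) *
        ((((min b n : ℕ):ℝ) + 1) / ((b:ℝ) + 1)) ^ (5/4 : ℝ) ≤
      (if b < n then ((b:ℝ) + 1) ^ ((1/4:ℝ) - 1) else 0) +
        (2 * n : ℝ) ^ (5/4 : ℝ) * (if n ≤ b then (((b:ℝ) + 1) ^ 2)⁻¹ else 0) := by
    intro b _
    have hb0 : (0:ℝ) < (b:ℝ) + 1 := by positivity
    by_cases h : b < n
    · rw [if_pos h, if_neg (by omega), min_eq_left h.le, div_self hb0.ne', Real.one_rpow, mul_zero,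
        add_zero, mul_one]
      apply le_of_eq
      norm_num
    · rw [if_neg h, if_pos (by omega), min_eq_right (by omega), zero_add,
        Real.div_rpow (by positivity) hb0.le]
      have h1 : ((n:ℝ) + 1) ^ (5/4 : ℝ) ≤ (2 * n : ℝ) ^ (5/4 : ℝ) :=
        Real.rpow_le_rpow (by positivity) (by linarith) (by norm_num)
      have e1 : ((b:ℝ) + 1) ^ (-(3/4) : ℝ) * (((n:ℝ) + 1) ^ (5/4 : ℝ) / ((b:ℝ) + 1) ^ (5/4 : ℝ)) =
          ((n:ℝ) + 1) ^ (5/4 : ℝ) * (((b:ℝ) + 1) ^ 2)⁻¹ := by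
        have : (((b:ℝ) + 1) ^ 2)⁻¹ = ((b:ℝ) + 1) ^ (-(3/4) : ℝ) * (((b:ℝ) + 1) ^ (5/4 : ℝ))⁻¹ := by
          rw [← Real.rpow_neg hb0.le, ← Real.rpow_add hb0, ← Real.rpow_natCast,
            ← Real.rpow_neg hb0.le]
          norm_num
        rw [this]; ring
      rw [e1]
      exact mul_le_mul_of_nonneg_right h1 (by positivity)
  have step3 := Finset.sum_le_sum step2
  rw [Finset.sum_add_distrib, ← Finset.mul_sum] at step3
  have h4 := sum_tail_sq n (M + 1) hn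
  have h5 : ∑ b ∈ range (M + 1), (if b < n then ((b:ℝ) + 1) ^ ((1/4:ℝ) - 1) else 0) ≤
      4 * (n:ℝ) ^ (1/4 : ℝ) := by
    calc ∑ b ∈ range (M + 1), (if b < n then ((b:ℝ) + 1) ^ ((1/4:ℝ) - 1) else 0)
        = ∑ b ∈ (range (M + 1)).filter (fun b => b < n), ((b:ℝ) + 1) ^ ((1/4:ℝ) - 1) := by
          rw [Finset.sum_filter]
      _ ≤ ∑ b ∈ range n, ((b:ℝ) + 1) ^ ((1/4:ℝ) - 1) := by
          apply Finset.sum_le_sum_of_subset_of_nonneg
          · intro b hb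
            rw [Finset.mem_filter] at hb
            exact Finset.mem_range.2 hb.2
          · intro b _ _; positivity
      _ ≤ (n:ℝ) ^ (1/4 : ℝ) / (1/4) := sum_rpow_le (by norm_num) (by norm_num) n
      _ = _ := by ring
  have h6 : (2 * n : ℝ) ^ (5/4 : ℝ) * (1 / n) ≤ 4 * (n:ℝ) ^ (1/4 : ℝ) := by
    have hnp : (0:ℝ) < n := by linarith
    rw [Real.mul_rpow (by norm_num) hnp.le]
    have g1 : (n:ℝ) ^ (5/4 : ℝ) * (1 / n) = (n:ℝ) ^ (1/4 : ℝ) := by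
      rw [one_div, ← Real.rpow_neg_one (n:ℝ), ← Real.rpow_add hnp]; norm_num
    have g2 : (2:ℝ) ^ (5/4 : ℝ) ≤ 4 := by
      calc (2:ℝ) ^ (5/4 : ℝ) ≤ (2:ℝ) ^ (2:ℝ) :=
            Real.rpow_le_rpow_of_exponent_le (by norm_num) (by norm_num)
        _ = 4 := by norm_num
    calc (2:ℝ) ^ (5/4 : ℝ) * (n:ℝ) ^ (5/4 : ℝ) * (1 / n) =
        (2:ℝ) ^ (5/4 : ℝ) * ((n:ℝ) ^ (5/4 : ℝ) * (1 / n)) := by ring
      _ ≤ 4 * (n:ℝ) ^ (1/4 : ℝ) := by
        rw [g1]; exact mul_le_mul_of_nonneg_right g2 (by positivity)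
  have h7 : (2 * n : ℝ) ^ (5/4 : ℝ) * ∑ b ∈ range (M + 1),
      (if n ≤ b then (((b:ℝ) + 1) ^ 2)⁻¹ else 0) ≤ (2 * n : ℝ) ^ (5/4 : ℝ) * (1 / n) :=
    mul_le_mul_of_nonneg_left h4 (by positivity)
  have h8 : (0:ℝ) ≤ (n:ℝ) ^ (1/4 : ℝ) := by positivity
  linarith

/-- Number of edges at a given distance. -/
theorem card_sphere (e : Edg) (b : ℕ) (Q : Finset Edg) :
    (Q.filter (fun f => dd e f = b)).card ≤ 18 * (b + 1) := by
  have h1 : Q.filter (fun f => dd e f = b) ⊆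
      (Finset.Icc (e.1 - b) (e.1 + b) ×ˢ (({e.2.1 - b, e.2.1 + b} : Finset ℤ) ×ˢ
        (Finset.univ : Finset Bool))) ∪
      (({e.1 - b, e.1 + b} : Finset ℤ) ×ˢ (Finset.Icc (e.2.1 - b) (e.2.1 + b) ×ˢ
        (Finset.univ : Finset Bool))) := by
    intro f hf
    rw [Finset.mem_filter] at hf
    have h := hf.2
    unfold dd at h
    simp only [Finset.mem_union, Finset.mem_product, Finset.mem_Icc, Finset.mem_insert,
      Finset.mem_singleton, Finset.mem_univ, and_true]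
    omega
  have h2 := Finset.card_le_card h1
  refine h2.trans ((Finset.card_union_le _ _).trans ?_)
  simp only [Finset.card_product, Int.card_Icc, Finset.card_univ, Fintype.card_bool]
  have c1 : ({e.2.1 - b, e.2.1 + b} : Finset ℤ).card ≤ 2 := Finset.card_le_two
  have c2 : ({e.1 - b, e.1 + b} : Finset ℤ).card ≤ 2 := Finset.card_le_two
  have c3 : (e.1 + b + 1 - (e.1 - b)).toNat = 2 * b + 1 := by omega
  have c4 : (e.2.1 + b + 1 - (e.2.1 - b)).toNat = 2 * b + 1 := by omega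
  rw [c3, c4]
  nlinarith

/-- Sum of a function of the distance. -/
theorem sum_dist (e : Edg) (M : ℕ) (Q : Finset Edg) (hQ : ∀ f ∈ Q, dd e f ≤ M) (φ : ℕ → ℝ)
    (hφ : ∀ b, 0 ≤ φ b) :
    ∑ f ∈ Q, φ (dd e f) ≤ 18 * ∑ b ∈ range (M + 1), ((b:ℝ) + 1) * φ b := by
  have h1 : ∑ f ∈ Q, φ (dd e f) = ∑ b ∈ range (M + 1), ∑ f ∈ Q.filter (fun f => dd e f = b),
      φ (dd e f) := by
    symm
    apply Finset.sum_fiberwise_of_maps_to
    intro f hf
    exact Finset.mem_range.2 (by have := hQ f hf; omega)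
  rw [h1, Finset.mul_sum]
  apply Finset.sum_le_sum
  intro b _
  have h2 : ∑ f ∈ Q.filter (fun f => dd e f = b), φ (dd e f) =
      ((Q.filter (fun f => dd e f = b)).card : ℝ) * φ b := by
    rw [← nsmul_eq_mul, ← Finset.sum_const]
    apply Finset.sum_congr rfl
    intro f hf
    rw [(Finset.mem_filter.1 hf).2]
  rw [h2]
  have h3 : ((Q.filter (fun f => dd e f = b)).card : ℝ) ≤ 18 * ((b:ℝ) + 1) := by
    exact_mod_cast card_sphere e b Q
  calc ((Q.filter (fun f => dd e f = b)).card : ℝ) * φ b ≤ 18 * ((b:ℝ) + 1) * φ b :=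
        mul_le_mul_of_nonneg_right h3 (hφ b)
    _ = _ := by ring

end Pool.Agent.NH39
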