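import Pool.Agent.NH39.T7

/-! The second derivative away from the critical point. -/

set_option autoImplicit false

namespace Pool.Agent.NH39

open H974 H12S H389NS Finset

theorem sum2 {e : Edg} {c : Edg → Edg} {M : ℕ} {Q : Finset Edg} (h1 : ∀ f ∈ Q, dd e f ≤ M)
    (h2 : ∀ f ∈ Q, ∀ g ∈ Q, dd (c f) g ≤ M) {ω : ℕ → ℕ → ℝ} (hω : ∀ x y, 0 ≤ ω x y) :
    ∑ f ∈ Q, ∑ g ∈ Q, ω (dd e f) (dd (c f) g) ≤
      324 * ∑ x ∈ range (M + 1), ∑ y ∈ range (M + 1), (((x:ℝ) + 1) * ((y:ℝ) + 1)) * ω x y := by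
  have s1 : ∀ f ∈ Q, ∑ g ∈ Q, ω (dd e f) (dd (c f) g) ≤
      18 * ∑ y ∈ range (M + 1), ((y:ℝ) + 1) * ω (dd e f) y := fun f hf =>
    sum_dist (c f) M Q (h2 f hf) (fun y => ω (dd e f) y) (fun y => hω _ y)
  refine (Finset.sum_le_sum s1).trans ?_
  refine (sum_dist e M Q h1 (fun x => 18 * ∑ y ∈ range (M + 1), ((y:ℝ) + 1) * ω x y) ?_).trans ?_
  · intro x
    have : 0 ≤ ∑ y ∈ range (M + 1), ((y:ℝ) + 1) * ω x y :=
      Finset.sum_nonneg (fun y _ => mul_nonneg (by positivity) (hω x y))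
    positivity
  · apply le_of_eq
    rw [Finset.mul_sum, Finset.mul_sum]
    apply Finset.sum_congr rfl
    intro x _
    rw [Finset.mul_sum, Finset.mul_sum, Finset.mul_sum, Finset.mul_sum]
    apply Finset.sum_congr rfl
    intro y _
    ring

/-- The six weights of a pair of edges. -/
noncomputable def Wt (n : ℕ) (e f g : Edg) : ℝ :=
  (if dd f g ≤ dd e f then wt n (dd f g) (dd e f) else 0) +
  (if dd f g ≤ dd e g then wt n (dd f g) (dd e g) else 0) +
  (if dd e f ≤ dd e g then wt n (dd e f) (dd e g) else 0) +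
  (if dd e f ≤ dd f g then wt n (dd e f) (dd f g) else 0) +
  (if dd e g ≤ dd e f then wt n (dd e g) (dd e f) else 0) +
  (if dd e g ≤ dd f g then wt n (dd e g) (dd f g) else 0)

theorem Wt_nonneg (n : ℕ) (e f g : Edg) : 0 ≤ Wt n e f g := by
  have key : ∀ (P : Prop) [Decidable P] (x y : ℕ), 0 ≤ (if P then wt n x y else 0) := by
    intro P _ x y
    split_ifs
    · exact wt_nonneg _ _ _
    · exact le_rfl
  unfold Wt
  have h1 := key (dd f g ≤ dd e f) (dd f g) (dd e f)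
  have h2 := key (dd f g ≤ dd e g) (dd f g) (dd e g)
  have h3 := key (dd e f ≤ dd e g) (dd e f) (dd e g)
  have h4 := key (dd e f ≤ dd f g) (dd e f) (dd f g)
  have h5 := key (dd e g ≤ dd e f) (dd e g) (dd e f)
  have h6 := key (dd e g ≤ dd f g) (dd e g) (dd f g)
  linarith

theorem Wt_sum {n : ℕ} (hn : 1 ≤ n) {e : Edg} {M : ℕ} {Q : Finset Edg}
    (h1 : ∀ f ∈ Q, dd e f ≤ M) (h2 : ∀ f ∈ Q, ∀ g ∈ Q, dd f g ≤ M) :
    ∑ f ∈ Q, ∑ g ∈ Q, Wt n e f g ≤ 31104 * (n:ℝ) ^ (1/4 : ℝ) := by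
  obtain ⟨ωa, hωa⟩ : ∃ ω : ℕ → ℕ → ℝ, ω = fun x y => if y ≤ x then wt n y x else 0 := ⟨_, rfl⟩
  obtain ⟨ωb, hωb⟩ : ∃ ω : ℕ → ℕ → ℝ, ω = fun x y => if x ≤ y then wt n x y else 0 := ⟨_, rfl⟩
  have na : ∀ x y, 0 ≤ ωa x y := by
    intro x y
    rw [hωa]
    simp only
    split_ifs
    · exact wt_nonneg _ _ _
    · exact le_rfl
  have nb : ∀ x y, 0 ≤ ωb x y := by
    intro x y
    rw [hωb]
    simp only
    split_ifs
    · exact wt_nonneg _ _ _
    · exact le_rfl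
  have hT := wt_sum hn M
  have ta : ∑ x ∈ range (M + 1), ∑ y ∈ range (M + 1), (((x:ℝ) + 1) * ((y:ℝ) + 1)) * ωa x y ≤
      16 * (n:ℝ) ^ (1/4 : ℝ) := by
    refine le_trans (le_of_eq ?_) hT
    rw [hωa]
    apply Finset.sum_congr rfl
    intro x _
    apply Finset.sum_congr rfl
    intro y _
    ring
  have tb : ∑ x ∈ range (M + 1), ∑ y ∈ range (M + 1), (((x:ℝ) + 1) * ((y:ℝ) + 1)) * ωb x y ≤
      16 * (n:ℝ) ^ (1/4 : ℝ) := by
    refine le_trans (le_of_eq ?_) hT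
    rw [hωb, Finset.sum_comm]
  have i1 := sum2 (e := e) (c := fun f => f) h1 h2 na
  have i2 := sum2 (e := e) (c := fun _ => e) h1 (fun f _ g hg => h1 g hg) nb
  have i3 := sum2 (e := e) (c := fun f => f) h1 h2 nb
  have i1' : ∑ f ∈ Q, ∑ g ∈ Q, ωa (dd e g) (dd f g) ≤
      324 * ∑ x ∈ range (M + 1), ∑ y ∈ range (M + 1), (((x:ℝ) + 1) * ((y:ℝ) + 1)) * ωa x y := by
    rw [Finset.sum_comm]
    refine le_trans (le_of_eq ?_) i1
    apply Finset.sum_congr rfl
    intro f _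
    apply Finset.sum_congr rfl
    intro g _
    rw [dd_comm g f]
  have i2' : ∑ f ∈ Q, ∑ g ∈ Q, ωb (dd e g) (dd e f) ≤
      324 * ∑ x ∈ range (M + 1), ∑ y ∈ range (M + 1), (((x:ℝ) + 1) * ((y:ℝ) + 1)) * ωb x y := by
    rw [Finset.sum_comm]
    exact i2
  have i3' : ∑ f ∈ Q, ∑ g ∈ Q, ωb (dd e g) (dd f g) ≤
      324 * ∑ x ∈ range (M + 1), ∑ y ∈ range (M + 1), (((x:ℝ) + 1) * ((y:ℝ) + 1)) * ωb x y := by
    rw [Finset.sum_comm]
    refine le_trans (le_of_eq ?_) i3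
    apply Finset.sum_congr rfl
    intro f _
    apply Finset.sum_congr rfl
    intro g _
    rw [dd_comm g f]
  have split : ∑ f ∈ Q, ∑ g ∈ Q, Wt n e f g =
      ∑ f ∈ Q, ∑ g ∈ Q, ωa (dd e f) (dd f g) + ∑ f ∈ Q, ∑ g ∈ Q, ωa (dd e g) (dd f g) +
      ∑ f ∈ Q, ∑ g ∈ Q, ωb (dd e f) (dd e g) + ∑ f ∈ Q, ∑ g ∈ Q, ωb (dd e f) (dd f g) +
      ∑ f ∈ Q, ∑ g ∈ Q, ωb (dd e g) (dd e f) + ∑ f ∈ Q, ∑ g ∈ Q, ωb (dd e g) (dd f g) := by
    rw [← Finset.sum_add_distrib, ← Finset.sum_add_distrib, ← Finset.sum_add_distrib,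
      ← Finset.sum_add_distrib, ← Finset.sum_add_distrib]
    apply Finset.sum_congr rfl
    intro f _
    rw [← Finset.sum_add_distrib, ← Finset.sum_add_distrib, ← Finset.sum_add_distrib,
      ← Finset.sum_add_distrib, ← Finset.sum_add_distrib]
    apply Finset.sum_congr rfl
    intro g _
    unfold Wt
    rw [hωa, hωb]
  rw [split]
  linarith

/-- The bound for a pair of edges. -/
theorem pair_le {q K : ℝ} {n : ℕ} (q0 : 0 ≤ q) (q1 : q ≤ 1) (hK : 0 < K)
    (hEv : ∀ (a b : ℕ) (u v h : Edg), Tri a b u v h → ∀ U : Finset Edg, supp5 n a b u v h ⊆ U →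
        PQ q U (Ev5 n a b u v h) ≤ K * wt n a b) {o : Bool} {f g : Edg} {N : ℕ}
    (hf : dd (0, 0, o) f ≤ N) (hg : dd (0, 0, o) g ≤ N) (hef : (0, 0, o) ≠ f)
    (heg : (0, 0, o) ≠ g) :
    PQ q ((((boxE (2 * N)).erase (0, 0, o)).erase f).erase g) (WE (0, 0, o) f g) ≤
      K * Wt n (0, 0, o) f g := by
  have ok := okq q0 q1
  obtain ⟨e, he⟩ : ∃ e : Edg, e = (0, 0, o) := ⟨_, rfl⟩
  rw [← he] at hf hg hef heg ⊢
  have pe : |e.1| ≤ N ∧ |e.2.1| ≤ N := by rw [he]; simp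
  have pf : |f.1| ≤ N ∧ |f.2.1| ≤ N := by
    rw [he] at hf; unfold dd at hf; simp only at hf
    rw [abs_le, abs_le]; omega
  have pg : |g.1| ≤ N ∧ |g.2.1| ≤ N := by
    rw [he] at hg; unfold dd at hg; simp only at hg
    rw [abs_le, abs_le]; omega
  have hfg : dd f g ≤ 2 * N := by
    obtain ⟨h1, h2⟩ := pf
    obtain ⟨h3, h4⟩ := pg
    rw [abs_le] at h1 h2 h3 h4
    unfold dd; omega
  have hsub : ∀ (T : Finset Edg), (T ⊆ boxE (2 * N) \ {e, f, g}) →
      T ⊆ (((boxE (2 * N)).erase e).erase f).erase g := by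
    intro T hT z hz
    have h := hT hz
    simp only [Finset.mem_sdiff, Finset.mem_insert, Finset.mem_singleton, not_or] at h
    simp only [Finset.mem_erase]
    exact ⟨h.2.2.2, h.2.2.1, h.2.1, h.1⟩
  have heF : ∀ F : Finset Edg, F ⊆ (((boxE (2 * N)).erase e).erase f).erase g → e ∉ F := by
    intro F hF h
    have := hF h
    simp at this
  have hw : ∀ (P : Prop) [Decidable P] (x y : ℕ), 0 ≤ (if P then wt n x y else 0) := by
    intro P _ x y
    split_ifs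
    · exact wt_nonneg _ _ _
    · exact le_rfl
  have w1 := hw (dd f g ≤ dd e f) (dd f g) (dd e f)
  have w2 := hw (dd f g ≤ dd e g) (dd f g) (dd e g)
  have w3 := hw (dd e f ≤ dd e g) (dd e f) (dd e g)
  have w4 := hw (dd e f ≤ dd f g) (dd e f) (dd f g)
  have w5 := hw (dd e g ≤ dd e f) (dd e g) (dd e f)
  have w6 := hw (dd e g ≤ dd f g) (dd e g) (dd f g)
  have c1 := dd_comm e f
  have c2 := dd_comm e g
  have c3 := dd_comm g f
  by_cases k1 : dd f g ≤ min (dd e f) (dd e g)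
  · have T : Tri (dd f g) (min (dd e f) (dd e g)) f g e :=
      ⟨rfl, by omega, by omega, k1⟩
    have hs := supp5_sub (n := n) T pf pg pe (by omega)
    have hs' := hsub _ (hs.trans (by
      intro z hz
      simp only [Finset.mem_sdiff, Finset.mem_insert, Finset.mem_singleton] at hz ⊢
      tauto))
    have h1 := hEv _ _ _ _ _ T _ hs'
    refine (Pr_mono ok (fun F hF h => WE_case1 T (heF F hF) hef heg h)).trans (h1.trans ?_)
    apply mul_le_mul_of_nonneg_left _ hK.le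
    unfold Wt
    rcases le_total (dd e f) (dd e g) with h | h
    · rw [min_eq_left h] at k1 ⊢
      rw [if_pos k1] at w1 ⊢
      linarith
    · rw [min_eq_right h] at k1 ⊢
      rw [if_pos k1] at w2 ⊢
      linarith
  · by_cases k2 : dd e f ≤ min (dd e g) (dd f g)
    · have T : Tri (dd e f) (min (dd e g) (dd f g)) e f g :=
        ⟨rfl, by omega, by omega, k2⟩
      have hs := supp5_sub (n := n) T pe pf pg (by omega)
      have hs' := hsub _ hs
      have h1 := hEv _ _ _ _ _ T _ hs'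
      refine (Pr_mono ok (fun F hF h => WE_case2 T (heF F hF) heg h)).trans (h1.trans ?_)
      apply mul_le_mul_of_nonneg_left _ hK.le
      unfold Wt
      rcases le_total (dd e g) (dd f g) with h | h
      · rw [min_eq_left h] at k2 ⊢
        rw [if_pos k2] at w3 ⊢
        linarith
      · rw [min_eq_right h] at k2 ⊢
        rw [if_pos k2] at w4 ⊢
        linarith
    · have k3 : dd e g ≤ min (dd e f) (dd f g) := by omega
      have T : Tri (dd e g) (min (dd e f) (dd f g)) e g f :=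
        ⟨rfl, by omega, by omega, k3⟩
      have hs := supp5_sub (n := n) T pe pg pf (by omega)
      have hs' := hsub _ (hs.trans (by
        intro z hz
        simp only [Finset.mem_sdiff, Finset.mem_insert, Finset.mem_singleton] at hz ⊢
        tauto))
      have h1 := hEv _ _ _ _ _ T _ hs'
      refine (Pr_mono ok (fun F hF h => WE_case2 T (heF F hF) hef (WE_symm h))).trans
        (h1.trans ?_)
      apply mul_le_mul_of_nonneg_left _ hK.le
      unfold Wt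
      rcases le_total (dd e f) (dd f g) with h | h
      · rw [min_eq_left h] at k3 ⊢
        rw [if_pos k3] at w5 ⊢
        linarith
      · rw [min_eq_right h] at k3 ⊢
        rw [if_pos k3] at w6 ⊢
        linarith

/-- The bound for a pair with one far edge. -/
theorem far_le {q K s : ℝ} (q0 : 0 ≤ q) (q1 : q ≤ 1) (hK : 0 < K) (hs : 0 ≤ s)
    (hdec : ∀ (c0 : ℤ × ℤ) (d m : ℕ), d < m → ∀ S : Finset Edg, blk c0 (3 * m) ⊆ S →
        PQ q S (fun F => A4a c0 d (3 * m) ↑F) ≤ K * Real.exp (-(K⁻¹ * (m * s))))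
    {o : Bool} {f g : Edg} {N : ℕ} (hN : 32 ≤ N)
    (hfg : N < dd (0, 0, o) f ∨ N < dd (0, 0, o) g) :
    PQ q ((((boxE (2 * N)).erase (0, 0, o)).erase f).erase g) (WE (0, 0, o) f g) ≤
      K * Real.exp (-(K⁻¹ / 32 * (N * s))) := by
  have ok := okq q0 q1
  obtain ⟨e, he⟩ : ∃ e : Edg, e = (0, 0, o) := ⟨_, rfl⟩
  rw [← he] at hfg ⊢
  -- one of the two edges is far
  obtain ⟨x, y, hx, hU, hWE⟩ : ∃ x y : Edg, N < dd e x ∧
      ((((boxE (2 * N)).erase e).erase f).erase g) = ((((boxE (2 * N)).erase e).erase x).erase y) ∧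
      ∀ F, WE e f g F → WE e x y F := by
    rcases hfg with h | h
    · exact ⟨f, g, h, rfl, fun _ h => h⟩
    · exact ⟨g, f, h, by rw [Finset.erase_right_comm], fun _ h => WE_symm h⟩
  rw [hU]
  refine (Pr_mono ok (fun F _ h => hWE F h)).trans ?_
  have key : ∀ m : ℕ, 2 ≤ m → N ≤ 32 * m → 3 * m ≤ N → (dd e y < m - 1 ∨ 3 * m < dd e y) →
      PQ q ((((boxE (2 * N)).erase e).erase x).erase y) (WE e x y) ≤
        K * Real.exp (-(K⁻¹ / 32 * (N * s))) := by
    intro m hm hNm h3m hy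
    have h1 : PQ q ((((boxE (2 * N)).erase e).erase x).erase y) (WE e x y) ≤
        PQ q ((((boxE (2 * N)).erase e).erase x).erase y) (Az (ps e) m) := by
      apply Pr_mono ok
      intro F _ h _
      exact arm_in (by omega) (by omega) (by omega) (by omega) h.1
    have hsub : blk (ps e) (3 * m) \ blk (ps e) (m - 1) ⊆
        (((boxE (2 * N)).erase e).erase x).erase y := by
      intro z hz
      rw [Finset.mem_sdiff] at hz
      rw [Finset.mem_erase, Finset.mem_erase, Finset.mem_erase]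
      refine ⟨?_, ?_, ?_, ?_⟩
      · rintro rfl
        rcases hy with hy | hy
        · exact hz.2 (inblk hy)
        · exact notblk hy hz.1
      · rintro rfl
        exact notblk (by omega) hz.1
      · rintro rfl
        exact hz.2 (inblk (by unfold dd; omega))
      · have h5 := hz.1
        unfold blk at h5
        unfold boxE
        rw [he] at h5
        unfold ps at h5
        refine RE_subset ?_ ?_ ?_ ?_ h5 <;> push_cast <;> omega
    have h2 : PQ q ((((boxE (2 * N)).erase e).erase x).erase y) (Az (ps e) m) =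
        PQ q (blk (ps e) (3 * m)) (Az (ps e) m) := by
      show Pr _ _ _ = Pr _ _ _
      rw [(Az_dep _ _).pr hsub, (Az_dep _ _).pr Finset.sdiff_subset]
    have h3 : PQ q (blk (ps e) (3 * m)) (Az (ps e) m) ≤
        PQ q (blk (ps e) (3 * m)) (fun F => A4a (ps e) (m - 1) (3 * m) ↑F) :=
      Pr_mono ok (fun F _ h => h hm)
    have h4 := hdec (ps e) (m - 1) m (by omega) _ (Finset.Subset.refl (blk (ps e) (3 * m)))
    rw [h2] at h1
    refine h1.trans (h3.trans (h4.trans ?_))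
    apply mul_le_mul_of_nonneg_left _ hK.le
    apply Real.exp_le_exp.2
    have h5 : (N:ℝ) ≤ 32 * m := by exact_mod_cast hNm
    have h6 : (N:ℝ) * s ≤ 32 * m * s := mul_le_mul_of_nonneg_right h5 hs
    have h7 : 0 < K⁻¹ := by positivity
    nlinarith
  by_cases hy : 3 * (N / 16) < dd e y
  · exact key (N / 16) (by omega) (by omega) (by omega) (Or.inr hy)
  · exact key (4 * (N / 16)) (by omega) (by omega) (by omega) (Or.inl (by omega))

theorem card_box (n : ℕ) : ((boxE n).card : ℝ) ≤ 2 * (2 * (n:ℝ) + 1) ^ 2 := by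
  have h1 : (boxE n).card ≤ (2 * n + 1) * ((2 * n + 1) * 2) := by
    have h : boxE n ⊆ Finset.Icc (-(n:ℤ)) n ×ˢ (Finset.Icc (-(n:ℤ)) n ×ˢ
        (Finset.univ : Finset Bool)) := by
      intro z hz
      unfold boxE at hz
      have := mem_RE_pos hz
      simp only [Finset.mem_product, Finset.mem_Icc, Finset.mem_univ, and_true]
      omega
    refine (Finset.card_le_card h).trans ?_
    simp only [Finset.card_product, Int.card_Icc, Finset.card_univ, Fintype.card_bool]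
    have c3 : ((n:ℤ) + 1 - -(n:ℤ)).toNat = 2 * n + 1 := by omega
    rw [c3]
  have h2 : ((boxE n).card : ℝ) ≤ (2 * (n : ℝ) + 1) * ((2 * (n : ℝ) + 1) * 2) := by
    exact_mod_cast h1
  linarith

/-- The second derivative. -/
theorem D2_bound : ∃ K s0 : ℝ, 0 < K ∧ 0 < s0 ∧ s0 ≤ 1/4 ∧ ∀ (o : Bool) (q : ℝ), q ≠ 1/2 →
    |q - 1/2| ≤ s0 → ∀ N : ℕ, 32 ≤ N →
      |D2 q ((boxE (2 * N)).erase (0, 0, o)) (fun F => ind (XE (0, 0, o) F))| ≤
        K * |q - 1/2| ^ (-(1/3) : ℝ) +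
          K * (N:ℝ) ^ 4 * Real.exp (-(K⁻¹ * (N * |q - 1/2| ^ (4/3 : ℝ)))) := by
  obtain ⟨K, s0, hK, hs0, hs4, hmain⟩ := Ev5_le
  have hK0 : 0 < K := by linarith
  refine ⟨62208 * (K * K) + 32 * K + 20000 * K, s0, by positivity, hs0, hs4, ?_⟩
  intro o q hq hqs N hN
  obtain ⟨n, hn1, hnK, hdec, hEv⟩ := hmain q hq hqs
  obtain ⟨s, hs⟩ : ∃ s : ℝ, s = |q - 1/2| := ⟨_, rfl⟩
  rw [← hs] at hqs hnK hdec ⊢
  have hsp : 0 < s := by rw [hs]; exact abs_pos.2 (sub_ne_zero.2 hq)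
  have hs4' : s ≤ 1/4 := hqs.trans hs4
  have q0 : 0 ≤ q := by rw [hs, abs_le] at hs4'; linarith
  have q1 : q ≤ 1 := by rw [hs, abs_le] at hs4'; linarith
  have ok := okq q0 q1
  obtain ⟨e, he⟩ : ∃ e : Edg, e = (0, 0, o) := ⟨_, rfl⟩
  rw [← he]
  obtain ⟨S, hS⟩ : ∃ S : Finset Edg, S = (boxE (2 * N)).erase e := ⟨_, rfl⟩
  rw [← hS]
  refine (D2_le q0 q1 e S).trans ?_
  obtain ⟨E, hE⟩ : ∃ E : ℝ, E = K * Real.exp (-(K⁻¹ / 32 * (N * s ^ (4/3 : ℝ)))) := ⟨_, rfl⟩
  have hE0 : 0 ≤ E := by rw [hE]; positivity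
  obtain ⟨Q, hQ⟩ : ∃ Q : Finset Edg, Q = S.filter (fun f => dd e f ≤ N) := ⟨_, rfl⟩
  have hQS : Q ⊆ S := by rw [hQ]; exact Finset.filter_subset _ _
  have hterm : ∀ f ∈ S, ∀ g ∈ S.erase f, PQ q ((S.erase f).erase g) (WE e f g) ≤
      (if f ∈ Q ∧ g ∈ Q then K * Wt n e f g else 0) + E := by
    intro f hf g hg
    have hfe : e ≠ f := by
      rw [hS] at hf; exact (Finset.ne_of_mem_erase hf).symm
    have hge : e ≠ g := by
      rw [hS] at hg; exact (Finset.ne_of_mem_erase (Finset.mem_of_mem_erase hg)).symm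
    by_cases h : f ∈ Q ∧ g ∈ Q
    · rw [if_pos h]
      rw [hQ, Finset.mem_filter, Finset.mem_filter] at h
      have h1 : PQ q ((S.erase f).erase g) (WE e f g) ≤ K * Wt n e f g := by
        rw [hS, he]
        rw [he] at h hfe hge
        exact pair_le q0 q1 hK0 hEv h.1.2 h.2.2 hfe hge
      linarith
    · rw [if_neg h, zero_add]
      have h1 : N < dd e f ∨ N < dd e g := by
        by_contra hc
        push Not at hc
        apply h
        rw [hQ, Finset.mem_filter, Finset.mem_filter]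
        exact ⟨⟨hf, hc.1⟩, ⟨Finset.mem_of_mem_erase hg, hc.2⟩⟩
      rw [hS, hE, he]
      rw [he] at h1
      exact far_le q0 q1 hK0 (by positivity) hdec hN h1
  have hsum : ∑ f ∈ S, ∑ g ∈ S.erase f, PQ q ((S.erase f).erase g) (WE e f g) ≤
      ∑ f ∈ S, ∑ g ∈ S, ((if f ∈ Q ∧ g ∈ Q then K * Wt n e f g else 0) + E) := by
    apply Finset.sum_le_sum
    intro f hf
    refine (Finset.sum_le_sum (hterm f hf)).trans ?_
    apply Finset.sum_le_sum_of_subset_of_nonneg (Finset.erase_subset _ _)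
    intro g _ _
    apply add_nonneg _ hE0
    split_ifs
    · exact mul_nonneg hK0.le (Wt_nonneg _ _ _ _)
    · exact le_rfl
  have hsplit : ∑ f ∈ S, ∑ g ∈ S, ((if f ∈ Q ∧ g ∈ Q then K * Wt n e f g else 0) + E) =
      K * ∑ f ∈ Q, ∑ g ∈ Q, Wt n e f g + (S.card:ℝ) * ((S.card:ℝ) * E) := by
    have e1 : ∑ f ∈ S, ∑ g ∈ S, (if f ∈ Q ∧ g ∈ Q then K * Wt n e f g else 0) =
        K * ∑ f ∈ Q, ∑ g ∈ Q, Wt n e f g := by
      rw [Finset.mul_sum]
      have e2 : ∀ f ∈ S, ∑ g ∈ S, (if f ∈ Q ∧ g ∈ Q then K * Wt n e f g else 0) =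
          if f ∈ Q then K * ∑ g ∈ Q, Wt n e f g else 0 := by
        intro f _
        by_cases hf : f ∈ Q
        · rw [if_pos hf, Finset.mul_sum]
          simp only [hf, true_and]
          rw [← Finset.sum_filter]
          apply Finset.sum_congr _ (fun _ _ => rfl)
          ext g
          rw [Finset.mem_filter]
          exact ⟨fun h => h.2, fun h => ⟨hQS h, h⟩⟩
        · rw [if_neg hf]
          apply Finset.sum_eq_zero
          intro g _
          rw [if_neg (fun h => hf h.1)]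
      rw [Finset.sum_congr rfl e2, ← Finset.sum_filter]
      apply Finset.sum_congr _ (fun _ _ => rfl)
      ext f
      rw [Finset.mem_filter]
      exact ⟨fun h => h.2, fun h => ⟨hQS h, h⟩⟩
    rw [← e1]
    simp only [Finset.sum_add_distrib, Finset.sum_const, nsmul_eq_mul]
  have hW : ∑ f ∈ Q, ∑ g ∈ Q, Wt n e f g ≤ 31104 * (n:ℝ) ^ (1/4 : ℝ) := by
    apply Wt_sum hn1 (M := 2 * N)
    · intro f hf
      rw [hQ, Finset.mem_filter] at hf
      omega
    · intro f hf g hg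
      rw [hQ, Finset.mem_filter] at hf hg
      have h1 := hf.2
      have h2 := hg.2
      rw [he] at h1 h2
      unfold dd at h1 h2 ⊢
      simp only at h1 h2
      omega
  have hn4 : (n:ℝ) ^ (1/4 : ℝ) ≤ K * s ^ (-(1/3) : ℝ) := by
    have hn0 : (0:ℝ) ≤ n := by positivity
    calc (n:ℝ) ^ (1/4 : ℝ) ≤ (K * s ^ (-(4/3) : ℝ)) ^ (1/4 : ℝ) :=
          Real.rpow_le_rpow hn0 hnK (by norm_num)
      _ = K ^ (1/4 : ℝ) * s ^ (-(1/3) : ℝ) := by
          rw [Real.mul_rpow hK0.le (by positivity), ← Real.rpow_mul hsp.le]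
          norm_num
      _ ≤ K * s ^ (-(1/3) : ℝ) := by
          apply mul_le_mul_of_nonneg_right _ (by positivity)
          calc K ^ (1/4 : ℝ) ≤ K ^ (1:ℝ) :=
                Real.rpow_le_rpow_of_exponent_le hK (by norm_num)
            _ = K := Real.rpow_one K
  have hcard : (S.card:ℝ) ≤ 100 * (N:ℝ) ^ 2 := by
    have h1 : (S.card:ℝ) ≤ ((boxE (2 * N)).card:ℝ) := by
      exact_mod_cast Finset.card_le_card (by rw [hS]; exact Finset.erase_subset _ _)
    refine h1.trans ((card_box (2 * N)).trans ?_)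
    have h2 : (1:ℝ) ≤ N := by exact_mod_cast (by omega : 1 ≤ N)
    push_cast
    nlinarith
  have hcc : (S.card:ℝ) * ((S.card:ℝ) * E) ≤ 10000 * (N:ℝ) ^ 4 * E := by
    have h1 : (0:ℝ) ≤ S.card := by positivity
    have h2 : (S.card:ℝ) * (S.card:ℝ) ≤ (100 * (N:ℝ) ^ 2) * (100 * (N:ℝ) ^ 2) :=
      mul_le_mul hcard hcard h1 (by positivity)
    calc (S.card:ℝ) * ((S.card:ℝ) * E) = ((S.card:ℝ) * (S.card:ℝ)) * E := by ring
      _ ≤ ((100 * (N:ℝ) ^ 2) * (100 * (N:ℝ) ^ 2)) * E := mul_le_mul_of_nonneg_right h2 hE0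
      _ = _ := by ring
  obtain ⟨K', hK'⟩ : ∃ K' : ℝ, K' = 62208 * (K * K) + 32 * K + 20000 * K := ⟨_, rfl⟩
  rw [← hK']
  have hKK : 0 < K * K := by positivity
  have hexp : Real.exp (-(K⁻¹ / 32 * (N * s ^ (4/3 : ℝ)))) ≤
      Real.exp (-(K'⁻¹ * (N * s ^ (4/3 : ℝ)))) := by
    apply Real.exp_le_exp.2
    have h1 : K'⁻¹ ≤ K⁻¹ / 32 := by
      rw [show K⁻¹ / 32 = (32 * K)⁻¹ by rw [mul_inv]; ring]
      apply inv_anti₀ (by positivity)
      rw [hK']; linarith
    have h2 : 0 ≤ (N:ℝ) * s ^ (4/3 : ℝ) := by positivity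
    nlinarith
  have p1 : 0 ≤ s ^ (-(1/3) : ℝ) := by positivity
  have f1 : 2 * (K * ∑ f ∈ Q, ∑ g ∈ Q, Wt n e f g) ≤ K' * s ^ (-(1/3) : ℝ) := by
    calc 2 * (K * ∑ f ∈ Q, ∑ g ∈ Q, Wt n e f g) ≤ 2 * (K * (31104 * (K * s ^ (-(1/3) : ℝ)))) := by
          have := mul_le_mul_of_nonneg_left (hW.trans (mul_le_mul_of_nonneg_left hn4 (by norm_num :
            (0:ℝ) ≤ 31104))) hK0.le
          linarith
      _ = 62208 * (K * K) * s ^ (-(1/3) : ℝ) := by ring
      _ ≤ K' * s ^ (-(1/3) : ℝ) := by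
          apply mul_le_mul_of_nonneg_right _ p1
          rw [hK']; linarith
  have f2 : 2 * ((S.card:ℝ) * ((S.card:ℝ) * E)) ≤
      K' * (N:ℝ) ^ 4 * Real.exp (-(K'⁻¹ * (N * s ^ (4/3 : ℝ)))) := by
    calc 2 * ((S.card:ℝ) * ((S.card:ℝ) * E)) ≤ 2 * (10000 * (N:ℝ) ^ 4 * E) := by linarith
      _ = (20000 * K) * (N:ℝ) ^ 4 * Real.exp (-(K⁻¹ / 32 * (N * s ^ (4/3 : ℝ)))) := by
          rw [hE]; ring
      _ ≤ K' * (N:ℝ) ^ 4 * Real.exp (-(K'⁻¹ * (N * s ^ (4/3 : ℝ)))) := by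
          apply mul_le_mul _ hexp (Real.exp_pos _).le
          · rw [hK']; positivity
          · apply mul_le_mul_of_nonneg_right _ (by positivity)
            rw [hK']; linarith
  have := hsum.trans (le_of_eq hsplit)
  linarith

end Pool.Agent.NH39
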