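import Pool.Agent.NH39.T13
import Pool.Agent.H974R2.Infinite

/-! The number of clusters of a box. -/

set_option autoImplicit false

namespace Pool.Agent.NH39

open H974 H12S H389NS Finset Filter Topology MeasureTheory

/-- The `n × n` box of vertices. -/
def vbox (n : ℕ) : Set (ℤ × ℤ) := Set.Ico 0 (n:ℤ) ×ˢ Set.Ico 0 (n:ℤ)

/-- The number of clusters of the model restricted to the `n × n` box. -/
noncomputable def numCl (n : ℕ) (ω : sqLattice.edgeSet → Bool) : ℕ :=
  Nat.card ((openGraph ω).induce (vbox n)).ConnectedComponent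

/-- The edges of the box. -/
noncomputable def BE (n : ℕ) : Finset Edg := RE 0 ((n:ℤ) - 1) 0 ((n:ℤ) - 1)

instance (n : ℕ) : Finite (vbox n) := by
  unfold vbox
  exact ((Set.finite_Ico _ _).prod (Set.finite_Ico _ _)).to_subtype

theorem card_vbox (n : ℕ) : Nat.card (vbox n) = n ^ 2 := by
  unfold vbox
  rw [Nat.card_coe_set_eq, Set.ncard_prod]
  have : (Set.Ico 0 (n:ℤ)).ncard = n := by
    rw [← Finset.coe_Ico, Set.ncard_coe_finset, Int.card_Ico]
    simp
  rw [this]; ring

/-- The relation of being joined in `F`. -/
def rel (n : ℕ) (F : Set Edg) : Setoid (vbox n) where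
  r u v := Reach F u.1 v.1
  iseqv := ⟨fun _ => Reach.refl _ _, fun h => h.symm, fun h h' => h.trans h'⟩

/-- The number of clusters of the box in the configuration `F`. -/
noncomputable def cc (n : ℕ) (F : Finset Edg) : ℕ := Nat.card (Quotient (rel n ↑F))

theorem mem_BE {n : ℕ} {e : Edg} : e ∈ BE n ↔ src e ∈ vbox n ∧ tgt e ∈ vbox n := by
  unfold BE vbox
  obtain ⟨x, y, _ | _⟩ := e
  · rw [mem_RE_false]
    simp only [src_mk, tgt_false, Set.mem_prod, Set.mem_Ico]
    omega
  · rw [mem_RE_true]
    simp only [src_mk, tgt_true, Set.mem_prod, Set.mem_Ico]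
    omega

/-- Reachability in the induced graph. -/
theorem induce_reach (n : ℕ) (ω : sqLattice.edgeSet → Bool) (u v : vbox n) :
    ((openGraph ω).induce (vbox n)).Reachable u v ↔ Reach (↑(FF (BE n) ω)) u.1 v.1 := by
  rw [SimpleGraph.reachable_iff_reflTransGen]
  constructor
  · intro h
    induction h with
    | refl => exact Reach.refl _ _
    | @tail w w' _ hs ih =>
      refine ih.trans (Adj.reach ?_)
      have h1 : (openGraph ω).Adj w.1 w'.1 := hs
      rw [openGraph_adj] at h1
      obtain ⟨e, he, hc⟩ := h1
      refine ⟨e, ?_, hc⟩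
      rw [FF_coe]
      refine ⟨he, ?_⟩
      rw [Finset.mem_coe, mem_BE]
      rcases hc with ⟨h3, h4⟩ | ⟨h3, h4⟩
      · rw [h3, h4]; exact ⟨w.2, w'.2⟩
      · rw [h3, h4]; exact ⟨w'.2, w.2⟩
  · intro h
    have key : ∀ z, Reach (↑(FF (BE n) ω)) u.1 z → ∃ hz : z ∈ vbox n,
        Relation.ReflTransGen ((openGraph ω).induce (vbox n)).Adj u ⟨z, hz⟩ := by
      intro z hz
      induction hz with
      | refl => exact ⟨u.2, Relation.ReflTransGen.refl⟩
      | @tail w w' _ hs ih =>
        obtain ⟨hw, hr⟩ := ih
        obtain ⟨e, he, hc⟩ := hs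
        rw [FF_coe] at he
        obtain ⟨he1, he2⟩ := he
        rw [Finset.mem_coe, mem_BE] at he2
        have hw' : w' ∈ vbox n := by
          rcases hc with ⟨h3, h4⟩ | ⟨h3, h4⟩
          · rw [← h4]; exact he2.2
          · rw [← h3]; exact he2.1
        refine ⟨hw', hr.tail ?_⟩
        show (openGraph ω).Adj w w'
        rw [openGraph_adj]
        exact ⟨e, he1, hc⟩
    obtain ⟨_, hr⟩ := key v.1 h
    exact hr

theorem numCl_eq (n : ℕ) (ω : sqLattice.edgeSet → Bool) : numCl n ω = cc n (FF (BE n) ω) := by
  unfold numCl cc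
  have : ((openGraph ω).induce (vbox n)).Reachable = (rel n ↑(FF (BE n) ω)).r := by
    funext u v
    exact propext (induce_reach n ω u v)
  show Nat.card (Quot ((openGraph ω).induce (vbox n)).Reachable) =
    Nat.card (Quot (rel n ↑(FF (BE n) ω)).r)
  rw [this]

/-- The expected number of clusters as a finite sum. -/
theorem integral_eq (p : unitInterval) (S : Finset Edg) (f : Finset Edg → ℝ) :
    ∫ ω, f (FF S ω) ∂(bondLaw p) = Ex (fun _ => (p:ℝ)) S f := by
  classical
  have h1 : ∀ ω : sqLattice.edgeSet → Bool, f (FF S ω) =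
      ∑ T ∈ S.powerset, Set.indicator {ω | FF S ω = T} (fun _ => f T) ω := by
    intro ω
    rw [Finset.sum_eq_single (FF S ω)]
    · rw [Set.indicator_of_mem]
      rfl
    · intro T _ hT
      rw [Set.indicator_of_notMem]
      intro h
      exact hT (show FF S ω = T from h).symm
    · intro h
      exact absurd (Finset.mem_powerset.2 (Finset.filter_subset _ _)) h
  simp_rw [h1]
  rw [integral_finsetSum]
  · unfold Ex
    apply Finset.sum_congr rfl
    intro T hT
    rw [integral_indicator (meas_FF S T), integral_const, smul_eq_mul,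
      measureReal_restrict_apply MeasurableSet.univ, Set.univ_inter,
      law_eq p (Finset.mem_powerset.1 hT)]
  · intro T _
    exact (integrable_const (f T)).indicator (meas_FF S T)

/-- The mean number of clusters. -/
theorem mean_eq (p : unitInterval) (n : ℕ) :
    ∫ ω, (numCl n ω : ℝ) ∂(bondLaw p) = Ex (fun _ => (p:ℝ)) (BE n) (fun F => (cc n F : ℝ)) := by
  rw [← integral_eq]
  simp_rw [numCl_eq]

theorem cc_mono_rel {n : ℕ} {F G : Finset Edg} (h : F ⊆ G) {u v : vbox n}
    (huv : (rel n ↑F).r u v) : (rel n ↑G).r u v :=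
  Reach.mono (by exact_mod_cast h) huv

/-- Adding an edge. -/
theorem cc_insert {n : ℕ} {e : Edg} (he : e ∈ BE n) {F : Finset Edg} (heF : e ∉ F) :
    (cc n (insert e F) : ℝ) - cc n F = -(1 - ind (XE e F)) := by
  classical
  have hsub : F ⊆ insert e F := Finset.subset_insert _ _
  have heq : (↑F : Set Edg) \ {e} = ↑F := by
    ext g
    constructor
    · rintro ⟨h, -⟩; exact h
    · intro h
      refine ⟨h, ?_⟩
      rintro rfl
      exact heF (Finset.mem_coe.1 h)
  have hins : ∀ u v : Vtx, Reach (↑(insert e F) : Set Edg) u v →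
      Reach (↑F : Set Edg) u v ∨ (Reach (↑F : Set Edg) u (src e) ∧ Reach (↑F : Set Edg) (tgt e) v) ∨
      (Reach (↑F : Set Edg) u (tgt e) ∧ Reach (↑F : Set Edg) (src e) v) := by
    intro u v h
    rw [Finset.coe_insert] at h
    have := reach_insert h
    rwa [heq] at this
  by_cases hX : XE e F
  · rw [ind_of hX]
    have h1 : cc n (insert e F) = cc n F := by
      unfold cc
      have : rel n ↑(insert e F) = rel n ↑F := by
        ext u v
        constructor
        · intro h
          rcases hins _ _ h with h1 | ⟨h1, h2⟩ | ⟨h1, h2⟩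
          · exact h1
          · exact h1.trans (Reach.trans hX h2)
          · exact h1.trans (Reach.trans hX.symm h2)
        · intro h; exact cc_mono_rel hsub h
      rw [this]
    rw [h1]; ring
  · rw [ind_not_of hX]
    obtain ⟨hs, ht⟩ := mem_BE.1 he
    obtain ⟨a, ha⟩ : ∃ a : vbox n, a = ⟨src e, hs⟩ := ⟨_, rfl⟩
    obtain ⟨b, hb⟩ : ∃ b : vbox n, b = ⟨tgt e, ht⟩ := ⟨_, rfl⟩
    have hab : ¬ (rel n ↑F).r a b := by
      intro h
      rw [ha, hb] at h
      exact hX h
    -- the map from classes of `F` different from the class of `b`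
    have hbij : Nat.card {q : Quotient (rel n ↑F) // q ≠ Quotient.mk _ b} =
        cc n (insert e F) := by
      unfold cc
      apply Nat.card_eq_of_bijective (fun q : {q : Quotient (rel n ↑F) // q ≠ Quotient.mk _ b} =>
        Quotient.map' (s₁ := rel n ↑F) (s₂ := rel n ↑(insert e F)) id
          (fun u v h => cc_mono_rel hsub h) q.1)
      constructor
      · rintro ⟨q1, h1⟩ ⟨q2, h2⟩ h
        apply Subtype.ext
        simp only at h
        induction q1 using Quotient.inductionOn with
        | h u =>
        induction q2 using Quotient.inductionOn with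
        | h v =>
        have h3 : (rel n ↑(insert e F)).r u v := Quotient.exact h
        have hu : ¬ Reach (↑F : Set Edg) u.1 (tgt e) := by
          intro h4
          apply h1
          apply Quotient.sound
          show Reach _ _ _
          rw [hb]; exact h4
        have hv : ¬ Reach (↑F : Set Edg) (tgt e) v.1 := by
          intro h4
          apply h2
          apply Quotient.sound
          show Reach _ _ _
          rw [hb]; exact h4.symm
        apply Quotient.sound
        rcases hins _ _ h3 with h4 | ⟨-, h4⟩ | ⟨h4, -⟩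
        · exact h4
        · exact absurd h4 hv
        · exact absurd h4 hu
      · intro q
        induction q using Quotient.inductionOn with
        | h u =>
        by_cases hu : (rel n ↑F).r u b
        · refine ⟨⟨Quotient.mk _ a, ?_⟩, ?_⟩
          · intro h
            exact hab (Quotient.exact h)
          · apply Quotient.sound
            show Reach _ _ _
            have h1 : Reach (↑(insert e F) : Set Edg) (src e) (tgt e) :=
              Adj.reach ⟨e, by simp, Or.inl ⟨rfl, rfl⟩⟩
            have h2 : Reach (↑(insert e F) : Set Edg) (tgt e) u.1 := by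
              have h3 : Reach (↑F : Set Edg) u.1 (tgt e) := by
                have : Reach (↑F : Set Edg) u.1 b.1 := hu
                rwa [hb] at this
              exact (cc_mono_rel hsub (u := u) (v := ⟨tgt e, ht⟩) h3).symm
            have h4 : Reach (↑(insert e F) : Set Edg) a.1 u.1 := by
              rw [ha]; exact h1.trans h2
            exact h4
        · refine ⟨⟨Quotient.mk _ u, fun h => hu (Quotient.exact h)⟩, rfl⟩
    have hcard : Nat.card {q : Quotient (rel n ↑F) // q ≠ Quotient.mk _ b} + 1 = cc n F := by
      unfold cc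
      have h1 : Nat.card {q : Quotient (rel n ↑F) // q ≠ Quotient.mk _ b} =
          ({Quotient.mk (rel n ↑F) b}ᶜ : Set (Quotient (rel n ↑F))).ncard := by
        rw [← Nat.card_coe_set_eq]
        rfl
      rw [h1, Set.ncard_compl, Set.ncard_singleton]
      have : 0 < Nat.card (Quotient (rel n ↑F)) := by
        have : Nonempty (Quotient (rel n ↑F)) := ⟨Quotient.mk _ b⟩
        exact Nat.card_pos
      omega
    rw [← hbij]
    have : (cc n F : ℝ) = (Nat.card {q : Quotient (rel n ↑F) // q ≠ Quotient.mk _ b} : ℝ) + 1 := by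
      exact_mod_cast hcard.symm
    rw [this]; ring

theorem cc_empty (n : ℕ) : cc n ∅ = n ^ 2 := by
  unfold cc
  rw [← card_vbox]
  symm
  apply Nat.card_eq_of_bijective (fun u : vbox n => Quotient.mk (rel n ↑(∅ : Finset Edg)) u)
  constructor
  · intro u v h
    have h1 : Reach (↑(∅ : Finset Edg) : Set Edg) u.1 v.1 := Quotient.exact h
    have h2 : ∀ z, Reach (↑(∅ : Finset Edg) : Set Edg) u.1 z → z = u.1 := by
      intro z hz
      induction hz with
      | refl => rfl
      | tail _ hs _ =>
        obtain ⟨e, he, -⟩ := hs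
        simp at he
    exact Subtype.ext (h2 _ h1).symm
  · intro q
    induction q using Quotient.inductionOn with
    | h u => exact ⟨u, rfl⟩

theorem Ex_zero {E : Type*} [DecidableEq E] (S : Finset E) (f : Finset E → ℝ) :
    Ex (fun _ : E => (0:ℝ)) S f = f ∅ := by
  induction S using Finset.induction_on generalizing f with
  | empty => rw [Ex_empty]
  | insert a S ha ih => rw [Ex_insert _ ha, ih, ih]; ring

/-- The probability that the ends of an edge are joined off the edge in the box. -/
noncomputable def ce (n : ℕ) (e : Edg) (p : ℝ) : ℝ := PQ p ((BE n).erase e) (XE e)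

/-- Derivative of the mean number of clusters. -/
theorem mean_deriv (n : ℕ) (p : ℝ) :
    HasDerivAt (fun p => Ex (fun _ => p) (BE n) (fun F => (cc n F : ℝ)))
      (-∑ e ∈ BE n, (1 - ce n e p)) p := by
  have h := D1_deriv (BE n) (fun F => (cc n F : ℝ)) p
  have h1 : D1 p (BE n) (fun F => (cc n F : ℝ)) = -∑ e ∈ BE n, (1 - ce n e p) := by
    unfold D1
    rw [← Finset.sum_neg_distrib]
    apply Finset.sum_congr rfl
    intro e he
    have h2 : Ex (fun _ => p) ((BE n).erase e) (fun F => (cc n (insert e F) : ℝ) - cc n F) =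
        Ex (fun _ => p) ((BE n).erase e) (fun F => -1 * (1 - ind (XE e F))) := by
      apply Ex_congr
      intro F hF
      rw [cc_insert he (fun h => by have := hF h; simp at this)]
      ring
    rw [h2, Ex_mul_left, Ex_sub, Ex_const]
    unfold ce
    show -1 * (1 - Pr (fun _ => p) ((BE n).erase e) (XE e)) = _
    ring
  rw [h1] at h
  exact h

end Pool.Agent.NH39
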