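import Pool.Agent.NH39.U1

/-! The mean number of clusters per vertex. -/

set_option autoImplicit false

namespace Pool.Agent.NH39

open H974 H12S H389NS Finset Filter Topology MeasureTheory

theorem XE_trl (s t : ℤ) (e : Edg) (F : Finset Edg) :
    XE ((trl s t).φ e) ((trl s t).mp F) ↔ XE e F := by
  unfold XE
  rw [LSym.coe_mp, LP_src_trl, LP_tgt_trl, LSym.reach_iff]

/-- The translated box. -/
theorem GN_trl (x y : ℤ) (o : Bool) (N : ℕ) (p : ℝ) :
    PQ p ((RE (x - N) (x + N) (y - N) (y + N)).erase (x, y, o)) (XE (x, y, o)) =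
      GN (0, 0, o) N p := by
  have h1 : (RE (x - N) (x + N) (y - N) (y + N)).erase (x, y, o) =
      (trl x y).mp ((boxE N).erase (0, 0, o)) := by
    ext g
    rw [LSym.mem_mp, Finset.mem_erase, Finset.mem_erase]
    unfold boxE
    obtain ⟨u, v, _ | _⟩ := g
    · rw [trl_φs, mem_RE_false, mem_RE_false]
      simp only [ne_eq, Prod.mk.injEq]
      constructor
      · rintro ⟨h1, h2⟩
        refine ⟨?_, by omega⟩
        rintro ⟨h3, h4, h5⟩
        exact h1 ⟨by omega, by omega, h5⟩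
      · rintro ⟨h1, h2⟩
        refine ⟨?_, by omega⟩
        rintro ⟨h3, h4, h5⟩
        exact h1 ⟨by omega, by omega, h5⟩
    · rw [trl_φs, mem_RE_true, mem_RE_true]
      simp only [ne_eq, Prod.mk.injEq]
      constructor
      · rintro ⟨h1, h2⟩
        refine ⟨?_, by omega⟩
        rintro ⟨h3, h4, h5⟩
        exact h1 ⟨by omega, by omega, h5⟩
      · rintro ⟨h1, h2⟩
        refine ⟨?_, by omega⟩
        rintro ⟨h3, h4, h5⟩
        exact h1 ⟨by omega, by omega, h5⟩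
  rw [h1]
  unfold GN
  show Pr (fun _ => p) ((trl x y).mp ((boxE N).erase (0, 0, o))) (XE (x, y, o)) = _
  rw [LSym.pr]
  apply Pr_congr
  intro F _
  have : ((x, y, o) : Edg) = (trl x y).φ (0, 0, o) := by simp
  rw [this, XE_trl]

theorem ce_upper {p : ℝ} (h0 : 0 ≤ p) (h1 : p ≤ 1) {n : ℕ} {x y : ℤ} {o : Bool}
    (he : (x, y, o) ∈ BE n) : ce n (x, y, o) p ≤ gam o p := by
  refine le_trans ?_ (GN_le_gam h0 h1 o n)
  rw [← GN_trl x y o n p]
  unfold ce
  apply Pr_mono_set (okq h0 h1) _ (XE_incr _ _)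
  apply Finset.erase_subset_erase
  unfold BE at he ⊢
  have := mem_RE_pos he
  simp only at this
  exact RE_subset (by omega) (by omega) (by omega) (by omega)

theorem ce_lower {p : ℝ} (h0 : 0 ≤ p) (h1 : p ≤ 1) {n M : ℕ} {x y : ℤ} {o : Bool}
    (hx : (M:ℤ) ≤ x ∧ x + M ≤ n - 1) (hy : (M:ℤ) ≤ y ∧ y + M ≤ n - 1) :
    GN (0, 0, o) M p ≤ ce n (x, y, o) p := by
  rw [← GN_trl x y o M p]
  unfold ce
  apply Pr_mono_set (okq h0 h1) _ (XE_incr _ _)
  apply Finset.erase_subset_erase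
  unfold BE
  exact RE_subset (by omega) (by omega) (by omega) (by omega)

theorem ce_nonneg {p : ℝ} (h0 : 0 ≤ p) (h1 : p ≤ 1) (n : ℕ) (e : Edg) : 0 ≤ ce n e p :=
  Pr_nonneg (okq h0 h1) _ _

theorem ce_le_one {p : ℝ} (h0 : 0 ≤ p) (h1 : p ≤ 1) (n : ℕ) (e : Edg) : ce n e p ≤ 1 :=
  Pr_le_one (okq h0 h1) _ _

/-- Splitting the edges of the box. -/
theorem sum_BE (n : ℕ) (f : Edg → ℝ) : ∑ e ∈ BE n, f e =
    ∑ v ∈ Finset.Ico 0 ((n:ℤ) - 1) ×ˢ Finset.Ico 0 (n:ℤ), f (v.1, v.2, true) +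
    ∑ v ∈ Finset.Ico 0 (n:ℤ) ×ˢ Finset.Ico 0 ((n:ℤ) - 1), f (v.1, v.2, false) := by
  classical
  have h1 : BE n = ((Finset.Ico 0 ((n:ℤ) - 1) ×ˢ Finset.Ico 0 (n:ℤ)).image
      (fun v => ((v.1, v.2, true) : Edg))) ∪
      ((Finset.Ico 0 (n:ℤ) ×ˢ Finset.Ico 0 ((n:ℤ) - 1)).image
      (fun v => ((v.1, v.2, false) : Edg))) := by
    ext ⟨x, y, _ | _⟩
    · unfold BE
      rw [mem_RE_false]
      simp only [Finset.mem_union, Finset.mem_image, Finset.mem_product, Finset.mem_Ico,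
        Prod.exists, Prod.mk.injEq]
      constructor
      · intro h
        right
        exact ⟨x, y, by omega, rfl, rfl, trivial⟩
      · rintro (⟨a, b, -, -, -, h⟩ | ⟨a, b, h, h1, h2, -⟩)
        · exact absurd h (by simp)
        · omega
    · unfold BE
      rw [mem_RE_true]
      simp only [Finset.mem_union, Finset.mem_image, Finset.mem_product, Finset.mem_Ico,
        Prod.exists, Prod.mk.injEq]
      constructor
      · intro h
        left
        exact ⟨x, y, by omega, rfl, rfl, trivial⟩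
      · rintro (⟨a, b, h, h1, h2, -⟩ | ⟨a, b, -, -, -, h⟩)
        · omega
        · exact absurd h (by simp)
  rw [h1, Finset.sum_union, Finset.sum_image, Finset.sum_image]
  · rintro ⟨a, b⟩ _ ⟨c, d⟩ _ h
    simp only [Prod.mk.injEq, and_true] at h
    exact Prod.ext h.1 h.2
  · rintro ⟨a, b⟩ _ ⟨c, d⟩ _ h
    simp only [Prod.mk.injEq, and_true] at h
    exact Prod.ext h.1 h.2
  · rw [Finset.disjoint_left]
    rintro e h2 h3
    rw [Finset.mem_image] at h2 h3
    obtain ⟨v, -, rfl⟩ := h2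
    obtain ⟨w, -, h⟩ := h3
    simp at h

theorem card_BE (n : ℕ) : ((BE n).card : ℝ) = 2 * n * (n - 1 : ℕ) := by
  have h := sum_BE n (fun _ => (1:ℝ))
  simp only [Finset.sum_const, nsmul_eq_mul, mul_one, Finset.card_product, Int.card_Ico] at h
  rw [h]
  have e1 : ((n:ℤ) - 1 - 0).toNat = n - 1 := by omega
  have e2 : ((n:ℤ) - 0).toNat = n := by omega
  rw [e1, e2]
  push_cast
  ring

/-- Upper bound for the sum. -/
theorem sum_ce_upper {p : ℝ} (h0 : 0 ≤ p) (h1 : p ≤ 1) (n : ℕ) :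
    ∑ e ∈ BE n, ce n e p ≤ (n:ℝ) ^ 2 * Gam p := by
  have g1 := gam_nonneg true p
  have g2 := gam_nonneg false p
  rw [sum_BE]
  have s1 : ∑ v ∈ Finset.Ico 0 ((n:ℤ) - 1) ×ˢ Finset.Ico 0 (n:ℤ), ce n (v.1, v.2, true) p ≤
      (n:ℝ) ^ 2 * gam true p := by
    have : ∑ v ∈ Finset.Ico 0 ((n:ℤ) - 1) ×ˢ Finset.Ico 0 (n:ℤ), ce n (v.1, v.2, true) p ≤
        ∑ _v ∈ Finset.Ico 0 ((n:ℤ) - 1) ×ˢ Finset.Ico 0 (n:ℤ), gam true p := by
      apply Finset.sum_le_sum
      intro v hv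
      rw [Finset.mem_product, Finset.mem_Ico, Finset.mem_Ico] at hv
      apply ce_upper h0 h1
      unfold BE
      rw [mem_RE_true]; omega
    refine this.trans ?_
    rw [Finset.sum_const, nsmul_eq_mul, Finset.card_product, Int.card_Ico, Int.card_Ico]
    apply mul_le_mul_of_nonneg_right _ g1
    have e1 : ((n:ℤ) - 1 - 0).toNat ≤ n := by omega
    have e2 : ((n:ℤ) - 0).toNat = n := by omega
    rw [e2]
    have : ((n:ℤ) - 1 - 0).toNat * n ≤ n * n := Nat.mul_le_mul_right _ e1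
    rw [sq]
    exact_mod_cast this
  have s2 : ∑ v ∈ Finset.Ico 0 (n:ℤ) ×ˢ Finset.Ico 0 ((n:ℤ) - 1), ce n (v.1, v.2, false) p ≤
      (n:ℝ) ^ 2 * gam false p := by
    have : ∑ v ∈ Finset.Ico 0 (n:ℤ) ×ˢ Finset.Ico 0 ((n:ℤ) - 1), ce n (v.1, v.2, false) p ≤
        ∑ _v ∈ Finset.Ico 0 (n:ℤ) ×ˢ Finset.Ico 0 ((n:ℤ) - 1), gam false p := by
      apply Finset.sum_le_sum
      intro v hv
      rw [Finset.mem_product, Finset.mem_Ico, Finset.mem_Ico] at hv
      apply ce_upper h0 h1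
      unfold BE
      rw [mem_RE_false]; omega
    refine this.trans ?_
    rw [Finset.sum_const, nsmul_eq_mul, Finset.card_product, Int.card_Ico, Int.card_Ico]
    apply mul_le_mul_of_nonneg_right _ g2
    have e1 : ((n:ℤ) - 1 - 0).toNat ≤ n := by omega
    have e2 : ((n:ℤ) - 0).toNat = n := by omega
    rw [e2]
    have : n * ((n:ℤ) - 1 - 0).toNat ≤ n * n := Nat.mul_le_mul_left _ e1
    rw [sq]
    exact_mod_cast this
  unfold Gam
  linarith

/-- Lower bound for the sum. -/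
theorem sum_ce_lower {p : ℝ} (h0 : 0 ≤ p) (h1 : p ≤ 1) {n M : ℕ} (hn : 2 * M + 1 ≤ n) :
    ((n:ℝ) - 2 * M - 1) ^ 2 * (GN (0, 0, true) M p + GN (0, 0, false) M p) ≤
      ∑ e ∈ BE n, ce n e p := by
  rw [sum_BE]
  have key : ∀ (o : Bool) (T : Finset (ℤ × ℤ)),
      Finset.Ico (M:ℤ) (n - M - 1) ×ˢ Finset.Ico (M:ℤ) (n - M - 1) ⊆ T →
      ((n:ℝ) - 2 * M - 1) ^ 2 * GN (0, 0, o) M p ≤ ∑ v ∈ T, ce n (v.1, v.2, o) p := by
    intro o T hT
    have i1 : ∑ _v ∈ Finset.Ico (M:ℤ) (n - M - 1) ×ˢ Finset.Ico (M:ℤ) (n - M - 1),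
        GN (0, 0, o) M p ≤
        ∑ v ∈ Finset.Ico (M:ℤ) (n - M - 1) ×ˢ Finset.Ico (M:ℤ) (n - M - 1),
          ce n (v.1, v.2, o) p := by
      apply Finset.sum_le_sum
      intro v hv
      rw [Finset.mem_product, Finset.mem_Ico, Finset.mem_Ico] at hv
      exact ce_lower h0 h1 ⟨by omega, by omega⟩ ⟨by omega, by omega⟩
    have i2 : ∑ v ∈ Finset.Ico (M:ℤ) (n - M - 1) ×ˢ Finset.Ico (M:ℤ) (n - M - 1),
          ce n (v.1, v.2, o) p ≤ ∑ v ∈ T, ce n (v.1, v.2, o) p :=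
      Finset.sum_le_sum_of_subset_of_nonneg hT (fun _ _ _ => ce_nonneg h0 h1 _ _)
    refine le_trans (le_of_eq ?_) (i1.trans i2)
    rw [Finset.sum_const, nsmul_eq_mul, Finset.card_product, Int.card_Ico]
    have e1 : ((n:ℤ) - M - 1 - M).toNat = n - 2 * M - 1 := by omega
    rw [e1]
    have e2 : ((n - 2 * M - 1 : ℕ) : ℝ) = (n:ℝ) - 2 * M - 1 := by
      rw [Nat.cast_sub (by omega), Nat.cast_sub (by omega)]
      push_cast; ring
    push_cast
    rw [e2]
    ring
  have k1 := key true (Finset.Ico 0 ((n:ℤ) - 1) ×ˢ Finset.Ico 0 (n:ℤ)) (by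
    intro v hv
    rw [Finset.mem_product, Finset.mem_Ico, Finset.mem_Ico] at hv ⊢
    omega)
  have k2 := key false (Finset.Ico 0 (n:ℤ) ×ˢ Finset.Ico 0 ((n:ℤ) - 1)) (by
    intro v hv
    rw [Finset.mem_product, Finset.mem_Ico, Finset.mem_Ico] at hv ⊢
    omega)
  linarith

/-- The derivative of the mean number of clusters per vertex. -/
noncomputable def fd (n : ℕ) (p : ℝ) : ℝ := (∑ e ∈ BE n, (1 - ce n e p)) / (n:ℝ) ^ 2

theorem fd_nonneg {p : ℝ} (h0 : 0 ≤ p) (h1 : p ≤ 1) (n : ℕ) : 0 ≤ fd n p := by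
  unfold fd
  apply div_nonneg _ (by positivity)
  apply Finset.sum_nonneg
  intro e _
  linarith [ce_le_one h0 h1 n e]

theorem fd_le {p : ℝ} (h0 : 0 ≤ p) (h1 : p ≤ 1) (n : ℕ) : fd n p ≤ 2 := by
  unfold fd
  rcases Nat.eq_zero_or_pos n with h | h
  · subst h; simp
  · have hn : (0:ℝ) < n := by exact_mod_cast h
    rw [div_le_iff₀ (by positivity)]
    have : ∑ e ∈ BE n, (1 - ce n e p) ≤ ∑ _e ∈ BE n, (1:ℝ) := by
      apply Finset.sum_le_sum
      intro e _
      linarith [ce_nonneg h0 h1 n e]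
    refine this.trans ?_
    rw [Finset.sum_const, nsmul_eq_mul, mul_one, card_BE]
    have : ((n - 1 : ℕ) : ℝ) ≤ n := by exact_mod_cast Nat.sub_le n 1
    nlinarith

theorem fd_tendsto {p : ℝ} (h0 : 0 ≤ p) (h1 : p ≤ 1) :
    Tendsto (fun n => fd n p) atTop (𝓝 (2 - Gam p)) := by
  have hcl : cl p = p := cl_eq h0 h1
  have hG0 := Gam_nonneg p
  have hG2 := Gam_le_two p
  rw [Metric.tendsto_nhds]
  intro ε hε
  -- choose M
  have ht : Tendsto (fun M : ℕ => GN (0, 0, true) M p + GN (0, 0, false) M p) atTop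
      (𝓝 (Gam p)) := by
    have t1 := gam_tendsto true p
    have t2 := gam_tendsto false p
    rw [hcl] at t1 t2
    exact t1.add t2
  obtain ⟨M, hM⟩ := (ht.eventually (lt_mem_nhds (show Gam p - ε / 4 < Gam p by linarith))).exists
  have ht2 : Tendsto (fun n : ℕ => (1:ℝ) / n) atTop (𝓝 0) := tendsto_one_div_atTop_nhds_zero_nat
  have hδ : 0 < ε / (16 * (2 * M + 2)) := by positivity
  filter_upwards [ht2.eventually (gt_mem_nhds hδ), eventually_ge_atTop (2 * M + 2)] with n hn hnM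
  have hnp : (0:ℝ) < n := by exact_mod_cast (by omega : 0 < n)
  have hup := sum_ce_upper h0 h1 n
  have hlo := sum_ce_lower h0 h1 (n := n) (M := M) (by omega)
  obtain ⟨G, hG⟩ : ∃ G : ℝ, G = GN (0, 0, true) M p + GN (0, 0, false) M p := ⟨_, rfl⟩
  rw [← hG] at hM hlo
  have hGG : G ≤ 2 := by
    have := GN_le_one h0 h1 (0, 0, true) M
    have := GN_le_one h0 h1 (0, 0, false) M
    linarith
  have hGn : 0 ≤ G := by
    have := GN_nonneg h0 h1 (0, 0, true) M
    have := GN_nonneg h0 h1 (0, 0, false) M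
    linarith
  have hfd : fd n p = 2 - 2 / n - (∑ e ∈ BE n, ce n e p) / (n:ℝ) ^ 2 := by
    unfold fd
    rw [Finset.sum_sub_distrib, Finset.sum_const, nsmul_eq_mul, mul_one, card_BE,
      Nat.cast_sub (by omega)]
    push_cast
    field_simp
  rw [hfd, Real.dist_eq, abs_lt]
  have q1 : (∑ e ∈ BE n, ce n e p) / (n:ℝ) ^ 2 ≤ Gam p := by
    rw [div_le_iff₀ (by positivity)]; linarith
  have q2 : G - ε / 4 ≤ (∑ e ∈ BE n, ce n e p) / (n:ℝ) ^ 2 := by
    rw [le_div_iff₀ (by positivity)]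
    refine le_trans ?_ hlo
    have h3 : (1:ℝ) / n * (16 * (2 * M + 2)) < ε := by
      rw [lt_div_iff₀ (by positivity)] at hn; exact hn
    have h4 : (2 * (M:ℝ) + 2) * 16 < ε * n := by
      have : (1:ℝ) / n * (16 * (2 * M + 2)) * n < ε * n := mul_lt_mul_of_pos_right h3 hnp
      have e1 : (1:ℝ) / n * (16 * (2 * M + 2)) * n = (2 * (M:ℝ) + 2) * 16 := by
        field_simp
      linarith
    have h5 : (n:ℝ) ^ 2 - 2 * n * (2 * M + 1) ≤ ((n:ℝ) - 2 * M - 1) ^ 2 := by nlinarith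
    have h6 : (G - ε / 4) * (n:ℝ) ^ 2 ≤ G * ((n:ℝ) ^ 2 - 2 * n * (2 * M + 1)) := by
      have h7 : G * (2 * n * (2 * M + 1)) ≤ ε / 4 * (n:ℝ) ^ 2 := by
        have h8 : G * (2 * n * (2 * M + 1)) ≤ 2 * (2 * n * (2 * M + 1)) :=
          mul_le_mul_of_nonneg_right hGG (by positivity)
        have h9 : (2 * (M:ℝ) + 1) * 16 ≤ ε * n := by linarith
        have h10 : (2 * (M:ℝ) + 1) * 16 * n ≤ ε * n * n :=
          mul_le_mul_of_nonneg_right h9 hnp.le
        nlinarith
      nlinarith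
    have h11 : G * ((n:ℝ) ^ 2 - 2 * n * (2 * M + 1)) ≤ G * ((n:ℝ) - 2 * M - 1) ^ 2 :=
      mul_le_mul_of_nonneg_left h5 hGn
    linarith
  have q3 : 2 / (n:ℝ) < ε / 4 := by
    have h3 : (1:ℝ) / n < ε / 16 := by
      refine lt_of_lt_of_le hn ?_
      apply div_le_div_of_nonneg_left hε.le (by norm_num)
      have : (0:ℝ) ≤ M := by positivity
      linarith
    have : 2 / (n:ℝ) = 2 * (1 / n) := by ring
    rw [this]; linarith
  have q4 : 0 < 2 / (n:ℝ) := by positivity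
  constructor <;> linarith

/-- The mean number of clusters per vertex. -/
noncomputable def kap (p : ℝ) : ℝ := 1 - ∫ t in (0:ℝ)..p, (2 - Gam t)

theorem mean_int {p : ℝ} {n : ℕ} (hn : 1 ≤ n) :
    Ex (fun _ => p) (BE n) (fun F => (cc n F : ℝ)) / (n:ℝ) ^ 2 =
      1 - ∫ t in (0:ℝ)..p, fd n t := by
  have hnp : (0:ℝ) < n := by exact_mod_cast hn
  have hd : ∀ t : ℝ, HasDerivAt
      (fun p => Ex (fun _ => p) (BE n) (fun F => (cc n F : ℝ)) / (n:ℝ) ^ 2) (-(fd n t)) t := by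
    intro t
    have := (mean_deriv n t).div_const ((n:ℝ) ^ 2)
    unfold fd
    rw [← neg_div]
    exact this
  have hc : Continuous (fd n) := by
    unfold fd
    apply Continuous.div_const
    apply continuous_finsetSum
    intro e _
    apply Continuous.sub continuous_const
    rw [continuous_iff_continuousAt]
    intro t
    exact (D1_deriv ((BE n).erase e) (fun F => ind (XE e F)) t).continuousAt
  have h1 := intervalIntegral.integral_eq_sub_of_hasDerivAt (a := 0) (b := p)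
    (fun t _ => hd t) (hc.neg.intervalIntegrable _ _)
  rw [intervalIntegral.integral_neg, Ex_zero, cc_empty] at h1
  push_cast at h1
  rw [div_self (by positivity)] at h1
  linarith

theorem fd_cont (n : ℕ) : Continuous (fd n) := by
  unfold fd
  apply Continuous.div_const
  apply continuous_finsetSum
  intro e _
  apply Continuous.sub continuous_const
  rw [continuous_iff_continuousAt]
  intro t
  exact (D1_deriv ((BE n).erase e) (fun F => ind (XE e F)) t).continuousAt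

/-- Convergence of the mean number of clusters per vertex. -/
theorem kap_lim {p : ℝ} (h0 : 0 ≤ p) (h1 : p ≤ 1) :
    Tendsto (fun n : ℕ => Ex (fun _ => p) (BE n) (fun F => (cc n F : ℝ)) / (n:ℝ) ^ 2) atTop
      (𝓝 (kap p)) := by
  have h2 : Tendsto (fun n : ℕ => ∫ t in (0:ℝ)..p, fd n t) atTop
      (𝓝 (∫ t in (0:ℝ)..p, (2 - Gam t))) := by
    apply intervalIntegral.tendsto_integral_filter_of_dominated_convergence (fun _ => 2)
    · exact Eventually.of_forall (fun n => (fd_cont n).aestronglyMeasurable)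
    · refine Eventually.of_forall (fun n => Eventually.of_forall (fun t ht => ?_))
      rw [Set.uIoc_of_le h0] at ht
      rw [Real.norm_eq_abs, abs_of_nonneg (fd_nonneg ht.1.le (ht.2.trans h1) n)]
      exact fd_le ht.1.le (ht.2.trans h1) n
    · exact intervalIntegrable_const
    · refine Eventually.of_forall (fun t ht => ?_)
      rw [Set.uIoc_of_le h0] at ht
      exact fd_tendsto ht.1.le (ht.2.trans h1)
  have h3 : Tendsto (fun n : ℕ => 1 - ∫ t in (0:ℝ)..p, fd n t) atTop (𝓝 (kap p)) :=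
    tendsto_const_nhds.sub h2
  refine h3.congr' ?_
  filter_upwards [eventually_ge_atTop 1] with n hn
  exact (mean_int hn).symm

theorem Gam_int (a b : ℝ) : IntervalIntegrable (fun t => 2 - Gam t) volume a b :=
  intervalIntegrable_const.sub (Gam_mono.intervalIntegrable)

theorem kap_deriv {p : ℝ} (hc : ContinuousAt Gam p) : HasDerivAt kap (Gam p - 2) p := by
  have hm : StronglyMeasurableAtFilter (fun t => 2 - Gam t) (𝓝 p) volume := by
    exact (measurable_const.sub Gam_mono.measurable).stronglyMeasurable.stronglyMeasurableAtFilter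
  have h1 := intervalIntegral.integral_hasDerivAt_right (Gam_int 0 p) hm
    (continuousAt_const.sub hc)
  have h2 := h1.const_sub 1
  rw [neg_sub] at h2
  exact h2

theorem kap_lip (p : ℝ) : |kap p - kap (1/2)| ≤ 2 * |p - 1/2| := by
  have h1 : kap p - kap (1/2) = -∫ t in (1/2:ℝ)..p, (2 - Gam t) := by
    unfold kap
    rw [← intervalIntegral.integral_add_adjacent_intervals (Gam_int 0 (1/2)) (Gam_int (1/2) p)]
    ring
  rw [h1, abs_neg]
  have h2 := intervalIntegral.norm_integral_le_of_norm_le_const (a := 1/2) (b := p) (C := 2)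
    (f := fun t => 2 - Gam t) (fun t _ => by
      rw [Real.norm_eq_abs, abs_le]
      have := Gam_nonneg t
      have := Gam_le_two t
      constructor <;> linarith)
  rwa [Real.norm_eq_abs] at h2

/-- Expansion of `kap` at the critical point. -/
theorem kap_main : ∃ (K s0 S : ℝ), 0 < K ∧ 0 < s0 ∧ s0 ≤ 1/4 ∧
    (∀ p, |p - 1/2| < s0 → HasDerivAt kap (Gam p - 2) p) ∧
    (∃ g : ℝ → ℝ, g (1/2) = S ∧ (∀ p, |p - 1/2| < s0 → HasDerivAt Gam (g p) p) ∧
      ∀ p, |p - 1/2| < s0 → |g p - S| ≤ K * |p - 1/2| ^ (2/3 : ℝ)) ∧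
    ∀ p, 0 ≤ p → p ≤ 1 → |kap p - kap (1/2) + (p - 1/2) - 1/2 * S * (p - 1/2) ^ 2| ≤
      K * |p - 1/2| ^ (8/3 : ℝ) := by
  obtain ⟨K, s0, S, g, hK, hs0, hs4, hg, h1, h2, h3⟩ := Gam_main
  have hkd : ∀ p, |p - 1/2| < s0 → HasDerivAt kap (Gam p - 2) p := fun p hp =>
    kap_deriv (h1 p hp).continuousAt
  obtain ⟨K2, hK2⟩ : ∃ K2 : ℝ, K2 = K + (2 + |S|) / s0 ^ (8/3 : ℝ) := ⟨_, rfl⟩
  have hs83 : 0 < s0 ^ (8/3 : ℝ) := by positivity
  have hKK : K ≤ K2 := by
    rw [hK2]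
    have : 0 ≤ (2 + |S|) / s0 ^ (8/3 : ℝ) := by positivity
    linarith
  refine ⟨K2, s0, S, by linarith, hs0, hs4, hkd, ⟨g, hg, h1, ?_⟩, ?_⟩
  · intro p hp
    exact (h2 p hp).trans (mul_le_mul_of_nonneg_right hKK (by positivity))
  intro p hp0 hp1
  by_cases hp : |p - 1/2| < s0
  · -- near the critical point
    obtain ⟨R, hR⟩ : ∃ R : ℝ → ℝ, R = fun t => kap t - kap (1/2) + (t - 1/2) -
      1/2 * S * (t - 1/2) ^ 2 := ⟨_, rfl⟩
    have hRd : ∀ t, |t - 1/2| < s0 → HasDerivAt R (Gam t - 1 - S * (t - 1/2)) t := by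
      intro t ht
      rw [hR]
      have d1 := (hkd t ht).sub_const (kap (1/2))
      have d2 : HasDerivAt (fun t : ℝ => t - 1/2) 1 t := (hasDerivAt_id t).sub_const (1/2)
      have d3 := (d2.pow 2).const_mul (1/2 * S)
      have d4 := (d1.add d2).sub d3
      refine d4.congr_deriv ?_
      push_cast
      ring
    have hball : ∀ t ∈ Set.uIcc (1/2) p, |t - 1/2| ≤ |p - 1/2| := by
      intro t ht
      rcases le_total (1/2) p with h | h
      · rw [Set.uIcc_of_le h] at ht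
        rw [abs_of_nonneg (by linarith [ht.1]), abs_of_nonneg (by linarith)]
        linarith [ht.2]
      · rw [Set.uIcc_of_ge h] at ht
        rw [abs_of_nonpos (by linarith [ht.2]), abs_of_nonpos (by linarith)]
        linarith [ht.1]
    have hmv := Convex.norm_image_sub_le_of_norm_hasDerivWithin_le (f := R)
      (f' := fun t => Gam t - 1 - S * (t - 1/2)) (s := Set.uIcc (1/2) p) (x := 1/2) (y := p)
      (C := K * |p - 1/2| ^ (5/3 : ℝ))
      (fun t ht => (hRd t ((hball t ht).trans_lt hp)).hasDerivWithinAt)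
      (fun t ht => by
        rw [Real.norm_eq_abs]
        refine (h3 t ((hball t ht).trans_lt hp)).trans ?_
        apply mul_le_mul_of_nonneg_left _ hK.le
        exact Real.rpow_le_rpow (abs_nonneg _) (hball t ht) (by norm_num))
      (convex_uIcc _ _) Set.left_mem_uIcc Set.right_mem_uIcc
    have hR0 : R (1/2) = 0 := by rw [hR]; simp
    rw [hR0, sub_zero, Real.norm_eq_abs, Real.norm_eq_abs] at hmv
    have e1 : |p - 1/2| ^ (5/3 : ℝ) * |p - 1/2| = |p - 1/2| ^ (8/3 : ℝ) := by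
      rcases eq_or_ne p (1/2) with h | h
      · rw [h]
        simp
      · have : 0 < |p - 1/2| := abs_pos.2 (sub_ne_zero.2 h)
        nth_rewrite 2 [← Real.rpow_one (|p - 1/2|)]
        rw [← Real.rpow_add this]
        norm_num
    rw [hR] at hmv
    refine hmv.trans ?_
    rw [mul_assoc, e1]
    exact mul_le_mul_of_nonneg_right hKK (by positivity)
  · -- far from the critical point
    push Not at hp
    have habs : |p - 1/2| ≤ 1/2 := by rw [abs_le]; constructor <;> linarith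
    have l1 := kap_lip p
    have l2 : |kap p - kap (1/2) + (p - 1/2) - 1/2 * S * (p - 1/2) ^ 2| ≤ 2 + |S| := by
      have t1 : |1/2 * S * (p - 1/2) ^ 2| ≤ |S| := by
        rw [abs_mul, abs_mul, abs_pow]
        have : |p - 1/2| ^ 2 ≤ 1 := by nlinarith [abs_nonneg (p - 1/2)]
        have hS := abs_nonneg S
        rw [show |(1/2:ℝ)| = 1/2 by norm_num]
        nlinarith
      have t2 : |kap p - kap (1/2) + (p - 1/2)| ≤ 2 := by
        refine (abs_add_le _ _).trans ?_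
        linarith
      refine (abs_sub _ _).trans ?_
      linarith
    refine l2.trans ?_
    have t3 : s0 ^ (8/3 : ℝ) ≤ |p - 1/2| ^ (8/3 : ℝ) :=
      Real.rpow_le_rpow hs0.le hp (by norm_num)
    calc 2 + |S| = (2 + |S|) / s0 ^ (8/3 : ℝ) * s0 ^ (8/3 : ℝ) := by field_simp
      _ ≤ (2 + |S|) / s0 ^ (8/3 : ℝ) * |p - 1/2| ^ (8/3 : ℝ) :=
          mul_le_mul_of_nonneg_left t3 (by positivity)
      _ ≤ K2 * |p - 1/2| ^ (8/3 : ℝ) := by
          apply mul_le_mul_of_nonneg_right _ (by positivity)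
          rw [hK2]; linarith

end Pool.Agent.NH39
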