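import Pool.Agent.NH39.U2

/-! The four-arm probability at all scales and all parameters. -/

set_option autoImplicit false

namespace Pool.Agent.NH39

open H974 H12S H389NS Finset
open Pool.Agent.NH39.NC (NCw nearNC A4a_q)

/-- Off-critical decay of the annulus event, all parameters. -/
theorem dec_all : ∃ c C : ℝ, 0 < c ∧ 0 < C ∧ ∀ q : ℝ, 0 ≤ q → q ≤ 1 →
    ∀ (c0 : ℤ × ℤ) (d m : ℕ), d < m → ∀ S : Finset Edg, blk c0 (3 * m) ⊆ S →
      PQ q S (fun F => A4a c0 d (3 * m) ↑F) ≤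
        C * Real.exp (-(c * (m * |q - 1/2| ^ (4/3 : ℝ)))) := by
  obtain ⟨c0', C0', hc0', hC0', hdec⟩ := dec_A4a
  obtain ⟨c1, C1, hc1, hC1, h1⟩ := Pool.Agent.W424.NC.win_upper 3 (by norm_num)
  obtain ⟨c2, C2, hc2, hC2, h2⟩ := Pool.Agent.W424.NC.win_upper_dual 3 (by norm_num)
  obtain ⟨c3, hc3⟩ : ∃ c3 : ℝ, c3 = min c0' (min c1 (c2 * (1/4 : ℝ) ^ (4/3 : ℝ))) := ⟨_, rfl⟩
  have hc3p : 0 < c3 := by rw [hc3]; positivity
  have l0 : c3 ≤ c0' := by rw [hc3]; exact min_le_left _ _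
  have l1 : c3 ≤ c1 := by rw [hc3]; exact (min_le_right _ _).trans (min_le_left _ _)
  have l2 : c3 ≤ c2 * (1/4 : ℝ) ^ (4/3 : ℝ) := by
    rw [hc3]; exact (min_le_right _ _).trans (min_le_right _ _)
  refine ⟨c3, max C0' (4 * max C1 C2), hc3p, by positivity, ?_⟩
  intro q q0 q1 c0 d m hdm S hS
  have hm1 : 1 ≤ m := by omega
  have hmr : (0:ℝ) ≤ m := by positivity
  obtain ⟨H, hH⟩ : ∃ H : ℝ, H = |q - 1/2| ^ (4/3 : ℝ) := ⟨_, rfl⟩
  have hH0 : 0 ≤ H := by rw [hH]; exact Real.rpow_nonneg (abs_nonneg _) _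
  have hH1 : H ≤ 1 := by
    rw [hH]
    exact Real.rpow_le_one (abs_nonneg _) (by rw [abs_le]; constructor <;> linarith) (by norm_num)
  rw [← hH]
  rcases le_or_gt (1/4) q with hqa | hqa
  · rcases le_or_gt q (3/4) with hqb | hqb
    · have := hdec q hqa hqb c0 d m hdm S hS
      rw [← hH] at this
      refine this.trans ?_
      apply mul_le_mul (le_max_left _ _) _ (Real.exp_pos _).le (by positivity)
      apply Real.exp_le_exp.2
      have : c3 * (m * H) ≤ c0' * (m * H) := mul_le_mul_of_nonneg_right l0 (by positivity)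
      linarith
    · -- large parameters
      refine (NC.le_hQ (okq q0 q1) hS).trans ?_
      change PQ q (boxE (3 * m)) (fun F => A4a (0, 0) d (3 * m) ↑F) ≤ _
      have i1 := pr_A4a_circ q0 q1 hdm
      have i2 := h2 (1 - 3/4) (by norm_num) (by norm_num) (6 * m) (2 * m) (by omega) (by omega)
        (by omega) (by omega)
      rw [show (1:ℝ) - (1 - 3/4) = 3/4 by norm_num, show (1:ℝ)/2 - (1 - 3/4) = 1/4 by norm_num] at i2
      have i3 := hh_mono_param (p := 3/4) (q := q) (by norm_num) hqb.le q1 (6 * m : ℕ) (2 * m : ℕ)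
      have i4 : Real.exp (-(c2 * (((6 * m : ℕ):ℝ) * (1/4 : ℝ) ^ (4/3 : ℝ)))) ≤
          Real.exp (-(c3 * (m * H))) := by
        apply Real.exp_le_exp.2
        have a1 : c3 * (m * H) ≤ c3 * m := by
          have : (m:ℝ) * H ≤ m := by nlinarith
          nlinarith
        have a2 : c3 * m ≤ c2 * (1/4 : ℝ) ^ (4/3 : ℝ) * m := mul_le_mul_of_nonneg_right l2 hmr
        have a3 : 0 ≤ c2 * (1/4 : ℝ) ^ (4/3 : ℝ) * m := by positivity
        push_cast
        nlinarith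
      have i5 : C2 * Real.exp (-(c2 * (((6 * m : ℕ):ℝ) * (1/4 : ℝ) ^ (4/3 : ℝ)))) ≤
          max C1 C2 * Real.exp (-(c3 * (m * H))) :=
        mul_le_mul (le_max_right _ _) i4 (Real.exp_pos _).le (by positivity)
      have i6 : 4 * (max C1 C2 * Real.exp (-(c3 * (m * H)))) ≤
          max C0' (4 * max C1 C2) * Real.exp (-(c3 * (m * H))) := by
        rw [← mul_assoc]
        exact mul_le_mul_of_nonneg_right (le_max_right _ _) (Real.exp_pos _).le
      push_cast at i1 i2 i3 i5 ⊢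
      linarith
  · -- small parameters
    refine (NC.le_hQ (okq q0 q1) hS).trans ?_
    change PQ q (boxE (3 * m)) (fun F => A4a (0, 0) d (3 * m) ↑F) ≤ _
    have e1 : |q - 1/2| = 1/2 - q := by rw [abs_of_nonpos (by linarith)]; ring
    have i1 := pr_A4a_crs q0 q1 hdm
    have i2 := h1 q q0 (by linarith) (2 * m) (6 * m) (by omega) (by omega) (by omega)
    rw [← e1, ← hH] at i2
    have i3 : Real.exp (-(c1 * (((2 * m : ℕ):ℝ) * H))) ≤ Real.exp (-(c3 * (m * H))) := by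
      apply Real.exp_le_exp.2
      have a1 : c3 * (m * H) ≤ c1 * (m * H) := mul_le_mul_of_nonneg_right l1 (by positivity)
      have a2 : 0 ≤ c1 * (m * H) := by positivity
      push_cast
      linarith
    have i4 : C1 * Real.exp (-(c1 * (((2 * m : ℕ):ℝ) * H))) ≤
        max C1 C2 * Real.exp (-(c3 * (m * H))) :=
      mul_le_mul (le_max_left _ _) i3 (Real.exp_pos _).le (by positivity)
    have i6 : 4 * (max C1 C2 * Real.exp (-(c3 * (m * H)))) ≤
        max C0' (4 * max C1 C2) * Real.exp (-(c3 * (m * H))) := by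
      rw [← mul_assoc]
      exact mul_le_mul_of_nonneg_right (le_max_right _ _) (Real.exp_pos _).le
    push_cast at i1 i2 i4 ⊢
    linarith

theorem pow_exp_le {c : ℝ} (hc : 0 < c) : ∃ K : ℝ, 0 < K ∧ ∀ y : ℝ, 0 ≤ y →
    (1 + y ^ (5/4 : ℝ)) * Real.exp (-(c * y)) ≤ K * Real.exp (-(c / 2 * y)) := by
  refine ⟨2 + 8 / c ^ 2, by positivity, ?_⟩
  intro y hy
  have h1 : y ^ (5/4 : ℝ) ≤ 1 + y ^ 2 := by
    rcases le_total y 1 with h | h
    · have : y ^ (5/4 : ℝ) ≤ 1 := Real.rpow_le_one hy h (by norm_num)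
      nlinarith [sq_nonneg y]
    · have : y ^ (5/4 : ℝ) ≤ y ^ (2 : ℝ) := Real.rpow_le_rpow_of_exponent_le h (by norm_num)
      rw [Real.rpow_two] at this
      linarith
  have h2 : (c / 2 * y) ^ 2 / 2 ≤ Real.exp (c / 2 * y) := by
    have := Real.pow_div_factorial_le_exp (c / 2 * y) (by positivity) 2
    simpa [Nat.factorial] using this
  have h3 : y ^ 2 ≤ 8 / c ^ 2 * Real.exp (c / 2 * y) := by
    have : y ^ 2 = 8 / c ^ 2 * ((c / 2 * y) ^ 2 / 2) := by field_simp; ring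
    rw [this]
    exact mul_le_mul_of_nonneg_left h2 (by positivity)
  have h4 : 1 ≤ Real.exp (c / 2 * y) := Real.one_le_exp (by positivity)
  have h5 : 1 + y ^ (5/4 : ℝ) ≤ (2 + 8 / c ^ 2) * Real.exp (c / 2 * y) := by
    have : (2 + 8 / c ^ 2) * Real.exp (c / 2 * y) =
      2 * Real.exp (c / 2 * y) + 8 / c ^ 2 * Real.exp (c / 2 * y) := by ring
    linarith
  have h6 : Real.exp (c / 2 * y) * Real.exp (-(c * y)) = Real.exp (-(c / 2 * y)) := by
    rw [← Real.exp_add]; congr 1; ring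
  calc (1 + y ^ (5/4 : ℝ)) * Real.exp (-(c * y)) ≤
      ((2 + 8 / c ^ 2) * Real.exp (c / 2 * y)) * Real.exp (-(c * y)) :=
        mul_le_mul_of_nonneg_right h5 (Real.exp_pos _).le
    _ = (2 + 8 / c ^ 2) * (Real.exp (c / 2 * y) * Real.exp (-(c * y))) := by ring
    _ = _ := by rw [h6]

theorem A4e_sub {j k : ℕ} (hj : 1 ≤ j) (h : j ≤ k) {e : Edg} {F : Set Edg} (hA : A4e k e F) :
    A4e j e F := by
  unfold A4e at *
  exact A4_sub (by omega) (by omega) (by omega) (by omega) (mem_ebx hj) hA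

/-- The four-arm probability. -/
theorem arm_all : ∃ c C : ℝ, 0 < c ∧ 0 < C ∧ ∀ q : ℝ, 0 ≤ q → q ≤ 1 → ∀ N : ℕ, 1 ≤ N →
    ∀ e : Edg, PQ q (ebx e N) (fun F => A4e N e ↑F) ≤
      C * ((N:ℝ) ^ (-(5/4) : ℝ) * Real.exp (-(c * (N * |q - 1/2| ^ (4/3 : ℝ))))) := by
  obtain ⟨κ, b0, c4, C4, hκ, hb0, hc4, hC4, hnear⟩ := nearNC
  obtain ⟨c1, C1, hc1, hC1, hdec⟩ := dec_all
  obtain ⟨K, hK, hKe⟩ := pow_exp_le (c := c1 / 9) (by positivity)
  obtain ⟨A, hA⟩ : ∃ A : ℝ, A = (1 + C4) * (9 ^ (5/4 : ℝ) + (1 + (2 / b0 ^ (4/3 : ℝ)) ^ (5/4 : ℝ))) +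
    (1 / b0) ^ (5/3 : ℝ) := ⟨_, rfl⟩
  have hA0 : 0 < A := by rw [hA]; positivity
  obtain ⟨B, hB⟩ : ∃ B : ℝ, B = Real.exp (9 * c1) * 9 ^ (5/4 : ℝ) := ⟨_, rfl⟩
  have hB0 : 0 < B := by rw [hB]; positivity
  refine ⟨c1 / 9 / 2, B + A * C1 * K, by positivity, by positivity, ?_⟩
  intro q q0 q1 N hN e
  have ok := okq q0 q1
  obtain ⟨s, hs⟩ : ∃ s : ℝ, s = |q - 1/2| := ⟨_, rfl⟩
  have hs0 : 0 ≤ s := by rw [hs]; exact abs_nonneg _
  have hs1 : s ≤ 1 := by rw [hs, abs_le]; constructor <;> linarith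
  rw [← hs]
  have hH0 : 0 ≤ s ^ (4/3 : ℝ) := by positivity
  have hH1 : s ^ (4/3 : ℝ) ≤ 1 := Real.rpow_le_one hs0 hs1 (by norm_num)
  have hNr : (1:ℝ) ≤ N := by exact_mod_cast hN
  have hN0 : (0:ℝ) < N := by linarith
  rcases le_or_gt N 8 with hN8 | hN9
  · -- small scales
    refine (Pr_le_one ok _ _).trans ?_
    have hN8r : (N:ℝ) ≤ 9 := by exact_mod_cast (by omega : N ≤ 9)
    have e1 : (9:ℝ) ^ (-(5/4) : ℝ) ≤ (N:ℝ) ^ (-(5/4) : ℝ) :=
      Real.rpow_le_rpow_of_nonpos hN0 hN8r (by norm_num)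
    have e2 : Real.exp (-(9 * c1)) ≤ Real.exp (-(c1 / 9 / 2 * (N * s ^ (4/3 : ℝ)))) := by
      apply Real.exp_le_exp.2
      have : (N:ℝ) * s ^ (4/3 : ℝ) ≤ 9 := by nlinarith
      nlinarith
    have e3 : B * ((9:ℝ) ^ (-(5/4) : ℝ) * Real.exp (-(9 * c1))) = 1 := by
      rw [hB]
      have a1 : (9:ℝ) ^ (5/4 : ℝ) * (9:ℝ) ^ (-(5/4) : ℝ) = 1 := by
        rw [← Real.rpow_add (by norm_num)]; norm_num
      have a2 : Real.exp (9 * c1) * Real.exp (-(9 * c1)) = 1 := by rw [← Real.exp_add]; simp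
      calc Real.exp (9 * c1) * 9 ^ (5/4 : ℝ) * ((9:ℝ) ^ (-(5/4) : ℝ) * Real.exp (-(9 * c1))) =
          (Real.exp (9 * c1) * Real.exp (-(9 * c1))) * ((9:ℝ) ^ (5/4 : ℝ) * (9:ℝ) ^ (-(5/4) : ℝ)) := by
            ring
        _ = 1 := by rw [a1, a2, one_mul]
    calc (1:ℝ) = B * ((9:ℝ) ^ (-(5/4) : ℝ) * Real.exp (-(9 * c1))) := e3.symm
      _ ≤ B * ((N:ℝ) ^ (-(5/4) : ℝ) * Real.exp (-(c1 / 9 / 2 * (N * s ^ (4/3 : ℝ))))) := by
          apply mul_le_mul_of_nonneg_left _ hB0.le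
          exact mul_le_mul e1 e2 (Real.exp_pos _).le (by positivity)
      _ ≤ _ := by
          apply mul_le_mul_of_nonneg_right _ (by positivity)
          have : 0 ≤ A * C1 * K := by positivity
          linarith
  · obtain ⟨m, hm⟩ : ∃ m : ℕ, m = N / 3 := ⟨_, rfl⟩
    have hm3 : 3 ≤ m := by omega
    have hmN : 3 * m ≤ N := by omega
    have hNm : N ≤ 9 * (m - 1) := by omega
    have hm0 : (0:ℝ) < m := by exact_mod_cast (by omega : 0 < m)
    -- the two events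
    have key : ∀ k : ℕ, k ≤ m - 1 →
        PQ q (ebx e N) (fun F => A4e N e ↑F) ≤ PQ q (ebx e N) (Ax k e) *
          (C1 * Real.exp (-(c1 * (m * s ^ (4/3 : ℝ))))) := by
      intro k hk
      have d1 : Disjoint ((ebx e k).erase e) (blk (ps e) (3 * m) \ blk (ps e) (m - 1)) := by
        rw [Finset.disjoint_left]
        intro z hz hz'
        have hz1 := Finset.mem_of_mem_erase hz
        rw [Finset.mem_sdiff] at hz'
        apply hz'.2
        unfold ebx at hz1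
        unfold blk ps
        simp only
        refine RE_subset ?_ ?_ ?_ ?_ hz1 <;> omega
      have s1 : (ebx e k).erase e ⊆ ebx e N := by
        refine (Finset.erase_subset _ _).trans ?_
        unfold ebx
        exact RE_subset (by omega) (by omega) (by omega) (by omega)
      have s3 : blk (ps e) (3 * m) ⊆ ebx e N := by
        unfold ebx blk ps
        exact RE_subset (by push_cast; omega) (by push_cast; omega) (by push_cast; omega)
          (by push_cast; omega)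
      have s2 : blk (ps e) (3 * m) \ blk (ps e) (m - 1) ⊆ ebx e N :=
        Finset.sdiff_subset.trans s3
      have hmul := (Ax_dep k e).mul (Az_dep (ps e) m) s1 s2 d1 (fun _ => q)
      have g1 : PQ q (ebx e N) (fun F => A4e N e ↑F) ≤
          Pr (fun _ => q) (ebx e N) (fun F => Ax k e F ∧ Az (ps e) m F) := by
        apply Pr_mono ok
        intro F _ h
        constructor
        · intro hk1
          exact A4e_sub hk1 (by omega) h
        · intro _
          exact (A4e_split (d := m - 1) (by omega) (by omega)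
            (A4e_sub (j := 3 * m) (by omega) hmN h)).2
      refine g1.trans ?_
      rw [hmul]
      apply mul_le_mul_of_nonneg_left _ (Pr_nonneg ok _ _)
      have g2 := hdec q q0 q1 (ps e) (m - 1) m (by omega) (ebx e N) s3
      rw [← hs] at g2
      refine le_trans ?_ g2
      exact Pr_mono ok (fun F _ h => h (by omega))
    have hN54 : (0:ℝ) < (N:ℝ) ^ (-(5/4) : ℝ) := by positivity
    have hs53 : 0 ≤ s ^ (5/3 : ℝ) := by positivity
    have arm : ∀ n k : ℕ, s ≤ b0 * (n:ℝ) ^ (-(3/4) : ℝ) → 1 ≤ k → k ≤ n → k ≤ m - 1 →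
        PQ q (ebx e N) (Ax k e) ≤ C4 * (k:ℝ) ^ (-(5/4) : ℝ) := by
      intro n k hn hk1 hkn hkm
      refine le_trans ?_ ((hnear n (by omega) q (by rw [← hs]; exact hn)).hi k hk1 hkn)
      refine le_trans ?_ (pr_A4e q0 q1 (S := ebx e N) (k := k) (e := e) ?_)
      · exact Pr_mono ok (fun F _ h => h hk1)
      · unfold ebx
        exact RE_subset (by omega) (by omega) (by omega) (by omega)
    have hm1 : ((m - 1 : ℕ):ℝ) ^ (-(5/4) : ℝ) ≤ 9 ^ (5/4 : ℝ) * (N:ℝ) ^ (-(5/4) : ℝ) := by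
      have h1 : (N:ℝ) / 9 ≤ ((m - 1 : ℕ):ℝ) := by
        rw [div_le_iff₀ (by norm_num)]
        have : (N:ℝ) ≤ 9 * ((m - 1 : ℕ):ℝ) := by exact_mod_cast hNm
        linarith
      have h2 : ((m - 1 : ℕ):ℝ) ^ (-(5/4) : ℝ) ≤ ((N:ℝ) / 9) ^ (-(5/4) : ℝ) :=
        Real.rpow_le_rpow_of_nonpos (by positivity) h1 (by norm_num)
      refine h2.trans (le_of_eq ?_)
      rw [Real.div_rpow hN0.le (by norm_num), Real.rpow_neg (by norm_num : (0:ℝ) ≤ 9)]
      field_simp
    have main : ∃ k : ℕ, k ≤ m - 1 ∧ PQ q (ebx e N) (Ax k e) ≤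
        A * ((N:ℝ) ^ (-(5/4) : ℝ) + s ^ (5/3 : ℝ)) := by
      obtain ⟨D, hD⟩ : ∃ D : ℝ, D = (2 / b0 ^ (4/3 : ℝ)) ^ (5/4 : ℝ) := ⟨_, rfl⟩
      have hD0 : 0 < D := by rw [hD]; positivity
      have h9 : (0:ℝ) < 9 ^ (5/4 : ℝ) := by positivity
      have hb53 : (0:ℝ) < (1 / b0) ^ (5/3 : ℝ) := by positivity
      have hAa : C4 * 9 ^ (5/4 : ℝ) ≤ A := by rw [hA, ← hD]; nlinarith
      have hAb : C4 * (9 ^ (5/4 : ℝ) + D) ≤ A := by
        rw [hA, ← hD]
        nlinarith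
      have hAc : (1 / b0) ^ (5/3 : ℝ) ≤ A := by rw [hA, ← hD]; nlinarith
      rcases le_or_gt s (b0 * (N:ℝ) ^ (-(3/4) : ℝ)) with h1 | h1
      · refine ⟨m - 1, le_rfl, (arm N (m - 1) h1 (by omega) (by omega) le_rfl).trans ?_⟩
        calc C4 * ((m - 1 : ℕ):ℝ) ^ (-(5/4) : ℝ) ≤ C4 * (9 ^ (5/4 : ℝ) * (N:ℝ) ^ (-(5/4) : ℝ)) :=
              mul_le_mul_of_nonneg_left hm1 hC4.le
          _ = C4 * 9 ^ (5/4 : ℝ) * (N:ℝ) ^ (-(5/4) : ℝ) := by ring
          _ ≤ A * (N:ℝ) ^ (-(5/4) : ℝ) := mul_le_mul_of_nonneg_right hAa hN54.le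
          _ ≤ _ := mul_le_mul_of_nonneg_left (by linarith) hA0.le
      · have hsp : 0 < s := lt_trans (by positivity) h1
        rcases le_or_gt s b0 with h2 | h2
        · obtain ⟨X, hX⟩ : ∃ X : ℝ, X = (b0 / s) ^ (4/3 : ℝ) := ⟨_, rfl⟩
          have hbs : 1 ≤ b0 / s := by rw [le_div_iff₀ hsp]; linarith
          have hX1 : 1 ≤ X := by rw [hX]; exact Real.one_le_rpow hbs (by norm_num)
          obtain ⟨n, hn⟩ : ∃ n : ℕ, n = ⌊X⌋₊ := ⟨_, rfl⟩
          have hn1 : 1 ≤ n := by rw [hn]; exact Nat.le_floor (by simpa using hX1)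
          have hnX : (n:ℝ) ≤ X := by rw [hn]; exact Nat.floor_le (by linarith)
          have hXn : X ≤ 2 * n := by
            have h1 : X < n + 1 := by rw [hn]; exact Nat.lt_floor_add_one X
            have h2 : (1:ℝ) ≤ n := by exact_mod_cast hn1
            linarith
          have hn0 : (0:ℝ) < n := by exact_mod_cast hn1
          have hw : s ≤ b0 * (n:ℝ) ^ (-(3/4) : ℝ) := by
            have h1 : (n:ℝ) ^ (3/4 : ℝ) ≤ b0 / s := by
              calc (n:ℝ) ^ (3/4 : ℝ) ≤ X ^ (3/4 : ℝ) := Real.rpow_le_rpow hn0.le hnX (by norm_num)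
                _ = b0 / s := by
                  rw [hX, ← Real.rpow_mul (by positivity)]
                  norm_num
            rw [Real.rpow_neg hn0.le]
            rw [← div_eq_mul_inv, le_div_iff₀ (by positivity)]
            rw [le_div_iff₀ hsp] at h1
            linarith
          have hn54 : (n:ℝ) ^ (-(5/4) : ℝ) ≤ D * s ^ (5/3 : ℝ) := by
            have g1 : X / 2 ≤ n := by linarith
            have g2 : (n:ℝ) ^ (-(5/4) : ℝ) ≤ (X / 2) ^ (-(5/4) : ℝ) :=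
              Real.rpow_le_rpow_of_nonpos (by positivity) g1 (by norm_num)
            refine g2.trans (le_of_eq ?_)
            have g3 : X / 2 = (2 / b0 ^ (4/3 : ℝ) * s ^ (4/3 : ℝ))⁻¹ := by
              rw [hX, Real.div_rpow hb0.le hsp.le]
              have : 0 < s ^ (4/3 : ℝ) := by positivity
              field_simp
            rw [g3, Real.inv_rpow (by positivity), ← Real.rpow_neg (by positivity), neg_neg,
              Real.mul_rpow (by positivity) (by positivity), ← Real.rpow_mul hsp.le, hD]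
            norm_num
          refine ⟨min n (m - 1), min_le_right _ _,
            (arm n (min n (m - 1)) hw (by omega) (min_le_left _ _) (min_le_right _ _)).trans ?_⟩
          have g1 : ((min n (m - 1) : ℕ):ℝ) ^ (-(5/4) : ℝ) ≤
              (n:ℝ) ^ (-(5/4) : ℝ) + ((m - 1 : ℕ):ℝ) ^ (-(5/4) : ℝ) := by
            have p1 : 0 ≤ (n:ℝ) ^ (-(5/4) : ℝ) := by positivity
            have p2 : 0 ≤ ((m - 1 : ℕ):ℝ) ^ (-(5/4) : ℝ) := by positivity
            rcases le_total n (m - 1) with h | h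
            · rw [min_eq_left h]; linarith
            · rw [min_eq_right h]; linarith
          calc C4 * ((min n (m - 1) : ℕ):ℝ) ^ (-(5/4) : ℝ) ≤
              C4 * (D * s ^ (5/3 : ℝ) + 9 ^ (5/4 : ℝ) * (N:ℝ) ^ (-(5/4) : ℝ)) :=
                mul_le_mul_of_nonneg_left (by linarith) hC4.le
            _ ≤ C4 * (9 ^ (5/4 : ℝ) + D) * ((N:ℝ) ^ (-(5/4) : ℝ) + s ^ (5/3 : ℝ)) := by
                have p1 : 0 ≤ C4 * (9 ^ (5/4 : ℝ) * s ^ (5/3 : ℝ)) := by positivity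
                have p2 : 0 ≤ C4 * (D * (N:ℝ) ^ (-(5/4) : ℝ)) := by positivity
                nlinarith
            _ ≤ _ := mul_le_mul_of_nonneg_right hAb (by positivity)
        · refine ⟨0, by omega, (Pr_le_one ok _ _).trans ?_⟩
          have g1 : 1 ≤ (1 / b0) ^ (5/3 : ℝ) * s ^ (5/3 : ℝ) := by
            rw [← Real.mul_rpow (by positivity) hsp.le]
            apply Real.one_le_rpow _ (by norm_num)
            rw [one_div, inv_mul_eq_div, le_div_iff₀ hb0]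
            linarith
          calc (1:ℝ) ≤ (1 / b0) ^ (5/3 : ℝ) * s ^ (5/3 : ℝ) := g1
            _ ≤ A * s ^ (5/3 : ℝ) := mul_le_mul_of_nonneg_right hAc hs53
            _ ≤ _ := mul_le_mul_of_nonneg_left (by linarith) hA0.le
    obtain ⟨k, hkm, hk⟩ := main
    obtain ⟨y, hy⟩ : ∃ y : ℝ, y = N * s ^ (4/3 : ℝ) := ⟨_, rfl⟩
    have hy0 : 0 ≤ y := by rw [hy]; positivity
    rw [← hy]
    have hys : s ^ (5/3 : ℝ) = (N:ℝ) ^ (-(5/4) : ℝ) * y ^ (5/4 : ℝ) := by
      rw [hy, Real.mul_rpow hN0.le (by positivity), ← Real.rpow_mul hs0, ← mul_assoc,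
        ← Real.rpow_add hN0]
      norm_num
    have hexp : Real.exp (-(c1 * (m * s ^ (4/3 : ℝ)))) ≤ Real.exp (-(c1 / 9 * y)) := by
      apply Real.exp_le_exp.2
      have h1 : (N:ℝ) ≤ 9 * m := by exact_mod_cast (by omega : N ≤ 9 * m)
      have h2 : y ≤ 9 * (m * s ^ (4/3 : ℝ)) := by
        rw [hy]
        have := mul_le_mul_of_nonneg_right h1 hH0
        linarith
      nlinarith
    have hfin := hKe y hy0
    calc PQ q (ebx e N) (fun F => A4e N e ↑F) ≤ PQ q (ebx e N) (Ax k e) *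
          (C1 * Real.exp (-(c1 * (m * s ^ (4/3 : ℝ))))) := key k hkm
      _ ≤ (A * ((N:ℝ) ^ (-(5/4) : ℝ) + s ^ (5/3 : ℝ))) * (C1 * Real.exp (-(c1 / 9 * y))) := by
          apply mul_le_mul hk _ (by positivity) (by positivity)
          exact mul_le_mul_of_nonneg_left hexp hC1.le
      _ = A * C1 * (N:ℝ) ^ (-(5/4) : ℝ) * ((1 + y ^ (5/4 : ℝ)) * Real.exp (-(c1 / 9 * y))) := by
          rw [hys]; ring
      _ ≤ A * C1 * (N:ℝ) ^ (-(5/4) : ℝ) * (K * Real.exp (-(c1 / 9 / 2 * y))) :=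
          mul_le_mul_of_nonneg_left hfin (by positivity)
      _ = A * C1 * K * ((N:ℝ) ^ (-(5/4) : ℝ) * Real.exp (-(c1 / 9 / 2 * y))) := by ring
      _ ≤ _ := by
          apply mul_le_mul_of_nonneg_right _ (by positivity)
          linarith

/-- The bound for `a4`. -/
theorem a4_all : ∃ c C : ℝ, 0 < c ∧ 0 < C ∧ ∀ q : ℝ, 0 ≤ q → q ≤ 1 → ∀ N : ℕ, 1 ≤ N →
    a4 q N ≤ C * ((N:ℝ) ^ (-(5/4) : ℝ) * Real.exp (-(c * (N * |q - 1/2| ^ (4/3 : ℝ))))) := by
  obtain ⟨c, C, hc, hC, h⟩ := arm_all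
  refine ⟨c, 2 * C, hc, by positivity, ?_⟩
  intro q q0 q1 N hN
  have key : ∀ b : Bool, PQ q (boxE N) (fun F => A4 (-N) N (-N) N (e0 b) ↑F) ≤
      C * ((N:ℝ) ^ (-(5/4) : ℝ) * Real.exp (-(c * (N * |q - 1/2| ^ (4/3 : ℝ))))) := by
    intro b
    have := h q q0 q1 N hN (e0 b)
    unfold A4e at this
    unfold e0 at this ⊢
    rw [ebx_zero] at this
    simpa using this
  unfold a4
  have h1 := key true
  have h2 := key false
  linarith

end Pool.Agent.NH39
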