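import Pool.Agent.NH39.V1

/-! The number of clusters of a finite graph with labelled edges. -/

set_option autoImplicit false

namespace Pool.Agent.NH39.GC

open H974 Finset

variable {V E : Type*} (s t : E → V)

/-- Two vertices are joined by an edge of `F`. -/
def GA (F : Set E) (u v : V) : Prop := ∃ e ∈ F, (s e = u ∧ t e = v) ∨ (s e = v ∧ t e = u)

/-- Two vertices are joined by a path of `F`. -/
def GR (F : Set E) (u v : V) : Prop := Relation.ReflTransGen (GA s t F) u v

variable {s t}

theorem GA.symm {F : Set E} {u v : V} (h : GA s t F u v) : GA s t F v u := by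
  obtain ⟨e, he, h1 | h1⟩ := h
  · exact ⟨e, he, Or.inr h1⟩
  · exact ⟨e, he, Or.inl h1⟩

theorem GA.mono {F G : Set E} (h : F ⊆ G) {u v : V} (h1 : GA s t F u v) : GA s t G u v := by
  obtain ⟨e, he, h2⟩ := h1
  exact ⟨e, h he, h2⟩

theorem GR.refl {F : Set E} (u : V) : GR s t F u u := Relation.ReflTransGen.refl

theorem GR.symm {F : Set E} {u v : V} (h : GR s t F u v) : GR s t F v u := by
  induction h with
  | refl => exact Relation.ReflTransGen.refl
  | tail _ hs ih => exact Relation.ReflTransGen.head hs.symm ih

theorem GR.trans {F : Set E} {u v w : V} (h : GR s t F u v) (h' : GR s t F v w) : GR s t F u w :=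
  Relation.ReflTransGen.trans h h'

theorem GR.mono {F G : Set E} (h : F ⊆ G) {u v : V} (h1 : GR s t F u v) : GR s t G u v :=
  Relation.ReflTransGen.mono (fun _ _ (h2 : GA s t F _ _) => h2.mono h) _ _ h1

theorem GR.of {F : Set E} {u v : V} (h : GA s t F u v) : GR s t F u v :=
  Relation.ReflTransGen.single h

theorem GR.edge {F : Set E} {e : E} (he : e ∈ F) : GR s t F (s e) (t e) :=
  GR.of ⟨e, he, Or.inl ⟨rfl, rfl⟩⟩

theorem GR.insert_cases {F : Set E} {e : E} {u v : V} (h : GR s t (insert e F) u v) :
    GR s t F u v ∨ (GR s t F u (s e) ∧ GR s t F (t e) v) ∨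
      (GR s t F u (t e) ∧ GR s t F (s e) v) := by
  induction h with
  | refl => exact Or.inl (GR.refl _)
  | @tail w w' _ hs ih =>
    obtain ⟨g, hg, hc⟩ := hs
    rcases hg with rfl | hg
    · rcases hc with ⟨rfl, rfl⟩ | ⟨rfl, rfl⟩
      · rcases ih with ih | ⟨ih, -⟩ | ⟨ih, -⟩
        · exact Or.inr (Or.inl ⟨ih, GR.refl _⟩)
        · exact Or.inr (Or.inl ⟨ih, GR.refl _⟩)
        · exact Or.inl ih
      · rcases ih with ih | ⟨ih, -⟩ | ⟨ih, -⟩
        · exact Or.inr (Or.inr ⟨ih, GR.refl _⟩)
        · exact Or.inl ih
        · exact Or.inr (Or.inr ⟨ih, GR.refl _⟩)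
    · have h1 : GR s t F w w' := GR.of ⟨g, hg, hc⟩
      rcases ih with ih | ⟨ih, ih'⟩ | ⟨ih, ih'⟩
      · exact Or.inl (ih.trans h1)
      · exact Or.inr (Or.inl ⟨ih, ih'.trans h1⟩)
      · exact Or.inr (Or.inr ⟨ih, ih'.trans h1⟩)

variable (s t)

/-- The relation of being joined. -/
def gset (F : Set E) : Setoid V where
  r u v := GR s t F u v
  iseqv := ⟨fun _ => GR.refl _, fun h => h.symm, fun h h' => h.trans h'⟩

/-- The number of clusters. -/
noncomputable def gcc (F : Set E) : ℕ := Nat.card (Quotient (gset s t F))

variable {s t}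

/-- Adding an edge. -/
theorem gcc_insert [Finite V] (e : E) (F : Set E) :
    (gcc s t (insert e F) : ℝ) - gcc s t F = -(1 - ind (GR s t F (s e) (t e))) := by
  classical
  have hsub : F ⊆ insert e F := Set.subset_insert _ _
  have hmono : ∀ {u v : V}, (gset s t F).r u v → (gset s t (insert e F)).r u v :=
    fun h => GR.mono hsub h
  by_cases hX : GR s t F (s e) (t e)
  · rw [ind_of hX]
    have h1 : gcc s t (insert e F) = gcc s t F := by
      unfold gcc
      have : gset s t (insert e F) = gset s t F := by
        ext u v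
        constructor
        · intro h
          rcases GR.insert_cases h with h1 | ⟨h1, h2⟩ | ⟨h1, h2⟩
          · exact h1
          · exact h1.trans (hX.trans h2)
          · exact h1.trans (hX.symm.trans h2)
        · intro h; exact hmono h
      rw [this]
    rw [h1]; ring
  · rw [ind_not_of hX]
    obtain ⟨a, ha⟩ : ∃ a : V, a = s e := ⟨_, rfl⟩
    obtain ⟨b, hb⟩ : ∃ b : V, b = t e := ⟨_, rfl⟩
    rw [← ha, ← hb] at hX
    have hbij : Nat.card {q : Quotient (gset s t F) // q ≠ Quotient.mk _ b} =
        gcc s t (insert e F) := by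
      unfold gcc
      apply Nat.card_eq_of_bijective (fun q : {q : Quotient (gset s t F) // q ≠ Quotient.mk _ b} =>
        Quotient.map' (s₁ := gset s t F) (s₂ := gset s t (insert e F)) id
          (fun u v h => hmono h) q.1)
      constructor
      · rintro ⟨q1, h1⟩ ⟨q2, h2⟩ h
        apply Subtype.ext
        simp only at h
        induction q1 using Quotient.inductionOn with
        | h u =>
        induction q2 using Quotient.inductionOn with
        | h v =>
        have h3 : GR s t (insert e F) u v := Quotient.exact h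
        have hu : ¬ GR s t F u b := fun h4 => h1 (Quotient.sound h4)
        have hv : ¬ GR s t F b v := fun h4 => h2 (Quotient.sound h4.symm)
        apply Quotient.sound
        rw [hb] at hu hv
        rcases GR.insert_cases h3 with h4 | ⟨-, h4⟩ | ⟨h4, -⟩
        · exact h4
        · exact absurd h4 hv
        · exact absurd h4 hu
      · intro q
        induction q using Quotient.inductionOn with
        | h u =>
        by_cases hu : GR s t F u b
        · refine ⟨⟨Quotient.mk _ a, fun h => hX (Quotient.exact h)⟩, ?_⟩
          apply Quotient.sound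
          have h1 : GR s t (insert e F) (s e) (t e) := GR.edge (Set.mem_insert _ _)
          rw [← ha, ← hb] at h1
          exact h1.trans (hu.mono hsub).symm
        · exact ⟨⟨Quotient.mk _ u, fun h => hu (Quotient.exact h)⟩, rfl⟩
    have hcard : Nat.card {q : Quotient (gset s t F) // q ≠ Quotient.mk _ b} + 1 = gcc s t F := by
      unfold gcc
      have h1 : Nat.card {q : Quotient (gset s t F) // q ≠ Quotient.mk _ b} =
          ({Quotient.mk (gset s t F) b}ᶜ : Set (Quotient (gset s t F))).ncard := by
        rw [← Nat.card_coe_set_eq]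
        rfl
      rw [h1, Set.ncard_compl, Set.ncard_singleton]
      have : 0 < Nat.card (Quotient (gset s t F)) := by
        have : Nonempty (Quotient (gset s t F)) := ⟨Quotient.mk _ b⟩
        exact Nat.card_pos
      omega
    rw [← hbij]
    have : (gcc s t F : ℝ) =
        (Nat.card {q : Quotient (gset s t F) // q ≠ Quotient.mk _ b} : ℝ) + 1 := by
      exact_mod_cast hcard.symm
    rw [this]; ring

theorem gcc_empty : gcc s t (∅ : Set E) = Nat.card V := by
  unfold gcc
  symm
  apply Nat.card_eq_of_bijective (fun u : V => Quotient.mk (gset s t ∅) u)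
  constructor
  · intro u v h
    have h1 : GR s t (∅ : Set E) u v := Quotient.exact h
    have h2 : ∀ z, GR s t (∅ : Set E) u z → z = u := by
      intro z hz
      induction hz with
      | refl => rfl
      | tail _ hs _ =>
        obtain ⟨e, he, -⟩ := hs
        exact absurd he (Set.notMem_empty _)
    exact (h2 _ h1).symm
  · intro q
    induction q using Quotient.inductionOn with
    | h u => exact ⟨u, rfl⟩

/-- One cluster. -/
theorem gcc_one {F : Set E} [Nonempty V] (h : ∀ u v : V, GR s t F u v) : gcc s t F = 1 := by
  unfold gcc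
  rw [Nat.card_eq_one_iff_unique]
  constructor
  · constructor
    intro q1 q2
    induction q1 using Quotient.inductionOn with
    | h u =>
    induction q2 using Quotient.inductionOn with
    | h v => exact Quotient.sound (h u v)
  · exact ⟨Quotient.mk _ (Classical.arbitrary V)⟩

theorem Ex_one {E : Type*} [DecidableEq E] (S : Finset E) (f : Finset E → ℝ) :
    Ex (fun _ : E => (1:ℝ)) S f = f S := by
  induction S using Finset.induction_on generalizing f with
  | empty => rw [Ex_empty]
  | insert a S ha ih => rw [Ex_insert _ ha, ih, ih]; ring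

variable [DecidableEq E]

/-- The probability that the ends of an edge are joined off the edge. -/
noncomputable def gce (s t : E → V) (S : Finset E) (e : E) (p : ℝ) : ℝ :=
  Pr (fun _ => p) (S.erase e) (fun F => GR s t (↑F : Set E) (s e) (t e))

/-- Derivative of the mean number of clusters. -/
theorem gmean_deriv [Finite V] (S : Finset E) (p : ℝ) :
    HasDerivAt (fun p => Ex (fun _ => p) S (fun F => (gcc s t (↑F : Set E) : ℝ)))
      (-∑ e ∈ S, (1 - gce s t S e p)) p := by
  have h := Ex_hasDerivAt (E := E) (fun q _ => q) (fun _ => 1) p (fun _ => hasDerivAt_id p) S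
    (fun F => (gcc s t (↑F : Set E) : ℝ))
  convert h using 1
  rw [← Finset.sum_neg_distrib]
  apply Finset.sum_congr rfl
  intro e he
  have h2 : Ex (fun _ => p) (S.erase e) (fun F => (gcc s t (↑(insert e F) : Set E) : ℝ) -
      gcc s t (↑F : Set E)) =
      Ex (fun _ => p) (S.erase e) (fun F => -1 * (1 - ind (GR s t (↑F : Set E) (s e) (t e)))) := by
    apply Ex_congr
    intro F hF
    rw [Finset.coe_insert, gcc_insert]
    ring
  rw [one_mul, h2, Ex_mul_left, Ex_sub, Ex_const]
  unfold gce Pr
  ring

end Pool.Agent.NH39.GC
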