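import Pool.Agent.NH39.V2

/-! Comparison of the torus and the plane. -/

set_option autoImplicit false

namespace Pool.Agent.NH39.GC

open H974 H12S H389NS Finset Pool.Agent.NH39

/-- The edges of the discrete torus. -/
abbrev TE (n : ℕ) := ZMod n × ZMod n × Bool

/-- First end. -/
def tsrc {n : ℕ} (e : TE n) : ZMod n × ZMod n := (e.1, e.2.1)

/-- Second end: `(x + 1, y)` if the mark is `true` and `(x, y + 1)` otherwise. -/
def ttgt {n : ℕ} (e : TE n) : ZMod n × ZMod n :=
  if e.2.2 then (e.1 + 1, e.2.1) else (e.1, e.2.1 + 1)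

/-- Reduction of an edge. -/
def rd (n : ℕ) (x y : ℤ) (e : Edg) : TE n := (((x + e.1 : ℤ) : ZMod n), ((y + e.2.1 : ℤ) : ZMod n), e.2.2)

/-- Reduction of a vertex. -/
def rv (n : ℕ) (x y : ℤ) (v : Vtx) : ZMod n × ZMod n :=
  (((x + v.1 : ℤ) : ZMod n), ((y + v.2 : ℤ) : ZMod n))

theorem tsrc_rd (n : ℕ) (x y : ℤ) (e : Edg) : tsrc (rd n x y e) = rv n x y (src e) := by
  obtain ⟨u, v, _ | _⟩ := e <;> rfl

theorem ttgt_rd (n : ℕ) (x y : ℤ) (e : Edg) : ttgt (rd n x y e) = rv n x y (tgt e) := by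
  obtain ⟨u, v, _ | _⟩ := e
  · simp only [ttgt, rd, rv, tgt_false]
    simp [add_assoc]
  · simp only [ttgt, rd, rv, tgt_true]
    simp [add_assoc]

theorem cast_inj {n : ℕ} {a b : ℤ} (h : ((a : ℤ) : ZMod n) = (b : ZMod n)) (h1 : |a - b| < n) :
    a = b := by
  have h2 := (ZMod.intCast_eq_intCast_iff_dvd_sub _ _ _).1 h
  have h3 : (n:ℤ) ∣ (b - a) := h2
  have h4 : b - a = 0 := Int.eq_zero_of_abs_lt_dvd h3 (by rwa [abs_sub_comm])
  omega

theorem rv_inj {n : ℕ} {x y : ℤ} {N : ℕ} (hN : 2 * N + 1 ≤ n) {u v : Vtx}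
    (hu : inR (-(N:ℤ)) N (-N) N u) (hv : inR (-(N:ℤ)) N (-N) N v) (h : rv n x y u = rv n x y v) :
    u = v := by
  unfold inR at hu hv
  unfold rv at h
  rw [Prod.mk.injEq] at h
  have h1 := cast_inj h.1 (by rw [abs_lt]; constructor <;> omega)
  have h2 := cast_inj h.2 (by rw [abs_lt]; constructor <;> omega)
  exact Prod.ext (by omega) (by omega)

theorem rd_inj {n : ℕ} {x y : ℤ} {N : ℕ} (hN : 2 * N + 1 ≤ n) :
    Set.InjOn (rd n x y) (boxE N : Set Edg) := by
  intro e he f hf h
  have he' := mem_RE_pos (Finset.mem_coe.1 he)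
  have hf' := mem_RE_pos (Finset.mem_coe.1 hf)
  unfold rd at h
  rw [Prod.mk.injEq, Prod.mk.injEq] at h
  have h1 := cast_inj h.1 (by rw [abs_lt]; constructor <;> omega)
  have h2 := cast_inj h.2.1 (by rw [abs_lt]; constructor <;> omega)
  exact Prod.ext (by omega) (Prod.ext (by omega) h.2.2)

theorem Pr_pull {E E' : Type*} [DecidableEq E] [DecidableEq E'] {f : E → E'} {q : ℝ}
    {S : Finset E'} {B : Finset E} (hinj : Set.InjOn f B)
    (hS : B.image f ⊆ S) (A : Finset E → Prop) :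
    Pr (fun _ => q) S (fun F => A (B.filter (fun e => f e ∈ F))) = Pr (fun _ => q) B A := by
  have e1 : Pr (fun _ => q) S (fun F => A (B.filter (fun e => f e ∈ F)))
      = Pr (fun _ => q) (B.image f) (fun F => A (B.filter (fun e => f e ∈ F))) := by
    apply Pr_local hS
    intro F _
    have : B.filter (fun e => f e ∈ F) = B.filter (fun e => f e ∈ F ∩ B.image f) := by
      apply Finset.filter_congr
      intro e he
      rw [Finset.mem_inter]
      exact ⟨fun h => ⟨h, Finset.mem_image_of_mem _ he⟩, fun h => h.1⟩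
    rw [this]
  rw [e1]
  have e2 : ∀ (B : Finset E) (hB : Set.InjOn f B) (g : Finset E' → ℝ),
      Ex (fun _ => q) (B.image f) g = Ex (fun _ => q) B (fun F => g (F.image f)) := by
    intro B hB g
    induction B using Finset.induction_on generalizing g with
    | empty => simp [Ex_empty]
    | insert a B ha ih =>
      have hf' : Set.InjOn f B := hB.mono (by simp)
      have hna : f a ∉ B.image f := by
        intro h
        obtain ⟨b, hb, hab⟩ := Finset.mem_image.1 h
        have : b = a := hB (by simp [hb]) (by simp) hab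
        exact ha (this ▸ hb)
      rw [Finset.image_insert, Ex_insert _ hna, Ex_insert _ ha, ih hf', ih hf']
      simp only [Finset.image_insert]
  unfold Pr
  rw [e2 B hinj]
  apply Ex_congr
  intro F hF
  apply ind_congr
  have : B.filter (fun e => f e ∈ F.image f) = F := by
    ext e
    rw [Finset.mem_filter, Finset.mem_image]
    constructor
    · rintro ⟨h1, a, h2, h3⟩
      have := hinj (Finset.mem_coe.2 (hF h2)) (Finset.mem_coe.2 h1) h3
      exact this ▸ h2
    · intro h
      exact ⟨hF h, e, h, rfl⟩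
  show A (B.filter (fun e => f e ∈ F.image f)) ↔ A F
  rw [this]

/-- Paths of the plane give paths of the torus. -/
theorem reach_rd {n : ℕ} {x y : ℤ} {F : Set Edg} {G : Set (TE n)} (h : ∀ e ∈ F, rd n x y e ∈ G)
    {u v : Vtx} (hr : Reach F u v) : GR tsrc ttgt G (rv n x y u) (rv n x y v) := by
  induction hr with
  | refl => exact GR.refl _
  | @tail w w' _ hs ih =>
    obtain ⟨e, he, hc⟩ := hs
    refine ih.trans (GR.of ⟨rd n x y e, h e he, ?_⟩)
    rw [tsrc_rd, ttgt_rd]
    rcases hc with ⟨h3, h4⟩ | ⟨h3, h4⟩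
    · exact Or.inl ⟨by rw [h3], by rw [h4]⟩
    · exact Or.inr ⟨by rw [h3], by rw [h4]⟩

/-- The part of a configuration of the torus seen in a box. -/
noncomputable def pul (n : ℕ) (x y : ℤ) (N : ℕ) (o : Bool) (F : Finset (TE n)) : Finset Edg :=
  ((boxE N).erase (0, 0, o)).filter (fun e => rd n x y e ∈ F)

/-- If the cluster in the box does not touch the boundary, it is the whole cluster. -/
theorem stay_tor {n : ℕ} {x y : ℤ} {N : ℕ} {o : Bool} {F : Finset (TE n)}
    (hF : rd n x y (0, 0, o) ∉ F) {u : Vtx}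
    (hu : inR (-(N:ℤ)) N (-N) N u)
    (hin : ∀ w, Reach (↑(pul n x y N o F) : Set Edg) u w → w ∉ bdR (-(N:ℤ)) N (-N) N)
    {z : ZMod n × ZMod n} (h : GR tsrc ttgt (↑F : Set (TE n)) (rv n x y u) z) :
    ∃ w, inR (-(N:ℤ)) N (-N) N w ∧ Reach (↑(pul n x y N o F) : Set Edg) u w ∧ rv n x y w = z := by
  induction h with
  | refl => exact ⟨u, hu, Reach.refl _ _, rfl⟩
  | @tail z z' _ hs ih =>
    obtain ⟨w, hw1, hw2, hw3⟩ := ih
    have hnb := hin w hw2
    have hnb' : ¬ (w.1 = -(N:ℤ) ∨ w.1 = N ∨ w.2 = -(N:ℤ) ∨ w.2 = N) := fun h => hnb ⟨hw1, h⟩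
    have hw1' := hw1
    unfold inR at hw1'
    -- a lift of the edge
    have key : ∀ e : Edg, e ∈ boxE N → rd n x y e ∈ F → e ∈ (↑(pul n x y N o F) : Set Edg) := by
      intro e he heF
      unfold pul
      rw [Finset.mem_coe, Finset.mem_filter, Finset.mem_erase]
      refine ⟨⟨?_, he⟩, heF⟩
      rintro rfl
      exact hF heF
    obtain ⟨g, hg, hc⟩ := hs
    rw [Finset.mem_coe] at hg
    obtain ⟨gx, gy, gb⟩ := g
    rcases hc with ⟨h3, h4⟩ | ⟨h3, h4⟩
    · -- the edge starts at `w`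
      rw [← hw3] at h3
      simp only [tsrc, rv, Prod.mk.injEq] at h3
      obtain ⟨h5, h6⟩ := h3
      have hrd : rd n x y (w.1, w.2, gb) = (gx, gy, gb) := by
        simp only [rd, Prod.mk.injEq, and_true]
        exact ⟨h5.symm, h6.symm⟩
      have hbox : ((w.1, w.2, gb) : Edg) ∈ boxE N := by
        unfold boxE
        cases gb
        · rw [mem_RE_false]; omega
        · rw [mem_RE_true]; omega
      have hmem := key _ hbox (by rw [hrd]; exact hg)
      refine ⟨tgt (w.1, w.2, gb), (ends_RE hbox).2, ?_, ?_⟩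
      · refine hw2.trans (Adj.reach ⟨_, hmem, Or.inl ⟨?_, rfl⟩⟩)
        simp
      · rw [← ttgt_rd, hrd, h4]
    · -- the edge ends at `w`
      rw [← hw3] at h4
      obtain ⟨e, he⟩ : ∃ e : Edg, e = if gb then (w.1 - 1, w.2, gb) else (w.1, w.2 - 1, gb) :=
        ⟨_, rfl⟩
      have htgt : tgt e = w := by
        rw [he]
        cases gb
        · simp only [Bool.false_eq_true, if_false, tgt_false]
          exact Prod.ext rfl (by simp)
        · simp only [if_true, tgt_true]
          exact Prod.ext (by simp) rfl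
      have hrd : rd n x y e = (gx, gy, gb) := by
        rw [he]
        cases gb
        · simp only [ttgt, rv, Bool.false_eq_true, if_false, Prod.mk.injEq] at h4
          obtain ⟨h5, h6⟩ := h4
          simp only [Bool.false_eq_true, if_false, rd, Prod.mk.injEq, and_true]
          refine ⟨h5.symm, ?_⟩
          have : ((y + (w.2 - 1) : ℤ) : ZMod n) = ((y + w.2 : ℤ) : ZMod n) - 1 := by
            push_cast; ring
          rw [this, ← h6]; ring
        · simp only [ttgt, rv, if_true, Prod.mk.injEq] at h4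
          obtain ⟨h5, h6⟩ := h4
          simp only [if_true, rd, Prod.mk.injEq, and_true]
          refine ⟨?_, h6.symm⟩
          have : ((x + (w.1 - 1) : ℤ) : ZMod n) = ((x + w.1 : ℤ) : ZMod n) - 1 := by
            push_cast; ring
          rw [this, ← h5]; ring
      have hbox : e ∈ boxE N := by
        rw [he]
        unfold boxE
        cases gb
        · simp only [Bool.false_eq_true, if_false]; rw [mem_RE_false]; omega
        · simp only [if_true]; rw [mem_RE_true]; omega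
      have hmem := key _ hbox (by rw [hrd]; exact hg)
      refine ⟨src e, (ends_RE hbox).1, ?_, ?_⟩
      · exact hw2.trans (Adj.reach ⟨_, hmem, Or.inr ⟨rfl, htgt⟩⟩)
      · rw [← tsrc_rd, hrd, h3]

/-- On the torus, joined implies joined in the box or four arms. -/
theorem tor_cases {n : ℕ} {x y : ℤ} {N : ℕ} (hN1 : 1 ≤ N) (hN : 2 * N + 1 ≤ n) {o : Bool}
    {F : Finset (TE n)} (hF : rd n x y (0, 0, o) ∉ F)
    (h : GR tsrc ttgt (↑F : Set (TE n)) (rv n x y (src (0, 0, o))) (rv n x y (tgt (0, 0, o)))) :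
    XE (0, 0, o) (pul n x y N o F) ∨ A4e N (0, 0, o) (↑(pul n x y N o F) : Set Edg) := by
  obtain ⟨e, hee⟩ : ∃ e : Edg, e = (0, 0, o) := ⟨_, rfl⟩
  obtain ⟨P, hP⟩ : ∃ P : Finset Edg, P = pul n x y N o F := ⟨_, rfl⟩
  have hmem : e ∈ RE (-(N:ℤ)) N (-N) N := by rw [hee]; exact mem_box0 o hN1
  obtain ⟨hs, ht⟩ := ends_RE hmem
  have hPsub : (↑P : Set Edg) ⊆ ↑(RE (-(N:ℤ)) N (-N) N) := by
    intro g hg
    rw [hP] at hg
    unfold pul at hg
    rw [Finset.mem_coe, Finset.mem_filter, Finset.mem_erase] at hg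
    exact Finset.mem_coe.2 hg.1.2
  have heP : e ∉ P := by
    rw [hP, hee]
    unfold pul
    simp
  by_cases hX : XE e P
  · left; rw [← hee, ← hP]; exact hX
  right
  rw [← hee] at h ⊢
  rw [← hP]
  have e1 : ((↑P : Set Edg) ∩ ↑(RE (-(N:ℤ)) N (-N) N)) \ {e} = ↑P := by
    ext g
    constructor
    · rintro ⟨⟨h', -⟩, -⟩; exact h'
    · intro h'
      refine ⟨⟨h', hPsub h'⟩, ?_⟩
      intro h''
      rw [Set.mem_singleton_iff] at h''
      rw [h''] at h'
      exact heP (Finset.mem_coe.1 h')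
  have e2 : A4e N e (↑P : Set Edg) ↔ A4 (-(N:ℤ)) N (-N) N e (↑P : Set Edg) := by
    unfold A4e
    rw [hee]
    simp
  rw [e2]
  unfold A4
  rw [e1]
  refine ⟨?_, ?_, hX⟩
  · by_contra hc
    push Not at hc
    apply hX
    obtain ⟨w, hw1, hw2, hw3⟩ := stay_tor (o := o) hF hs
      (by rw [← hP]; exact fun w hw hb => hc w hb hw) h
    rw [← hP] at hw2
    have := rv_inj hN hw1 ht hw3
    rw [this] at hw2
    exact hw2
  · by_contra hc
    push Not at hc
    apply hX
    obtain ⟨w, hw1, hw2, hw3⟩ := stay_tor (o := o) hF ht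
      (by rw [← hP]; exact fun w hw hb => hc w hb hw) h.symm
    rw [← hP] at hw2
    have := rv_inj hN hw1 hs hw3
    rw [this] at hw2
    exact hw2.symm

theorem rd_image {n : ℕ} {x y : ℤ} {N : ℕ} (hN1 : 1 ≤ N) (hN : 2 * N + 1 ≤ n) (o : Bool)
    [NeZero n] :
    ((boxE N).erase (0, 0, o)).image (rd n x y) ⊆
      (Finset.univ : Finset (TE n)).erase (rd n x y (0, 0, o)) := by
  intro g hg
  rw [Finset.mem_image] at hg
  obtain ⟨f, hf, rfl⟩ := hg
  rw [Finset.mem_erase] at hf ⊢
  refine ⟨?_, Finset.mem_univ _⟩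
  intro h
  exact hf.1 (rd_inj hN (Finset.mem_coe.2 hf.2) (Finset.mem_coe.2 (mem_box0 o hN1)) h)

/-- Comparison of the torus and the box. -/
theorem gce_bounds {n : ℕ} [NeZero n] {p : ℝ} (p0 : 0 ≤ p) (p1 : p ≤ 1)
    (x y : ℤ) {N : ℕ} (hN1 : 1 ≤ N) (hN : 2 * N + 1 ≤ n) (o : Bool) :
    GN (0, 0, o) N p ≤ gce tsrc ttgt (Finset.univ : Finset (TE n)) (rd n x y (0, 0, o)) p ∧
    gce tsrc ttgt (Finset.univ : Finset (TE n)) (rd n x y (0, 0, o)) p ≤
      GN (0, 0, o) N p + a4 p N := by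
  have ok : Ok (fun _ : TE n => p) := fun _ => ⟨p0, p1⟩
  obtain ⟨B, hB⟩ : ∃ B : Finset Edg, B = (boxE N).erase (0, 0, o) := ⟨_, rfl⟩
  have hinj : Set.InjOn (rd n x y) (B : Set Edg) := by
    rw [hB]
    exact (rd_inj hN).mono (by simp)
  have hS : B.image (rd n x y) ⊆ (Finset.univ : Finset (TE n)).erase (rd n x y (0, 0, o)) := by
    rw [hB]; exact rd_image hN1 hN o
  have hpull := fun A => Pr_pull (q := p) hinj hS A
  constructor
  · have h1 : GN (0, 0, o) N p = Pr (fun _ => p) B (XE (0, 0, o)) := by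
      unfold GN; rw [hB]
    rw [h1, ← hpull (XE (0, 0, o))]
    unfold gce
    apply Pr_mono ok
    intro F _ h
    rw [tsrc_rd, ttgt_rd]
    refine reach_rd ?_ h
    intro e he
    rw [Finset.mem_coe, Finset.mem_filter] at he
    exact Finset.mem_coe.2 he.2
  · have h1 : gce tsrc ttgt (Finset.univ : Finset (TE n)) (rd n x y (0, 0, o)) p ≤
        Pr (fun _ => p) ((Finset.univ : Finset (TE n)).erase (rd n x y (0, 0, o)))
          (fun F => (fun G => XE (0, 0, o) G ∨ A4e N (0, 0, o) (↑G : Set Edg))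
            (B.filter (fun e => rd n x y e ∈ F))) := by
      unfold gce
      apply Pr_mono ok
      intro F hF h
      rw [tsrc_rd, ttgt_rd] at h
      have hnF : rd n x y (0, 0, o) ∉ F := by
        intro h3
        have := hF h3
        simp at this
      have h2 := tor_cases hN1 hN hnF h
      unfold pul at h2
      rw [← hB] at h2
      exact h2
    have h1' := h1.trans (le_of_eq (hpull (fun G => XE (0, 0, o) G ∨ A4e N (0, 0, o) (↑G : Set Edg))))
    refine h1'.trans ((Pr_or_le (okq p0 p1) _ _ _).trans ?_)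
    have h3 : Pr (fun _ => p) B (XE (0, 0, o)) = GN (0, 0, o) N p := by
      unfold GN; rw [hB]
    have h4 : Pr (fun _ => p) B (fun G => A4e N (0, 0, o) (↑G : Set Edg)) ≤ a4 p N := by
      apply pr_Ax1 p0 p1 hN1
      rw [ebx_zero, hB]
    linarith

end Pool.Agent.NH39.GC
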