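import Pool.Agent.NH39.V3

/-! Finite-size scaling of the mean number of clusters of the torus. -/

set_option autoImplicit false

namespace Pool.Agent.NH39.GC

open H974 H12S H389NS Finset Filter Topology MeasureTheory Pool.Agent.NH39

/-- The edges of the torus are connected. -/
theorem tor_conn (n : ℕ) [NeZero n] (u v : ZMod n × ZMod n) :
    GR tsrc ttgt (Set.univ : Set (TE n)) u v := by
  have h1 : ∀ (a b : ZMod n) (k : ℕ), GR tsrc ttgt (Set.univ : Set (TE n)) (a, b) (a + k, b) := by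
    intro a b k
    induction k with
    | zero => simpa using GR.refl _
    | succ k ih =>
      refine ih.trans (GR.of ⟨(a + k, b, true), Set.mem_univ _, Or.inl ⟨rfl, ?_⟩⟩)
      simp only [ttgt, if_true]
      push_cast
      rw [add_assoc]
  have h2 : ∀ (a b : ZMod n) (k : ℕ), GR tsrc ttgt (Set.univ : Set (TE n)) (a, b) (a, b + k) := by
    intro a b k
    induction k with
    | zero => simpa using GR.refl _
    | succ k ih =>
      refine ih.trans (GR.of ⟨(a, b + k, false), Set.mem_univ _, Or.inl ⟨rfl, ?_⟩⟩)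
      simp only [ttgt, Bool.false_eq_true, if_false]
      push_cast
      rw [add_assoc]
  obtain ⟨a, b⟩ := u
  obtain ⟨c, d⟩ := v
  have h3 := h1 a b (c - a).val
  have h4 := h2 c b (d - b).val
  rw [ZMod.natCast_zmod_val, add_sub_cancel] at h3 h4
  exact h3.trans h4

/-- The mean number of clusters of the torus. -/
noncomputable def tmean (n : ℕ) [NeZero n] (p : ℝ) : ℝ :=
  Ex (fun _ => p) (Finset.univ : Finset (TE n)) (fun F => (gcc tsrc ttgt (↑F : Set (TE n)) : ℝ))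

/-- Sum of the connection probabilities. -/
noncomputable def tsum (n : ℕ) [NeZero n] (p : ℝ) : ℝ :=
  ∑ e : TE n, gce tsrc ttgt (Finset.univ : Finset (TE n)) e p

theorem card_TE (n : ℕ) [NeZero n] : (Fintype.card (TE n) : ℝ) = 2 * (n:ℝ) ^ 2 := by
  simp only [Fintype.card_prod, ZMod.card, Fintype.card_bool]
  push_cast
  ring

theorem tmean_deriv (n : ℕ) [NeZero n] (p : ℝ) :
    HasDerivAt (tmean n) (tsum n p - 2 * (n:ℝ) ^ 2) p := by
  have h := gmean_deriv (s := tsrc) (t := ttgt) (Finset.univ : Finset (TE n)) p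
  refine h.congr_deriv ?_
  rw [Finset.sum_sub_distrib, Finset.sum_const, nsmul_eq_mul, mul_one, Finset.card_univ, card_TE]
  unfold tsum
  ring

theorem tsum_cont (n : ℕ) [NeZero n] : Continuous (tsum n) := by
  unfold tsum gce Pr
  apply continuous_finsetSum
  intro e _
  rw [continuous_iff_continuousAt]
  intro t
  exact (Ex_hasDerivAt (E := TE n) (fun q _ => q) (fun _ => 1) t (fun _ => hasDerivAt_id t)
    _ _).continuousAt

theorem tmean_zero (n : ℕ) [NeZero n] : tmean n 0 = (n:ℝ) ^ 2 := by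
  unfold tmean
  rw [Ex_zero, Finset.coe_empty, gcc_empty]
  simp [Nat.card_eq_fintype_card, Fintype.card_prod, ZMod.card]
  ring

theorem tmean_one (n : ℕ) [NeZero n] : tmean n 1 = 1 := by
  unfold tmean
  rw [Ex_one, Finset.coe_univ, gcc_one (tor_conn n)]
  simp

/-- Comparison of the sums. -/
theorem tsum_bound {n : ℕ} [NeZero n] {p : ℝ} (p0 : 0 ≤ p) (p1 : p ≤ 1) {N : ℕ} (hN1 : 1 ≤ N)
    (hN : 2 * N + 1 ≤ n) : |tsum n p - (n:ℝ) ^ 2 * Gam p| ≤ 2 * (n:ℝ) ^ 2 * a4 p N := by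
  have h1 : ∀ e : TE n, |gce tsrc ttgt (Finset.univ : Finset (TE n)) e p - gam e.2.2 p| ≤
      a4 p N := by
    rintro ⟨a, b, o⟩
    obtain ⟨x, hx⟩ := ZMod.intCast_surjective a
    obtain ⟨y, hy⟩ := ZMod.intCast_surjective b
    have he : ((a, b, o) : TE n) = rd n x y (0, 0, o) := by
      simp [rd, hx, hy]
    rw [he]
    have h2 := gce_bounds p0 p1 x y hN1 hN o
    have h3 := gam_tail p0 p1 o hN1
    have h4 := GN_le_gam p0 p1 o N
    have h5 := LP_a4_nonneg p0 p1 N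
    have h6 : (rd n x y (0, 0, o)).2.2 = o := rfl
    rw [h6, abs_le]
    constructor <;> linarith [h2.1, h2.2]
  have h2 : ∑ e : TE n, gam e.2.2 p = (n:ℝ) ^ 2 * Gam p := by
    rw [Fintype.sum_prod_type]
    simp only [Fintype.sum_prod_type, Fintype.sum_bool, Finset.sum_const, Finset.card_univ,
      ZMod.card, nsmul_eq_mul]
    unfold Gam
    ring
  rw [← h2]
  unfold tsum
  rw [← Finset.sum_sub_distrib]
  refine (Finset.abs_sum_le_sum_abs _ _).trans ?_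
  refine (Finset.sum_le_sum (fun e _ => h1 e)).trans (le_of_eq ?_)
  rw [Finset.sum_const, nsmul_eq_mul, Finset.card_univ, card_TE]

theorem pow_exp_le2 {c : ℝ} (hc : 0 < c) : ∃ K : ℝ, 0 < K ∧ ∀ y : ℝ, 0 ≤ y →
    Real.exp (-(c * y)) ≤ K / (1 + y ^ (3/2 : ℝ)) := by
  refine ⟨2 + 2 / c ^ 2, by positivity, ?_⟩
  intro y hy
  have h1 : y ^ (3/2 : ℝ) ≤ 1 + y ^ 2 := by
    rcases le_total y 1 with h | h
    · have : y ^ (3/2 : ℝ) ≤ 1 := Real.rpow_le_one hy h (by norm_num)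
      nlinarith [sq_nonneg y]
    · have : y ^ (3/2 : ℝ) ≤ y ^ (2 : ℝ) := Real.rpow_le_rpow_of_exponent_le h (by norm_num)
      rw [Real.rpow_two] at this
      linarith
  have h2 : (c * y) ^ 2 / 2 ≤ Real.exp (c * y) := by
    have := Real.pow_div_factorial_le_exp (c * y) (by positivity) 2
    simpa [Nat.factorial] using this
  have h3 : y ^ 2 ≤ 2 / c ^ 2 * Real.exp (c * y) := by
    have : y ^ 2 = 2 / c ^ 2 * ((c * y) ^ 2 / 2) := by field_simp
    rw [this]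
    exact mul_le_mul_of_nonneg_left h2 (by positivity)
  have h4 : 1 ≤ Real.exp (c * y) := Real.one_le_exp (by positivity)
  have h5 : 1 + y ^ (3/2 : ℝ) ≤ (2 + 2 / c ^ 2) * Real.exp (c * y) := by
    have : (2 + 2 / c ^ 2) * Real.exp (c * y) =
      2 * Real.exp (c * y) + 2 / c ^ 2 * Real.exp (c * y) := by ring
    linarith
  have h6 : 0 < 1 + y ^ (3/2 : ℝ) := by positivity
  rw [le_div_iff₀ h6, Real.exp_neg]
  rw [inv_mul_le_iff₀ (Real.exp_pos _)]
  linarith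

/-- Pointwise bound for the derivative. -/
theorem tsum_main : ∃ c C : ℝ, 0 < c ∧ 0 < C ∧ ∀ (n : ℕ) [NeZero n], 3 ≤ n → ∀ p : ℝ, 0 ≤ p →
    p ≤ 1 → |tsum n p - (n:ℝ) ^ 2 * Gam p| ≤
      C * ((n:ℝ) ^ (3/4 : ℝ) * Real.exp (-(c * (n * |p - 1/2| ^ (4/3 : ℝ))))) := by
  obtain ⟨c, C, hc, hC, h⟩ := a4_all
  refine ⟨c / 4, 2 * (C * 4 ^ (5/4 : ℝ)), by positivity, by positivity, ?_⟩
  intro n _ hn p p0 p1
  obtain ⟨N, hN⟩ : ∃ N : ℕ, N = (n - 1) / 2 := ⟨_, rfl⟩
  have hN1 : 1 ≤ N := by omega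
  have h2N : 2 * N + 1 ≤ n := by omega
  have h4N : n ≤ 4 * N := by omega
  have hn0 : (0:ℝ) < n := by exact_mod_cast (by omega : 0 < n)
  have hNr : (n:ℝ) / 4 ≤ N := by
    rw [div_le_iff₀ (by norm_num)]
    have : (n:ℝ) ≤ 4 * N := by exact_mod_cast h4N
    linarith
  refine (tsum_bound p0 p1 hN1 h2N).trans ?_
  have h1 := h p p0 p1 N hN1
  have e1 : (N:ℝ) ^ (-(5/4) : ℝ) ≤ 4 ^ (5/4 : ℝ) * (n:ℝ) ^ (-(5/4) : ℝ) := by
    have h2 : (N:ℝ) ^ (-(5/4) : ℝ) ≤ ((n:ℝ) / 4) ^ (-(5/4) : ℝ) :=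
      Real.rpow_le_rpow_of_nonpos (by positivity) hNr (by norm_num)
    refine h2.trans (le_of_eq ?_)
    rw [Real.div_rpow hn0.le (by norm_num), Real.rpow_neg (by norm_num : (0:ℝ) ≤ 4)]
    field_simp
  have hH0 : 0 ≤ |p - 1/2| ^ (4/3 : ℝ) := by positivity
  have e2 : Real.exp (-(c * (N * |p - 1/2| ^ (4/3 : ℝ)))) ≤
      Real.exp (-(c / 4 * (n * |p - 1/2| ^ (4/3 : ℝ)))) := by
    apply Real.exp_le_exp.2
    have : (n:ℝ) / 4 * |p - 1/2| ^ (4/3 : ℝ) ≤ N * |p - 1/2| ^ (4/3 : ℝ) :=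
      mul_le_mul_of_nonneg_right hNr hH0
    nlinarith
  have e3 : a4 p N ≤ C * ((4 ^ (5/4 : ℝ) * (n:ℝ) ^ (-(5/4) : ℝ)) *
      Real.exp (-(c / 4 * (n * |p - 1/2| ^ (4/3 : ℝ))))) := by
    refine h1.trans (mul_le_mul_of_nonneg_left ?_ hC.le)
    exact mul_le_mul e1 e2 (Real.exp_pos _).le (by positivity)
  have e4 : (n:ℝ) ^ 2 * (n:ℝ) ^ (-(5/4) : ℝ) = (n:ℝ) ^ (3/4 : ℝ) := by
    rw [← Real.rpow_natCast, ← Real.rpow_add hn0]; norm_num
  calc 2 * (n:ℝ) ^ 2 * a4 p N ≤ 2 * (n:ℝ) ^ 2 * (C * ((4 ^ (5/4 : ℝ) * (n:ℝ) ^ (-(5/4) : ℝ)) *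
      Real.exp (-(c / 4 * (n * |p - 1/2| ^ (4/3 : ℝ)))))) :=
        mul_le_mul_of_nonneg_left e3 (by positivity)
    _ = 2 * (C * 4 ^ (5/4 : ℝ)) * (((n:ℝ) ^ 2 * (n:ℝ) ^ (-(5/4) : ℝ)) *
        Real.exp (-(c / 4 * (n * |p - 1/2| ^ (4/3 : ℝ))))) := by ring
    _ = _ := by rw [e4]

/-- Integrated bound. -/
theorem tint_main : ∃ c C : ℝ, 0 < c ∧ 0 < C ∧ ∀ (n : ℕ) [NeZero n], 3 ≤ n → ∀ a b x : ℝ, 0 ≤ a →
    a ≤ b → b ≤ 1 → 0 ≤ x → (∀ t ∈ Set.Icc a b, x ≤ |t - 1/2|) →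
    |∫ t in a..b, (tsum n t - (n:ℝ) ^ 2 * Gam t)| ≤ C * Real.exp (-(c * (n * x ^ (4/3 : ℝ)))) := by
  obtain ⟨c, C, hc, hC, h⟩ := tsum_main
  obtain ⟨K, hK, hKe⟩ := pow_exp_le2 (c := c / 2) (by positivity)
  refine ⟨c / 2, C * K * Real.pi, by positivity, by positivity, ?_⟩
  intro n _ hn a b x ha hab hb hx hxt
  have hn0 : (0:ℝ) < n := by exact_mod_cast (by omega : 0 < n)
  obtain ⟨m, hm⟩ : ∃ m : ℝ, m = (n:ℝ) ^ (3/4 : ℝ) := ⟨_, rfl⟩
  have hm0 : 0 < m := by rw [hm]; positivity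
  obtain ⟨W, hW⟩ : ∃ W : ℝ, W = Real.exp (-(c / 2 * (n * x ^ (4/3 : ℝ)))) := ⟨_, rfl⟩
  have hW0 : 0 < W := by rw [hW]; exact Real.exp_pos _
  rw [← hW]
  -- pointwise bound
  have hpt : ∀ t ∈ Set.Icc a b, |tsum n t - (n:ℝ) ^ 2 * Gam t| ≤
      C * K * W * (m / (1 + (m * (t - 1/2)) ^ 2)) := by
    intro t ht
    have h1 := h n hn t (ha.trans ht.1) (ht.2.trans hb)
    obtain ⟨s, hs⟩ : ∃ s : ℝ, s = |t - 1/2| := ⟨_, rfl⟩
    have hs0 : 0 ≤ s := by rw [hs]; exact abs_nonneg _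
    have hxs : x ≤ s := by rw [hs]; exact hxt t ht
    rw [← hs] at h1
    obtain ⟨y, hy⟩ : ∃ y : ℝ, y = n * s ^ (4/3 : ℝ) := ⟨_, rfl⟩
    have hy0 : 0 ≤ y := by rw [hy]; positivity
    rw [← hy] at h1
    have hy32 : y ^ (3/2 : ℝ) = (m * (t - 1/2)) ^ 2 := by
      have e0 : (m * (t - 1/2)) ^ 2 = (m * s) ^ 2 := by
        rw [hs, mul_pow, mul_pow, sq_abs]
      rw [e0, hy, Real.mul_rpow hn0.le (by positivity), ← Real.rpow_mul hs0, hm, mul_pow,
        ← Real.rpow_natCast ((n:ℝ) ^ (3/4 : ℝ)), ← Real.rpow_mul hn0.le]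
      norm_num
    have h2 := hKe y hy0
    rw [hy32] at h2
    have h3 : Real.exp (-(c / 2 * y)) ≤ W := by
      rw [hW]
      apply Real.exp_le_exp.2
      have : x ^ (4/3 : ℝ) ≤ s ^ (4/3 : ℝ) := Real.rpow_le_rpow hx hxs (by norm_num)
      have : n * x ^ (4/3 : ℝ) ≤ y := by rw [hy]; exact mul_le_mul_of_nonneg_left this hn0.le
      nlinarith
    have h4 : Real.exp (-(c * y)) = Real.exp (-(c / 2 * y)) * Real.exp (-(c / 2 * y)) := by
      rw [← Real.exp_add]; congr 1; ring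
    have h5 : Real.exp (-(c * y)) ≤ W * (K / (1 + (m * (t - 1/2)) ^ 2)) := by
      rw [h4]
      exact mul_le_mul h3 h2 (Real.exp_pos _).le hW0.le
    refine h1.trans ?_
    rw [← hm]
    calc C * (m * Real.exp (-(c * y))) ≤ C * (m * (W * (K / (1 + (m * (t - 1/2)) ^ 2)))) := by
          apply mul_le_mul_of_nonneg_left _ hC.le
          exact mul_le_mul_of_nonneg_left h5 hm0.le
      _ = _ := by ring
  -- the dominating integral
  have hder : ∀ t : ℝ, HasDerivAt (fun t => C * K * W * Real.arctan (m * (t - 1/2)))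
      (C * K * W * (m / (1 + (m * (t - 1/2)) ^ 2))) t := by
    intro t
    have d1 : HasDerivAt (fun t : ℝ => m * (t - 1/2)) m t := by
      have := ((hasDerivAt_id t).sub_const (1/2)).const_mul m
      rw [mul_one] at this
      exact this
    have d2 := (d1.arctan).const_mul (C * K * W)
    refine d2.congr_deriv ?_
    ring
  have hcont : Continuous (fun t : ℝ => C * K * W * (m / (1 + (m * (t - 1/2)) ^ 2))) := by
    apply Continuous.mul continuous_const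
    apply Continuous.div continuous_const (by fun_prop)
    intro t
    positivity
  have hint := intervalIntegral.integral_eq_sub_of_hasDerivAt (a := a) (b := b)
    (fun t _ => hder t) (hcont.intervalIntegrable _ _)
  have h1 : |∫ t in a..b, (tsum n t - (n:ℝ) ^ 2 * Gam t)| ≤
      ∫ t in a..b, C * K * W * (m / (1 + (m * (t - 1/2)) ^ 2)) := by
    rw [← Real.norm_eq_abs]
    apply intervalIntegral.norm_integral_le_of_norm_le hab
    · refine Eventually.of_forall (fun t ht => ?_)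
      rw [Real.norm_eq_abs]
      exact hpt t ⟨ht.1.le, ht.2⟩
    · exact hcont.intervalIntegrable _ _
  refine h1.trans ?_
  rw [hint]
  have p1 := Real.arctan_lt_pi_div_two (m * (b - 1/2))
  have p2 := Real.neg_pi_div_two_lt_arctan (m * (a - 1/2))
  have hCKW : 0 ≤ C * K * W := by positivity
  nlinarith

/-- The difference with the density. -/
theorem tdiff {n : ℕ} [NeZero n] (a b : ℝ) : (tmean n b - (n:ℝ) ^ 2 * kap b) -
    (tmean n a - (n:ℝ) ^ 2 * kap a) = ∫ t in a..b, (tsum n t - (n:ℝ) ^ 2 * Gam t) := by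
  have h1 := intervalIntegral.integral_eq_sub_of_hasDerivAt (a := a) (b := b)
    (fun t _ => tmean_deriv n t) (((tsum_cont n).sub continuous_const).intervalIntegrable _ _)
  have h2 : kap b - kap a = -∫ t in a..b, (2 - Gam t) := by
    unfold kap
    rw [← intervalIntegral.integral_add_adjacent_intervals (Gam_int 0 a) (Gam_int a b)]
    ring
  have h3 : ∫ t in a..b, (tsum n t - (n:ℝ) ^ 2 * Gam t) =
      (∫ t in a..b, (tsum n t - 2 * (n:ℝ) ^ 2)) + (n:ℝ) ^ 2 * ∫ t in a..b, (2 - Gam t) := by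
    rw [← intervalIntegral.integral_const_mul, ← intervalIntegral.integral_add]
    · congr 1
      funext t
      ring
    · exact ((tsum_cont n).sub continuous_const).intervalIntegrable _ _
    · exact (Gam_int a b).const_mul _
  rw [h3, h1]
  linear_combination (-(n:ℝ) ^ 2) * h2

theorem kap_one : kap 1 = 0 := by
  obtain ⟨c, C, hc, hC, h⟩ := tint_main
  have h1 : ∀ n : ℕ, 3 ≤ n → |kap 1| ≤ (1 + C) / (n:ℝ) ^ 2 := by
    intro n hn
    have : NeZero n := ⟨by omega⟩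
    have hn0 : (0:ℝ) < n := by exact_mod_cast (by omega : 0 < n)
    have h2 := h n hn 0 1 0 le_rfl (by norm_num) le_rfl le_rfl (fun t _ => abs_nonneg _)
    rw [← tdiff, tmean_one, tmean_zero] at h2
    have h3 : kap 0 = 1 := by unfold kap; simp
    rw [h3, Real.zero_rpow (by norm_num)] at h2
    simp only [mul_zero, neg_zero, Real.exp_zero, mul_one, sub_self, sub_zero] at h2
    rw [le_div_iff₀ (by positivity)]
    have h4 : |kap 1| * (n:ℝ) ^ 2 = |(n:ℝ) ^ 2 * kap 1| := by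
      rw [abs_mul, abs_of_pos (show (0:ℝ) < (n:ℝ) ^ 2 by positivity), mul_comm]
    rw [h4]
    have h5 : |(n:ℝ) ^ 2 * kap 1| ≤ |1 - (n:ℝ) ^ 2 * kap 1| + 1 := by
      have := abs_sub_abs_le_abs_sub ((n:ℝ) ^ 2 * kap 1) 1
      rw [abs_one, abs_sub_comm] at this
      linarith
    linarith
  have h2 : Tendsto (fun n : ℕ => (1 + C) / (n:ℝ) ^ 2) atTop (𝓝 0) := by
    apply Tendsto.div_atTop tendsto_const_nhds
    exact (tendsto_pow_atTop (by norm_num)).comp tendsto_natCast_atTop_atTop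
  have h3 : |kap 1| ≤ 0 := by
    apply ge_of_tendsto h2
    filter_upwards [eventually_ge_atTop 3] with n hn
    exact h1 n hn
  exact abs_eq_zero.1 (le_antisymm h3 (abs_nonneg _))

/-- Finite-size scaling. -/
theorem tor_main : ∃ c C : ℝ, 0 < c ∧ 0 < C ∧ ∀ (n : ℕ) [NeZero n], 3 ≤ n → ∀ p : ℝ, 0 ≤ p →
    p ≤ 1 → |tmean n p - (n:ℝ) ^ 2 * kap p - (if 1/2 < p then 1 else 0)| ≤
      C * Real.exp (-(c * (n * |p - 1/2| ^ (4/3 : ℝ)))) := by
  obtain ⟨c, C, hc, hC, h⟩ := tint_main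
  refine ⟨c, C, hc, hC, ?_⟩
  intro n _ hn p p0 p1
  by_cases hp : 1/2 < p
  · rw [if_pos hp]
    have h2 := h n hn p 1 |p - 1/2| p0 p1 le_rfl (abs_nonneg _) (by
      intro t ht
      rw [abs_of_pos (by linarith), abs_of_nonneg (by linarith [ht.1])]
      linarith [ht.1])
    rw [← tdiff, tmean_one, kap_one] at h2
    have e1 : (1 - (n:ℝ) ^ 2 * 0) - (tmean n p - (n:ℝ) ^ 2 * kap p) =
      -(tmean n p - (n:ℝ) ^ 2 * kap p - 1) := by ring
    rw [e1, abs_neg] at h2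
    exact h2
  · rw [if_neg hp]
    push Not at hp
    have h2 := h n hn 0 p |p - 1/2| le_rfl p0 p1 (abs_nonneg _) (by
      intro t ht
      rw [abs_of_nonpos (by linarith), abs_of_nonpos (by linarith [ht.2])]
      linarith [ht.2])
    rw [← tdiff, tmean_zero] at h2
    have h3 : kap 0 = 1 := by unfold kap; simp
    rw [h3] at h2
    have e1 : (tmean n p - (n:ℝ) ^ 2 * kap p) - ((n:ℝ) ^ 2 - (n:ℝ) ^ 2 * 1) =
      tmean n p - (n:ℝ) ^ 2 * kap p - 0 := by ring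
    rw [e1] at h2
    exact h2

end Pool.Agent.NH39.GC
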