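import Pool.Agent.NH39.V4

/-! The density is continuously differentiable, and the first derivatives. -/

set_option autoImplicit false

namespace Pool.Agent.NH39.GC

open H974 H12S H389NS Finset Filter Topology MeasureTheory Pool.Agent.NH39

/-- Uniform approximation of `gam`. -/
theorem gam_unif : ∃ C : ℝ, 0 < C ∧ ∀ (o : Bool) (p : ℝ), 0 ≤ p → p ≤ 1 → ∀ N : ℕ, 1 ≤ N →
    |gam o p - GN (0, 0, o) N p| ≤ C * (N:ℝ) ^ (-(5/4) : ℝ) := by
  obtain ⟨c, C, hc, hC, h⟩ := a4_all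
  refine ⟨C, hC, ?_⟩
  intro o p p0 p1 N hN
  have h1 := GN_le_gam p0 p1 o N
  have h2 := gam_tail p0 p1 o hN
  have h3 := h p p0 p1 N hN
  rw [abs_of_nonneg (by linarith)]
  have h4 : Real.exp (-(c * (N * |p - 1/2| ^ (4/3 : ℝ)))) ≤ 1 := by
    apply Real.exp_le_one_iff.2
    have : 0 ≤ c * (N * |p - 1/2| ^ (4/3 : ℝ)) := by positivity
    linarith
  have h5 : (0:ℝ) ≤ (N:ℝ) ^ (-(5/4) : ℝ) := by positivity
  have h6 : C * ((N:ℝ) ^ (-(5/4) : ℝ) * Real.exp (-(c * (N * |p - 1/2| ^ (4/3 : ℝ))))) ≤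
      C * ((N:ℝ) ^ (-(5/4) : ℝ) * 1) := by
    apply mul_le_mul_of_nonneg_left _ hC.le
    exact mul_le_mul_of_nonneg_left h4 h5
  linarith

theorem gam_contAt (o : Bool) {p : ℝ} (hp0 : 0 < p) (hp1 : p < 1) : ContinuousAt (gam o) p := by
  obtain ⟨C, hC, h⟩ := gam_unif
  rw [Metric.continuousAt_iff]
  intro ε hε
  have hlim : Tendsto (fun n : ℕ => C * (n:ℝ) ^ (-(5/4) : ℝ)) atTop (𝓝 (C * 0)) := by
    apply Tendsto.const_mul
    exact (tendsto_rpow_neg_atTop (by norm_num)).comp tendsto_natCast_atTop_atTop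
  rw [mul_zero] at hlim
  obtain ⟨N, hN⟩ := ((hlim.eventually (gt_mem_nhds (by positivity : 0 < ε / 4))).and
    (eventually_ge_atTop 1)).exists
  obtain ⟨δ, hδ, hδ'⟩ := Metric.continuousAt_iff.1 ((GN_cont (0, 0, o) N).continuousAt (x := p))
    (ε / 4) (by positivity)
  refine ⟨min δ (min p (1 - p)), by
    apply lt_min hδ (lt_min hp0 (by linarith)), ?_⟩
  intro q hq
  rw [Real.dist_eq] at hq
  have q1 : |q - p| < δ := lt_of_lt_of_le hq (min_le_left _ _)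
  have q2 : |q - p| < p := lt_of_lt_of_le hq ((min_le_right _ _).trans (min_le_left _ _))
  have q3 : |q - p| < 1 - p := lt_of_lt_of_le hq ((min_le_right _ _).trans (min_le_right _ _))
  rw [abs_lt] at q2 q3
  have a1 := h o p hp0.le hp1.le N hN.2
  have a2 := h o q (by linarith) (by linarith) N hN.2
  have a3 := hδ' (x := q) (by rw [Real.dist_eq]; exact q1)
  rw [Real.dist_eq] at a3 ⊢
  rw [abs_le] at a1 a2
  rw [abs_lt] at a3 ⊢
  have := hN.1
  constructor <;> linarith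

theorem Gam_contAt {p : ℝ} (hp0 : 0 < p) (hp1 : p < 1) : ContinuousAt Gam p :=
  (gam_contAt true hp0 hp1).add (gam_contAt false hp0 hp1)

theorem kap_deriv_all {p : ℝ} (hp0 : 0 < p) (hp1 : p < 1) : HasDerivAt kap (Gam p - 2) p :=
  kap_deriv (Gam_contAt hp0 hp1)

/-- Finite-size scaling of the derivative. -/
theorem tor_deriv : ∃ c C : ℝ, 0 < c ∧ 0 < C ∧ ∀ (n : ℕ) [NeZero n], 3 ≤ n → ∀ p : ℝ, 0 < p →
    p < 1 → |deriv (tmean n) p - (n:ℝ) ^ 2 * deriv kap p| ≤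
      C * ((n:ℝ) ^ (3/4 : ℝ) * Real.exp (-(c * (n * |p - 1/2| ^ (4/3 : ℝ))))) := by
  obtain ⟨c, C, hc, hC, h⟩ := tsum_main
  refine ⟨c, C, hc, hC, ?_⟩
  intro n _ hn p p0 p1
  rw [(tmean_deriv n p).deriv, (kap_deriv_all p0 p1).deriv]
  have := h n hn p p0.le p1.le
  have e1 : tsum n p - 2 * (n:ℝ) ^ 2 - (n:ℝ) ^ 2 * (Gam p - 2) = tsum n p - (n:ℝ) ^ 2 * Gam p := by
    ring
  rw [e1]
  exact this

end Pool.Agent.NH39.GC
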